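import Pool.Agent.W564.SC.LibE

/-!
# Isolated returns

From a return at the time `m` to the distance `Λ^(-a)`, `Λ = K^m`, one gets a return at a time `q ≤ m`
without intermediate returns in a ball of radius `ρ ≥ Λ^(-a)`, and as close as one likes, compared with
`ρ`.
-/

set_option autoImplicit false

open Filter Set Metric

namespace Pool.Agent.U882.RS

open Pool.Agent.H718R2.G Pool.Agent.W564.SC

/-- the exponents of the scales -/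
def sc (k b g : ℕ) : ℕ → ℕ
  | 0 => g
  | j + 1 => k * sc k b g j + b + g

theorem sc_step {k b g : ℕ} (hk : 1 ≤ k) (j : ℕ) : sc k b g j + g ≤ sc k b g (j + 1) := by
  rw [sc]
  have : 1 * sc k b g j ≤ k * sc k b g j := Nat.mul_le_mul_right _ hk
  omega

theorem sc_mono {k b g : ℕ} (hk : 1 ≤ k) : Monotone (sc k b g) :=
  monotone_nat_of_le_succ fun j => by have := sc_step (b := b) (g := g) hk j; omega

theorem chain (hCHN : S_CHN) (D : ℕ) {k : ℕ} (hk : 1 ≤ k) (b : ℕ) : ∃ a : ℕ, ∀ (M : ℕ) (Λ : ℝ)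
    (P : ℤ → Prop) (v : ℤ → V D) (A : ℤ → V D →L[ℝ] V D), AC D M Λ P v A → 16 ≤ Λ →
    2 * (D + 1) ≤ Λ → (M : ℝ) ≤ Λ → ∀ m : ℕ, 1 ≤ m → m ≤ M → P m → ‖v m‖ ≤ Λ⁻¹ ^ a →
    ∃ (q : ℕ) (ρ : ℝ), 1 ≤ q ∧ q ≤ m ∧ P q ∧ Λ⁻¹ ^ a ≤ ρ ∧ ρ ≤ Λ⁻¹ ∧
      ‖v q‖ ≤ Λ⁻¹ ^ b * ρ ^ k ∧ ∀ i : ℕ, 0 < i → i < q → P i → ρ < ‖v i‖ := by
  classical
  obtain ⟨g, hg⟩ : ∃ g, g = 40 * (D + 1) + 5 := ⟨_, rfl⟩
  refine ⟨sc k b g (2 * (D + 2)), ?_⟩
  intro M Λ P v A hAC hΛ hΛD hMΛ m hm hmM hPm hvm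
  have hΛ0 : 0 < Λ := by linarith
  have hx0 : 0 < Λ⁻¹ := by positivity
  have hx1 : Λ⁻¹ ≤ 1 := inv_le_one_of_one_le₀ (by linarith)
  obtain ⟨δ, hδ⟩ : ∃ δ : ℕ → ℝ, δ = fun j => Λ⁻¹ ^ sc k b g j := ⟨_, rfl⟩
  have hδ0 : ∀ j, 0 < δ j := fun j => by rw [hδ]; positivity
  have hδanti : ∀ i j, i ≤ j → δ j ≤ δ i := fun i j hij => by
    rw [hδ]
    exact pow_le_pow_of_le_one hx0.le hx1 (sc_mono hk hij)
  have hδg : ∀ j, δ (j + 1) ≤ Λ⁻¹ ^ g * δ j := fun j => by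
    rw [hδ]
    simp only
    rw [← pow_add]
    exact pow_le_pow_of_le_one hx0.le hx1 (by have := sc_step (b := b) (g := g) hk j; omega)
  have hδk : ∀ j, δ (j + 1) ≤ Λ⁻¹ ^ b * δ j ^ k := fun j => by
    rw [hδ]
    simp only
    rw [← pow_mul, ← pow_add]
    refine pow_le_pow_of_le_one hx0.le hx1 ?_
    rw [sc, mul_comm k]
    omega
  have hδtop : ∀ j, δ j ≤ Λ⁻¹ ^ g := fun j => by
    have := hδanti 0 j (Nat.zero_le _)
    refine this.trans (le_of_eq ?_)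
    rw [hδ]
    simp only
    rw [sc]
  have hex : ∀ j, j ≤ 2 * (D + 2) → ∃ n : ℕ, 1 ≤ n ∧ P n ∧ ‖v n‖ ≤ δ j := fun j hj =>
    ⟨m, hm, hPm, hvm.trans (by have := hδanti j (2 * (D + 2)) hj; rwa [hδ] at this ⊢)⟩
  obtain ⟨q, hq⟩ : ∃ q : ℕ → ℕ, ∀ j, j ≤ 2 * (D + 2) → (1 ≤ q j ∧ P (q j) ∧ ‖v (q j)‖ ≤ δ j) ∧
      (∀ i : ℕ, 0 < i → i < q j → P i → δ j < ‖v i‖) ∧ q j ≤ m := by
    refine ⟨fun j => if h : j ≤ 2 * (D + 2) then Nat.find (hex j h) else 0, fun j hj => ?_⟩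
    simp only [hj, dite_true]
    refine ⟨Nat.find_spec (hex j hj), fun i hi hiq hPi => ?_, ?_⟩
    · have := Nat.find_min (hex j hj) hiq
      by_contra hcon
      exact this ⟨hi, hPi, not_lt.1 hcon⟩
    · exact Nat.find_min' (hex j hj) ⟨hm, hPm, hvm.trans (by
        have := hδanti j (2 * (D + 2)) hj; rwa [hδ] at this ⊢)⟩
  have hqmono : ∀ j, j < 2 * (D + 2) → q j ≤ q (j + 1) := by
    intro j hj
    by_contra hcon
    obtain ⟨⟨h1, h2, h3⟩, -, -⟩ := hq (j + 1) (by omega)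
    obtain ⟨-, h4, -⟩ := hq j (by omega)
    have h5 := h4 (q (j + 1)) h1 (not_le.1 hcon) h2
    have := hδanti j (j + 1) (by omega)
    linarith
  by_cases hcase : ∃ j, j < 2 * (D + 2) ∧ q j = q (j + 1)
  · obtain ⟨j, hj, hjq⟩ := hcase
    obtain ⟨⟨h1, h2, h3⟩, h4, h5⟩ := hq j (by omega)
    obtain ⟨⟨-, -, h6⟩, -, -⟩ := hq (j + 1) (by omega)
    refine ⟨q j, δ j, h1, h5, h2, ?_, ?_, ?_, h4⟩
    · have := hδanti j (2 * (D + 2)) (by omega)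
      rwa [hδ] at this ⊢
    · refine (hδtop j).trans ?_
      calc Λ⁻¹ ^ g ≤ Λ⁻¹ ^ 1 := pow_le_pow_of_le_one hx0.le hx1 (by omega)
        _ = Λ⁻¹ := pow_one _
    · rw [hjq]
      exact h6.trans (hδk j)
  exfalso
  push Not at hcase
  have hqs : ∀ j, j < 2 * (D + 2) → q j < q (j + 1) := fun j hj =>
    lt_of_le_of_ne (hqmono j hj) (hcase j hj)
  have hqs2 : ∀ i j, i < j → j ≤ 2 * (D + 2) → q i < q j := by
    intro i j hij
    induction j with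
    | zero => omega
    | succ j ih =>
      intro hj
      rcases Nat.lt_succ_iff_lt_or_eq.1 hij with h | h
      · exact (ih h (by omega)).trans (hqs j (by omega))
      · rw [h]; exact hqs j (by omega)
  have hbig : ∀ j, j < 2 * (D + 2) → δ (j + 1) < ‖v (q j)‖ := by
    intro j hj
    obtain ⟨⟨h1, h2, -⟩, -, -⟩ := hq j (by omega)
    obtain ⟨-, h4, -⟩ := hq (j + 1) (by omega)
    exact h4 (q j) h1 (hqs j hj) h2
  refine hCHN D M Λ P v A hAC hΛ (by exact_mod_cast hΛD) hMΛ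
    (fun i => ((q (2 * (D + 1 - (i : ℕ))) : ℕ) : ℤ)) ?_ ?_ ?_ ?_ ?_
  · intro i
    obtain ⟨⟨h1, h2, -⟩, -, h5⟩ := hq (2 * (D + 1 - (i : ℕ))) (by omega)
    exact ⟨by exact_mod_cast h1, by exact_mod_cast h5.trans hmM, h2⟩
  · intro i j hij
    have hij' : (i : ℕ) < (j : ℕ) := hij
    have hj := j.2
    have := hqs2 (2 * (D + 1 - (j : ℕ))) (2 * (D + 1 - (i : ℕ))) (by omega) (by omega)
    exact_mod_cast this
  · have h1 := hbig (2 * (D + 1 - ((0 : Fin (D + 2)) : ℕ))) (by simp)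
    exact (hδ0 _).trans h1
  · intro i j hij
    have hij' : (i : ℕ) < (j : ℕ) := hij
    have hj := j.2
    rw [← hg]
    obtain ⟨⟨-, -, h3⟩, -, -⟩ := hq (2 * (D + 1 - (i : ℕ))) (by omega)
    have h4 := hbig (2 * (D + 1 - (j : ℕ))) (by omega)
    have h5 := hδanti (2 * (D + 1 - (j : ℕ)) + 1 + 1) (2 * (D + 1 - (i : ℕ))) (by omega)
    have h6 := hδg (2 * (D + 1 - (j : ℕ)) + 1)
    calc _ ≤ Λ⁻¹ ^ g * δ (2 * (D + 1 - (j : ℕ)) + 1) := (h3.trans h5).trans h6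
      _ ≤ _ := mul_le_mul_of_nonneg_left h4.le (by positivity)
  · intro i
    rw [← hg]
    obtain ⟨⟨-, -, h3⟩, -, -⟩ := hq (2 * (D + 1 - (i : ℕ))) (by omega)
    exact h3.trans (hδtop _)

theorem t_chn : S_CHN := Pool.Agent.W131.SC.chn Pool.Agent.W357.SC.lb Pool.Agent.W19.SC.ind

end Pool.Agent.U882.RS
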