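import Pool.Agent.U882.RS.Esc

/-!
# Escape from a small ball, with markers

The points of the orbit of `F^m` near `y` are multiplied by the maps `F^i`, `0 ≤ i < m`.
-/

set_option autoImplicit false

open Set

namespace Pool.Agent.U882.RS

section

variable {N E : Type*} [MetricSpace N] [NormedAddCommGroup E]

/-- If an orbit in `K` which starts close to `y` leaves the ball of radius `r₀` then there are
`M (J + 1)` separated points in `K`. -/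
theorem stay2 (Src K : Set N) (χ : N → E) (y : N) (g : N → N) (φ : ℕ → N → N)
    {L Λ e r₀ R₀ ε : ℝ} {s M J : ℕ} (hM : 1 ≤ M) (hMJ : s < M * (J + 1))
    (hL : 0 < L) (hΛ : 1 ≤ Λ) (hR₀ : 0 < R₀) (heR : e ≤ R₀)
    (hr₀ : R₀ * (4 * Λ) ^ (J + 1) ≤ r₀)
    (hlip : ∀ b ∈ Src, ∀ b' ∈ Src, ‖χ b - χ y‖ ≤ r₀ → ‖χ b' - χ y‖ ≤ r₀ →
      ‖χ b - χ b'‖ ≤ L * dist b b')
    (hg : ∀ b ∈ Src, ‖χ b - χ y‖ ≤ r₀ → g b ∈ Src ∧ ‖χ (g b) - χ y‖ ≤ Λ * (‖χ b - χ y‖ + e))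
    (hK : MapsTo g K K) (hφK : ∀ i < M, MapsTo (φ i) K K)
    (hφ1 : ∀ i < M, ∀ b ∈ Src, ∀ b' ∈ Src, ‖χ b - χ y‖ ≤ r₀ → ‖χ b' - χ y‖ ≤ r₀ →
      R₀ / L ≤ dist b b' → 2 * ε ≤ dist (φ i b) (φ i b'))
    (hφ2 : ∀ i < M, ∀ j < M, i ≠ j → ∀ b ∈ Src, ∀ b' ∈ Src, ‖χ b - χ y‖ ≤ r₀ →
      ‖χ b' - χ y‖ ≤ r₀ → 2 * ε ≤ dist (φ i b) (φ j b'))
    (hcov : CovBy K s ε) (b : N) (hb : b ∈ K) (hbS : b ∈ Src)
    (hb0 : ‖χ b - χ y‖ ≤ R₀) (t : ℕ) : g^[t] b ∈ Src ∧ ‖χ (g^[t] b) - χ y‖ ≤ r₀ := by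
  classical
  by_contra hcon
  obtain ⟨R, hR⟩ : ∃ R : ℕ → ℝ, R = fun l => R₀ * (4 * Λ) ^ l := ⟨_, rfl⟩
  have h4 : 1 ≤ 4 * Λ := by linarith
  have hRpos : ∀ l, 0 < R l := fun l => by rw [hR]; positivity
  have hRmono : ∀ i j, i ≤ j → R i ≤ R j := fun i j hij => by
    rw [hR]
    exact mul_le_mul_of_nonneg_left (pow_le_pow_right₀ h4 hij) hR₀.le
  have hR0 : R 0 = R₀ := by rw [hR]; simp
  have hRs : ∀ l, R (l + 1) = 4 * Λ * R l := fun l => by rw [hR]; simp only; ring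
  have hRr : ∀ l ≤ J + 1, R l ≤ r₀ := fun l hl => (hRmono l (J + 1) hl).trans (by rw [hR]; exact hr₀)
  -- the first exit times
  have hfirst : ∀ l, l ≤ J → ∃ t, g^[t] b ∈ Src ∧ R l < ‖χ (g^[t] b) - χ y‖ ∧
      ‖χ (g^[t] b) - χ y‖ ≤ 2 * Λ * R l := by
    intro l hl
    have hex' : ∃ t, ¬ (g^[t] b ∈ Src ∧ ‖χ (g^[t] b) - χ y‖ ≤ R l) :=
      ⟨t, fun h => hcon ⟨h.1, h.2.trans (hRr l (by omega))⟩⟩
    have h1 := Nat.find_spec hex'
    have h2 : ∀ t' < Nat.find hex', g^[t'] b ∈ Src ∧ ‖χ (g^[t'] b) - χ y‖ ≤ R l := fun t' ht' =>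
      not_not.1 (Nat.find_min hex' ht')
    obtain ⟨T, hT⟩ : ∃ T, T = Nat.find hex' := ⟨_, rfl⟩
    rw [← hT] at h1 h2
    cases T with
    | zero =>
      exfalso
      apply h1
      exact ⟨hbS, hb0.trans (by rw [← hR0]; exact hRmono 0 l (Nat.zero_le _))⟩
    | succ T =>
      obtain ⟨h3, h5⟩ := h2 T (Nat.lt_succ_self _)
      obtain ⟨h6, h7⟩ := hg _ h3 (h5.trans (hRr l (by omega)))
      rw [← Function.iterate_succ_apply' g T b] at h6 h7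
      refine ⟨T + 1, h6, ?_, ?_⟩
      · by_contra h8
        exact h1 ⟨h6, not_lt.1 h8⟩
      · refine h7.trans ?_
        have h8 : R₀ ≤ R l := by rw [← hR0]; exact hRmono 0 l (Nat.zero_le _)
        have h9 : Λ * (‖χ (g^[T] b) - χ y‖ + e) ≤ Λ * (R l + R l) :=
          mul_le_mul_of_nonneg_left (by linarith) (by linarith)
        linarith
  choose! τ hτ using hfirst
  have hiter : ∀ t, g^[t] b ∈ K := by
    intro t
    induction t with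
    | zero => exact hb
    | succ t ih => rw [Function.iterate_succ_apply']; exact hK ih
  have hr2 : ∀ l ≤ J, 2 * Λ * R l ≤ r₀ := by
    intro l hl
    have h1 := hRr (l + 1) (by omega)
    rw [hRs] at h1
    have : 0 < Λ * R l := mul_pos (by linarith) (hRpos l)
    linarith
  obtain ⟨i, j, hij, hj, hd⟩ := hcov.exists_close (fun l => φ (l % M) (g^[τ (l / M)] b))
    (fun l _ => hφK _ (Nat.mod_lt _ (by omega)) (hiter _))
  have hMJ' : s < (J + 1) * M := by rw [mul_comm]; exact hMJ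
  have hiJ : i / M ≤ J := Nat.lt_succ_iff.1 ((Nat.div_lt_iff_lt_mul (by omega)).2
    (lt_trans (lt_of_lt_of_le hij hj) hMJ'))
  have hjJ : j / M ≤ J := Nat.lt_succ_iff.1 ((Nat.div_lt_iff_lt_mul (by omega)).2
    (lt_of_le_of_lt hj hMJ'))
  obtain ⟨a1, a2, a3⟩ := hτ _ hiJ
  obtain ⟨b1, b2, b3⟩ := hτ _ hjJ
  have hiM : i % M < M := Nat.mod_lt _ (by omega)
  have hjM : j % M < M := Nat.mod_lt _ (by omega)
  by_cases hmod : i % M = j % M
  · have hdiv : i / M < j / M := by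
      by_contra hcon2
      have h1 := Nat.div_add_mod i M
      have h2 := Nat.div_add_mod j M
      have h3 : M * (j / M) ≤ M * (i / M) := Nat.mul_le_mul_left M (not_lt.1 hcon2)
      omega
    have h1 := hlip _ b1 _ a1 (b3.trans (hr2 _ hjJ)) (a3.trans (hr2 _ hiJ))
    have h2 : ‖χ (g^[τ (j / M)] b) - χ y‖ ≤ ‖χ (g^[τ (i / M)] b) - χ y‖ +
        ‖χ (g^[τ (j / M)] b) - χ (g^[τ (i / M)] b)‖ := by
      have : χ (g^[τ (j / M)] b) - χ y = (χ (g^[τ (i / M)] b) - χ y) +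
        (χ (g^[τ (j / M)] b) - χ (g^[τ (i / M)] b)) := by abel
      rw [this]
      exact norm_add_le _ _
    have h3 := hRmono (i / M + 1) (j / M) hdiv
    rw [hRs] at h3
    have h5 : R₀ ≤ R (i / M) := by rw [← hR0]; exact hRmono 0 _ (Nat.zero_le _)
    have h6 : R (i / M) ≤ Λ * R (i / M) := by nlinarith [hRpos (i / M)]
    have h7 : R₀ / L ≤ dist (g^[τ (i / M)] b) (g^[τ (j / M)] b) := by
      rw [div_le_iff₀ hL, dist_comm, mul_comm]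
      linarith
    have h8 := hφ1 _ hiM _ a1 _ b1 (a3.trans (hr2 _ hiJ)) (b3.trans (hr2 _ hjJ)) h7
    rw [← hmod] at hd
    linarith
  · have h8 := hφ2 _ hiM _ hjM hmod _ a1 _ b1 (a3.trans (hr2 _ hiJ)) (b3.trans (hr2 _ hjJ))
    linarith

end

end Pool.Agent.U882.RS
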