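import Pool.Agent.U882.RS.Loc2
import Pool.Agent.U882.RS.Esc2

/-!
# Close returns and close points of thin invariant sets (sharp form)
-/

set_option autoImplicit false

open scoped Manifold ContDiff Topology
open Filter Set Metric

universe u

namespace Pool.Agent.U882.RS

open Pool.Agent.H718R2.G Pool.Agent.W564.SC Pool.Agent.W509.SC Pool.Agent.Y368.CL
  Pool.Agent.N813.OF Pool.Agent.N813.EM Pool.Agent.TH80.OMS

/-- bi-Lipschitz with the constant `Λ` -/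
def BiL {N : Type u} [MetricSpace N] (F : N → N) (Λ : ℝ) : Prop :=
  ∀ x y, dist (F x) (F y) ≤ Λ * dist x y ∧ dist x y ≤ Λ * dist (F x) (F y)

theorem BiL.iter {N : Type u} [MetricSpace N] {F : N → N} {Λ : ℝ} (hΛ : 1 ≤ Λ) (h : BiL F Λ)
    {i m : ℕ} (him : i ≤ m) (x y : N) :
    dist (F^[i] x) (F^[i] y) ≤ Λ ^ m * dist x y ∧ dist x y ≤ Λ ^ m * dist (F^[i] x) (F^[i] y) := by
  have h1 : ∀ (i : ℕ) (x y : N), dist (F^[i] x) (F^[i] y) ≤ Λ ^ i * dist x y ∧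
      dist x y ≤ Λ ^ i * dist (F^[i] x) (F^[i] y) := by
    intro i
    induction i with
    | zero => intro x y; simp
    | succ i ih =>
      intro x y
      rw [Function.iterate_succ_apply', Function.iterate_succ_apply', pow_succ]
      have h2 := h (F^[i] x) (F^[i] y)
      have h3 := ih x y
      have hp : 0 ≤ Λ ^ i := by positivity
      constructor
      · calc _ ≤ Λ * dist (F^[i] x) (F^[i] y) := h2.1
          _ ≤ Λ * (Λ ^ i * dist x y) := mul_le_mul_of_nonneg_left h3.1 (by linarith)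
          _ = _ := by ring
      · calc _ ≤ Λ ^ i * dist (F^[i] x) (F^[i] y) := h3.2
          _ ≤ Λ ^ i * (Λ * dist (F (F^[i] x)) (F (F^[i] y))) := mul_le_mul_of_nonneg_left h2.2 hp
          _ = _ := by ring
  have h2 : Λ ^ i ≤ Λ ^ m := pow_le_pow_right₀ hΛ him
  exact ⟨(h1 i x y).1.trans (mul_le_mul_of_nonneg_right h2 dist_nonneg),
    (h1 i x y).2.trans (mul_le_mul_of_nonneg_right h2 dist_nonneg)⟩

section

variable {n : ℕ} {N : Type u} [MetricSpace N] [ChartedSpace (V n) N] {r : ℕ∞}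

theorem derBd_mono' {F : DiffM n N r} {χ : OpenPartialHomeomorph N (V n)} {m : ℕ} {Λ Λ' : ℝ}
    (hΛ : 0 < Λ) (h : Λ ≤ Λ') (hD : DerBd F χ m Λ) : DerBd F χ m Λ' := by
  have hinv : Λ'⁻¹ ≤ Λ⁻¹ := inv_anti₀ hΛ h
  refine ⟨?_, ?_⟩
  · intro i hi y hy y' hy' h1 h2 h3 h4 h5
    obtain ⟨a1, a2⟩ := hD.h1 i hi y hy y' hy' h1 h2 (h3.trans hinv) h4 h5
    exact ⟨a1, a2.trans (mul_le_mul_of_nonneg_right h (norm_nonneg _))⟩
  · intro i hi y hy h1 h2 h3 x hx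
    obtain ⟨a1, a2, a3⟩ := hD.h2 i hi y hy h1 h2 h3 x (ball_subset_ball hinv hx)
    exact ⟨a1, a2.trans h, a3.trans (mul_le_mul_of_nonneg_right h (norm_nonneg _))⟩

theorem lipTo_of_biL (F : DiffM n N r) {Λ : ℝ} (hΛ1 : 1 ≤ Λ) (h : BiL F Λ) (m : ℕ) :
    LipTo F m (Λ ^ (2 * m)) := by
  have hs : BiL F.symm Λ := by
    intro x y
    have h1 := h (F.symm x) (F.symm y)
    rw [F.apply_symm_apply, F.apply_symm_apply] at h1
    exact ⟨h1.2, h1.1⟩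
  intro i hi x y
  exact ⟨(h.iter hΛ1 hi x y).1, (hs.iter hΛ1 hi x y).1⟩

/-- the uniform constants of `F`: bi-Lipschitz and bounds for the derivatives -/
theorem derBd_pow2 [CompactSpace N] [IsManifold (𝓡 n) ∞ N] (hr : 2 ≤ r) (hN : ChartLip n N)
    (F : DiffM n N r) (χ : OpenPartialHomeomorph N (V n)) (z : N) (hχ : GoodChart n N χ z) :
    ∃ Λ Q : ℝ, 1 ≤ Λ ∧ Λ ^ 2 ≤ Q ∧ 16 ≤ Q ∧ BiL F Λ ∧ ∀ m : ℕ, 1 ≤ m → DerBd F χ m (Q ^ m) := by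
  have hr1 : (1 : ℕ∞) ≤ r := le_trans (by norm_num) hr
  obtain ⟨Λ₀, hΛ₀⟩ := bilip BIL.t hN hr1 F
  obtain ⟨Λ, hΛ1, hΛ⟩ : ∃ Λ : ℝ, 1 ≤ Λ ∧ BiL F Λ :=
    ⟨max 1 Λ₀, le_max_left _ _, fun x y =>
      ⟨(hΛ₀ x y).1.trans (mul_le_mul_of_nonneg_right (le_max_right _ _) dist_nonneg),
        (hΛ₀ x y).2.trans (mul_le_mul_of_nonneg_right (le_max_right _ _) dist_nonneg)⟩⟩
  obtain ⟨C₀, hC₀, hD⟩ := derBd hr hN F χ z hχ
  have hΛ0 : 0 < Λ := by linarith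
  have h6 : 1 ≤ Λ ^ 6 := one_le_pow₀ hΛ1
  have h26 : Λ ^ 2 ≤ Λ ^ 6 := pow_le_pow_right₀ hΛ1 (by norm_num)
  refine ⟨Λ, C₀ * 2 * Λ ^ 6, hΛ1, by nlinarith, by nlinarith, hΛ, fun m hm => ?_⟩
  have h1 := hD m hm (Λ ^ (2 * m)) (one_le_pow₀ hΛ1) (lipTo_of_biL F hΛ1 hΛ m)
  have hmp : (0 : ℝ) < m := by exact_mod_cast hm
  refine derBd_mono' (by positivity) ?_ h1
  have e1 : (m : ℝ) ≤ 2 ^ m := by exact_mod_cast Nat.lt_two_pow_self.le
  have e2 : C₀ ≤ C₀ ^ m := by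
    calc C₀ = C₀ ^ 1 := (pow_one _).symm
      _ ≤ C₀ ^ m := pow_le_pow_right₀ (by linarith) hm
  calc C₀ * (m * (Λ ^ (2 * m)) ^ 3) ≤ C₀ ^ m * (2 ^ m * (Λ ^ (2 * m)) ^ 3) := by gcongr
    _ = (C₀ * 2 * Λ ^ 6) ^ m := by
        rw [mul_pow, mul_pow, ← pow_mul, ← pow_mul, show 2 * m * 3 = 6 * m by ring]
        ring

/-- the exponents of the order `k` -/
def Ak (k : ℕ) : ℕ := (3 * k - 2) / 2

theorem Ak_ge {k : ℕ} (hk : 2 ≤ k) : k ≤ Ak k := by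
  unfold Ak
  omega

theorem Ak_ge2 (k : ℕ) : 3 * (k - 1) ≤ 2 * Ak k := by
  unfold Ak
  omega

theorem Ak_le (k : ℕ) : 2 * Ak k ≤ 3 * k - 2 := by
  unfold Ak
  omega

theorem Ak_mono {k k' : ℕ} (h : k ≤ k') : Ak k ≤ Ak k' := by
  unfold Ak
  omega

/-- The conclusion at a point `y`: if `y` returns very closely and not before, then it is periodic and
isolated in `K`. -/
def KeyAt2 (F : DiffM n N r) (A : ℕ) (c : ℝ) (y : N) : Prop :=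
  ∀ (s m : ℕ) (K : Set N) (ε θ : ℝ), 1 ≤ m → m ≤ s → MapsTo F K K → MapsTo F.symm K K →
    CovBy K s ε → y ∈ K → 0 < θ → θ ≤ 1 → (∀ l, 0 < l → l < m → θ ≤ dist y (F^[l] y)) →
    dist (F^[m] y) y ≤ c ^ (2 * s) * (c * θ) ^ A → ε ≤ c ^ (2 * s) * (c * θ) ^ A →
    F^[m] y = y ∧ ∀ v ∈ K, dist v y ≤ c ^ (2 * s) * (c * θ) ^ A → v = y

theorem KeyAt2.mono {F : DiffM n N r} {A A' : ℕ} {c c' : ℝ} {y : N} (h : KeyAt2 F A c y)
    (hA : A ≤ A') (hc' : 0 < c') (hcc : c' ≤ c) (hc1 : c ≤ 1) : KeyAt2 F A' c' y := by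
  intro s m K ε θ h1 h2 h3 h4 h5 h6 h7 h8 h9 h10 h11
  have hle : c' ^ (2 * s) * (c' * θ) ^ A' ≤ c ^ (2 * s) * (c * θ) ^ A := by
    have a1 : c' ^ (2 * s) ≤ c ^ (2 * s) := pow_le_pow_left₀ hc'.le hcc _
    have a2 : (c' * θ) ^ A' ≤ (c * θ) ^ A' :=
      pow_le_pow_left₀ (by positivity) (mul_le_mul_of_nonneg_right hcc h7.le) _
    have a3 : (c * θ) ^ A' ≤ (c * θ) ^ A := by
      refine pow_le_pow_of_le_one (by have := hc'.trans_le hcc; positivity) ?_ hA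
      have := hc'.trans_le hcc
      nlinarith
    have := hc'.trans_le hcc
    exact mul_le_mul a1 (a2.trans a3) (by positivity) (by positivity)
  obtain ⟨b1, b2⟩ := h s m K ε θ h1 h2 h3 h4 h5 h6 h7 h8 h9 (h10.trans hle) (h11.trans hle)
  exact ⟨b1, fun v hv hd => b2 v hv (hd.trans hle)⟩

end

/-- numbers -/
theorem nums3 {k A s m : ℕ} (hk : 2 ≤ k) (hAk : k ≤ A) (hA2 : 3 * (k - 1) ≤ 2 * A) (hm : 1 ≤ m)
    (hms : m ≤ s) {c θ L κ Q δ Λ : ℝ} (hc : 0 < c) (hθ : 0 < θ) (hθ1 : θ ≤ 1) (hL : 1 ≤ L)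
    (hκ : 0 < κ) (hκ8 : κ ≤ 1 / 8) (hQ : 16 ≤ Q) (hΛ1 : 1 ≤ Λ) (hΛQ : Λ ^ 2 ≤ Q)
    (h1 : c ≤ κ / (4 * L)) (h2 : c * (2048 * L * (4 * Q) ^ 4) ≤ κ ^ 2) (h3 : c ≤ δ / 2)
    (hδ : 0 < δ) :
    c ^ (2 * s) * (c * θ) ^ A < δ ∧
    L * (c ^ (2 * s) * (c * θ) ^ A) ≤ κ * (κ * θ / (4 * L)) ^ k ∧
    L * (c ^ (2 * s) * (c * θ) ^ A) ≤ 1 / 8 ∧
    2 * L * (c ^ s * (c * θ) ^ A) * (4 * Q ^ m) ^ (s / m + 1) ≤
      Real.sqrt ((κ * (κ * θ / (4 * L)) ^ (k - 1)) ^ 3) / (1024 * (Q ^ m) ^ 2) ∧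
    c ^ (2 * s) * (c * θ) ^ A ≤ c ^ s * (c * θ) ^ A ∧
    Λ ^ m * (c ^ (2 * s) * (c * θ) ^ A) ≤ c ^ s * (c * θ) ^ A ∧
    4 * Λ ^ m * (c ^ (2 * s) * (c * θ) ^ A) ≤ θ ∧
    4 * L * Λ ^ (2 * m) * (Real.sqrt ((κ * (κ * θ / (4 * L)) ^ (k - 1)) ^ 3) /
      (1024 * (Q ^ m) ^ 2)) ≤ θ := by
  have hL0 : 0 < L := by linarith
  have hs : 1 ≤ s := hm.trans hms
  have hcL : c * (4 * L) ≤ κ := by rwa [le_div_iff₀ (by positivity)] at h1
  have hκ2 : κ ^ 2 ≤ 1 / 64 := by nlinarith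
  have hκ2' : κ ^ 2 ≤ κ := by nlinarith
  have hQ4 : (4 * Q) ≤ (4 * Q) ^ 4 := by
    calc 4 * Q = (4 * Q) ^ 1 := (pow_one _).symm
      _ ≤ (4 * Q) ^ 4 := pow_le_pow_right₀ (by linarith) (by norm_num)
  have hcQ : c * (4 * Q) ≤ 1 := by
    have e1 : c * (4 * Q) ≤ c * (2048 * L * (4 * Q) ^ 4) := by
      refine mul_le_mul_of_nonneg_left ?_ hc.le
      have : (1 : ℝ) ≤ 2048 * L := by linarith
      nlinarith
    linarith
  have hc1 : c ≤ 1 / 64 := by nlinarith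
  have hc1' : c ≤ 1 := by linarith
  have hcs : c ^ s ≤ c := by
    have := pow_le_pow_of_le_one hc.le hc1' hs
    rwa [pow_one] at this
  have hcs0 : 0 < c ^ s := by positivity
  have hc2s : c ^ (2 * s) = c ^ s * c ^ s := by rw [two_mul, pow_add]
  have hcθ0 : 0 < c * θ := by positivity
  have hcθ1 : c * θ ≤ 1 := by nlinarith
  have hA1 : 1 ≤ A := by omega
  have hpA : (c * θ) ^ A ≤ c * θ := by
    have := pow_le_pow_of_le_one hcθ0.le hcθ1 hA1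
    rwa [pow_one] at this
  have hpA0 : 0 < (c * θ) ^ A := by positivity
  have hp1 : (c * θ) ^ A ≤ (c * θ) ^ k := pow_le_pow_of_le_one hcθ0.le hcθ1 hAk
  have hcθL : c * θ ≤ κ * θ / (4 * L) := by
    rw [le_div_iff₀ (by positivity)]
    nlinarith
  have hpk : (c * θ) ^ k ≤ (κ * θ / (4 * L)) ^ k := pow_le_pow_left₀ hcθ0.le hcθL k
  have hB5 : c ^ (2 * s) * (c * θ) ^ A ≤ c ^ s * (c * θ) ^ A := by
    rw [hc2s]
    refine mul_le_mul_of_nonneg_right ?_ hpA0.le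
    nlinarith
  have hBc : c ^ s * (c * θ) ^ A ≤ c * (c * θ) ^ A := mul_le_mul_of_nonneg_right hcs hpA0.le
  have hBc2 : c ^ s * (c * θ) ^ A ≤ c * (c * θ) :=
    hBc.trans (mul_le_mul_of_nonneg_left hpA hc.le)
  have hBc3 : c ^ (2 * s) * (c * θ) ^ A ≤ c := by
    refine hB5.trans (hBc2.trans ?_)
    nlinarith
  have hQm0 : 0 < Q ^ m := by positivity
  have hQm1 : 1 ≤ Q ^ m := one_le_pow₀ (by linarith)
  have hΛ0 : 0 < Λ := by linarith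
  have hΛΛ : Λ ≤ Λ ^ 2 := by nlinarith
  have hcΛ : c * Λ ≤ 1 := by nlinarith
  have hB6 : Λ ^ m * (c ^ (2 * s) * (c * θ) ^ A) ≤ c ^ s * (c * θ) ^ A := by
    have e1 : Λ ^ m ≤ Λ ^ s := pow_le_pow_right₀ hΛ1 hms
    calc Λ ^ m * (c ^ (2 * s) * (c * θ) ^ A) ≤ Λ ^ s * (c ^ (2 * s) * (c * θ) ^ A) :=
          mul_le_mul_of_nonneg_right e1 (by positivity)
      _ = (c * Λ) ^ s * (c ^ s * (c * θ) ^ A) := by rw [hc2s, mul_pow]; ring
      _ ≤ 1 * (c ^ s * (c * θ) ^ A) :=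
          mul_le_mul_of_nonneg_right (pow_le_one₀ (by positivity) hcΛ) (by positivity)
      _ = _ := one_mul _
  -- η
  obtain ⟨ρ, hρ⟩ : ∃ ρ : ℝ, ρ = κ * θ / (4 * L) := ⟨_, rfl⟩
  have hρ0 : 0 < ρ := by rw [hρ]; positivity
  have hρL : ρ * (4 * L) = κ * θ := by rw [hρ]; field_simp
  have hκθ : κ * θ ≤ κ := by nlinarith
  have hρ1 : ρ ≤ 1 := by nlinarith
  rw [← hρ] at hpk hcθL ⊢
  obtain ⟨η, hη⟩ : ∃ η : ℝ, η = κ * ρ ^ (k - 1) := ⟨_, rfl⟩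
  rw [← hη]
  have hη0 : 0 < η := by rw [hη]; positivity
  have hρk : ρ ^ (k - 1) ≤ ρ := by
    have := pow_le_pow_of_le_one hρ0.le hρ1 (show 1 ≤ k - 1 by omega)
    rwa [pow_one] at this
  have hηρ : η ≤ κ * ρ := by
    rw [hη]
    exact mul_le_mul_of_nonneg_left hρk hκ.le
  have hη1 : η ≤ 1 := by nlinarith
  have hsq : Real.sqrt (η ^ 3) ≤ η := by
    rw [Real.sqrt_le_left hη0.le]
    exact pow_le_pow_of_le_one hη0.le hη1 (by norm_num)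
  refine ⟨by linarith, ?_, ?_, ?_, hB5, hB6, ?_, ?_⟩
  · calc L * (c ^ (2 * s) * (c * θ) ^ A) ≤ L * (c * (c * θ) ^ A) :=
          mul_le_mul_of_nonneg_left (hB5.trans hBc) hL0.le
      _ = (L * c) * (c * θ) ^ A := by ring
      _ ≤ κ * ρ ^ k := by
          refine mul_le_mul ?_ (hp1.trans hpk) hpA0.le hκ.le
          nlinarith
  · have := mul_le_mul_of_nonneg_left hBc3 hL0.le
    nlinarith
  · rw [le_div_iff₀ (by positivity)]
    apply Real.le_sqrt_of_sq_le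
    -- the left side
    have c2 : (4 * Q ^ m) ^ (s / m + 1) * (Q ^ m) ^ 2 ≤ ((4 * Q) ^ 4) ^ s := by
      have d1 : 4 * Q ^ m ≤ (4 * Q) ^ m := by
        rw [mul_pow]
        refine mul_le_mul_of_nonneg_right ?_ hQm0.le
        calc (4 : ℝ) = 4 ^ 1 := by norm_num
          _ ≤ 4 ^ m := pow_le_pow_right₀ (by norm_num) hm
      have d2 : Q ^ m ≤ (4 * Q) ^ m := pow_le_pow_left₀ (by linarith) (by linarith) m
      have d3 : 1 ≤ 4 * Q := by linarith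
      have d4 : m * (s / m) ≤ s := Nat.mul_div_le s m
      calc (4 * Q ^ m) ^ (s / m + 1) * (Q ^ m) ^ 2 ≤
          ((4 * Q) ^ m) ^ (s / m + 1) * ((4 * Q) ^ m) ^ 2 := by gcongr
        _ = (4 * Q) ^ (m * (s / m + 3)) := by
            rw [← pow_add, ← pow_mul]
        _ ≤ (4 * Q) ^ (4 * s) := by
            refine pow_le_pow_right₀ d3 ?_
            have : m * (s / m + 3) = m * (s / m) + 3 * m := by ring
            omega
        _ = _ := by rw [← pow_mul]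
    obtain ⟨X, hX⟩ : ∃ X : ℝ, X = 2 * L * (c ^ s * (c * θ) ^ A) * (4 * Q ^ m) ^ (s / m + 1) *
      (1024 * (Q ^ m) ^ 2) := ⟨_, rfl⟩
    have hX0 : 0 ≤ X := by rw [hX]; positivity
    have hXle : X ≤ κ ^ 2 * (c * θ) ^ A := by
      calc X = 2048 * L * c ^ s * (c * θ) ^ A * ((4 * Q ^ m) ^ (s / m + 1) * (Q ^ m) ^ 2) := by
            rw [hX]; ring
        _ ≤ 2048 * L * c ^ s * (c * θ) ^ A * ((4 * Q) ^ 4) ^ s :=
            mul_le_mul_of_nonneg_left c2 (by positivity)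
        _ ≤ (2048 * L) ^ s * c ^ s * (c * θ) ^ A * ((4 * Q) ^ 4) ^ s := by
            have : 2048 * L ≤ (2048 * L) ^ s := by
              calc 2048 * L = (2048 * L) ^ 1 := (pow_one _).symm
                _ ≤ (2048 * L) ^ s := pow_le_pow_right₀ (by linarith) hs
            gcongr
        _ = (c * (2048 * L * (4 * Q) ^ 4)) ^ s * (c * θ) ^ A := by
            rw [mul_pow c (2048 * L * (4 * Q) ^ 4) s, mul_pow (2048 * L) ((4 * Q) ^ 4) s]; ring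
        _ ≤ κ ^ 2 * (c * θ) ^ A := by
            refine mul_le_mul_of_nonneg_right ?_ hpA0.le
            calc (c * (2048 * L * (4 * Q) ^ 4)) ^ s ≤ (κ ^ 2) ^ s :=
                  pow_le_pow_left₀ (by positivity) h2 s
              _ ≤ (κ ^ 2) ^ 1 := pow_le_pow_of_le_one (by positivity) (by linarith) hs
              _ = κ ^ 2 := pow_one _
    rw [← hX]
    calc X ^ 2 ≤ (κ ^ 2 * (c * θ) ^ A) ^ 2 := pow_le_pow_left₀ hX0 hXle 2
      _ = κ ^ 4 * (c * θ) ^ (2 * A) := by rw [mul_pow, ← pow_mul, ← pow_mul, mul_comm A 2]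
      _ ≤ κ ^ 3 * (c * θ) ^ (3 * (k - 1)) := by
          refine mul_le_mul ?_ (pow_le_pow_of_le_one hcθ0.le hcθ1 hA2) (by positivity)
            (by positivity)
          exact pow_le_pow_of_le_one hκ.le (by linarith) (by norm_num)
      _ ≤ κ ^ 3 * ρ ^ (3 * (k - 1)) := by gcongr
      _ = η ^ 3 := by rw [hη, mul_pow, ← pow_mul, mul_comm 3 (k - 1)]
  · calc 4 * Λ ^ m * (c ^ (2 * s) * (c * θ) ^ A) = 4 * (Λ ^ m * (c ^ (2 * s) * (c * θ) ^ A)) := by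
          ring
      _ ≤ 4 * (c ^ s * (c * θ) ^ A) := by linarith
      _ ≤ 4 * (c * (c * θ)) := by linarith
      _ ≤ θ := by nlinarith
  · have e1 : Λ ^ (2 * m) ≤ Q ^ m := by
      rw [pow_mul]
      exact pow_le_pow_left₀ (by positivity) hΛQ m
    have e2 : Real.sqrt (η ^ 3) ≤ κ * ρ := hsq.trans hηρ
    rw [← mul_div_assoc, div_le_iff₀ (by positivity)]
    calc 4 * L * Λ ^ (2 * m) * Real.sqrt (η ^ 3) ≤ 4 * L * Q ^ m * (κ * ρ) := by gcongr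
      _ = κ * (ρ * (4 * L)) * Q ^ m := by ring
      _ = κ * (κ * θ) * Q ^ m := by rw [hρL]
      _ ≤ θ * (1024 * (Q ^ m) ^ 2) := by
          have f1 : κ * (κ * θ) ≤ θ := by nlinarith
          have f2 : Q ^ m ≤ 1024 * (Q ^ m) ^ 2 := by nlinarith
          exact mul_le_mul f1 f2 hQm0.le hθ.le

end Pool.Agent.U882.RS
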