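import Pool.Agent.U882.RS.Chain
import Pool.Agent.U882.RS.Key3

/-!
# Isolated returns, on a compact manifold
-/

set_option autoImplicit false

open scoped Manifold ContDiff Topology
open Filter Set Metric

universe u

namespace Pool.Agent.U882.RS

open Pool.Agent.H718R2.G Pool.Agent.W564.SC Pool.Agent.W509.SC Pool.Agent.Y368.CL
  Pool.Agent.N813.OF Pool.Agent.N813.EM Pool.Agent.TH80.OMS

section

variable {n : ℕ} {N : Type u} [MetricSpace N] [ChartedSpace (V n) N] {r : ℕ∞}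

/-- If `y` returns at the time `m ≤ s` to the distance `exp (- C s)` then it has a return at a time
`q ≤ m` which is very close, compared with the distances `≥ θ ≥ exp (- C s)` of the earlier ones. -/
def ChainAt (F : N → N) (A : ℕ) (c C : ℝ) (y : N) : Prop :=
  ∀ s m : ℕ, 1 ≤ m → m ≤ s → dist (F^[m] y) y ≤ Real.exp (-(C * s)) →
    ∃ (q : ℕ) (θ : ℝ), 1 ≤ q ∧ q ≤ m ∧ Real.exp (-(C * s)) ≤ θ ∧ θ ≤ 1 ∧
      (∀ l, 0 < l → l < q → θ ≤ dist y (F^[l] y)) ∧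
      dist (F^[q] y) y ≤ c ^ (2 * s) * (c * θ) ^ A

theorem ChainAt.mono {F : N → N} {A : ℕ} {c C C' : ℝ} {y : N} (h : ChainAt F A c C y)
    (hC : C ≤ C') : ChainAt F A c C' y := by
  intro s m hm hms hd
  have h1 : Real.exp (-(C' * s)) ≤ Real.exp (-(C * s)) := by
    apply Real.exp_le_exp.2
    have : (C : ℝ) * s ≤ C' * s := mul_le_mul_of_nonneg_right hC (by positivity)
    linarith
  obtain ⟨q, θ, a1, a2, a3, a4⟩ := h s m hm hms (hd.trans h1)
  exact ⟨q, θ, a1, a2, h1.trans a3, a4⟩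

end

section

variable {n : ℕ} {N : Type u} [MetricSpace N] [CompactSpace N] [ChartedSpace (V n) N]
  [IsManifold (𝓡 n) ∞ N] {r : ℕ∞}

theorem chain_local (hr : 2 ≤ r) (hN : ChartLip n N) (F : DiffM n N r) {A : ℕ} (hA : 1 ≤ A)
    {c : ℝ} (hc : 0 < c) (z : N) :
    ∃ C : ℝ, 0 < C ∧ ∀ᶠ y in 𝓝 z, ChainAt F A c C y := by
  obtain ⟨χ, hχ⟩ := Pool.Agent.W699.SC.gc n N z
  obtain ⟨K, hK2, hACM⟩ := t_ACM n N r hr F
  obtain ⟨m₀, hm₀⟩ := hACM χ z hχ
  obtain ⟨L₀, hL₀, hlip₀⟩ := hN χ z hχ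
  obtain ⟨L, hL, hlip⟩ : ∃ L : ℝ, 1 ≤ L ∧ ∀ y ∈ χ.source, ∀ y' ∈ χ.source, ‖χ y‖ ≤ 1 / 2 →
      ‖χ y'‖ ≤ 1 / 2 → dist y y' ≤ L * ‖χ y - χ y'‖ ∧ ‖χ y - χ y'‖ ≤ L * dist y y' := by
    refine ⟨max 1 L₀, le_max_left _ _, fun y hy y' hy' h1 h2 => ?_⟩
    obtain ⟨h3, h4⟩ := hlip₀ y hy y' hy' h1 h2
    exact ⟨h3.trans (mul_le_mul_of_nonneg_right (le_max_right _ _) (norm_nonneg _)),
      h4.trans (mul_le_mul_of_nonneg_right (le_max_right _ _) dist_nonneg)⟩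
  obtain ⟨δ, hδ, hclose⟩ := unif_close hχ
  have hL0 : 0 < L := by linarith
  -- points which are closer than `δ₁`
  obtain ⟨δ₁, hδ₁⟩ : ∃ δ₁, δ₁ = min δ (1 / (16 * L)) := ⟨_, rfl⟩
  have hδ₁0 : 0 < δ₁ := by rw [hδ₁]; positivity
  have hδ₁1 : δ₁ ≤ 1 := by
    rw [hδ₁]
    refine (min_le_right _ _).trans ?_
    rw [div_le_one (by positivity)]
    linarith
  have hnear : ∀ y ∈ χ.source, ‖χ y‖ ≤ 1 / 16 → ∀ y', dist y' y < δ₁ →
      y' ∈ χ.source ∧ ‖χ y'‖ ≤ 1 / 4 ∧ ‖χ y' - χ y‖ ≤ L * dist y' y := by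
    intro y hy hy16 y' hd
    obtain ⟨h1, h2⟩ := hclose y hy (by linarith) y' (by
      rw [dist_comm]; exact hd.trans_le (by rw [hδ₁]; exact min_le_left _ _))
    have h3 := (hlip y' h1 y hy h2.le (by linarith)).2
    have h4 : dist y' y ≤ 1 / (16 * L) := hd.le.trans (by rw [hδ₁]; exact min_le_right _ _)
    have h5 : L * dist y' y ≤ 1 / 16 := by
      calc L * dist y' y ≤ L * (1 / (16 * L)) := mul_le_mul_of_nonneg_left h4 hL0.le
        _ = 1 / 16 := by field_simp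
    refine ⟨h1, ?_, h3⟩
    have e : χ y' = (χ y' - χ y) + χ y := by abel
    rw [e]
    refine (norm_add_le _ _).trans ?_
    linarith
  -- the ratio of `θ` and `ρ`
  obtain ⟨t, ht⟩ : ∃ t, t = min (1 / L) δ₁ := ⟨_, rfl⟩
  have ht0 : 0 < t := by rw [ht]; positivity
  have ht1 : t ≤ 1 := by rw [ht]; exact (min_le_right _ _).trans hδ₁1
  have htL : t * L ≤ 1 := by
    rw [← le_div_iff₀ hL0, ht]
    exact min_le_left _ _
  have htδ : t ≤ δ₁ := by rw [ht]; exact min_le_right _ _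
  -- the time `M₀`
  obtain ⟨M₀, hM₀⟩ : ∃ M₀, M₀ = m₀ + (n + 4) := ⟨_, rfl⟩
  have hK0 : 0 < K := by linarith
  have hK1 : 1 ≤ K := by linarith
  -- the exponent `b`
  obtain ⟨b, hb⟩ : ∃ b : ℕ, (1 / 2 : ℝ) ^ b < min (c ^ 2) ((c * t) ^ A / L) :=
    exists_pow_lt_of_lt_one (by positivity) (by norm_num)
  have hb1 : (1 / 2 : ℝ) ^ b ≤ c ^ 2 := hb.le.trans (min_le_left _ _)
  have hb2 : (1 / 2 : ℝ) ^ b ≤ (c * t) ^ A / L := hb.le.trans (min_le_right _ _)
  obtain ⟨a, ha⟩ := chain t_chn n hA b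
  have hlogK : 0 ≤ Real.log K := Real.log_nonneg hK1
  have hlogt : 0 ≤ Real.log (1 / t) := Real.log_nonneg (by rw [one_le_div ht0]; exact ht1)
  have hlogL : 0 ≤ Real.log L := Real.log_nonneg hL
  have hlogδ : 0 ≤ Real.log (1 / δ₁) := Real.log_nonneg (by rw [one_le_div hδ₁0]; exact hδ₁1)
  obtain ⟨C, hC⟩ : ∃ C : ℝ, C = a * (1 + M₀) * Real.log K + Real.log (1 / t) + Real.log L +
    Real.log (1 / δ₁) + 1 := ⟨_, rfl⟩
  have hC0 : 0 < C := by
    rw [hC]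
    positivity
  refine ⟨C, hC0, ?_⟩
  have hev : ∀ᶠ y in 𝓝 z, y ∈ χ.source ∧ ‖χ y‖ < 1 / 16 := by
    have h5 : ∀ᶠ y in 𝓝 z, ‖χ y‖ < 1 / 16 := by
      refine (χ.continuousAt hχ.src).norm.eventually_lt_const ?_
      beta_reduce
      rw [hχ.zero, norm_zero]
      norm_num
    filter_upwards [χ.open_source.mem_nhds hχ.src, h5] with y h6 h7
    exact ⟨h6, h7⟩
  filter_upwards [hev] with y hy
  obtain ⟨hy, hy16⟩ := hy
  intro s m hm hms hd
  have hsR : (1 : ℝ) ≤ s := by exact_mod_cast hm.trans hms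
  obtain ⟨Acc, hAC⟩ := hm₀ (s + M₀) (by omega) y hy hy16.le
  obtain ⟨Λ, hΛ⟩ : ∃ Λ, Λ = K ^ (s + M₀) := ⟨_, rfl⟩
  rw [← hΛ] at hAC
  have h2Λ : (2 : ℝ) ^ (s + M₀) ≤ Λ := by rw [hΛ]; exact pow_le_pow_left₀ (by norm_num) hK2 _
  have hΛ0 : 0 < Λ := by rw [hΛ]; positivity
  have hΛ16 : 16 ≤ Λ := by
    refine le_trans ?_ h2Λ
    calc (16 : ℝ) = 2 ^ 4 := by norm_num
      _ ≤ 2 ^ (s + M₀) := pow_le_pow_right₀ (by norm_num) (by omega)
  have hΛn : 2 * ((n : ℝ) + 1) ≤ Λ := by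
    refine le_trans ?_ h2Λ
    have h1 : n + 1 < 2 ^ (n + 1) := Nat.lt_two_pow_self
    have h2 : ((n : ℝ) + 1) ≤ 2 ^ (n + 1) := by exact_mod_cast h1.le
    calc 2 * ((n : ℝ) + 1) ≤ 2 * 2 ^ (n + 1) := by linarith
      _ = 2 ^ (n + 2) := by ring
      _ ≤ 2 ^ (s + M₀) := pow_le_pow_right₀ (by norm_num) (by omega)
  have hΛM : ((s + M₀ : ℕ) : ℝ) ≤ Λ := by
    refine le_trans ?_ h2Λ
    exact_mod_cast Nat.lt_two_pow_self.le
  -- `Λ⁻¹ ^ a`
  have hΛa : Λ⁻¹ ^ a = Real.exp (-(a * (s + M₀) * Real.log K)) := by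
    rw [hΛ, ← inv_pow, ← pow_mul, Real.exp_neg]
    have : Real.exp (a * (s + M₀) * Real.log K) = K ^ ((s + M₀) * a) := by
      have e : (a : ℝ) * (s + M₀) * Real.log K = (((s + M₀) * a : ℕ) : ℝ) * Real.log K := by
        push_cast; ring
      rw [e, Real.exp_nat_mul, Real.exp_log hK0]
    rw [this, inv_pow]
  have hexp1 : Real.exp (-(C * s)) ≤ t * (Λ⁻¹ ^ a / L) := by
    have e1 : t * (Λ⁻¹ ^ a / L) = Real.exp (-(a * (s + M₀) * Real.log K + Real.log (1 / t) +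
        Real.log L)) := by
      rw [hΛa, one_div, Real.log_inv]
      rw [show -(a * (s + M₀) * Real.log K + -Real.log t + Real.log L) =
        -(a * (s + M₀) * Real.log K) + Real.log t - Real.log L by ring]
      rw [Real.exp_sub, Real.exp_add, Real.exp_log ht0, Real.exp_log hL0]
      ring
    rw [e1]
    apply Real.exp_le_exp.2
    apply neg_le_neg
    rw [hC]
    have k1 : (a : ℝ) * (s + M₀) * Real.log K ≤ a * (1 + M₀) * Real.log K * s := by
      have h1 : (s : ℝ) + M₀ ≤ (1 + M₀) * s := by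
        have : (M₀ : ℝ) * 1 ≤ M₀ * s := mul_le_mul_of_nonneg_left hsR (by positivity)
        linarith
      calc (a : ℝ) * (s + M₀) * Real.log K ≤ a * ((1 + M₀) * s) * Real.log K := by gcongr
        _ = _ := by ring
    have k2 : Real.log (1 / t) ≤ Real.log (1 / t) * s := by nlinarith
    have k3 : Real.log L ≤ Real.log L * s := by nlinarith
    have k4 : 0 ≤ Real.log (1 / δ₁) * s := by positivity
    nlinarith
  have hLa0 : 0 < Λ⁻¹ ^ a := by positivity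
  have hexp2 : L * Real.exp (-(C * s)) ≤ Λ⁻¹ ^ a := by
    calc L * Real.exp (-(C * s)) ≤ L * (t * (Λ⁻¹ ^ a / L)) := mul_le_mul_of_nonneg_left hexp1 hL0.le
      _ = t * Λ⁻¹ ^ a := by field_simp
      _ ≤ 1 * Λ⁻¹ ^ a := mul_le_mul_of_nonneg_right ht1 hLa0.le
      _ = _ := one_mul _
  have hexp3 : Real.exp (-(C * s)) ≤ t * Λ⁻¹ ^ a := by
    refine hexp1.trans (mul_le_mul_of_nonneg_left ?_ ht0.le)
    exact div_le_self hLa0.le hL
  have hexp4 : Real.exp (-(C * s)) < δ₁ := by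
    rw [← Real.lt_log_iff_exp_lt hδ₁0]
    have k4 : Real.log (1 / δ₁) ≤ Real.log (1 / δ₁) * s := by nlinarith
    have k5 : 0 ≤ a * (1 + M₀) * Real.log K * s := by positivity
    have k6 : Real.log (1 / δ₁) = - Real.log δ₁ := by rw [one_div, Real.log_inv]
    have k7 : C * s = a * (1 + M₀) * Real.log K * s + Real.log (1 / t) * s + Real.log L * s +
      Real.log (1 / δ₁) * s + s := by rw [hC]; ring
    have k8 : 0 ≤ Real.log (1 / t) * s := by positivity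
    have k9 : 0 ≤ Real.log L * s := by positivity
    linarith
  -- the return at the time `m`
  obtain ⟨g1, g2, g3⟩ := hnear y hy hy16.le (F^[m] y) (hd.trans_lt hexp4)
  obtain ⟨q, ρ, hq1, hqm, hPq, hρa, hρ1, hvq, hfar⟩ := ha (s + M₀) Λ _ _ Acc hAC hΛ16 hΛn hΛM m hm
    (by omega) (by rw [it_nat]; exact ⟨g1, g2⟩) (by
      rw [it_nat]
      exact (g3.trans (mul_le_mul_of_nonneg_left hd hL0.le)).trans hexp2)
  rw [it_nat] at hPq hvq
  have hρ0 : 0 < ρ := lt_of_lt_of_le hLa0 hρa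
  have hΛi1 : Λ⁻¹ ≤ 1 := inv_le_one_of_one_le₀ (by linarith)
  refine ⟨q, t * ρ, hq1, hqm, ?_, ?_, ?_, ?_⟩
  · exact hexp3.trans (mul_le_mul_of_nonneg_left hρa ht0.le)
  · nlinarith
  · intro l hl hlq
    by_cases hld : dist (F^[l] y) y < δ₁
    · obtain ⟨b1, b2, b3⟩ := hnear y hy hy16.le _ hld
      have b4 := hfar l hl hlq (by rw [it_nat]; exact ⟨b1, b2⟩)
      rw [it_nat] at b4
      rw [dist_comm]
      have b5 : t * ρ * L ≤ dist (F^[l] y) y * L := by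
        calc t * ρ * L = (t * L) * ρ := by ring
          _ ≤ 1 * ρ := mul_le_mul_of_nonneg_right htL hρ0.le
          _ ≤ L * dist (F^[l] y) y := by linarith
          _ = _ := mul_comm _ _
      exact le_of_mul_le_mul_right b5 hL0
    · rw [not_lt, dist_comm] at hld
      refine le_trans ?_ hld
      calc t * ρ ≤ t * 1 := mul_le_mul_of_nonneg_left (hρ1.trans hΛi1) ht0.le
        _ ≤ δ₁ := by rw [mul_one]; exact htδ
  · have h1 := (hlip _ hPq.1 y hy (hPq.2.trans (by norm_num)) (by linarith)).1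
    have hΛb : Λ⁻¹ ^ b ≤ c ^ (2 * s) * ((c * t) ^ A / L) := by
      have e1 : Λ⁻¹ ^ b ≤ ((1 / 2 : ℝ) ^ b) ^ (s + 1) := by
        rw [← pow_mul, mul_comm b, pow_mul]
        refine pow_le_pow_left₀ (by positivity) ?_ b
        rw [one_div, inv_pow]
        refine inv_anti₀ (by positivity) ?_
        refine le_trans ?_ h2Λ
        exact pow_le_pow_right₀ (by norm_num) (by omega)
      refine e1.trans ?_
      rw [pow_succ, pow_mul]
      exact mul_le_mul (pow_le_pow_left₀ (by positivity) hb1 s) hb2 (by positivity) (by positivity)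
    calc dist (F^[q] y) y ≤ L * ‖χ (F^[q] y) - χ y‖ := h1
      _ ≤ L * (Λ⁻¹ ^ b * ρ ^ A) := mul_le_mul_of_nonneg_left hvq hL0.le
      _ ≤ L * (c ^ (2 * s) * ((c * t) ^ A / L) * ρ ^ A) := by gcongr
      _ = c ^ (2 * s) * (c * (t * ρ)) ^ A := by
          have : (c * (t * ρ)) ^ A = (c * t) ^ A * ρ ^ A := by rw [← mul_pow]; ring
          rw [this]
          field_simp

theorem chain_global (hr : 2 ≤ r) (hN : ChartLip n N) (F : DiffM n N r) {A : ℕ} (hA : 1 ≤ A)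
    {c : ℝ} (hc : 0 < c) : ∃ C : ℝ, 0 < C ∧ ∀ y, ChainAt F A c C y := by
  classical
  choose C hC hCy using chain_local hr hN F hA hc
  obtain ⟨t, ht⟩ := CompactSpace.elim_nhds_subcover (fun z => {y | ChainAt F A c (C z) y})
    (fun z => hCy z)
  have hind : ∀ t : Finset N, ∃ C' : ℝ, 0 < C' ∧ ∀ z ∈ t, C z ≤ C' := by
    intro t
    induction t using Finset.induction_on with
    | empty => exact ⟨1, one_pos, by simp⟩
    | insert z t _ ih =>
      obtain ⟨C', h1, h2⟩ := ih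
      refine ⟨max (C z) C', lt_max_of_lt_right h1, ?_⟩
      intro w hw
      rcases Finset.mem_insert.1 hw with rfl | hw
      · exact le_max_left _ _
      · exact (h2 w hw).trans (le_max_right _ _)
  obtain ⟨C', h1, h2⟩ := hind t
  refine ⟨C', h1, fun y => ?_⟩
  have hy : y ∈ (⊤ : Set N) := mem_univ y
  rw [← ht, mem_iUnion₂] at hy
  obtain ⟨z, hz, hy⟩ := hy
  exact ChainAt.mono hy (h2 z hz)

end

end Pool.Agent.U882.RS
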