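import Pool.Agent.U882.RS.Fou

/-!
# Pseudo-cycles: tools
-/

set_option autoImplicit false

open Set Finset

namespace Pool.Agent.U882.RS

/-- cyclic sequences with an error -/
theorem cyclic_bd {E : Type*} [NormedAddCommGroup E] [InnerProductSpace ℝ E] {D : E →L[ℝ] E}
    {θ β e : ℝ} (hD : Resol D θ) (hθ : 0 < θ) (hβ0 : 0 ≤ β) (he : 0 ≤ e) (hβ : 64 * β ^ 2 ≤ θ)
    {P : ℕ} (hP : 1 ≤ P) (w : ℕ → E) (hw : w P = w 0)
    (hstep : ∀ a < P, ‖w (a + 1) - D (w a)‖ ≤ β * ‖w a‖ + e) :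
    ∀ a < P, θ * ‖w a‖ ^ 2 ≤ 3 * P * e ^ 2 := by
  intro a ha
  have h1 := cyclic hD hP w hw
  have h2 : ∑ t ∈ range P, ‖w (t + 1) - D (w t)‖ ^ 2 ≤
      2 * β ^ 2 * ∑ t ∈ range P, ‖w t‖ ^ 2 + 2 * P * e ^ 2 := by
    calc ∑ t ∈ range P, ‖w (t + 1) - D (w t)‖ ^ 2 ≤
        ∑ t ∈ range P, (2 * β ^ 2 * ‖w t‖ ^ 2 + 2 * e ^ 2) := by
          refine Finset.sum_le_sum fun t ht => ?_
          have h3 := hstep t (Finset.mem_range.1 ht)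
          have h4 : ‖w (t + 1) - D (w t)‖ ^ 2 ≤ (β * ‖w t‖ + e) ^ 2 :=
            pow_le_pow_left₀ (norm_nonneg _) h3 2
          nlinarith [sq_nonneg (β * ‖w t‖ - e)]
      _ = _ := by
          rw [Finset.sum_add_distrib, ← Finset.mul_sum, Finset.sum_const, Finset.card_range,
            nsmul_eq_mul]
          ring
  have h5 : ‖w a‖ ^ 2 ≤ ∑ t ∈ range P, ‖w t‖ ^ 2 :=
    Finset.single_le_sum (f := fun t => ‖w t‖ ^ 2) (fun t _ => by positivity)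
      (Finset.mem_range.2 ha)
  obtain ⟨S, hS⟩ : ∃ S, S = ∑ t ∈ range P, ‖w t‖ ^ 2 := ⟨_, rfl⟩
  rw [← hS] at h1 h2 h5
  have hS0 : 0 ≤ S := le_trans (by positivity) h5
  have h6 : 2 * β ^ 2 * S ≤ θ / 32 * S := mul_le_mul_of_nonneg_right (by linarith) hS0
  have h7 : θ * S ≤ θ / 32 * S + 2 * P * e ^ 2 := by linarith
  have h8 : θ * ‖w a‖ ^ 2 ≤ θ * S := mul_le_mul_of_nonneg_left h5 hθ.le
  have h9 : 0 ≤ (P : ℝ) * e ^ 2 := by positivity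
  nlinarith

section

variable {N E : Type*} [NormedAddCommGroup E]

/-- a pseudo-orbit stays close to `y`, or it leaves through `J + 1` annuli -/
theorem stay3 (Src : Set N) (χ : N → E) (y : N) (z : ℕ → N) {Λ e r₀ R₀ : ℝ} {J : ℕ}
    (hΛ : 1 ≤ Λ) (hR₀ : 0 < R₀) (heR : e ≤ R₀) (hr₀ : R₀ * (4 * Λ) ^ (J + 1) ≤ r₀)
    (hz0 : z 0 ∈ Src) (hz0' : ‖χ (z 0) - χ y‖ ≤ R₀)
    (hstep : ∀ a, z a ∈ Src → ‖χ (z a) - χ y‖ ≤ r₀ →
      z (a + 1) ∈ Src ∧ ‖χ (z (a + 1)) - χ y‖ ≤ Λ * (‖χ (z a) - χ y‖ + e)) :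
    (∀ a, z a ∈ Src ∧ ‖χ (z a) - χ y‖ ≤ r₀) ∨
    ∃ τ : ℕ → ℕ, (∀ l ≤ J, z (τ l) ∈ Src ∧ ‖χ (z (τ l)) - χ y‖ ≤ r₀) ∧
      ∀ l l', l < l' → l' ≤ J → ‖χ (z (τ l)) - χ y‖ < ‖χ (z (τ l')) - χ y‖ := by
  classical
  by_cases hcon : ∀ a, z a ∈ Src ∧ ‖χ (z a) - χ y‖ ≤ r₀
  · exact Or.inl hcon
  right
  obtain ⟨R, hR⟩ : ∃ R : ℕ → ℝ, R = fun l => R₀ * (4 * Λ) ^ l := ⟨_, rfl⟩
  have h4 : 1 ≤ 4 * Λ := by linarith
  have hRpos : ∀ l, 0 < R l := fun l => by rw [hR]; positivity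
  have hRmono : ∀ i j, i ≤ j → R i ≤ R j := fun i j hij => by
    rw [hR]
    exact mul_le_mul_of_nonneg_left (pow_le_pow_right₀ h4 hij) hR₀.le
  have hR0 : R 0 = R₀ := by rw [hR]; simp
  have hRs : ∀ l, R (l + 1) = 4 * Λ * R l := fun l => by rw [hR]; simp only; ring
  have hRr : ∀ l ≤ J + 1, R l ≤ r₀ := fun l hl => (hRmono l (J + 1) hl).trans (by rw [hR]; exact hr₀)
  have hfirst : ∀ l, l ≤ J → ∃ t, z t ∈ Src ∧ R l < ‖χ (z t) - χ y‖ ∧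
      ‖χ (z t) - χ y‖ ≤ 2 * Λ * R l := by
    intro l hl
    have hex' : ∃ t, ¬ (z t ∈ Src ∧ ‖χ (z t) - χ y‖ ≤ R l) := by
      by_contra hno
      push Not at hno
      exact hcon fun a => ⟨(hno a).1, (hno a).2.trans (hRr l (by omega))⟩
    have h1 := Nat.find_spec hex'
    have h2 : ∀ t' < Nat.find hex', z t' ∈ Src ∧ ‖χ (z t') - χ y‖ ≤ R l := fun t' ht' =>
      not_not.1 (Nat.find_min hex' ht')
    obtain ⟨T, hT⟩ : ∃ T, T = Nat.find hex' := ⟨_, rfl⟩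
    rw [← hT] at h1 h2
    cases T with
    | zero =>
      exfalso
      apply h1
      exact ⟨hz0, hz0'.trans (by rw [← hR0]; exact hRmono 0 l (Nat.zero_le _))⟩
    | succ T =>
      obtain ⟨h3, h5⟩ := h2 T (Nat.lt_succ_self _)
      obtain ⟨h6, h7⟩ := hstep _ h3 (h5.trans (hRr l (by omega)))
      refine ⟨T + 1, h6, ?_, ?_⟩
      · by_contra h8
        exact h1 ⟨h6, not_lt.1 h8⟩
      · refine h7.trans ?_
        have h8 : R₀ ≤ R l := by rw [← hR0]; exact hRmono 0 l (Nat.zero_le _)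
        have h9 : Λ * (‖χ (z T) - χ y‖ + e) ≤ Λ * (R l + R l) :=
          mul_le_mul_of_nonneg_left (by linarith) (by linarith)
        linarith
  choose! τ hτ using hfirst
  have h2R : ∀ l, 2 * Λ * R l < R (l + 1) := fun l => by
    rw [hRs]
    have : 0 < Λ * R l := mul_pos (by linarith) (hRpos l)
    linarith
  refine ⟨τ, fun l hl => ⟨(hτ l hl).1, (hτ l hl).2.2.trans ((h2R l).le.trans (hRr (l + 1)
    (by omega)))⟩, fun l l' hll' hl' => ?_⟩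
  have h1 := (hτ l (by omega)).2.2
  have h2 := (hτ l' hl').2.1
  have h3 := hRmono (l + 1) l' hll'
  have h5 := h2R l
  linarith

end

end Pool.Agent.U882.RS
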