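import Pool.Agent.U882.RS.Clo1

/-!
# Pseudo-cycles stay close
-/

set_option autoImplicit false

open Set

namespace Pool.Agent.U882.RS

/-- the pseudo-orbit of `F^q` which is formed by the points `F^i y`, `i < m` -/
def zz {N : Type*} (F : N → N) (m q : ℕ) (y : N) (a : ℕ) : N := F^[(a * q) % m] y

theorem zz_zero {N : Type*} (F : N → N) (m q : ℕ) (y : N) : zz F m q y 0 = y := by
  simp [zz]

theorem zz_self {N : Type*} (F : N → N) (m q : ℕ) (y : N) : zz F m q y m = zz F m q y 0 := by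
  simp [zz]

theorem zz_mod {N : Type*} (F : N → N) (m q : ℕ) (y : N) (a : ℕ) :
    zz F m q y a = zz F m q y (a % m) := by
  have h : (a * q) % m = (a % m * q) % m := by
    rw [Nat.mul_mod, Nat.mul_mod (a % m) q m, Nat.mod_mod]
  rw [zz, zz, h]

theorem stay_zz {N E : Type*} [NormedAddCommGroup E] (F : N → N) (hinj : Function.Injective F)
    (Src : Set N) (χ : N → E) (y : N) {m q : ℕ} (hq : 1 ≤ q) (hqm : q ≤ m) {Λ e r₀ R₀ : ℝ}
    (hΛ : 1 ≤ Λ) (hR₀ : 0 < R₀) (heR : e ≤ R₀) (hr₀ : R₀ * (4 * Λ) ^ (2 * m / q + 1) ≤ r₀)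
    (hy : y ∈ Src)
    (hstep : ∀ a, zz F m q y a ∈ Src → ‖χ (zz F m q y a) - χ y‖ ≤ r₀ →
      zz F m q y (a + 1) ∈ Src ∧
      ‖χ (zz F m q y (a + 1)) - χ y‖ ≤ Λ * (‖χ (zz F m q y a) - χ y‖ + e))
    (hno : ∀ d, 0 < d → d < q → ∀ b ∈ Src, ∀ b' ∈ Src, ‖χ b - χ y‖ ≤ r₀ →
      ‖χ b' - χ y‖ ≤ r₀ → b ≠ F^[d] b') :
    ∀ a, zz F m q y a ∈ Src ∧ ‖χ (zz F m q y a) - χ y‖ ≤ r₀ := by
  obtain ⟨z', hz'⟩ : ∃ z' : ℕ → N, z' = zz F m q y := ⟨_, rfl⟩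
  rw [← hz'] at hstep ⊢
  have hz0 : z' 0 = y := by rw [hz', zz_zero]
  rcases stay3 Src χ y z' (J := 2 * m / q) hΛ hR₀ heR hr₀
    (by rw [hz0]; exact hy) (by rw [hz0, sub_self, norm_zero]; exact hR₀.le) hstep with h | h
  · exact h
  exfalso
  obtain ⟨τ, hτ1, hτ2⟩ := h
  have hm0 : 0 < m := by omega
  obtain ⟨i, hi, j, hj, hij, eij⟩ := Finset.exists_ne_map_eq_of_card_lt_of_maps_to
    (s := Finset.range (2 * m + 1)) (t := Finset.range (2 * m))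
    (f := fun j => j % q + (τ (j / q) * q) % m) (by simp) (fun j _ => by
      rw [Finset.coe_range, Set.mem_Iio]
      have h1 := Nat.mod_lt j (show 0 < q by omega)
      have h2 := Nat.mod_lt (τ (j / q) * q) hm0
      beta_reduce
      omega)
  rw [Finset.mem_range] at hi hj
  have key : ∀ i j, i < 2 * m + 1 → j < 2 * m + 1 → i ≠ j →
      i % q + (τ (i / q) * q) % m = j % q + (τ (j / q) * q) % m → i % q ≤ j % q → False := by
    intro i j hi hj hij eij hle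
    have hi' : i / q ≤ 2 * m / q := Nat.div_le_div_right (by omega)
    have hj' : j / q ≤ 2 * m / q := Nat.div_le_div_right (by omega)
    obtain ⟨a1, a2⟩ := hτ1 _ hi'
    obtain ⟨b1, b2⟩ := hτ1 _ hj'
    have hzi : ∀ t, F^[t % q] (z' (τ (t / q))) = F^[t % q + (τ (t / q) * q) % m] y := by
      intro t
      rw [hz', zz, ← Function.iterate_add_apply]
    have e1 : F^[i % q] (z' (τ (i / q))) = F^[j % q] (z' (τ (j / q))) := by
      rw [hzi, hzi, eij]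
    have e2 : F^[j % q] (z' (τ (j / q))) =
        F^[i % q] (F^[j % q - i % q] (z' (τ (j / q)))) := by
      rw [← Function.iterate_add_apply, show i % q + (j % q - i % q) = j % q by omega]
    rw [e2] at e1
    have e3 := (hinj.iterate (i % q)) e1
    rcases Nat.eq_or_lt_of_le hle with h0 | h0
    · rw [h0, Nat.sub_self, Function.iterate_zero, id] at e3
      have hne : i / q ≠ j / q := by
        intro hdiv
        apply hij
        rw [← Nat.div_add_mod i q, ← Nat.div_add_mod j q, hdiv, h0]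
      rcases Nat.lt_or_gt_of_ne hne with h | h
      · have := hτ2 _ _ h hj'
        rw [e3] at this
        exact lt_irrefl _ this
      · have := hτ2 _ _ h hi'
        rw [e3] at this
        exact lt_irrefl _ this
    · have h1 := Nat.mod_lt j (show 0 < q by omega)
      exact hno (j % q - i % q) (by omega) (by omega) _ a1 _ b1 a2 b2 e3
  rcases le_total (i % q) (j % q) with h | h
  · exact key i j hi hj hij eij h
  · exact key j i hj hi hij.symm eij.symm h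

/-- numbers -/
theorem num_far {P L r₀ θ x b b' f : ℝ} (hP : 1 ≤ P) (hL : 0 < L) (hr : 0 < r₀) (hθ : 0 < θ)
    (n8 : 4 * L * (P * P) * r₀ ≤ θ) (h1 : θ ≤ x) (h2 : f ≤ P * b') (h3 : b ≤ L * r₀)
    (h4 : b' ≤ L * r₀) (h5 : x ≤ b + f) : False := by
  have h8 : 0 < L * r₀ := by positivity
  have hPP : P ≤ P * P := by nlinarith
  have h6 : P * b' ≤ P * (L * r₀) := mul_le_mul_of_nonneg_left h4 (by linarith)
  have h9 : P * (L * r₀) ≤ P * P * (L * r₀) := mul_le_mul_of_nonneg_right hPP h8.le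
  have h10 : L * r₀ ≤ P * P * (L * r₀) := by nlinarith
  have h11 : 4 * L * (P * P) * r₀ = 4 * (P * P * (L * r₀)) := by ring
  linarith

/-- numbers -/
theorem num_final {m : ℕ} (hm : 1 ≤ m) {c L S Bd r₀ Λ η : ℝ} (hc : 0 < c) (hL : 1 ≤ L)
    (hcL : c * (4 * L) ≤ 1 / 8) (hS : 0 < S) (hΛ : 16 ≤ Λ) (hr0 : 0 < r₀)
    (hr2 : (r₀ * (1024 * Λ ^ 2)) ^ 2 = η ^ 3) (k1 : Bd = c ^ (2 * m) * S)
    (hR₀r : 2 * L * S ≤ r₀) : 3 * (m : ℝ) * L ^ 4 * Bd ^ 2 ≤ η ^ 3 / (8192 * Λ ^ 2) := by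
  have hL0 : 0 < L := by linarith
  have hΛ0 : 0 < Λ := by linarith
  rw [le_div_iff₀ (by positivity), ← hr2]
  have hc64 : c ≤ 1 / 32 := by nlinarith
  have k2 : (m : ℝ) * c ^ (2 * m) ≤ 1 := by
    have h1 : (m : ℝ) ≤ 2 ^ m := by exact_mod_cast Nat.lt_two_pow_self.le
    calc (m : ℝ) * c ^ (2 * m) ≤ 2 ^ m * c ^ (2 * m) := by gcongr
      _ = (2 * c ^ 2) ^ m := by rw [mul_pow, ← pow_mul]
      _ ≤ 1 := pow_le_one₀ (by positivity) (by nlinarith)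
  have k3 : c ^ (2 * m) ≤ c ^ 2 := pow_le_pow_of_le_one hc.le (by linarith) (by omega)
  have k4 : (m : ℝ) * L ^ 2 * (c ^ (2 * m)) ^ 2 ≤ 1 := by
    calc (m : ℝ) * L ^ 2 * (c ^ (2 * m)) ^ 2 = (m * c ^ (2 * m)) * (L ^ 2 * c ^ (2 * m)) := by
          ring
      _ ≤ 1 * (L ^ 2 * c ^ 2) := mul_le_mul k2 (by gcongr) (by positivity) (by norm_num)
      _ ≤ 1 := by
          have : L * c ≤ 1 := by nlinarith
          have h0 : 0 ≤ L * c := by positivity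
          nlinarith
  have k5 : (2 * L * S) ^ 2 ≤ r₀ ^ 2 := pow_le_pow_left₀ (by positivity) hR₀r 2
  calc 3 * (m : ℝ) * L ^ 4 * Bd ^ 2 * (8192 * Λ ^ 2) =
        24576 * (m * L ^ 2 * (c ^ (2 * m)) ^ 2) * (L * S) ^ 2 * Λ ^ 2 := by rw [k1]; ring
    _ ≤ 24576 * 1 * (L * S) ^ 2 * Λ ^ 2 := by gcongr
    _ = 6144 * (2 * L * S) ^ 2 * Λ ^ 2 := by ring
    _ ≤ 6144 * r₀ ^ 2 * Λ ^ 2 := by gcongr
    _ ≤ (r₀ * (1024 * Λ ^ 2)) ^ 2 := by
        have h1 : Λ ^ 2 ≤ Λ ^ 4 := pow_le_pow_right₀ (by linarith) (by norm_num)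
        have h2 : 0 ≤ r₀ ^ 2 := by positivity
        have h3 : (r₀ * (1024 * Λ ^ 2)) ^ 2 = 1048576 * r₀ ^ 2 * Λ ^ 4 := by ring
        rw [h3]
        have h4 : r₀ ^ 2 * Λ ^ 2 ≤ r₀ ^ 2 * Λ ^ 4 := mul_le_mul_of_nonneg_left h1 h2
        nlinarith

/-- numbers -/
theorem num_w {m : ℕ} {L Bd θ' ε w : ℝ} (hθ' : 0 < θ') (hε : 0 ≤ ε)
    (h1 : θ' * w ^ 2 ≤ 3 * m * (L * ε) ^ 2) (hnum : 3 * (m : ℝ) * L ^ 4 * Bd ^ 2 ≤ θ') :
    L * w * Bd ≤ ε := by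
  have h3 : (L * w * Bd) ^ 2 ≤ ε ^ 2 := by
    have h4 : θ' * (L * w * Bd) ^ 2 ≤ θ' * ε ^ 2 := by
      calc θ' * (L * w * Bd) ^ 2 = (θ' * w ^ 2) * (L ^ 2 * Bd ^ 2) := by ring
        _ ≤ (3 * m * (L * ε) ^ 2) * (L ^ 2 * Bd ^ 2) := mul_le_mul_of_nonneg_right h1 (by positivity)
        _ = (3 * (m : ℝ) * L ^ 4 * Bd ^ 2) * ε ^ 2 := by ring
        _ ≤ θ' * ε ^ 2 := mul_le_mul_of_nonneg_right hnum (by positivity)
    exact le_of_mul_le_mul_left h4 hθ'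
  exact (abs_le_of_sq_le_sq' h3 hε).2

end Pool.Agent.U882.RS
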