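import Pool.Agent.U882.RS.Key3
import Pool.Agent.U882.RS.Clo1b

/-!
# Pseudo-cycles near an isolated return
-/

set_option autoImplicit false

open scoped Manifold ContDiff Topology
open Filter Set Metric

universe u

namespace Pool.Agent.U882.RS

open Pool.Agent.H718R2.G Pool.Agent.W564.SC Pool.Agent.W509.SC Pool.Agent.Y368.CL
  Pool.Agent.N813.OF Pool.Agent.N813.EM Pool.Agent.TH80.OMS

section

variable {n : ℕ} {N : Type u} [MetricSpace N] [ChartedSpace (V n) N] {r : ℕ∞}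

/-- A pseudo-cycle through `y`, with the error `ε`, is close to the periodic point `p` of period `q`
near `y`. -/
def KeyC (F : N → N) (A : ℕ) (c : ℝ) (y : N) : Prop :=
  ∀ (m q : ℕ) (θ ε : ℝ) (p : N), 1 ≤ q → q ≤ m → 0 < θ → θ ≤ 1 →
    (∀ l, 0 < l → l < q → θ ≤ dist y (F^[l] y)) →
    dist (F^[q] y) y ≤ c ^ (2 * (2 * m)) * (c * θ) ^ A → 0 ≤ ε →
    ε ≤ c ^ (2 * (2 * m)) * (c * θ) ^ A →
    (∀ a, dist (F^[q] (zz F m q y a)) (zz F m q y (a + 1)) ≤ ε) →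
    F^[q] p = p → dist p y ≤ c ^ (2 * (2 * m)) * (c * θ) ^ A →
    ∀ a, dist (zz F m q y a) p * (c ^ (2 * (2 * m)) * (c * θ) ^ A) ≤ ε

omit [ChartedSpace (V n) N] in
theorem KeyC.mono {F : N → N} {A A' : ℕ} {c c' : ℝ} {y : N} (h : KeyC F A c y)
    (hA : A ≤ A') (hc' : 0 < c') (hcc : c' ≤ c) (hc1 : c ≤ 1) : KeyC F A' c' y := by
  intro m q θ ε p h1 h2 h3 h4 h5 h6 h7 h8 h9 h10 h11 a
  have hle : c' ^ (2 * (2 * m)) * (c' * θ) ^ A' ≤ c ^ (2 * (2 * m)) * (c * θ) ^ A := by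
    have a1 : c' ^ (2 * (2 * m)) ≤ c ^ (2 * (2 * m)) := pow_le_pow_left₀ hc'.le hcc _
    have a2 : (c' * θ) ^ A' ≤ (c * θ) ^ A' :=
      pow_le_pow_left₀ (by positivity) (mul_le_mul_of_nonneg_right hcc h3.le) _
    have a3 : (c * θ) ^ A' ≤ (c * θ) ^ A := by
      refine pow_le_pow_of_le_one (by have := hc'.trans_le hcc; positivity) ?_ hA
      have := hc'.trans_le hcc
      nlinarith
    have := hc'.trans_le hcc
    exact mul_le_mul a1 (a2.trans a3) (by positivity) (by positivity)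
  have h12 := h m q θ ε p h1 h2 h3 h4 h5 (h6.trans hle) h7 (h8.trans hle) h9 h10 (h11.trans hle) a
  exact (mul_le_mul_of_nonneg_left hle dist_nonneg).trans h12

end

section

variable {n : ℕ} {N : Type u} [MetricSpace N] [CompactSpace N] [ChartedSpace (V n) N]
  [IsManifold (𝓡 n) ∞ N] {r : ℕ∞}

theorem keyC_local (hr : 2 ≤ r) (hN : ChartLip n N) (F : DiffM n N r)
    (hF : OmegaStable n N r F) (z : N) :
    ∃ (k : ℕ) (c : ℝ), 2 ≤ k ∧ 0 < c ∧ c ≤ 1 ∧ ∀ᶠ y in 𝓝 z, KeyC F (Ak k) c y := by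
  have hr1 : (1 : ℕ∞) ≤ r := le_trans (by norm_num) hr
  obtain ⟨χ, hχ⟩ := Pool.Agent.W699.SC.gc n N z
  obtain ⟨k₀, hk₀, hkr₀, κ₀, hκ₀, hrob₀⟩ := robust hr1 F hF χ z hχ
  obtain ⟨k, hk, hkk⟩ : ∃ k : ℕ, 2 ≤ k ∧ k₀ ≤ k := ⟨max k₀ 2, le_max_right _ _, le_max_left _ _⟩
  obtain ⟨κ, hκ, hκ8, hrob⟩ : ∃ κ : ℝ, 0 < κ ∧ κ ≤ 1 / 8 ∧ RobustAt F χ k κ :=
    ⟨min κ₀ (1 / 8), by positivity, min_le_right _ _,
      robustAt_mono hrob₀ hkk (min_le_left _ _) ((min_le_right _ _).trans (by norm_num))⟩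
  obtain ⟨L₀, hL₀, hlip₀⟩ := hN χ z hχ
  obtain ⟨L, hL, hlip⟩ : ∃ L : ℝ, 1 ≤ L ∧ ∀ y ∈ χ.source, ∀ y' ∈ χ.source, ‖χ y‖ ≤ 1 / 2 →
      ‖χ y'‖ ≤ 1 / 2 → dist y y' ≤ L * ‖χ y - χ y'‖ ∧ ‖χ y - χ y'‖ ≤ L * dist y y' := by
    refine ⟨max 1 L₀, le_max_left _ _, fun y hy y' hy' h1 h2 => ?_⟩
    obtain ⟨h3, h4⟩ := hlip₀ y hy y' hy' h1 h2
    exact ⟨h3.trans (mul_le_mul_of_nonneg_right (le_max_right _ _) (norm_nonneg _)),
      h4.trans (mul_le_mul_of_nonneg_right (le_max_right _ _) dist_nonneg)⟩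
  obtain ⟨δ, hδ, hclose⟩ := unif_close hχ
  obtain ⟨Λ₁, Q, hΛ₁, hΛQ, hQ, hbil, hDB⟩ := derBd_pow2 hr hN F χ z hχ
  have hL0 : 0 < L := by linarith
  obtain ⟨A, hA⟩ : ∃ A : ℝ, A = 2048 * L * (4 * Q) ^ 4 := ⟨_, rfl⟩
  have hA0 : 0 < A := by rw [hA]; positivity
  obtain ⟨c, hc, hc1, hc2, hc3, hc4⟩ : ∃ c : ℝ, 0 < c ∧ c ≤ κ / (4 * L) ∧ c * A ≤ κ ^ 2 ∧
      c ≤ δ / 2 ∧ c ≤ 1 := by
    refine ⟨min (min (κ / (4 * L)) (κ ^ 2 / A)) (min (δ / 2) 1), by positivity, ?_, ?_, ?_, ?_⟩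
    · exact (min_le_left _ _).trans (min_le_left _ _)
    · rw [← le_div_iff₀ hA0]
      exact (min_le_left _ _).trans (min_le_right _ _)
    · exact (min_le_right _ _).trans (min_le_left _ _)
    · exact (min_le_right _ _).trans (min_le_right _ _)
  refine ⟨k, c, hk, hc, hc4, ?_⟩
  have hnear : ∀ᶠ y in 𝓝 z, y ∈ χ.source ∧ ‖χ y‖ < κ := by
    have h5 : ∀ᶠ y in 𝓝 z, ‖χ y‖ < κ := by
      refine (χ.continuousAt hχ.src).norm.eventually_lt_const ?_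
      beta_reduce
      rw [hχ.zero, norm_zero]
      exact hκ
    filter_upwards [χ.open_source.mem_nhds hχ.src, h5] with y h6 h7
    exact ⟨h6, h7⟩
  filter_upwards [hnear] with y hy
  obtain ⟨hy, hyκ⟩ := hy
  intro m q θ ε p hq hqm hθ hθ1 hfar hret hε0 hεB hps hp hpy
  obtain ⟨n1, n2, n3, n4, n5, n6, n7, n8⟩ := nums3 (s := 2 * m) hk (Ak_ge hk) (Ak_ge2 k) hq
    (by omega) hc hθ hθ1 hL hκ hκ8 hQ hΛ₁ hΛQ hc1 (by rw [← hA]; exact hc2) hc3 hδ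
  obtain ⟨Bd, hBd⟩ : ∃ Bd : ℝ, Bd = c ^ (2 * (2 * m)) * (c * θ) ^ Ak k := ⟨_, rfl⟩
  obtain ⟨S, hS⟩ : ∃ S : ℝ, S = c ^ (2 * m) * (c * θ) ^ Ak k := ⟨_, rfl⟩
  rw [← hBd] at hret hεB n1 n2 n3 n5 n6 n7 hpy ⊢
  rw [← hS] at n4 n5 n6
  have hBd0 : 0 < Bd := by rw [hBd]; positivity
  have hS0 : 0 < S := by rw [hS]; positivity
  -- the point F^q y
  have hy8 : ‖χ y‖ ≤ 1 / 8 := by linarith
  have hFyd : dist y (F^[q] y) < δ := by rw [dist_comm]; linarith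
  obtain ⟨hFy, hFy2⟩ := hclose y hy (by linarith) _ hFyd
  obtain ⟨e, he⟩ : ∃ e : ℝ, e = L * Bd := ⟨_, rfl⟩
  have hFe : ‖χ (F^[q] y) - χ y‖ ≤ e := by
    rw [he]
    exact (hlip _ hFy _ hy hFy2.le (by linarith)).2.trans (mul_le_mul_of_nonneg_left hret hL0.le)
  rw [← he] at n2 n3
  have he0 : 0 < e := by rw [he]; positivity
  have hFy4 : ‖χ (F^[q] y)‖ ≤ 1 / 4 := by
    have e1 : χ (F^[q] y) = (χ (F^[q] y) - χ y) + χ y := by abel
    rw [e1]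
    refine (norm_add_le _ _).trans ?_
    linarith
  -- the close return
  obtain ⟨ρ, hρ⟩ : ∃ ρ : ℝ, ρ = κ * θ / (4 * L) := ⟨_, rfl⟩
  have hρ0 : 0 < ρ := by rw [hρ]; positivity
  have hκθ : κ * θ ≤ κ := by nlinarith
  have hρκ : ρ < κ := by
    rw [hρ, div_lt_iff₀ (by positivity)]
    nlinarith
  have hρL : ρ * (4 * L) = κ * θ := by rw [hρ]; field_simp
  rw [← hρ] at n2 n4 n8
  have hCR : CloseRet F χ k κ ρ q y := by
    refine ⟨hy, hyκ, hρ0, hρκ, hq, hFy, hFe.trans n2, ?_⟩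
    intro l hl hlm hFl
    by_cases h1 : ‖χ (F^[l] y)‖ ≤ 1 / 2
    · have h2 := (hlip _ hFl _ hy h1 (by linarith)).1
      have h3 := hfar l hl hlm
      rw [dist_comm] at h3
      have h4 : θ ≤ L * ‖χ (F^[l] y) - χ y‖ := h3.trans h2
      have h5 : 2 * ρ * L ≤ L * ‖χ (F^[l] y) - χ y‖ := by
        have : 2 * ρ * L = κ * θ / 2 := by linarith
        nlinarith
      rw [mul_comm] at h5
      exact le_of_mul_le_mul_left h5 hL0
    · push Not at h1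
      have h2 := norm_sub_norm_le (χ (F^[l] y)) (χ y)
      linarith
  obtain ⟨η, hη⟩ : ∃ η : ℝ, η = κ * ρ ^ (k - 1) := ⟨_, rfl⟩
  have hrobD : ∀ D : V n →L[ℝ] V n, DerAt F χ q y D → Rob D η := fun D hD => by
    rw [hη]
    exact rob_of_robustAt hrob hCR hD
  rw [← hη] at n4 n8
  have hη0 : 0 < η := by rw [hη]; positivity
  have hη1 : η ≤ 1 := by
    rw [hη]
    have : ρ ^ (k - 1) ≤ 1 := pow_le_one₀ hρ0.le (by linarith)
    nlinarith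
  obtain ⟨Λ, hΛ⟩ : ∃ Λ : ℝ, Λ = Q ^ q := ⟨_, rfl⟩
  have hΛ16 : 16 ≤ Λ := by
    rw [hΛ]
    calc (16 : ℝ) ≤ Q := hQ
      _ = Q ^ 1 := (pow_one Q).symm
      _ ≤ Q ^ q := pow_le_pow_right₀ (by linarith) hq
  have hDm := hDB q hq
  rw [← hΛ] at n4 n8 hDm
  have hΛ0 : 0 < Λ := by linarith
  obtain ⟨r₀, hr₀⟩ : ∃ r₀ : ℝ, r₀ = Real.sqrt (η ^ 3) / (1024 * Λ ^ 2) := ⟨_, rfl⟩
  rw [← hr₀] at n4 n8
  have hη3 : 0 < η ^ 3 := by positivity
  have hsq0 : 0 < Real.sqrt (η ^ 3) := Real.sqrt_pos.2 hη3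
  have hr₀0 : 0 < r₀ := by rw [hr₀]; positivity
  have hrmul : r₀ * (1024 * Λ ^ 2) = Real.sqrt (η ^ 3) := by
    rw [hr₀]; field_simp
  have hsq1 : Real.sqrt (η ^ 3) ≤ 1 := by
    rw [Real.sqrt_le_one]
    exact pow_le_one₀ hη0.le hη1
  have hr2 : (r₀ * (1024 * Λ ^ 2)) ^ 2 = η ^ 3 := by
    rw [hrmul, Real.sq_sqrt hη3.le]
  have hrβ : 64 * (Λ * r₀) ^ 2 ≤ η ^ 3 / (8192 * Λ ^ 2) := by
    rw [le_div_iff₀ (by positivity), ← hr2]
    have h3 : 0 ≤ Λ ^ 4 * r₀ ^ 2 := by positivity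
    nlinarith
  have hr₀Λ : 64 * Λ * r₀ ≤ 1 := by
    calc 64 * Λ * r₀ = r₀ * (64 * Λ) := by ring
      _ ≤ r₀ * (1024 * Λ ^ 2) := by
          refine mul_le_mul_of_nonneg_left ?_ hr₀0.le
          nlinarith
      _ ≤ 1 := by rw [hrmul]; exact hsq1
  have hr₀i : r₀ ≤ Λ⁻¹ / 4 := by
    rw [le_div_iff₀ (by norm_num), le_inv_comm₀ (by positivity) hΛ0]
    rw [le_inv_comm₀ hΛ0 (by positivity), ← one_div, le_div_iff₀ hΛ0]
    nlinarith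
  have hΛi : Λ⁻¹ ≤ 1 / 16 := by
    rw [← one_div]
    exact one_div_le_one_div_of_le (by norm_num) hΛ16
  have hΛi0 : 0 < Λ⁻¹ := by positivity
  have hr₀64 : r₀ ≤ 1 / 64 := by linarith
  -- the radius R₀
  obtain ⟨R₀, hR₀⟩ : ∃ R₀ : ℝ, R₀ = 2 * L * S := ⟨_, rfl⟩
  rw [← hR₀] at n4
  have hR₀0 : 0 < R₀ := by rw [hR₀]; positivity
  have heR : 2 * e ≤ R₀ := by rw [he, hR₀]; nlinarith
  have hR₀r : R₀ ≤ r₀ := by
    refine le_trans ?_ n4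
    have : 1 ≤ (4 * Λ) ^ (2 * m / q + 1) := one_le_pow₀ (by linarith)
    nlinarith
  have him : |(q : ℤ)| ≤ 2 * q := by
    rw [abs_of_nonneg (by positivity)]
    omega
  have hnorm4 : ∀ b : N, ‖χ b - χ y‖ ≤ r₀ → ‖χ b‖ ≤ 1 / 4 := by
    intro b hb
    have e1 : χ b = (χ b - χ y) + χ y := by abel
    rw [e1]
    refine (norm_add_le _ _).trans ?_
    linarith
  have hdistS : ∀ b ∈ χ.source, ‖χ b - χ y‖ ≤ r₀ → dist b y ≤ L * r₀ := fun b hb h1 =>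
    (hlip b hb y hy ((hnorm4 b h1).trans (by norm_num)) (by linarith)).1.trans
      (mul_le_mul_of_nonneg_left h1 hL0.le)
  -- forward
  have hfw : ∀ b ∈ χ.source, ‖χ b - χ y‖ ≤ r₀ →
      F^[q] b ∈ χ.source ∧ ‖χ (F^[q] b) - χ y‖ ≤ Λ * (‖χ b - χ y‖ + e) := by
    intro b hb hbr
    have h1 := hDm.h1 (q : ℤ) him y hy b hb (by linarith) (hnorm4 b hbr)
      (by rw [norm_sub_rev]; linarith) (by rw [it_nat]; exact hFy) (by rw [it_nat]; exact hFy4)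
    rw [it_nat] at h1
    refine ⟨h1.1, ?_⟩
    have e1 : χ (F^[q] b) - χ y = (χ (F^[q] y) - χ y) - (χ (F^[q] y) - χ (F^[q] b)) := by abel
    rw [e1]
    refine (norm_sub_le _ _).trans ?_
    have h2 := h1.2
    rw [norm_sub_rev (χ y)] at h2
    nlinarith
  obtain ⟨z', hz'⟩ : ∃ z' : ℕ → N, z' = zz F m q y := ⟨_, rfl⟩
  rw [← hz'] at hps ⊢
  -- one step of the pseudo-orbit
  have hjump : ∀ a, z' a ∈ χ.source → ‖χ (z' a) - χ y‖ ≤ r₀ → z' (a + 1) ∈ χ.source ∧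
      ‖χ (z' (a + 1)) - χ (F^[q] (z' a))‖ ≤ L * ε := by
    intro a ha har
    obtain ⟨h1, h2⟩ := hfw _ ha har
    have h3 : ‖χ (F^[q] (z' a))‖ ≤ 1 / 4 := by
      have e1 : χ (F^[q] (z' a)) = (χ (F^[q] (z' a)) - χ y) + χ y := by abel
      rw [e1]
      refine (norm_add_le _ _).trans ?_
      have h4 : Λ * (‖χ (z' a) - χ y‖ + e) ≤ Λ * (r₀ + r₀) :=
        mul_le_mul_of_nonneg_left (by linarith) hΛ0.le
      nlinarith
    obtain ⟨h4, h5⟩ := hclose _ h1 h3 _ (lt_of_le_of_lt ((hps a).trans hεB) n1)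
    refine ⟨h4, ?_⟩
    have h6 := (hlip _ h4 _ h1 h5.le (by linarith)).2
    rw [dist_comm] at h6
    exact h6.trans (mul_le_mul_of_nonneg_left (hps a) hL0.le)
  have hLε : L * ε ≤ e := by rw [he]; exact mul_le_mul_of_nonneg_left hεB hL0.le
  have hstep : ∀ a, z' a ∈ χ.source → ‖χ (z' a) - χ y‖ ≤ r₀ →
      z' (a + 1) ∈ χ.source ∧ ‖χ (z' (a + 1)) - χ y‖ ≤ Λ * (‖χ (z' a) - χ y‖ + 2 * e) := by
    intro a ha har
    obtain ⟨h1, h2⟩ := hjump a ha har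
    refine ⟨h1, ?_⟩
    have h3 := (hfw _ ha har).2
    have e1 : χ (z' (a + 1)) - χ y = (χ (z' (a + 1)) - χ (F^[q] (z' a))) +
      (χ (F^[q] (z' a)) - χ y) := by abel
    rw [e1]
    refine (norm_add_le _ _).trans ?_
    nlinarith
  -- the points `F^i b`, `i < q`, for `b` near `y`, are different
  have hbilq : ∀ i < q, ∀ a b : N, dist (F^[i] a) (F^[i] b) ≤ Λ₁ ^ q * dist a b := by
    intro i hi a b
    exact (hbil.iter hΛ₁ hi.le a b).1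
  obtain ⟨P, hP⟩ : ∃ P : ℝ, P = Λ₁ ^ q := ⟨_, rfl⟩
  have hP1 : 1 ≤ P := by rw [hP]; exact one_le_pow₀ hΛ₁
  have hPP : Λ₁ ^ (2 * q) = P * P := by rw [hP, two_mul, pow_add]
  rw [← hP] at hbilq
  rw [hPP] at n8
  have hno : ∀ d, 0 < d → d < q → ∀ b ∈ χ.source, ∀ b' ∈ χ.source, ‖χ b - χ y‖ ≤ r₀ →
      ‖χ b' - χ y‖ ≤ r₀ → b ≠ F^[d] b' := by
    intro d hd hdq b hb b' hb' hbr hbr' hbb
    have h1 := hfar d hd hdq
    have h2 := hbilq d hdq b' y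
    have h3 := hdistS b hb hbr
    have h4 := hdistS b' hb' hbr'
    rw [← hbb] at h2
    have h5 := dist_triangle y b (F^[d] y)
    rw [dist_comm y b] at h5
    exact num_far hP1 hL0 hr₀0 hθ n8 h1 h2 h3 h4 h5
  have hstay : ∀ a, z' a ∈ χ.source ∧ ‖χ (z' a) - χ y‖ ≤ r₀ := by
    rw [hz'] at hstep ⊢
    exact stay_zz F F.injective χ.source χ y hq hqm (by linarith) hR₀0 heR n4 hy hstep hno
  -- the periodic point
  have hpδ : dist y p < δ := by rw [dist_comm]; exact hpy.trans_lt n1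
  obtain ⟨hpS, hp2⟩ := hclose y hy (by linarith) _ hpδ
  have hpr : ‖χ p - χ y‖ ≤ r₀ := by
    refine ((hlip _ hpS _ hy hp2.le (by linarith)).2.trans
      (mul_le_mul_of_nonneg_left hpy hL0.le)).trans ?_
    rw [← he]
    linarith
  obtain ⟨D, hDer, hDn, hDloc⟩ := local_data F hΛ16 hDm hy hy8 hFy hFy4
  have hres := resol_of_rob hη0 hη1 (show 1 ≤ Λ by linarith) hDn (hrobD D hDer)
  have hm1 : 1 ≤ m := by omega
  have hzm : z' m = z' 0 := by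
    rw [hz']
    exact zz_self F m q y
  have hcyc := cyclic_bd (β := Λ * r₀) (e := L * ε) hres (by positivity) (by positivity)
    (by positivity) hrβ hm1 (fun a => χ (z' a) - χ p) (by rw [hzm]) (fun a _ => by
      have h1 := hDloc r₀ (by linarith) (z' a) (hstay a).1 p hpS (hstay a).2 hpr
      have h2 := (hjump a (hstay a).1 (hstay a).2).2
      rw [hp] at h1
      have e1 : χ (z' (a + 1)) - χ p - D (χ (z' a) - χ p) =
        (χ (z' (a + 1)) - χ (F^[q] (z' a))) + (χ (F^[q] (z' a)) - χ p - D (χ (z' a) - χ p)) := by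
        abel
      rw [e1]
      refine (norm_add_le _ _).trans ?_
      linarith)
  -- the final estimate
  have hnum : 3 * (m : ℝ) * L ^ 4 * Bd ^ 2 ≤ η ^ 3 / (8192 * Λ ^ 2) := by
    refine num_final hm1 hc hL ?_ hS0 hΛ16 hr₀0 hr2 ?_ ?_
    · rw [le_div_iff₀ (by positivity)] at hc1
      linarith
    · rw [hBd, hS, two_mul (2 * m), pow_add]
      ring
    · rw [← hR₀]
      exact hR₀r
  have hlt : ∀ a < m, dist (z' a) p * Bd ≤ ε := by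
    intro a ha
    have h2 := (hlip _ (hstay a).1 _ hpS ((hnorm4 _ (hstay a).2).trans (by norm_num))
      ((hnorm4 _ hpr).trans (by norm_num))).1
    exact (mul_le_mul_of_nonneg_right h2 hBd0.le).trans (num_w (by positivity) hε0 (hcyc a ha) hnum)
  intro a
  have hza : z' a = z' (a % m) := by
    rw [hz']
    exact zz_mod F m q y a
  rw [hza]
  exact hlt _ (Nat.mod_lt _ (by omega))

end

end Pool.Agent.U882.RS
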