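import Pool.Agent.U882.RS.Key2

/-!
# Thin invariant sets of `Ω`-stable diffeomorphisms are finite
-/

set_option autoImplicit false

open scoped Manifold ContDiff Topology
open Filter Set Metric

universe u

namespace Pool.Agent.U882.RS

open Pool.Agent.H718R2.G Pool.Agent.W564.SC Pool.Agent.W509.SC Pool.Agent.Y368.CL
  Pool.Agent.N813.OF Pool.Agent.N813.EM Pool.Agent.TH80.OMS

/-- the exponents: `g 0 = 0`, `g m = m + a (2 + g (m / 2))` -/
def gf (a : ℕ) : ℕ → ℕ
  | 0 => 0
  | m + 1 => (m + 1) + a * (2 + gf a ((m + 1) / 2))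
decreasing_by omega

theorem gf_pos {a m : ℕ} (hm : 1 ≤ m) : gf a m = m + a * (2 + gf a (m / 2)) := by
  obtain ⟨m, rfl⟩ : ∃ m', m = m' + 1 := ⟨m - 1, by omega⟩
  rw [gf]

theorem gf_step (a m : ℕ) : gf a m ≤ gf a (m + 1) := by
  induction m using Nat.strong_induction_on with
  | _ m ih =>
    rcases Nat.eq_zero_or_pos m with h | h
    · subst h
      rw [gf]
      exact Nat.zero_le _
    · rw [gf_pos h, gf_pos (show 1 ≤ m + 1 by omega)]
      have h1 : gf a (m / 2) ≤ gf a ((m + 1) / 2) := by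
        rcases (show (m + 1) / 2 = m / 2 ∨ (m + 1) / 2 = m / 2 + 1 by omega) with h2 | h2
        · rw [h2]
        · rw [h2]
          exact ih (m / 2) (by omega)
      have := Nat.mul_le_mul_left a (Nat.add_le_add_left h1 2)
      omega

theorem gf_mono (a : ℕ) : Monotone (gf a) := monotone_nat_of_le_succ (gf_step a)

theorem gf_le {a : ℕ} (ha : 1 ≤ a) (m : ℕ) (hm : 1 ≤ m) :
    (gf a m : ℝ) ≤ (a + 1) * (1 + 2 * a) * (m : ℝ) ^ Real.logb 2 (a + 1) := by
  have haR : (1 : ℝ) ≤ a := by exact_mod_cast ha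
  obtain ⟨q, hq⟩ : ∃ q : ℝ, q = Real.logb 2 (a + 1) := ⟨_, rfl⟩
  rw [← hq]
  have h2q : (2 : ℝ) ^ q = a + 1 := by
    rw [hq]
    exact Real.rpow_logb (by norm_num) (by norm_num) (by positivity)
  have hq1 : 1 ≤ q := by
    rw [hq, Real.le_logb_iff_rpow_le (by norm_num) (by positivity), Real.rpow_one]
    linarith
  induction m using Nat.strong_induction_on with
  | _ m ih =>
    rw [gf_pos hm]
    have hmR : (1 : ℝ) ≤ m := by exact_mod_cast hm
    have hmq : (m : ℝ) ≤ (m : ℝ) ^ q := by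
      calc (m : ℝ) = (m : ℝ) ^ (1 : ℝ) := (Real.rpow_one _).symm
        _ ≤ (m : ℝ) ^ q := Real.rpow_le_rpow_of_exponent_le hmR hq1
    have h1 : (gf a (m / 2) : ℝ) ≤ (1 + 2 * a) * (m : ℝ) ^ q := by
      rcases Nat.eq_zero_or_pos (m / 2) with h | h
      · rw [h, gf]
        simp only [Nat.cast_zero]
        positivity
      · refine (ih (m / 2) (by omega) h).trans ?_
        have h2 : ((m / 2 : ℕ) : ℝ) ≤ m / 2 := Nat.cast_div_le
        have h3 : ((m / 2 : ℕ) : ℝ) ^ q ≤ (m : ℝ) ^ q / (a + 1) := by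
          calc ((m / 2 : ℕ) : ℝ) ^ q ≤ ((m : ℝ) / 2) ^ q :=
                Real.rpow_le_rpow (by positivity) h2 (by linarith)
            _ = (m : ℝ) ^ q / 2 ^ q := Real.div_rpow (by positivity) (by norm_num) q
            _ = _ := by rw [h2q]
        calc ((a : ℝ) + 1) * (1 + 2 * (a : ℝ)) * ((m / 2 : ℕ) : ℝ) ^ q ≤
            (a + 1) * (1 + 2 * a) * ((m : ℝ) ^ q / (a + 1)) := by gcongr
          _ = _ := by field_simp
    have h4 : (a : ℝ) * gf a (m / 2) ≤ a * ((1 + 2 * a) * (m : ℝ) ^ q) :=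
      mul_le_mul_of_nonneg_left h1 (by linarith)
    have h5 : 2 * (a : ℝ) ≤ 2 * a * (m : ℝ) ^ q := by
      have : 1 ≤ (m : ℝ) ^ q := hmR.trans hmq
      nlinarith
    push_cast
    nlinarith

section

variable {n : ℕ} {N : Type u} [MetricSpace N] [ChartedSpace (V n) N] {r : ℕ∞}

theorem select (hn : 1 ≤ n) {F : DiffM n N r} {k s : ℕ} (hk : 1 ≤ k) (hs : 1 ≤ s) {c : ℝ}
    (hc : 0 < c) (hc2 : c ≤ 1 / 2) {K : Set N} (hkey : ∀ y ∈ K, KeyAt F k c y)
    (hFK : MapsTo F K K) (hFK' : MapsTo F.symm K K) {ε : ℝ} (hε0 : 0 < ε) (hcov : CovBy K s ε)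
    (hε : 2 * ε ≤ c ^ (s * gf (n * k) s)) (x : N) (hx : x ∈ K) :
    ∀ v ∈ K, dist v x ≤ c ^ (s * gf (n * k) s) → v = x := by
  classical
  obtain ⟨a, ha⟩ : ∃ a, a = n * k := ⟨_, rfl⟩
  have ha1 : 1 ≤ a := by rw [ha]; exact Nat.one_le_iff_ne_zero.2 (by positivity)
  rw [← ha] at hε ⊢
  obtain ⟨E, hE⟩ : ∃ E : ℕ → ℝ, E = fun m => c ^ (s * gf a m) := ⟨_, rfl⟩
  have hEpos : ∀ m, 0 < E m := fun m => by rw [hE]; positivity
  have hEanti : ∀ i j, i ≤ j → E j ≤ E i := fun i j hij => by
    rw [hE]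
    exact pow_le_pow_of_le_one hc.le (by linarith) (Nat.mul_le_mul_left s (gf_mono a hij))
  have hE1 : ∀ m, E m ≤ 1 := fun m => by
    rw [hE]
    exact pow_le_one₀ hc.le (by linarith)
  -- the fundamental inequality
  have hEstep : ∀ m, 1 ≤ m → E m ≤ c ^ (s * m) * (c * (E (m / 2) / 2)) ^ a := by
    intro m hm
    rw [hE]
    simp only
    rw [gf_pos hm]
    have h1 : c * (c ^ (s * gf a (m / 2)) * c) ≤ c * (c ^ (s * gf a (m / 2)) / 2) := by
      refine mul_le_mul_of_nonneg_left ?_ hc.le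
      rw [div_eq_mul_one_div]
      exact mul_le_mul_of_nonneg_left hc2 (by positivity)
    calc c ^ (s * (m + a * (2 + gf a (m / 2)))) ≤
          c ^ (s * m + (2 + s * gf a (m / 2)) * a) := by
          refine pow_le_pow_of_le_one hc.le (by linarith) ?_
          have h2 : 2 * a ≤ s * (2 * a) := Nat.le_mul_of_pos_left _ hs
          calc s * m + (2 + s * gf a (m / 2)) * a = s * m + (2 * a + s * (a * gf a (m / 2))) := by
                ring
            _ ≤ s * m + (s * (2 * a) + s * (a * gf a (m / 2))) := by omega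
            _ = _ := by ring
      _ = c ^ (s * m) * (c * (c ^ (s * gf a (m / 2)) * c)) ^ a := by
          rw [pow_add]
          congr 1
          rw [pow_mul]
          congr 1
          ring
      _ ≤ _ := mul_le_mul_of_nonneg_left (pow_le_pow_left₀ (by positivity) h1 a) (by positivity)
  have hEhalf : ∀ m, 1 ≤ m → E m ≤ E (m / 2) / 2 := by
    intro m hm
    have h1 : gf a (m / 2) + 1 ≤ gf a m := by
      rw [gf_pos hm]
      have : 1 * gf a (m / 2) ≤ a * gf a (m / 2) := Nat.mul_le_mul_right _ ha1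
      nlinarith
    rw [hE]
    simp only
    calc c ^ (s * gf a m) ≤ c ^ (s * gf a (m / 2) + 1) := by
          refine pow_le_pow_of_le_one hc.le (by linarith) ?_
          have := Nat.mul_le_mul_left s h1
          nlinarith
      _ = c ^ (s * gf a (m / 2)) * c := by rw [pow_succ]
      _ ≤ c ^ (s * gf a (m / 2)) * (1 / 2) := mul_le_mul_of_nonneg_left hc2 (by positivity)
      _ = _ := by ring
  have hEs : c ^ (s * gf a s) = E s := by rw [hE]
  rw [hEs] at hε ⊢
  have hiter : ∀ t, F^[t] x ∈ K := by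
    intro t
    induction t with
    | zero => exact hx
    | succ t ih => rw [Function.iterate_succ_apply']; exact hFK ih
  -- the shortest return
  have hex : ∃ m, 1 ≤ m ∧ ∃ i, i + m ≤ s ∧ dist (F^[i] x) (F^[i + m] x) < E m := by
    obtain ⟨i, j, hij, hj, hd⟩ := hcov.exists_close (fun l => F^[l] x) (fun l _ => hiter l)
    refine ⟨j - i, by omega, i, by omega, ?_⟩
    rw [show i + (j - i) = j by omega]
    exact hd.trans_le (hε.trans (hEanti _ _ (by omega)))
  obtain ⟨m, hm⟩ : ∃ m, m = Nat.find hex := ⟨_, rfl⟩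
  have hspec := Nat.find_spec hex
  rw [← hm] at hspec
  have hmin : ∀ l, 1 ≤ l → l < m → ∀ i, i + l ≤ s → E l ≤ dist (F^[i] x) (F^[i + l] x) := by
    intro l hl hlm i hi
    by_contra hcon
    rw [hm] at hlm
    exact Nat.find_min hex hlm ⟨hl, i, hi, not_le.1 hcon⟩
  obtain ⟨hm1, i₀, hi₀, hd₀⟩ := hspec
  have hmain : ∀ i, i + m ≤ s → dist (F^[i] x) (F^[i + m] x) < E m →
      F^[m] (F^[i] x) = F^[i] x ∧ ∀ v ∈ K, dist v (F^[i] x) ≤ E m → v = F^[i] x := by
    intro i hi hd
    have hshift : ∀ l, F^[l] (F^[i] x) = F^[i + l] x := fun l => by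
      rw [← Function.iterate_add_apply, add_comm]
    have hfar : ∀ l, 0 < l → l < m → E (m / 2) / 2 ≤ dist (F^[i] x) (F^[l] (F^[i] x)) := by
      intro l hl hlm
      rw [hshift]
      rcases (show l ≤ m / 2 ∨ m - l ≤ m / 2 by omega) with h1 | h1
      · have h2 := hmin l hl hlm i (by omega)
        have h3 := hEanti l (m / 2) h1
        have := hEpos (m / 2)
        linarith
      · have h2 := hmin (m - l) (by omega) (by omega) (i + l) (by omega)
        rw [show i + l + (m - l) = i + m by omega] at h2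
        have h3 := hEanti (m - l) (m / 2) h1
        have h4 := dist_triangle_left (F^[i + l] x) (F^[i + m] x) (F^[i] x)
        have h5 := hEhalf m hm1
        linarith
    have h6 := hkey _ (hiter i) s m K ε (E (m / 2) / 2) hm1 (by omega) hFK hFK' hcov (hiter i)
      (by have := hEpos (m / 2); positivity) (by have := hE1 (m / 2); linarith) hfar ?_ ?_
    · refine ⟨h6.1, fun v hv hvd => h6.2 v hv (hvd.trans ?_)⟩
      rw [← ha]
      exact hEstep m hm1
    · rw [← ha, hshift, dist_comm]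
      exact hd.le.trans (hEstep m hm1)
    · rw [← ha]
      have h7 : ε ≤ E s := by linarith
      exact h7.trans ((hEanti m s (by omega)).trans (hEstep m hm1))
  -- x itself is periodic
  obtain ⟨hper, -⟩ := hmain i₀ hi₀ hd₀
  have hperx : F^[m] x = x := by
    have h1 : F^[i₀] (F^[m] x) = F^[i₀] x := by
      rw [← Function.iterate_add_apply, add_comm, Function.iterate_add_apply]
      exact hper
    exact (F.injective.iterate i₀) h1
  have h0 := hmain 0 (by omega) (by
    rw [zero_add]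
    simp only [Function.iterate_zero, id]
    rw [hperx, dist_self]
    exact hEpos m)
  intro v hv hvd
  have h1 := h0.2 v hv
  simp only [Function.iterate_zero, id] at h1
  exact h1 (hvd.trans (hEanti m s (by omega)))

/-- a set whose points are `2 ε`-separated and which is covered by `s` balls of radius `ε` -/
theorem encard_le_of_cov {K : Set N} {s : ℕ} {ε : ℝ} (hcov : CovBy K s ε)
    (hsep : ∀ x ∈ K, ∀ v ∈ K, dist v x < 2 * ε → v = x) : K.encard ≤ s := by
  classical
  obtain ⟨c, hc⟩ := hcov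
  choose q hq using fun x : K => hc x x.2
  have hinj : Function.Injective q := by
    intro x v hxv
    have h1 := hq x
    have h2 := hq v
    rw [← hxv] at h2
    have h3 := dist_triangle_right (x : N) (v : N) (c (q x))
    exact Subtype.ext (hsep v v.2 x x.2 (by linarith))
  have h1 : ENat.card K ≤ ENat.card (Fin s) := ENat.card_le_card_of_injective hinj
  rw [ENat.card_eq_coe_fintype_card (α := Fin s), Fintype.card_fin] at h1
  exact h1

end

section

variable {n : ℕ} {N : Type u} [MetricSpace N] [CompactSpace N] [ChartedSpace (V n) N]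
  [IsManifold (𝓡 n) ∞ N] {r : ℕ∞}

theorem key_global (hn : 1 ≤ n) (hr : 2 ≤ r) (hN : ChartLip n N) (F : DiffM n N r)
    (hF : OmegaStable n N r F) :
    ∃ (k : ℕ) (c : ℝ), 1 ≤ k ∧ (k : ℕ∞) ≤ r ∧ 0 < c ∧ c ≤ 1 / 2 ∧ ∀ y, KeyAt F k c y := by
  classical
  choose k c hk hkr hc hc1 hkey using key_local hn hr hN F hF
  obtain ⟨t, ht⟩ := CompactSpace.elim_nhds_subcover (fun z => {y | KeyAt F (k z) (c z) y})
    (fun z => hkey z)
  have hind : ∀ t : Finset N, ∃ (k' : ℕ) (c' : ℝ), 1 ≤ k' ∧ (k' : ℕ∞) ≤ r ∧ 0 < c' ∧ c' ≤ 1 / 2 ∧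
      ∀ z ∈ t, k z ≤ k' ∧ c' ≤ c z := by
    intro t
    induction t using Finset.induction_on with
    | empty =>
      exact ⟨1, 1 / 2, le_rfl, le_trans (by norm_num) hr, by norm_num, le_rfl, by simp⟩
    | insert z t _ ih =>
      obtain ⟨k', c', h1, h2, h3, h4, h5⟩ := ih
      refine ⟨max (k z) k', min (c z) c', le_max_of_le_right h1, ?_, lt_min (hc z) h3,
        (min_le_right _ _).trans h4, ?_⟩
      · rcases le_total (k z) k' with h | h
        · rw [max_eq_right h]; exact h2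
        · rw [max_eq_left h]; exact hkr z
      · intro w hw
        rcases Finset.mem_insert.1 hw with rfl | hw
        · exact ⟨le_max_left _ _, min_le_left _ _⟩
        · exact ⟨(h5 w hw).1.trans (le_max_right _ _), (min_le_right _ _).trans (h5 w hw).2⟩
  obtain ⟨k', c', h1, h2, h3, h4, h5⟩ := hind t
  refine ⟨k', c', h1, h2, h3, h4, fun y => ?_⟩
  have hy : y ∈ (⊤ : Set N) := mem_univ y
  rw [← ht, mem_iUnion₂] at hy
  obtain ⟨z, hz, hy⟩ := hy
  exact KeyAt.mono hy (h5 z hz).1 h3 (h5 z hz).2 (hc1 z)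

/-- invariant sets which are covered by `s` balls of a radius less than `exp (- C s^p)` have at most
`s` points -/
theorem main (hn : 1 ≤ n) (hr : 2 ≤ r) (hN : ChartLip n N) (F : DiffM n N r)
    (hF : OmegaStable n N r F) :
    ∃ (k : ℕ) (C : ℝ), 1 ≤ k ∧ (k : ℕ∞) ≤ r ∧ 0 < C ∧ ∀ K : Set N, F '' K = K →
      ∀ (s : ℕ) (ε : ℝ), CovBy K s ε →
        ε < Real.exp (-(C * (s : ℝ) ^ Real.logb 2 (2 * n * k + 2))) → K.encard ≤ s := by
  obtain ⟨k, c, hk, hkr, hc, hc2, hkey⟩ := key_global hn hr hN F hF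
  obtain ⟨a, ha⟩ : ∃ a, a = n * k := ⟨_, rfl⟩
  have ha1 : 1 ≤ a := by rw [ha]; exact Nat.one_le_iff_ne_zero.2 (by positivity)
  have haR : (1 : ℝ) ≤ a := by exact_mod_cast ha1
  have hlog : 0 < Real.log (1 / c) := by
    apply Real.log_pos
    rw [one_lt_div hc]
    linarith
  refine ⟨k, ((a + 1) * (1 + 2 * a) + 1) * Real.log (1 / c), hk, hkr, by positivity, ?_⟩
  intro K hK s ε hcov hεs
  rcases le_or_gt ε 0 with hε | hε
  · obtain ⟨b, hb⟩ := hcov
    have : K = ∅ := by
      by_contra hne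
      obtain ⟨x, hx⟩ := nonempty_iff_ne_empty.2 hne
      obtain ⟨i, hi⟩ := hb x hx
      have := dist_nonneg (x := x) (y := b i)
      linarith
    rw [this, encard_empty]
    simp
  rcases Nat.eq_zero_or_pos s with h0 | hs
  · subst h0
    obtain ⟨b, hb⟩ := hcov
    have : K = ∅ := by
      by_contra hne
      obtain ⟨x, hx⟩ := nonempty_iff_ne_empty.2 hne
      obtain ⟨i, -⟩ := hb x hx
      exact i.elim0
    rw [this, encard_empty]
    simp
  have hFK : MapsTo F K K := by
    intro x hx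
    rw [← hK]
    exact mem_image_of_mem F hx
  have hFK' : MapsTo F.symm K K := by
    intro x hx
    rw [← hK] at hx
    obtain ⟨y, hy, rfl⟩ := hx
    rw [F.symm_apply_apply]
    exact hy
  have hsR : (1 : ℝ) ≤ s := by exact_mod_cast hs
  have hbound : 2 * ε ≤ c ^ (s * gf (n * k) s) := by
    rw [← ha]
    have h1 := gf_le ha1 s hs
    have hq : Real.logb 2 (2 * n * k + 2) = 1 + Real.logb 2 (a + 1) := by
      have e : (2 * n * k + 2 : ℝ) = 2 * (a + 1) := by rw [ha]; push_cast; ring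
      rw [e, Real.logb_mul (by norm_num) (by positivity), Real.logb_self_eq_one (by norm_num)]
    rw [hq] at hεs
    have hsp : (s : ℝ) ^ (1 + Real.logb 2 (a + 1)) = s * (s : ℝ) ^ Real.logb 2 (a + 1) := by
      rw [Real.rpow_add (by linarith), Real.rpow_one]
    rw [hsp] at hεs
    obtain ⟨X, hX⟩ : ∃ X : ℝ, X = (s : ℝ) ^ Real.logb 2 (a + 1) := ⟨_, rfl⟩
    rw [← hX] at hεs h1
    have hX1 : 1 ≤ X := by
      rw [hX]
      apply Real.one_le_rpow hsR
      rw [Real.le_logb_iff_rpow_le (by norm_num) (by positivity), Real.rpow_zero]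
      linarith
    have h2 : c ^ (s * gf a s + 1) ≤ c ^ (s * gf a s) / 2 := by
      rw [pow_succ]
      have : 0 < c ^ (s * gf a s) := by positivity
      nlinarith
    have h3 : Real.exp (-(((a + 1) * (1 + 2 * a) + 1) * Real.log (1 / c) * (s * X))) ≤
        c ^ (s * gf a s + 1) := by
      have e : c ^ (s * gf a s + 1) = Real.exp (-(Real.log (1 / c) * (s * gf a s + 1))) := by
        have e1 : Real.log (1 / c) = - Real.log c := by rw [one_div, Real.log_inv]
        have e2 : -(Real.log (1 / c) * (s * gf a s + 1)) =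
            ((s * gf a s + 1 : ℕ) : ℝ) * Real.log c := by
          rw [e1]; push_cast; ring
        rw [e2, Real.exp_nat_mul, Real.exp_log hc]
      rw [e]
      apply Real.exp_le_exp.2
      apply neg_le_neg
      have h4 : (s : ℝ) * gf a s + 1 ≤ ((a + 1) * (1 + 2 * a) + 1) * (s * X) := by
        have h5 : (s : ℝ) * gf a s ≤ s * ((a + 1) * (1 + 2 * a) * X) :=
          mul_le_mul_of_nonneg_left h1 (by linarith)
        have h6 : 1 ≤ s * X := by nlinarith
        nlinarith
      calc Real.log (1 / c) * (s * gf a s + 1) ≤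
          Real.log (1 / c) * (((a + 1) * (1 + 2 * a) + 1) * (s * X)) :=
            mul_le_mul_of_nonneg_left h4 hlog.le
        _ = _ := by ring
    linarith
  refine encard_le_of_cov hcov fun x hx v hv hd => ?_
  exact select hn hk hs hc hc2 (fun y _ => hkey y) hFK hFK' hε hcov hbound x hx v hv
    (hd.le.trans hbound)

omit [CompactSpace N] [IsManifold (𝓡 n) ∞ N] in
/-- the set of the recurrent points is invariant -/
theorem rec_inv (F : DiffM n N r) :
    F '' {x | ∀ W ∈ 𝓝 x, ∃ k : ℕ, 1 ≤ k ∧ F^[k] x ∈ W} =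
      {x | ∀ W ∈ 𝓝 x, ∃ k : ℕ, 1 ≤ k ∧ F^[k] x ∈ W} := by
  apply Subset.antisymm
  · rintro _ ⟨x, hx, rfl⟩ W hW
    obtain ⟨k, hk, h⟩ := hx (F ⁻¹' W) (F.continuous.continuousAt.preimage_mem_nhds hW)
    refine ⟨k, hk, ?_⟩
    have h1 : F (F^[k] x) ∈ W := h
    rwa [← Function.iterate_succ_apply' F k x, Function.iterate_succ_apply] at h1
  · intro x hx
    refine ⟨F.symm x, ?_, F.apply_symm_apply x⟩
    intro W hW
    have h2 : F.symm ⁻¹' W ∈ 𝓝 x := F.symm.continuous.continuousAt.preimage_mem_nhds hW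
    obtain ⟨k, hk, h⟩ := hx _ h2
    refine ⟨k, hk, ?_⟩
    have h1 : F.symm (F^[k] x) ∈ W := h
    have h3 : F^[k] x = F (F^[k] (F.symm x)) := by
      rw [← Function.iterate_succ_apply' F k, Function.iterate_succ_apply, F.apply_symm_apply]
    rwa [h3, F.symm_apply_apply] at h1

end

end Pool.Agent.U882.RS
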