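import Pool.Agent.U882.RS.Chain2
import Pool.Agent.U882.RS.Main2

/-!
# Thin invariant sets of `Ω`-stable diffeomorphisms are finite: the linear form
-/

set_option autoImplicit false

open scoped Manifold ContDiff Topology
open Filter Set Metric

universe u

namespace Pool.Agent.U882.RS

open Pool.Agent.H718R2.G Pool.Agent.W564.SC Pool.Agent.W509.SC Pool.Agent.Y368.CL
  Pool.Agent.N813.OF Pool.Agent.N813.EM Pool.Agent.TH80.OMS

theorem exists_biL {n : ℕ} {N : Type u} [MetricSpace N] [CompactSpace N] [ChartedSpace (V n) N]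
    [IsManifold (𝓡 n) ∞ N] {r : ℕ∞} (hr : 1 ≤ r) (hN : ChartLip n N) (F : DiffM n N r) :
    ∃ Λ : ℝ, 1 ≤ Λ ∧ BiL F Λ := by
  obtain ⟨Λ₀, hΛ₀⟩ := bilip BIL.t hN hr F
  exact ⟨max 1 Λ₀, le_max_left _ _, fun x y =>
    ⟨(hΛ₀ x y).1.trans (mul_le_mul_of_nonneg_right (le_max_right _ _) dist_nonneg),
      (hΛ₀ x y).2.trans (mul_le_mul_of_nonneg_right (le_max_right _ _) dist_nonneg)⟩⟩

/-- the constants -/
theorem exists_C {c C₁ Λ : ℝ} (A : ℕ) (hc : 0 < c) (hc1 : c ≤ 1) (hC₁ : 0 < C₁) (hΛ : 1 ≤ Λ) :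
    ∃ C : ℝ, 0 < C ∧ ∀ s : ℕ, 1 ≤ s → 2 * Real.exp (-(C * s)) ≤ Real.exp (-(C₁ * s)) ∧
      2 * Real.exp (-(C * s)) * Λ ^ s ≤ c ^ (2 * s) * (c * Real.exp (-(C₁ * s))) ^ A := by
  obtain ⟨l, hl⟩ : ∃ l : ℝ, l = -Real.log c := ⟨_, rfl⟩
  have hl0 : 0 ≤ l := by
    rw [hl]
    have := Real.log_nonpos hc.le hc1
    linarith
  have hlogΛ : 0 ≤ Real.log Λ := Real.log_nonneg hΛ
  have hlog2 : 0 < Real.log 2 := Real.log_pos (by norm_num)
  have hΛ0 : 0 < Λ := by linarith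
  refine ⟨C₁ + A * C₁ + (2 + A) * l + Real.log Λ + Real.log 2, by positivity, fun s hs => ?_⟩
  have hsR : (1 : ℝ) ≤ s := by exact_mod_cast hs
  obtain ⟨C, hC⟩ : ∃ C : ℝ, C = C₁ + A * C₁ + (2 + A) * l + Real.log Λ + Real.log 2 := ⟨_, rfl⟩
  rw [← hC]
  have e2 : 2 * Real.exp (-(C * s)) = Real.exp (Real.log 2 - C * s) := by
    rw [sub_eq_add_neg, Real.exp_add, Real.exp_log (by norm_num)]
  have k2 : Real.log 2 ≤ Real.log 2 * s := by nlinarith
  have k3 : (A : ℝ) * l ≤ A * l * s := by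
    have : 0 ≤ (A : ℝ) * l := by positivity
    nlinarith
  have k4 : C * s = C₁ * s + A * C₁ * s + 2 * l * s + A * l * s + Real.log Λ * s +
    Real.log 2 * s := by rw [hC]; ring
  have k5 : 0 ≤ (A : ℝ) * C₁ * s := by positivity
  have k6 : 0 ≤ 2 * l * s := by positivity
  have k7 : 0 ≤ (A : ℝ) * l * s := by positivity
  have k8 : 0 ≤ Real.log Λ * s := by positivity
  constructor
  · rw [e2]
    apply Real.exp_le_exp.2
    linarith
  · have e3 : Λ ^ s = Real.exp (s * Real.log Λ) := by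
      rw [Real.exp_nat_mul, Real.exp_log hΛ0]
    have e4 : c ^ (2 * s) * (c * Real.exp (-(C₁ * s))) ^ A =
        Real.exp (-(2 * s * l) - A * (l + C₁ * s)) := by
      have f1 : c ^ (2 * s) = Real.exp (((2 * s : ℕ) : ℝ) * Real.log c) := by
        rw [Real.exp_nat_mul, Real.exp_log hc]
      have f2 : c * Real.exp (-(C₁ * s)) = Real.exp (Real.log c + -(C₁ * s)) := by
        rw [Real.exp_add, Real.exp_log hc]
      rw [f1, f2, ← Real.exp_nat_mul, ← Real.exp_add]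
      congr 1
      rw [hl]
      push_cast
      ring
    rw [e2, e3, e4, ← Real.exp_add]
    apply Real.exp_le_exp.2
    nlinarith

section

variable {n : ℕ} {N : Type u} [MetricSpace N] [CompactSpace N] [ChartedSpace (V n) N]
  [IsManifold (𝓡 n) ∞ N] {r : ℕ∞}

/-- invariant sets which are covered by `s` balls of a radius less than `exp (- C s)` have at most
`s` points -/
theorem main4 (hr : 2 ≤ r) (hN : ChartLip n N) (F : DiffM n N r) (hF : OmegaStable n N r F) :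
    ∃ C : ℝ, 0 < C ∧ ∀ K : Set N, F '' K = K → ∀ (s : ℕ) (ε : ℝ), CovBy K s ε →
      ε < Real.exp (-(C * s)) → K.encard ≤ s := by
  obtain ⟨k, c, hk, -, hc, hc2, hkey⟩ := key_global2 hr hN F hF
  have hA1 : 1 ≤ Ak k := by have := Ak_ge hk; omega
  obtain ⟨C₁, hC₁, hch⟩ := chain_global hr hN F hA1 hc
  obtain ⟨Λ, hΛ, hbil⟩ := exists_biL (le_trans (by norm_num) hr) hN F
  obtain ⟨C, hC, hCs⟩ := exists_C (Ak k) hc (by linarith) hC₁ hΛ
  refine ⟨C, hC, ?_⟩
  intro K hK s ε hcov hεs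
  rcases le_or_gt ε 0 with hε | hε
  · obtain ⟨b, hb⟩ := hcov
    have : K = ∅ := by
      by_contra hne
      obtain ⟨x, hx⟩ := nonempty_iff_ne_empty.2 hne
      obtain ⟨i, hi⟩ := hb x hx
      have := dist_nonneg (x := x) (y := b i)
      linarith
    rw [this, encard_empty]
    simp
  rcases Nat.eq_zero_or_pos s with h0 | hs
  · subst h0
    obtain ⟨b, hb⟩ := hcov
    have : K = ∅ := by
      by_contra hne
      obtain ⟨x, hx⟩ := nonempty_iff_ne_empty.2 hne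
      obtain ⟨i, -⟩ := hb x hx
      exact i.elim0
    rw [this, encard_empty]
    simp
  have hFK : MapsTo F K K := by
    intro x hx
    rw [← hK]
    exact mem_image_of_mem F hx
  have hFK' : MapsTo F.symm K K := by
    intro x hx
    rw [← hK] at hx
    obtain ⟨y, hy, rfl⟩ := hx
    rw [F.symm_apply_apply]
    exact hy
  obtain ⟨hC1, hC2⟩ := hCs s hs
  refine encard_le_of_cov hcov fun x hx v hv hd => ?_
  -- a close return
  obtain ⟨i, j, hij, hj, hdij⟩ := hcov.exists_close (fun l => F^[l] x)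
    (fun l _ => hFK.iterate l hx)
  have hret : dist (F^[j - i] (F^[i] x)) (F^[i] x) ≤ Real.exp (-(C₁ * s)) := by
    rw [← Function.iterate_add_apply, show j - i + i = j by omega, dist_comm]
    linarith
  obtain ⟨q, θ, hq1, hqm, hθ, hθ1, hfar, hclose⟩ := hch (F^[i] x) s (j - i) (by omega) (by omega)
    hret
  have hθ0 : 0 < θ := lt_of_lt_of_le (Real.exp_pos _) hθ
  have hR : c ^ (2 * s) * (c * Real.exp (-(C₁ * s))) ^ Ak k ≤ c ^ (2 * s) * (c * θ) ^ Ak k := by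
    gcongr
  have hΛs : 1 ≤ Λ ^ s := one_le_pow₀ hΛ
  have h2ε : 2 * ε * Λ ^ s ≤ c ^ (2 * s) * (c * θ) ^ Ak k := by
    refine le_trans ?_ (hC2.trans hR)
    gcongr
  have hεR : ε ≤ c ^ (2 * s) * (c * θ) ^ Ak k := by
    refine le_trans ?_ h2ε
    nlinarith
  obtain ⟨-, hiso⟩ := hkey (F^[i] x) s q K ε θ hq1 (by omega) hFK hFK' hcov (hFK.iterate i hx) hθ0
    hθ1 hfar hclose hεR
  have h1 := hiso (F^[i] v) (hFK.iterate i hv) (by
    have h2 := (hbil.iter hΛ (show i ≤ s by omega) v x).1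
    calc dist (F^[i] v) (F^[i] x) ≤ Λ ^ s * dist v x := h2
      _ ≤ Λ ^ s * (2 * ε) := mul_le_mul_of_nonneg_left hd.le (by positivity)
      _ = 2 * ε * Λ ^ s := by ring
      _ ≤ _ := h2ε)
  exact (F.injective.iterate i) h1

end

end Pool.Agent.U882.RS
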