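import Pool.Agent.U882.RS.Clo2
import Pool.Agent.U882.RS.Main4
import Pool.Agent.N813.OE.GLOB
import Pool.Agent.N813.OE.LOC

/-!
# The exponential closing property of `Ω`-stable diffeomorphisms
-/

set_option autoImplicit false

open scoped Manifold ContDiff Topology
open Filter Set Metric

universe u

namespace Pool.Agent.U882.RS

open Pool.Agent.H718R2.G Pool.Agent.W564.SC Pool.Agent.W509.SC Pool.Agent.Y368.CL
  Pool.Agent.N813.OF Pool.Agent.N813.EM Pool.Agent.TH80.OMS Pool.Agent.N813.OE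

/-- the pseudo-orbit has jumps of size `Λ^m dist (F^m x) x` only -/
theorem zz_jump {N : Type u} [MetricSpace N] {F : N → N} {Λ : ℝ} (hΛ : 1 ≤ Λ) (h : BiL F Λ)
    {m q : ℕ} (hqm : q ≤ m) (hm : 1 ≤ m) (x : N) (a : ℕ) :
    dist (F^[q] (zz F m q x a)) (zz F m q x (a + 1)) ≤ Λ ^ m * dist (F^[m] x) x := by
  obtain ⟨i, hi⟩ : ∃ i, i = (a * q) % m := ⟨_, rfl⟩
  have him : i < m := by rw [hi]; exact Nat.mod_lt _ hm
  have h1 : ((a + 1) * q) % m = (i + q) % m := by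
    rw [hi, add_mul, one_mul, Nat.mod_add_mod]
  rw [zz, zz, h1, ← hi, ← Function.iterate_add_apply, add_comm q i]
  rcases lt_or_ge (i + q) m with h2 | h2
  · rw [Nat.mod_eq_of_lt h2, dist_self]
    positivity
  · have h3 : (i + q) % m = i + q - m := by
      rcases Nat.lt_or_ge (i + q) (2 * m) with h4 | h4
      · rw [Nat.mod_eq_sub_mod h2, Nat.mod_eq_of_lt (by omega)]
      · omega
    have h4 : F^[i + q] x = F^[i + q - m] (F^[m] x) := by
      rw [← Function.iterate_add_apply, show i + q - m + m = i + q by omega]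
    rw [h3, h4]
    exact (h.iter hΛ (show i + q - m ≤ m by omega) _ _).1

section

variable {n : ℕ} {N : Type u} [MetricSpace N] [CompactSpace N] [ChartedSpace (V n) N]
  [IsManifold (𝓡 n) ∞ N] {r : ℕ∞}

theorem keyC_global (hr : 2 ≤ r) (hN : ChartLip n N) (F : DiffM n N r)
    (hF : OmegaStable n N r F) :
    ∃ (k : ℕ) (c : ℝ), 2 ≤ k ∧ 0 < c ∧ c ≤ 1 / 2 ∧ ∀ y, KeyC F (Ak k) c y := by
  classical
  choose k c hk hc hc1 hkey using keyC_local hr hN F hF
  obtain ⟨t, ht⟩ := CompactSpace.elim_nhds_subcover (fun z => {y | KeyC F (Ak (k z)) (c z) y})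
    (fun z => hkey z)
  have hind : ∀ t : Finset N, ∃ (k' : ℕ) (c' : ℝ), 2 ≤ k' ∧ 0 < c' ∧ c' ≤ 1 / 2 ∧
      ∀ z ∈ t, k z ≤ k' ∧ c' ≤ c z := by
    intro t
    induction t using Finset.induction_on with
    | empty =>
      exact ⟨2, 1 / 2, le_rfl, by norm_num, le_rfl, by simp⟩
    | insert z t _ ih =>
      obtain ⟨k', c', h1, h3, h4, h5⟩ := ih
      refine ⟨max (k z) k', min (c z) c', le_max_of_le_right h1, lt_min (hc z) h3,
        (min_le_right _ _).trans h4, ?_⟩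
      intro w hw
      rcases Finset.mem_insert.1 hw with rfl | hw
      · exact ⟨le_max_left _ _, min_le_left _ _⟩
      · exact ⟨(h5 w hw).1.trans (le_max_right _ _), (min_le_right _ _).trans (h5 w hw).2⟩
  obtain ⟨k', c', h1, h3, h4, h5⟩ := hind t
  refine ⟨k', c', h1, h3, h4, fun y => ?_⟩
  have hy : y ∈ (⊤ : Set N) := mem_univ y
  rw [← ht, mem_iUnion₂] at hy
  obtain ⟨z, hz, hy⟩ := hy
  exact KeyC.mono hy (Ak_mono (h5 z hz).1) h3 (h5 z hz).2 (hc1 z)

/-- returns at the time `m` to a distance less than `exp (- C m)` are close to periodic points -/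
theorem closing (hr : 2 ≤ r) (hN : ChartLip n N) (F : DiffM n N r) (hF : OmegaStable n N r F) :
    ∃ C : ℝ, 0 < C ∧ ∀ (x : N) (m : ℕ), 1 ≤ m → dist (F^[m] x) x ≤ Real.exp (-(C * m)) →
      ∃ p, F^[m] p = p ∧ dist p x ≤ Real.exp (C * m) * dist (F^[m] x) x := by
  have hr1 : (1 : ℕ∞) ≤ r := le_trans (by norm_num) hr
  obtain ⟨k, c, hk, hc, hc2, hkey⟩ := keyC_global hr hN F hF
  obtain ⟨A, hA⟩ : ∃ A, A = Ak k := ⟨_, rfl⟩
  rw [← hA] at hkey
  have hA1 : 1 ≤ A := by have := Ak_ge hk; omega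
  obtain ⟨k₁, hk₁, -, κ₁, hκ₁, hcl⟩ := GLOB.t LOC.t n N r hr1 hN F hF
  obtain ⟨Λ, hΛ, hbil⟩ := exists_biL hr1 hN F
  have hc1 : c ≤ 1 := by linarith
  -- the constants of the isolated returns
  obtain ⟨κ₂, hκ₂⟩ : ∃ κ₂, κ₂ = min (κ₁ / 2) 1 := ⟨_, rfl⟩
  have hκ₂0 : 0 < κ₂ := by rw [hκ₂]; positivity
  have hκ₂1 : κ₂ ≤ 1 := by rw [hκ₂]; exact min_le_right _ _
  have hκ₂κ : κ₂ ≤ κ₁ / 2 := by rw [hκ₂]; exact min_le_left _ _
  obtain ⟨κ₃, hκ₃⟩ : ∃ κ₃, κ₃ = min (κ₁ * κ₂ ^ k₁) 1 := ⟨_, rfl⟩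
  have hκ₃0 : 0 < κ₃ := by rw [hκ₃]; positivity
  have hκ₃1 : κ₃ ≤ 1 := by rw [hκ₃]; exact min_le_right _ _
  have hκ₃κ : κ₃ ≤ κ₁ * κ₂ ^ k₁ := by rw [hκ₃]; exact min_le_left _ _
  obtain ⟨c', hc'⟩ : ∃ c', c' = c ^ (2 * k₁) * κ₃ := ⟨_, rfl⟩
  have hc'0 : 0 < c' := by rw [hc']; positivity
  have hc'c : c' ≤ c := by
    rw [hc']
    calc c ^ (2 * k₁) * κ₃ ≤ c ^ 1 * 1 :=
          mul_le_mul (pow_le_pow_of_le_one hc.le hc1 (by omega)) hκ₃1 hκ₃0.le (by positivity)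
      _ = c := by rw [pow_one, mul_one]
  obtain ⟨C₁, hC₁, hch⟩ := chain_global hr hN F (A := A * k₁)
    (Nat.one_le_iff_ne_zero.2 (by positivity)) hc'0
  obtain ⟨C, hC, hCs⟩ := exists_C (c := c ^ 2) (A + 1) (by positivity) (by nlinarith) hC₁ hΛ
  refine ⟨C + 1, by linarith, fun x m hm hd => ?_⟩
  have hmR : (1 : ℝ) ≤ m := by exact_mod_cast hm
  obtain ⟨hC1, hC2⟩ := hCs m hm
  have hElt : Real.exp (-((C + 1) * m)) < Real.exp (-(C * m)) := by
    apply Real.exp_lt_exp.2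
    linarith
  obtain ⟨d, hdd⟩ : ∃ d, d = dist (F^[m] x) x := ⟨_, rfl⟩
  rw [← hdd] at hd ⊢
  have hd0 : 0 ≤ d := by rw [hdd]; exact dist_nonneg
  have hdC : d < Real.exp (-(C * m)) := hd.trans_lt hElt
  obtain ⟨E, hE⟩ : ∃ E, E = Real.exp (-(C₁ * m)) := ⟨_, rfl⟩
  have hE0 : 0 < E := by rw [hE]; positivity
  have hE1 : E ≤ 1 := by
    rw [hE, Real.exp_le_one_iff]
    have : 0 ≤ C₁ * m := by positivity
    linarith
  obtain ⟨q, θ, hq1, hqm, hθ, hθ1, hfar, hclose⟩ := hch x m m hm le_rfl (by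
    rw [← hdd]
    have := Real.exp_pos (-(C * m))
    linarith)
  rw [← hE] at hθ hC2
  have hθ0 : 0 < θ := lt_of_lt_of_le hE0 hθ
  obtain ⟨B, hB⟩ : ∃ B, B = c ^ (2 * (2 * m)) * (c * θ) ^ A := ⟨_, rfl⟩
  have hB0 : 0 < B := by rw [hB]; positivity
  have hcθ1 : c * θ ≤ 1 := by nlinarith
  have hBθ : B ≤ θ := by
    rw [hB]
    calc c ^ (2 * (2 * m)) * (c * θ) ^ A ≤ 1 * (c * θ) ^ 1 :=
          mul_le_mul (pow_le_one₀ hc.le hc1) (pow_le_pow_of_le_one (by positivity) hcθ1 hA1)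
            (by positivity) (by norm_num)
      _ ≤ θ := by rw [one_mul, pow_one]; nlinarith
  have hB1 : B ≤ 1 := hBθ.trans hθ1
  -- the size of `B`
  have hΛB : 2 * Real.exp (-(C * m)) * Λ ^ m ≤ B * θ := by
    refine hC2.trans ?_
    have e1 : (c ^ 2) ^ (2 * m) = c ^ (2 * (2 * m)) := by rw [← pow_mul]
    have e2 : (c ^ 2 * E) ^ (A + 1) ≤ (c * θ) ^ A * θ := by
      rw [pow_succ]
      have f1 : c ^ 2 * E ≤ c * θ := by
        have : c ^ 2 ≤ c := by nlinarith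
        exact mul_le_mul this hθ hE0.le hc.le
      have f2 : c ^ 2 * E ≤ θ := by nlinarith
      exact mul_le_mul (pow_le_pow_left₀ (by positivity) f1 A) f2 (by positivity) (by positivity)
    rw [e1, hB, mul_assoc]
    exact mul_le_mul_of_nonneg_left e2 (by positivity)
  have hΛm : 1 ≤ Λ ^ m := one_le_pow₀ hΛ
  obtain ⟨ε, hε⟩ : ∃ ε, ε = Λ ^ m * d := ⟨_, rfl⟩
  have hε0 : 0 ≤ ε := by rw [hε]; positivity
  have h2ε : 2 * ε < B * θ := by
    rw [hε]
    have : Λ ^ m * d < Λ ^ m * Real.exp (-(C * m)) :=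
      mul_lt_mul_of_pos_left hdC (by linarith)
    linarith
  have hεB : ε ≤ B := by nlinarith
  -- the isolated return
  have hcl1 : dist (F^[q] x) x ≤ κ₁ * (κ₂ * B) ^ k₁ ∧ dist (F^[q] x) x ≤ B := by
    have f1 : c' ^ (2 * m) ≤ c ^ (2 * (2 * m) * k₁) * κ₃ := by
      rw [hc', mul_pow, ← pow_mul, show 2 * k₁ * (2 * m) = 2 * (2 * m) * k₁ by ring]
      refine mul_le_mul_of_nonneg_left ?_ (by positivity)
      calc κ₃ ^ (2 * m) ≤ κ₃ ^ 1 := pow_le_pow_of_le_one hκ₃0.le hκ₃1 (by omega)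
        _ = κ₃ := pow_one _
    have f2 : (c' * θ) ^ (A * k₁) ≤ (c * θ) ^ (A * k₁) :=
      pow_le_pow_left₀ (by positivity) (mul_le_mul_of_nonneg_right hc'c hθ0.le) _
    have f3 : dist (F^[q] x) x ≤ κ₃ * B ^ k₁ := by
      calc dist (F^[q] x) x ≤ c' ^ (2 * m) * (c' * θ) ^ (A * k₁) := hclose
        _ ≤ (c ^ (2 * (2 * m) * k₁) * κ₃) * (c * θ) ^ (A * k₁) :=
            mul_le_mul f1 f2 (by positivity) (by positivity)
        _ = κ₃ * B ^ k₁ := by
            have : B ^ k₁ = c ^ (2 * (2 * m) * k₁) * (c * θ) ^ (A * k₁) := by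
              rw [hB, mul_pow (c ^ (2 * (2 * m))) ((c * θ) ^ A) k₁, ← pow_mul, ← pow_mul]
            rw [this]
            ring
    constructor
    · refine f3.trans ?_
      rw [mul_pow, ← mul_assoc]
      exact mul_le_mul_of_nonneg_right hκ₃κ (by positivity)
    · refine f3.trans ?_
      calc κ₃ * B ^ k₁ ≤ 1 * B ^ 1 :=
            mul_le_mul hκ₃1 (pow_le_pow_of_le_one hB0.le hB1 hk₁) (by positivity) (by norm_num)
        _ = B := by rw [one_mul, pow_one]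
  have hκB : κ₂ * B ≤ B := by nlinarith
  obtain ⟨p, hpx, hp⟩ := hcl x (κ₂ * B) q (by positivity) (by nlinarith) hq1 hcl1.1
    (fun i hi hiq => by
      have := hfar i hi hiq
      rw [dist_comm] at this
      linarith)
  have hpB : dist p x ≤ B := hpx.le.trans hκB
  have hfin := hkey x m q θ ε p hq1 hqm hθ0 hθ1 hfar (by rw [← hB]; exact hcl1.2) hε0
    (by rw [← hB]; exact hεB) (fun a => by
      rw [hε, hdd]
      exact zz_jump hΛ hbil hqm hm x a) hp (by rw [← hB]; exact hpB)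
  rw [← hB] at hfin
  have h0 := hfin 0
  rw [zz_zero] at h0
  -- `q` divides `m`
  have hdvd : q ∣ m := by
    by_contra hnd
    have hgm : Nat.gcd q m < m := by
      refine lt_of_le_of_ne (Nat.gcd_le_right _ (by omega)) fun h => ?_
      have h1 : m ∣ q := by rw [← h]; exact Nat.gcd_dvd_left q m
      have h2 := Nat.le_of_dvd (by omega) h1
      have h3 : q = m := by omega
      exact hnd (by rw [h3])
    obtain ⟨a, -, ha⟩ := Nat.exists_mul_mod_eq_gcd hgm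
    have hgq : Nat.gcd q m < q := by
      refine lt_of_le_of_ne (Nat.gcd_le_left _ (by omega)) fun h => ?_
      exact hnd (by rw [← h]; exact Nat.gcd_dvd_right q m)
    have hg0 : 0 < Nat.gcd q m := Nat.gcd_pos_of_pos_left _ (by omega)
    have h1 := hfin a
    rw [zz, mul_comm a q, ha] at h1
    have h2 := hfar _ hg0 hgq
    have h3 := dist_triangle_right x (F^[Nat.gcd q m] x) p
    have h4 : B * θ ≤ B * (dist x p + dist (F^[Nat.gcd q m] x) p) :=
      mul_le_mul_of_nonneg_left (h2.trans h3) hB0.le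
    nlinarith
  refine ⟨p, ?_, ?_⟩
  · obtain ⟨t, rfl⟩ := hdvd
    rw [Function.iterate_mul]
    exact Function.iterate_fixed hp t
  · rw [dist_comm p x]
    have h1 : dist x p * B ≤ (Real.exp ((C + 1) * m) * d) * B := by
      refine h0.trans ?_
      rw [hε]
      have h2 : Λ ^ m ≤ Real.exp (C * m) * B := by
        have h3' : 0 < Real.exp (-(C * m)) * Λ ^ m := by positivity
        have h3 : Real.exp (-(C * m)) * Λ ^ m ≤ B := by nlinarith
        have h4 : Real.exp (C * m) * (Real.exp (-(C * m)) * Λ ^ m) ≤ Real.exp (C * m) * B :=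
          mul_le_mul_of_nonneg_left h3 (Real.exp_pos _).le
        rw [← mul_assoc, ← Real.exp_add, add_neg_cancel, Real.exp_zero, one_mul] at h4
        exact h4
      have h5 : Real.exp (C * m) ≤ Real.exp ((C + 1) * m) := by
        apply Real.exp_le_exp.2
        linarith
      calc Λ ^ m * d ≤ (Real.exp (C * m) * B) * d := mul_le_mul_of_nonneg_right h2 hd0
        _ ≤ (Real.exp ((C + 1) * m) * B) * d := by gcongr
        _ = _ := by ring
    exact le_of_mul_le_mul_right h1 hB0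

end

end Pool.Agent.U882.RS
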