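import Mathlib

/-!
# Escape from a small ball produces many separated points
-/

set_option autoImplicit false

open Set

namespace Pool.Agent.U882.RS

/-- The set `K` is covered by `s` balls of radius `ε`. -/
def CovBy {N : Type*} [MetricSpace N] (K : Set N) (s : ℕ) (ε : ℝ) : Prop :=
  ∃ c : Fin s → N, ∀ x ∈ K, ∃ i, dist x (c i) < ε

theorem CovBy.exists_close {N : Type*} [MetricSpace N] {K : Set N} {s : ℕ} {ε : ℝ}
    (h : CovBy K s ε) (p : ℕ → N) (hp : ∀ l ≤ s, p l ∈ K) :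
    ∃ i j, i < j ∧ j ≤ s ∧ dist (p i) (p j) < 2 * ε := by
  classical
  obtain ⟨c, hc⟩ := h
  haveI : Nonempty (Fin s) := ⟨(hc (p 0) (hp 0 (Nat.zero_le _))).choose⟩
  choose! q hq using hc
  have hcard : (Finset.univ : Finset (Fin s)).card < (Finset.range (s + 1)).card := by simp
  obtain ⟨i, hi, j, hj, hij, e⟩ := Finset.exists_ne_map_eq_of_card_lt_of_maps_to hcard
    (f := fun l => q (p l)) (fun l _ => Finset.mem_coe.2 (Finset.mem_univ _))
  rw [Finset.mem_range] at hi hj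
  have key : ∀ i j, i ≤ s → j ≤ s → q (p i) = q (p j) → dist (p i) (p j) < 2 * ε := by
    intro i j hi hj e
    have h1 := hq (p i) (hp i hi)
    have h2 := hq (p j) (hp j hj)
    rw [← e] at h2
    have h3 := dist_triangle_right (p i) (p j) (c (q (p i)))
    linarith
  rcases lt_or_gt_of_ne hij with h1 | h1
  · exact ⟨i, j, h1, by omega, key i j (by omega) (by omega) e⟩
  · exact ⟨j, i, h1, by omega, key j i (by omega) (by omega) e.symm⟩

section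

variable {N E : Type*} [MetricSpace N] [NormedAddCommGroup E]

/-- If an orbit in `K` which starts close to `y` leaves the ball of radius `r₀` then there are `s + 1`
separated points in `K`. -/
theorem stay (Src K : Set N) (χ : N → E) (y : N) (g : N → N) {L Λ e r₀ R₀ ε : ℝ} {s : ℕ}
    (hL : 0 < L) (hΛ : 1 ≤ Λ) (hR₀ : 0 < R₀) (heR : e ≤ R₀) (hε : 2 * ε * L ≤ R₀)
    (hr₀ : R₀ * (4 * Λ) ^ (s + 1) ≤ r₀)
    (hlip : ∀ b ∈ Src, ∀ b' ∈ Src, ‖χ b - χ y‖ ≤ r₀ → ‖χ b' - χ y‖ ≤ r₀ →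
      ‖χ b - χ b'‖ ≤ L * dist b b')
    (hg : ∀ b ∈ Src, ‖χ b - χ y‖ ≤ r₀ → g b ∈ Src ∧ ‖χ (g b) - χ y‖ ≤ Λ * (‖χ b - χ y‖ + e))
    (hK : MapsTo g K K) (hcov : CovBy K s ε) (b : N) (hb : b ∈ K) (hbS : b ∈ Src)
    (hb0 : ‖χ b - χ y‖ ≤ R₀) (t : ℕ) : g^[t] b ∈ Src ∧ ‖χ (g^[t] b) - χ y‖ ≤ r₀ := by
  classical
  by_contra hcon
  obtain ⟨R, hR⟩ : ∃ R : ℕ → ℝ, R = fun l => R₀ * (4 * Λ) ^ l := ⟨_, rfl⟩
  have h4 : 1 ≤ 4 * Λ := by linarith
  have hRpos : ∀ l, 0 < R l := fun l => by rw [hR]; positivity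
  have hRmono : ∀ i j, i ≤ j → R i ≤ R j := fun i j hij => by
    rw [hR]
    exact mul_le_mul_of_nonneg_left (pow_le_pow_right₀ h4 hij) hR₀.le
  have hR0 : R 0 = R₀ := by rw [hR]; simp
  have hRs : ∀ l, R (l + 1) = 4 * Λ * R l := fun l => by rw [hR]; simp only; ring
  have hRr : ∀ l ≤ s + 1, R l ≤ r₀ := fun l hl => (hRmono l (s + 1) hl).trans (by rw [hR]; exact hr₀)
  have hex : ∀ l, ∃ t, l ≤ s → ¬ (g^[t] b ∈ Src ∧ ‖χ (g^[t] b) - χ y‖ ≤ R l) := fun l =>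
    ⟨t, fun hl h => hcon ⟨h.1, h.2.trans (hRr l (by omega))⟩⟩
  -- the first exit times
  have hfirst : ∀ l, l ≤ s → ∃ t, g^[t] b ∈ Src ∧ R l < ‖χ (g^[t] b) - χ y‖ ∧
      ‖χ (g^[t] b) - χ y‖ ≤ 2 * Λ * R l := by
    intro l hl
    have hex' : ∃ t, ¬ (g^[t] b ∈ Src ∧ ‖χ (g^[t] b) - χ y‖ ≤ R l) :=
      ⟨t, fun h => hcon ⟨h.1, h.2.trans (hRr l (by omega))⟩⟩
    have h1 := Nat.find_spec hex'
    have h2 : ∀ t' < Nat.find hex', g^[t'] b ∈ Src ∧ ‖χ (g^[t'] b) - χ y‖ ≤ R l := fun t' ht' =>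
      not_not.1 (Nat.find_min hex' ht')
    obtain ⟨T, hT⟩ : ∃ T, T = Nat.find hex' := ⟨_, rfl⟩
    rw [← hT] at h1 h2
    cases T with
    | zero =>
      exfalso
      apply h1
      exact ⟨hbS, hb0.trans (by rw [← hR0]; exact hRmono 0 l (Nat.zero_le _))⟩
    | succ T =>
      obtain ⟨h3, h5⟩ := h2 T (Nat.lt_succ_self _)
      obtain ⟨h6, h7⟩ := hg _ h3 (h5.trans (hRr l (by omega)))
      rw [← Function.iterate_succ_apply' g T b] at h6 h7
      refine ⟨T + 1, h6, ?_, ?_⟩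
      · by_contra h8
        exact h1 ⟨h6, not_lt.1 h8⟩
      · refine h7.trans ?_
        have h8 : R₀ ≤ R l := by rw [← hR0]; exact hRmono 0 l (Nat.zero_le _)
        have h9 : Λ * (‖χ (g^[T] b) - χ y‖ + e) ≤ Λ * (R l + R l) :=
          mul_le_mul_of_nonneg_left (by linarith) (by linarith)
        linarith
  choose! τ hτ using hfirst
  have hiter : ∀ t, g^[t] b ∈ K := by
    intro t
    induction t with
    | zero => exact hb
    | succ t ih => rw [Function.iterate_succ_apply']; exact hK ih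
  obtain ⟨i, j, hij, hj, hd⟩ := hcov.exists_close (fun l => g^[τ l] b) (fun l _ => hiter _)
  obtain ⟨a1, a2, a3⟩ := hτ i (by omega)
  obtain ⟨b1, b2, b3⟩ := hτ j hj
  have hΛR : 2 * Λ * R i ≤ r₀ := by
    have h1 := hRr (i + 1) (by omega)
    rw [hRs] at h1
    have : 0 < Λ * R i := mul_pos (by linarith) (hRpos i)
    linarith
  have hΛRj : 2 * Λ * R j ≤ r₀ := by
    have h1 := hRr (j + 1) (by omega)
    rw [hRs] at h1
    have : 0 < Λ * R j := mul_pos (by linarith) (hRpos j)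
    linarith
  have h1 := hlip _ b1 _ a1 (b3.trans hΛRj) (a3.trans hΛR)
  have h2 : ‖χ (g^[τ j] b) - χ y‖ ≤ ‖χ (g^[τ i] b) - χ y‖ + ‖χ (g^[τ j] b) - χ (g^[τ i] b)‖ := by
    have : χ (g^[τ j] b) - χ y = (χ (g^[τ i] b) - χ y) + (χ (g^[τ j] b) - χ (g^[τ i] b)) := by abel
    rw [this]
    exact norm_add_le _ _
  have h3 := hRmono (i + 1) j hij
  rw [hRs] at h3
  have h5 : R₀ ≤ R i := by rw [← hR0]; exact hRmono 0 i (Nat.zero_le _)
  have h6 : R i ≤ Λ * R i := by nlinarith [hRpos i]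
  have h7 : L * dist (g^[τ j] b) (g^[τ i] b) < L * (2 * ε) := by
    rw [dist_comm]
    exact mul_lt_mul_of_pos_left hd hL
  linarith

end

end Pool.Agent.U882.RS
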