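import Mathlib

/-!
# Bounded solutions of nearly linear difference equations, by finite Fourier sums

`Resol D θ`: `‖D a - (Re μ a - Im μ b)‖² + ‖D b - (Im μ a + Re μ b)‖² ≥ θ (‖a‖² + ‖b‖²)` for all `a, b` and all
complex numbers `μ` of modulus `1`; this is a bound for the resolvent of `D` on the unit circle.
-/

set_option autoImplicit false

open Finset

namespace Pool.Agent.U882.RS

/-- the geometric sum -/
theorem sum_cos {P : ℕ} (hP : 1 ≤ P) (d : ℤ) (hd : ¬ (P : ℤ) ∣ d) :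
    ∑ j ∈ range P, Real.cos (2 * Real.pi * j * d / P) = 0 := by
  have hP0 : (P : ℂ) ≠ 0 := by
    have : (P : ℝ) ≠ 0 := by positivity
    exact_mod_cast this
  obtain ⟨z, hz⟩ : ∃ z : ℂ, z = Complex.exp (2 * Real.pi * d / P * Complex.I) := ⟨_, rfl⟩
  have hzP : z ^ P = 1 := by
    rw [hz, ← Complex.exp_nat_mul]
    have : (P : ℂ) * (2 * Real.pi * d / P * Complex.I) = d * (2 * Real.pi * Complex.I) := by
      field_simp
    rw [this, Complex.exp_int_mul_two_pi_mul_I]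
  have hz1 : z ≠ 1 := by
    intro h
    rw [hz, Complex.exp_eq_one_iff] at h
    obtain ⟨m, hm⟩ := h
    apply hd
    refine ⟨m, ?_⟩
    have h2 : (2 * Real.pi * Complex.I : ℂ) ≠ 0 := Complex.two_pi_I_ne_zero
    have h3 : (d : ℂ) = P * m := by
      have h4 : (2 * Real.pi * Complex.I) * (d : ℂ) = (2 * Real.pi * Complex.I) * (P * m) := by
        have h5 : (2 * Real.pi * d / P * Complex.I : ℂ) * P = m * (2 * Real.pi * Complex.I) * P := by
          rw [hm]
        field_simp at h5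
        linear_combination (2 * Real.pi * Complex.I) * h5
      exact mul_left_cancel₀ h2 h4
    exact_mod_cast h3
  have hsum : ∑ j ∈ range P, z ^ j = 0 := by
    have := geom_sum_eq hz1 P
    rw [this, hzP, sub_self, zero_div]
  have hre : ∀ j : ℕ, (z ^ j).re = Real.cos (2 * Real.pi * j * d / P) := by
    intro j
    rw [hz, ← Complex.exp_nat_mul]
    have : (j : ℂ) * (2 * Real.pi * d / P * Complex.I) =
        ((2 * Real.pi * j * d / P : ℝ) : ℂ) * Complex.I := by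
      push_cast
      ring
    rw [this, Complex.exp_ofReal_mul_I_re]
  have h := congrArg Complex.re hsum
  rw [Complex.re_sum, Complex.zero_re] at h
  rw [← h]
  exact Finset.sum_congr rfl fun j _ => (hre j).symm

section

variable {E : Type*} [NormedAddCommGroup E] [InnerProductSpace ℝ E]

/-- Parseval's identity for real vectors -/
theorem parseval {P : ℕ} (hP : 1 ≤ P) (w : ℕ → E) :
    ∑ j ∈ range P, (‖∑ t ∈ range P, Real.cos (2 * Real.pi * j * t / P) • w t‖ ^ 2 +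
      ‖∑ t ∈ range P, Real.sin (2 * Real.pi * j * t / P) • w t‖ ^ 2) =
      P * ∑ t ∈ range P, ‖w t‖ ^ 2 := by
  have hsq : ∀ c : ℕ → ℝ, ‖∑ t ∈ range P, c t • w t‖ ^ 2 =
      ∑ t ∈ range P, ∑ t' ∈ range P, c t * c t' * inner ℝ (w t) (w t') := by
    intro c
    rw [← real_inner_self_eq_norm_sq, sum_inner]
    refine Finset.sum_congr rfl fun t _ => ?_
    rw [inner_sum]
    refine Finset.sum_congr rfl fun t' _ => ?_
    rw [inner_smul_left, inner_smul_right]
    simp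
    ring
  have h1 : ∀ j : ℕ, (‖∑ t ∈ range P, Real.cos (2 * Real.pi * j * t / P) • w t‖ ^ 2 +
      ‖∑ t ∈ range P, Real.sin (2 * Real.pi * j * t / P) • w t‖ ^ 2) =
      ∑ t ∈ range P, ∑ t' ∈ range P,
        Real.cos (2 * Real.pi * j * ((t : ℤ) - (t' : ℤ) : ℤ) / P) * inner ℝ (w t) (w t') := by
    intro j
    rw [hsq, hsq, ← Finset.sum_add_distrib]
    refine Finset.sum_congr rfl fun t _ => ?_
    rw [← Finset.sum_add_distrib]
    refine Finset.sum_congr rfl fun t' _ => ?_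
    rw [← add_mul]
    congr 1
    rw [← Real.cos_sub]
    congr 1
    push_cast
    ring
  rw [Finset.sum_congr rfl fun j _ => h1 j, Finset.sum_comm, Finset.mul_sum]
  refine Finset.sum_congr rfl fun t ht => ?_
  rw [Finset.sum_comm]
  have h2 : ∀ t' ∈ range P, ∑ j ∈ range P,
      Real.cos (2 * Real.pi * j * ((t : ℤ) - (t' : ℤ) : ℤ) / P) * inner ℝ (w t) (w t') =
      if t' = t then (P : ℝ) * ‖w t‖ ^ 2 else 0 := by
    intro t' ht'
    rw [← Finset.sum_mul]
    by_cases h : t' = t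
    · rw [if_pos h, h]
      simp
    · rw [if_neg h, sum_cos hP, zero_mul]
      intro hdvd
      rw [Finset.mem_range] at ht ht'
      have hne : (t : ℤ) - t' ≠ 0 := by omega
      have h3 := Int.le_of_dvd (abs_pos.2 hne) ((dvd_abs _ _).2 hdvd)
      have h4 : |(t : ℤ) - t'| < P := by
        rw [abs_lt]
        omega
      omega
  rw [Finset.sum_congr rfl h2, Finset.sum_ite_eq' (range P) t, if_pos ht]

/-- a bound for the resolvent on the unit circle -/
def Resol (D : E →L[ℝ] E) (θ : ℝ) : Prop :=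
  ∀ (μ : ℂ), ‖μ‖ = 1 → ∀ a b : E, θ * (‖a‖ ^ 2 + ‖b‖ ^ 2) ≤
    ‖D a - (μ.re • a - μ.im • b)‖ ^ 2 + ‖D b - (μ.im • a + μ.re • b)‖ ^ 2

/-- cyclic sequences -/
theorem cyclic {D : E →L[ℝ] E} {θ : ℝ} (hD : Resol D θ) {P : ℕ} (hP : 1 ≤ P) (w : ℕ → E)
    (hw : w P = w 0) :
    θ * ∑ t ∈ range P, ‖w t‖ ^ 2 ≤ ∑ t ∈ range P, ‖w (t + 1) - D (w t)‖ ^ 2 := by
  have hPR : (0 : ℝ) < P := by exact_mod_cast hP
  have e1 := parseval hP w
  have e2 := parseval hP (fun t => w (t + 1) - D (w t))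
  suffices h : θ * ∑ j ∈ range P, (‖∑ t ∈ range P, Real.cos (2 * Real.pi * j * t / P) • w t‖ ^ 2 +
      ‖∑ t ∈ range P, Real.sin (2 * Real.pi * j * t / P) • w t‖ ^ 2) ≤
      ∑ j ∈ range P, (‖∑ t ∈ range P, Real.cos (2 * Real.pi * j * t / P) •
        (w (t + 1) - D (w t))‖ ^ 2 +
      ‖∑ t ∈ range P, Real.sin (2 * Real.pi * j * t / P) • (w (t + 1) - D (w t))‖ ^ 2) by
    rw [e1, e2] at h
    have h2 : (P : ℝ) * (θ * ∑ t ∈ range P, ‖w t‖ ^ 2) ≤
        P * ∑ t ∈ range P, ‖w (t + 1) - D (w t)‖ ^ 2 := by linarith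
    exact le_of_mul_le_mul_left h2 hPR
  rw [Finset.mul_sum]
  refine Finset.sum_le_sum fun j _ => ?_
  obtain ⟨α, hα⟩ : ∃ α : ℝ, α = 2 * Real.pi * j / P := ⟨_, rfl⟩
  have hαt : ∀ t : ℕ, 2 * Real.pi * j * t / P = α * t := fun t => by rw [hα]; ring
  have hαP : α * P = j * (2 * Real.pi) := by rw [hα]; field_simp
  simp only [hαt]
  obtain ⟨a, ha⟩ : ∃ a : E, a = ∑ t ∈ range P, Real.cos (α * t) • w t := ⟨_, rfl⟩
  obtain ⟨b, hb⟩ : ∃ b : E, b = ∑ t ∈ range P, Real.sin (α * t) • w t := ⟨_, rfl⟩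
  -- the shifts
  have hshift : ∀ f : ℕ → ℝ, (∀ t : ℕ, f P = f 0) →
      ∑ t ∈ range P, f (t + 1) • w (t + 1) = ∑ t ∈ range P, f t • w t := by
    intro f hf
    have h1 := Finset.sum_range_succ (fun t => f t • w t) P
    have h2 := Finset.sum_range_succ' (fun t => f t • w t) P
    rw [hw, hf 0] at h1
    rw [h1] at h2
    exact (add_right_cancel h2).symm
  have hc : ∑ t ∈ range P, Real.cos (α * t) • w (t + 1) = Real.cos α • a + Real.sin α • b := by
    have h1 := hshift (fun t => Real.cos (α * t - α)) (fun _ => by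
      rw [hαP]
      have : (j : ℝ) * (2 * Real.pi) - α = (α * ((0 : ℕ) : ℝ) - α) + j * (2 * Real.pi) := by
        push_cast; ring
      rw [this, Real.cos_add_nat_mul_two_pi])
    have h2 : ∀ t : ℕ, Real.cos (α * ((t + 1 : ℕ) : ℝ) - α) = Real.cos (α * t) := by
      intro t
      congr 1
      push_cast
      ring
    simp only [h2] at h1
    rw [h1, ha, hb, Finset.smul_sum, Finset.smul_sum, ← Finset.sum_add_distrib]
    refine Finset.sum_congr rfl fun t _ => ?_
    rw [Real.cos_sub, smul_smul, smul_smul, ← add_smul]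
    congr 1
    ring
  have hs : ∑ t ∈ range P, Real.sin (α * t) • w (t + 1) = -(Real.sin α) • a + Real.cos α • b := by
    have h1 := hshift (fun t => Real.sin (α * t - α)) (fun _ => by
      rw [hαP]
      have : (j : ℝ) * (2 * Real.pi) - α = (α * ((0 : ℕ) : ℝ) - α) + j * (2 * Real.pi) := by
        push_cast; ring
      rw [this, Real.sin_add_nat_mul_two_pi])
    have h2 : ∀ t : ℕ, Real.sin (α * ((t + 1 : ℕ) : ℝ) - α) = Real.sin (α * t) := by
      intro t
      congr 1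
      push_cast
      ring
    simp only [h2] at h1
    rw [h1, ha, hb, Finset.smul_sum, Finset.smul_sum, ← Finset.sum_add_distrib]
    refine Finset.sum_congr rfl fun t _ => ?_
    rw [Real.sin_sub, smul_smul, smul_smul, ← add_smul]
    congr 1
    ring
  have hDa : ∑ t ∈ range P, Real.cos (α * t) • (w (t + 1) - D (w t)) =
      (Real.cos α • a + Real.sin α • b) - D a := by
    simp only [smul_sub, Finset.sum_sub_distrib]
    rw [hc, ha, map_sum]
    congr 1
    exact Finset.sum_congr rfl fun t _ => (D.map_smul _ _).symm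
  have hDb : ∑ t ∈ range P, Real.sin (α * t) • (w (t + 1) - D (w t)) =
      (-(Real.sin α) • a + Real.cos α • b) - D b := by
    simp only [smul_sub, Finset.sum_sub_distrib]
    rw [hs, hb, map_sum]
    congr 1
    exact Finset.sum_congr rfl fun t _ => (D.map_smul _ _).symm
  rw [hDa, hDb, ← ha, ← hb]
  obtain ⟨μ, hμ⟩ : ∃ μ : ℂ, μ = ⟨Real.cos α, -Real.sin α⟩ := ⟨_, rfl⟩
  have hμ1 : ‖μ‖ = 1 := by
    rw [Complex.norm_def, hμ, Complex.normSq_mk, Real.sqrt_eq_one]
    nlinarith [Real.sin_sq_add_cos_sq α]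
  have h := hD μ hμ1 a b
  rw [hμ] at h
  simp only at h
  have e3 : D a - (Real.cos α • a - (-Real.sin α) • b) =
      -((Real.cos α • a + Real.sin α • b) - D a) := by
    rw [neg_smul]; abel
  have e4 : D b - ((-Real.sin α) • a + Real.cos α • b) =
      -((-(Real.sin α) • a + Real.cos α • b) - D b) := by
    abel
  rw [e3, e4, norm_neg, norm_neg] at h
  exact h

/-- the tent function -/
noncomputable def tent (T i : ℕ) : ℝ := min 1 (min ((i : ℝ) / T) (4 - (i : ℝ) / T))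

theorem tent_zero (T : ℕ) : tent T 0 = 0 := by
  rw [tent]
  norm_num

theorem tent_end {T : ℕ} (hT : 1 ≤ T) : tent T (4 * T) = 0 := by
  have : (T : ℝ) ≠ 0 := by positivity
  have e : (((4 * T : ℕ) : ℝ)) / T = 4 := by push_cast; field_simp
  rw [tent, e]
  norm_num

theorem tent_nonneg {T i : ℕ} (hT : 1 ≤ T) (hi : i ≤ 4 * T) : 0 ≤ tent T i := by
  have hT0 : (0 : ℝ) < T := by exact_mod_cast hT
  have h1 : (i : ℝ) / T ≤ 4 := by
    rw [div_le_iff₀ hT0]
    exact_mod_cast hi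
  rw [tent]
  refine le_min zero_le_one (le_min (by positivity) (by linarith))

theorem tent_le (T i : ℕ) : tent T i ≤ 1 := min_le_left _ _

theorem tent_one {T i : ℕ} (hT : 1 ≤ T) (hi : T ≤ i) (hi2 : i < 3 * T) : tent T i = 1 := by
  have hT0 : (0 : ℝ) < T := by exact_mod_cast hT
  have h1 : 1 ≤ (i : ℝ) / T := by
    rw [le_div_iff₀ hT0]
    have : (T : ℝ) ≤ i := by exact_mod_cast hi
    linarith
  have h2 : (i : ℝ) / T ≤ 3 := by
    rw [div_le_iff₀ hT0]
    exact_mod_cast hi2.le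
  rw [tent]
  exact min_eq_left (le_min h1 (by linarith))

theorem tent_step {T : ℕ} (hT : 1 ≤ T) (i : ℕ) : |tent T (i + 1) - tent T i| ≤ 1 / T := by
  have hT0 : (0 : ℝ) < T := by exact_mod_cast hT
  have h1 : ((i + 1 : ℕ) : ℝ) / T - (i : ℝ) / T = 1 / T := by push_cast; ring
  rw [tent, tent]
  refine (abs_min_sub_min_le_max _ _ _ _).trans ?_
  rw [sub_self, abs_zero]
  refine max_le (by positivity) ?_
  refine (abs_min_sub_min_le_max _ _ _ _).trans (max_le ?_ ?_)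
  · rw [h1, abs_of_nonneg (by positivity)]
  · have : 4 - ((i + 1 : ℕ) : ℝ) / T - (4 - (i : ℝ) / T) = -(1 / T) := by rw [← h1]; ring
    rw [this, abs_neg, abs_of_nonneg (by positivity)]

/-- sums over windows -/
noncomputable def win (w : ℤ → E) (T : ℕ) : ℝ := ∑ i ∈ range (2 * T), ‖w (i - T)‖ ^ 2

theorem win_nonneg (w : ℤ → E) (T : ℕ) : 0 ≤ win w T := Finset.sum_nonneg fun _ _ => by positivity

theorem win_step {D : E →L[ℝ] E} {θ β M : ℝ} (hD : Resol D θ) (hθ : 0 < θ)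
    (hβ0 : 0 ≤ β) (hβ : 64 * β ^ 2 ≤ θ) (hM : ‖D‖ + β ≤ M) (w : ℤ → E)
    (hw : ∀ t, ‖w (t + 1) - D (w t)‖ ≤ β * ‖w t‖) {T : ℕ} (hT : 1 ≤ T)
    (hMT : 64 * (M / T) ^ 2 ≤ θ) : win w T ≤ win w (2 * T) / 16 := by
  have hT0 : (0 : ℝ) < T := by exact_mod_cast hT
  have hM0 : 0 ≤ M := (add_nonneg (norm_nonneg _) hβ0).trans hM
  obtain ⟨u, hu⟩ : ∃ u : ℕ → E, u = fun i => tent T i • w ((i : ℤ) - (2 * T : ℕ)) := ⟨_, rfl⟩
  have h0 : u (4 * T) = u 0 := by
    rw [hu]
    simp only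
    rw [tent_end hT, tent_zero, zero_smul, zero_smul]
  have h1 := cyclic hD (show 1 ≤ 4 * T by omega) u h0
  have h2 : ∑ i ∈ range (4 * T), ‖u (i + 1) - D (u i)‖ ^ 2 ≤ θ / 16 * win w (2 * T) := by
    rw [win, Finset.mul_sum, show 2 * (2 * T) = 4 * T by ring]
    refine Finset.sum_le_sum fun i hi => ?_
    rw [Finset.mem_range] at hi
    obtain ⟨t, ht⟩ : ∃ t : ℤ, t = (i : ℤ) - (2 * T : ℕ) := ⟨_, rfl⟩
    have e1 : ((i + 1 : ℕ) : ℤ) - (2 * T : ℕ) = t + 1 := by rw [ht]; push_cast; ring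
    have e2 : u (i + 1) - D (u i) = tent T i • (w (t + 1) - D (w t)) +
        (tent T (i + 1) - tent T i) • w (t + 1) := by
      rw [hu]
      simp only
      rw [e1, ← ht, D.map_smul]
      module
    rw [e2, ← ht]
    have h3 : ‖w (t + 1)‖ ≤ M * ‖w t‖ := by
      have e3 : w (t + 1) = D (w t) + (w (t + 1) - D (w t)) := by abel
      rw [e3]
      refine (norm_add_le _ _).trans ?_
      have h4 := D.le_opNorm (w t)
      have h5 := hw t
      have h6 := mul_le_mul_of_nonneg_right hM (norm_nonneg (w t))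
      linarith
    have h7 : ‖tent T i • (w (t + 1) - D (w t)) + (tent T (i + 1) - tent T i) • w (t + 1)‖ ≤
        (β + M / T) * ‖w t‖ := by
      refine (norm_add_le _ _).trans ?_
      rw [norm_smul, norm_smul, Real.norm_eq_abs, Real.norm_eq_abs,
        abs_of_nonneg (tent_nonneg hT hi.le)]
      have h8 : tent T i * ‖w (t + 1) - D (w t)‖ ≤ 1 * (β * ‖w t‖) :=
        mul_le_mul (tent_le T i) (hw t) (norm_nonneg _) zero_le_one
      have h9 : |tent T (i + 1) - tent T i| * ‖w (t + 1)‖ ≤ 1 / T * (M * ‖w t‖) :=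
        mul_le_mul (tent_step hT i) h3 (norm_nonneg _) (by positivity)
      calc _ ≤ 1 * (β * ‖w t‖) + 1 / T * (M * ‖w t‖) := add_le_add h8 h9
        _ = _ := by ring
    have h10 : (β + M / T) ^ 2 ≤ θ / 16 := by
      nlinarith [sq_nonneg (β - M / T)]
    calc ‖tent T i • (w (t + 1) - D (w t)) + (tent T (i + 1) - tent T i) • w (t + 1)‖ ^ 2 ≤
        ((β + M / T) * ‖w t‖) ^ 2 := pow_le_pow_left₀ (norm_nonneg _) h7 2
      _ = (β + M / T) ^ 2 * ‖w t‖ ^ 2 := by ring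
      _ ≤ θ / 16 * ‖w t‖ ^ 2 := mul_le_mul_of_nonneg_right h10 (by positivity)
  have h3 : win w T ≤ ∑ i ∈ range (4 * T), ‖u i‖ ^ 2 := by
    have h4 : win w T = ∑ i ∈ range (2 * T), ‖u (T + i)‖ ^ 2 := by
      rw [win]
      refine Finset.sum_congr rfl fun i hi => ?_
      rw [Finset.mem_range] at hi
      rw [hu]
      simp only
      rw [tent_one hT (by omega) (by omega), one_smul]
      congr 3
      push_cast
      ring
    rw [h4, ← Finset.sum_image (f := fun j => ‖u j‖ ^ 2) (g := fun i => T + i)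
      (fun a _ b _ h => by simpa using h)]
    refine Finset.sum_le_sum_of_subset_of_nonneg ?_ fun _ _ _ => by positivity
    intro j hj
    rw [Finset.mem_image] at hj
    obtain ⟨i, hi, rfl⟩ := hj
    rw [Finset.mem_range] at hi ⊢
    omega
  have h4 : θ * win w T ≤ θ * (win w (2 * T) / 16) := by
    calc θ * win w T ≤ θ * ∑ i ∈ range (4 * T), ‖u i‖ ^ 2 := mul_le_mul_of_nonneg_left h3 hθ.le
      _ ≤ _ := h1
      _ ≤ _ := h2
      _ = _ := by ring
  exact le_of_mul_le_mul_left h4 hθ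

/-- bounded solutions vanish -/
theorem bounded_zero {D : E →L[ℝ] E} {θ β : ℝ} (hD : Resol D θ) (hθ : 0 < θ)
    (hβ0 : 0 ≤ β) (hβ : 64 * β ^ 2 ≤ θ) (w : ℤ → E) (B : ℝ) (hB : ∀ t, ‖w t‖ ≤ B)
    (hw : ∀ t, ‖w (t + 1) - D (w t)‖ ≤ β * ‖w t‖) : ∀ t, w t = 0 := by
  have hB0 : 0 ≤ B := (norm_nonneg _).trans (hB 0)
  obtain ⟨M, hM⟩ : ∃ M, M = ‖D‖ + β := ⟨_, rfl⟩
  have hM0 : 0 ≤ M := by rw [hM]; positivity
  have hev : ∃ T₀ : ℕ, 1 ≤ T₀ ∧ ∀ T : ℕ, T₀ ≤ T → 64 * (M / T) ^ 2 ≤ θ := by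
    obtain ⟨T₀, hT₀⟩ := exists_nat_ge (64 * M ^ 2 / θ)
    refine ⟨T₀ + 1, by omega, fun T hT => ?_⟩
    have hT1 : (1 : ℝ) ≤ T := by
      have : 1 ≤ T := by omega
      exact_mod_cast this
    have hT2 : (T₀ : ℝ) ≤ T := by
      have : T₀ ≤ T := by omega
      exact_mod_cast this
    rw [div_pow, ← mul_div_assoc, div_le_iff₀ (by positivity)]
    rw [div_le_iff₀ hθ] at hT₀
    have : θ * (T : ℝ) ≤ θ * (T : ℝ) ^ 2 := mul_le_mul_of_nonneg_left (by nlinarith) hθ.le
    nlinarith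
  obtain ⟨T₀, hT₀1, hT₀⟩ := hev
  have hbig : ∀ T : ℕ, win w T ≤ 2 * T * B ^ 2 := by
    intro T
    calc win w T ≤ ∑ _i ∈ range (2 * T), B ^ 2 :=
          Finset.sum_le_sum fun i _ => pow_le_pow_left₀ (norm_nonneg _) (hB _) 2
      _ = 2 * T * B ^ 2 := by simp
  have hiter : ∀ (j T : ℕ), T₀ ≤ T → win w T ≤ 2 * T * B ^ 2 * (1 / 8) ^ j := by
    intro j
    induction j with
    | zero => intro T _; simpa using hbig T
    | succ j ih =>
      intro T hT
      have h1 := win_step hD hθ hβ0 hβ hM.ge w hw (by omega) (hT₀ T hT)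
      have h2 := ih (2 * T) (by omega)
      push_cast at h2
      calc win w T ≤ win w (2 * T) / 16 := h1
        _ ≤ (2 * (2 * T) * B ^ 2 * (1 / 8) ^ j) / 16 := by linarith
        _ = 2 * T * B ^ 2 * (1 / 8) ^ (j + 1) := by rw [pow_succ]; ring
  have hzero : ∀ T : ℕ, T₀ ≤ T → win w T = 0 := by
    intro T hT
    apply le_antisymm _ (win_nonneg w T)
    have hlim : Filter.Tendsto (fun j : ℕ => 2 * T * B ^ 2 * (1 / 8 : ℝ) ^ j) Filter.atTop
        (nhds (2 * T * B ^ 2 * 0)) :=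
      (tendsto_pow_atTop_nhds_zero_of_lt_one (by norm_num) (by norm_num)).const_mul _
    rw [mul_zero] at hlim
    exact ge_of_tendsto' hlim fun j => hiter j T hT
  intro t
  obtain ⟨T, hT⟩ : ∃ T : ℕ, T = T₀ + t.natAbs + 1 := ⟨_, rfl⟩
  have h1 := hzero T (by omega)
  rw [win, Finset.sum_eq_zero_iff_of_nonneg fun _ _ => by positivity] at h1
  have h2 := h1 (t + T).toNat (by
    rw [Finset.mem_range]
    omega)
  have h3 : (((t + T).toNat : ℕ) : ℤ) - T = t := by omega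
  rw [h3] at h2
  exact norm_eq_zero.1 (pow_eq_zero_iff two_ne_zero |>.1 h2)

end

end Pool.Agent.U882.RS
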