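import Mathlib

/-!
# Hausdorff dimension and measure of limsup sets
-/

set_option autoImplicit false

open scoped Topology ENNReal NNReal
open Filter Set Metric MeasureTheory

universe u

namespace Pool.Agent.U882.RS

/-- `E m` is covered by `exp (c m)` balls of radius `exp (- a m)` -/
def CovE {X : Type u} [MetricSpace X] (E : ℕ → Set X) (c a : ℝ) : Prop :=
  ∀ m : ℕ, 1 ≤ m → ∃ T : Finset X, (T.card : ℝ) ≤ Real.exp (c * m) ∧
    ∀ x ∈ E m, ∃ p ∈ T, dist x p ≤ Real.exp (-(a * m))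

theorem geom_summable {β : ℝ} (hβ : 0 < β) (K : ℝ) :
    Summable fun i : ℕ => K * Real.exp (-(β * (i + 1 : ℕ))) := by
  have h1 : Summable fun i : ℕ => Real.exp (-β) ^ (i + 1) := by
    rw [summable_nat_add_iff (f := fun i : ℕ => Real.exp (-β) ^ i) 1]
    exact summable_geometric_of_lt_one (Real.exp_pos _).le (by
      rw [Real.exp_lt_one_iff]; linarith)
  refine (h1.mul_left K).congr fun i => ?_
  congr 1
  rw [← Real.exp_nat_mul]
  congr 1
  ring

theorem dimH_limsup {X : Type u} [MetricSpace X] [MeasurableSpace X] [BorelSpace X]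
    {E : ℕ → Set X} {c a d : ℝ} (hd : 0 < d) (ha : 0 < a) (hcov : CovE E c a)
    (hda : c < d * a) : dimH {x | ∃ᶠ m in atTop, x ∈ E m} ≤ ENNReal.ofReal d := by
  classical
  have hT : ∀ m : ℕ, ∃ T : Finset X, 1 ≤ m → ((T.card : ℝ) ≤ Real.exp (c * m) ∧
      ∀ x ∈ E m, ∃ p ∈ T, dist x p ≤ Real.exp (-(a * m))) := by
    intro m
    by_cases hm : 1 ≤ m
    · obtain ⟨T, h1, h2⟩ := hcov m hm
      exact ⟨T, fun _ => ⟨h1, h2⟩⟩
    · exact ⟨∅, fun h => absurd h hm⟩
  choose T hT using hT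
  obtain ⟨ρ, hρ⟩ : ∃ ρ : ℕ → ℝ, ρ = fun i => Real.exp (-(a * (i + 1 : ℕ))) := ⟨_, rfl⟩
  have hρ0 : ∀ i, 0 < ρ i := fun i => by rw [hρ]; positivity
  have hρanti : ∀ i j, i ≤ j → ρ j ≤ ρ i := fun i j hij => by
    rw [hρ]
    apply Real.exp_le_exp.2
    have h1 : ((i + 1 : ℕ) : ℝ) ≤ (j + 1 : ℕ) := by exact_mod_cast Nat.succ_le_succ hij
    have := mul_le_mul_of_nonneg_left h1 ha.le
    linarith
  obtain ⟨g, hg⟩ : ∃ g : ℕ → ℝ, g = fun i => 2 ^ d * Real.exp (-((d * a - c) * (i + 1 : ℕ))) :=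
    ⟨_, rfl⟩
  have hgs : Summable g := by
    rw [hg]
    exact geom_summable (by linarith) _
  have hg0 : ∀ i, 0 ≤ g i := fun i => by rw [hg]; positivity
  have hdiam : ∀ (p : X) (i : ℕ), ediam (closedBall p (ρ i)) ≤ ENNReal.ofReal (2 * ρ i) := by
    intro p i
    apply ediam_le_of_forall_dist_le
    intro x hx y hy
    rw [mem_closedBall] at hx hy
    have := dist_triangle_right x y p
    linarith
  have hlim : μH[d] {x | ∃ᶠ m in atTop, x ∈ E m} ≤ 0 := by
    have h1 := Measure.hausdorffMeasure_le_liminf_tsum (X := X) (β := ℕ)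
      (ι := fun k => Σ j : ℕ, {p // p ∈ T (j + k + 1)}) d {x | ∃ᶠ m in atTop, x ∈ E m} (l := atTop)
      (fun k => ENNReal.ofReal (2 * ρ k)) ?_
      (fun k i => closedBall (i.2 : X) (ρ (i.1 + k))) ?_ ?_
    · refine h1.trans ?_
      have h2 : ∀ k, ∑' i : (Σ j : ℕ, {p // p ∈ T (j + k + 1)}),
          ediam (closedBall (i.2 : X) (ρ (i.1 + k))) ^ d ≤
          ∑' j, ENNReal.ofReal (g (j + k)) := by
        intro k
        rw [ENNReal.tsum_sigma']
        refine ENNReal.tsum_le_tsum fun j => ?_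
        rw [tsum_fintype]
        have h3 : ∀ p : {p // p ∈ T (j + k + 1)},
            ediam (closedBall (p : X) (ρ (j + k))) ^ d ≤
              ENNReal.ofReal ((2 * ρ (j + k)) ^ d) := by
          intro p
          rw [← ENNReal.ofReal_rpow_of_nonneg (by have := hρ0 (j + k); positivity) hd.le]
          exact ENNReal.rpow_le_rpow (hdiam _ _) hd.le
        refine (Finset.sum_le_sum fun p _ => h3 p).trans ?_
        rw [Finset.sum_const, Finset.card_univ, Fintype.card_coe, nsmul_eq_mul,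
          ← ENNReal.ofReal_natCast, ← ENNReal.ofReal_mul (Nat.cast_nonneg _)]
        apply ENNReal.ofReal_le_ofReal
        have h4 := (hT (j + k + 1) (by omega)).1
        have h5 : (2 * ρ (j + k)) ^ d = 2 ^ d * Real.exp (-(d * a * ((j + k + 1 : ℕ) : ℝ))) := by
          rw [Real.mul_rpow (by norm_num) (hρ0 _).le, hρ]
          congr 1
          rw [← Real.exp_mul]
          congr 1
          ring
        rw [h5, hg]
        calc ((T (j + k + 1)).card : ℝ) * (2 ^ d * Real.exp (-(d * a * ((j + k + 1 : ℕ) : ℝ)))) ≤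
              Real.exp (c * ((j + k + 1 : ℕ) : ℝ)) *
                (2 ^ d * Real.exp (-(d * a * ((j + k + 1 : ℕ) : ℝ)))) := by
              gcongr
          _ = 2 ^ d * (Real.exp (c * ((j + k + 1 : ℕ) : ℝ)) *
                Real.exp (-(d * a * ((j + k + 1 : ℕ) : ℝ)))) := by ring
          _ = _ := by
              rw [← Real.exp_add]
              congr 2
              ring
      have h3 : Tendsto (fun k => ∑' j, ENNReal.ofReal (g (j + k))) atTop (𝓝 0) :=
        ENNReal.tendsto_sum_nat_add _ hgs.tsum_ofReal_ne_top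
      calc liminf (fun k => ∑' i : (Σ j : ℕ, {p // p ∈ T (j + k + 1)}),
            ediam (closedBall (i.2 : X) (ρ (i.1 + k))) ^ d) atTop ≤
            liminf (fun k => ∑' j, ENNReal.ofReal (g (j + k))) atTop :=
            liminf_le_liminf (Eventually.of_forall h2)
        _ = 0 := h3.liminf_eq
    · have h4 : Tendsto (fun k : ℕ => 2 * ρ k) atTop (𝓝 (2 * 0)) := by
        apply Tendsto.const_mul
        have h5 := (geom_summable ha 1).tendsto_atTop_zero
        rw [hρ]
        simpa using h5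
      rw [mul_zero] at h4
      have h6 := ENNReal.tendsto_ofReal h4
      rwa [ENNReal.ofReal_zero] at h6
    · refine Eventually.of_forall fun k i => (hdiam _ _).trans ?_
      apply ENNReal.ofReal_le_ofReal
      have := hρanti k (i.1 + k) (by omega)
      linarith
    · refine Eventually.of_forall fun k x hx => ?_
      obtain ⟨m, hm, hxm⟩ := (frequently_atTop.1 hx) (k + 1)
      obtain ⟨j, rfl⟩ : ∃ j, m = j + k + 1 := ⟨m - k - 1, by omega⟩
      obtain ⟨p, hp, hxp⟩ := (hT _ (by omega)).2 x hxm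
      refine mem_iUnion.2 ⟨⟨j, ⟨p, hp⟩⟩, ?_⟩
      rw [mem_closedBall, hρ]
      exact hxp
  have h7 : ENNReal.ofReal d = ((Real.toNNReal d : ℝ≥0) : ℝ≥0∞) := rfl
  rw [h7]
  apply dimH_le_of_hausdorffMeasure_ne_top
  rw [Real.coe_toNNReal d hd.le]
  exact (lt_of_le_of_lt hlim (by simp)).ne

/-- the Borel–Cantelli lemma for measures with a Frostman condition -/
theorem ae_limsup {X : Type u} [MetricSpace X] [MeasurableSpace X] [BorelSpace X]
    {E : ℕ → Set X} {c a d K : ℝ} (hK : 0 ≤ K) (hcov : CovE E c a)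
    (hda : c < d * a) (μ : Measure X)
    (hμ : ∀ (x : X) (ρ : ℝ), 0 < ρ → μ (closedBall x ρ) ≤ ENNReal.ofReal (K * ρ ^ d)) :
    ∀ᵐ x ∂μ, ∀ᶠ m in atTop, x ∉ E m := by
  have h1 : ∀ m : ℕ, μ (E (m + 1)) ≤
      ENNReal.ofReal (K * Real.exp (-((d * a - c) * (m + 1 : ℕ)))) := by
    intro m
    obtain ⟨T, hT1, hT2⟩ := hcov (m + 1) (by omega)
    have h2 : E (m + 1) ⊆ ⋃ p ∈ T, closedBall p (Real.exp (-(a * (m + 1 : ℕ)))) := by
      intro x hx
      obtain ⟨p, hp, hxp⟩ := hT2 x hx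
      exact mem_iUnion₂.2 ⟨p, hp, hxp⟩
    refine (measure_mono h2).trans ((measure_biUnion_finset_le _ _).trans ?_)
    refine (Finset.sum_le_sum fun p _ => hμ p _ (Real.exp_pos _)).trans ?_
    rw [Finset.sum_const, nsmul_eq_mul, ← ENNReal.ofReal_natCast,
      ← ENNReal.ofReal_mul (Nat.cast_nonneg _)]
    apply ENNReal.ofReal_le_ofReal
    have h3 : Real.exp (-(a * ((m + 1 : ℕ) : ℝ))) ^ d =
        Real.exp (-(d * a * ((m + 1 : ℕ) : ℝ))) := by
      rw [← Real.exp_mul]
      congr 1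
      ring
    rw [h3]
    calc (T.card : ℝ) * (K * Real.exp (-(d * a * ((m + 1 : ℕ) : ℝ)))) ≤
          Real.exp (c * ((m + 1 : ℕ) : ℝ)) * (K * Real.exp (-(d * a * ((m + 1 : ℕ) : ℝ)))) := by
          gcongr
      _ = K * (Real.exp (c * ((m + 1 : ℕ) : ℝ)) * Real.exp (-(d * a * ((m + 1 : ℕ) : ℝ)))) := by
          ring
      _ = _ := by
          rw [← Real.exp_add]
          congr 2
          ring
  have h2 : ∑' m, μ (E (m + 1)) ≠ ∞ := by
    refine ne_top_of_le_ne_top ?_ (ENNReal.tsum_le_tsum h1)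
    exact (geom_summable (show 0 < d * a - c by linarith) K).tsum_ofReal_ne_top
  filter_upwards [ae_eventually_notMem h2] with x hx
  rw [eventually_atTop] at hx ⊢
  obtain ⟨M, hM⟩ := hx
  refine ⟨M + 1, fun m hm => ?_⟩
  obtain ⟨j, rfl⟩ : ∃ j, m = j + 1 := ⟨m - 1, by omega⟩
  exact hM j (by omega)

end Pool.Agent.U882.RS
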