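import Pool.Agent.U882.RS.Loc

/-!
# Close returns and close points of thin invariant sets
-/

set_option autoImplicit false

open scoped Manifold ContDiff Topology
open Filter Set Metric

universe u

namespace Pool.Agent.U882.RS

open Pool.Agent.H718R2.G Pool.Agent.W564.SC Pool.Agent.W509.SC Pool.Agent.Y368.CL
  Pool.Agent.N813.OF

theorem robust_mono {n : ℕ} {N : Type u} [TopologicalSpace N] {F : N → N}
    {χ : OpenPartialHomeomorph N (V n)} {k : ℕ} {κ κ' : ℝ} (h : RobustAt F χ k κ) (hκ' : 0 < κ')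
    (hκκ' : κ' ≤ κ) : RobustAt F χ k κ' := by
  intro ρ m z hc D hD T hT μ hμ
  obtain ⟨h1, h2, h3, h4, h5, h6, h7, h8⟩ := hc
  refine h ρ m z ⟨h1, by linarith, h3, by linarith, h5, h6, ?_, h8⟩ D hD T ?_ μ hμ
  · exact h7.trans (mul_le_mul_of_nonneg_right hκκ' (by positivity))
  · exact hT.trans (mul_le_mul_of_nonneg_right hκκ' (by positivity))

section

variable {n : ℕ} {N : Type u} [MetricSpace N] [ChartedSpace (V n) N] {r : ℕ∞}

theorem derBd_mono {F : DiffM n N r} {χ : OpenPartialHomeomorph N (V n)} {m : ℕ} {Λ Λ' : ℝ}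
    (hΛ : 0 < Λ) (h : Λ ≤ Λ') (hD : DerBd F χ m Λ) : DerBd F χ m Λ' := by
  have hinv : Λ'⁻¹ ≤ Λ⁻¹ := inv_anti₀ hΛ h
  refine ⟨?_, ?_⟩
  · intro i hi y hy y' hy' h1 h2 h3 h4 h5
    obtain ⟨a1, a2⟩ := hD.h1 i hi y hy y' hy' h1 h2 (h3.trans hinv) h4 h5
    exact ⟨a1, a2.trans (mul_le_mul_of_nonneg_right h (norm_nonneg _))⟩
  · intro i hi y hy h1 h2 h3 x hx
    obtain ⟨a1, a2, a3⟩ := hD.h2 i hi y hy h1 h2 h3 x (ball_subset_ball hinv hx)
    exact ⟨a1, a2.trans h, a3.trans (mul_le_mul_of_nonneg_right h (norm_nonneg _))⟩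

/-- The conclusion at a point `y`: if `y` returns very closely and not before, then it is periodic and
isolated in `K`. -/
def KeyAt (F : DiffM n N r) (k : ℕ) (c : ℝ) (y : N) : Prop :=
  ∀ (s m : ℕ) (K : Set N) (ε θ : ℝ), 1 ≤ m → m ≤ s → MapsTo F K K → MapsTo F.symm K K →
    CovBy K s ε → y ∈ K → 0 < θ → θ ≤ 1 → (∀ l, 0 < l → l < m → θ ≤ dist y (F^[l] y)) →
    dist (F^[m] y) y ≤ c ^ (s * m) * (c * θ) ^ (n * k) → ε ≤ c ^ (s * m) * (c * θ) ^ (n * k) →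
    F^[m] y = y ∧ ∀ v ∈ K, dist v y ≤ c ^ (s * m) * (c * θ) ^ (n * k) → v = y

theorem KeyAt.mono {F : DiffM n N r} {k k' : ℕ} {c c' : ℝ} {y : N} (h : KeyAt F k c y)
    (hk : k ≤ k') (hc' : 0 < c') (hcc : c' ≤ c) (hc1 : c ≤ 1) : KeyAt F k' c' y := by
  intro s m K ε θ h1 h2 h3 h4 h5 h6 h7 h8 h9 h10 h11
  have hle : c' ^ (s * m) * (c' * θ) ^ (n * k') ≤ c ^ (s * m) * (c * θ) ^ (n * k) := by
    have a1 : c' ^ (s * m) ≤ c ^ (s * m) := pow_le_pow_left₀ hc'.le hcc _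
    have a2 : (c' * θ) ^ (n * k') ≤ (c * θ) ^ (n * k') :=
      pow_le_pow_left₀ (by positivity) (mul_le_mul_of_nonneg_right hcc h7.le) _
    have a3 : (c * θ) ^ (n * k') ≤ (c * θ) ^ (n * k) := by
      refine pow_le_pow_of_le_one (by have := hc'.trans_le hcc; positivity) ?_
        (Nat.mul_le_mul_left n hk)
      have := hc'.trans_le hcc
      nlinarith
    have := hc'.trans_le hcc
    exact mul_le_mul a1 (a2.trans a3) (by positivity) (by positivity)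
  obtain ⟨b1, b2⟩ := h s m K ε θ h1 h2 h3 h4 h5 h6 h7 h8 h9 (h10.trans hle) (h11.trans hle)
  exact ⟨b1, fun v hv hd => b2 v hv (hd.trans hle)⟩

end

/-- numbers -/
theorem numsK {n k s m : ℕ} (hn : 1 ≤ n) (hk : 1 ≤ k) (hm : 1 ≤ m) (hms : m ≤ s)
    {c θ L κ Q δ : ℝ} (hc : 0 < c) (hθ : 0 < θ) (hθ1 : θ ≤ 1) (hL : 1 ≤ L) (hκ : 0 < κ)
    (hκ8 : κ ≤ 1 / 8) (hQ : 16 ≤ Q)
    (h1 : c ≤ κ / (24 * L)) (h2 : c * (8 * L * n ^ 2 * (1 + n) ^ n * (4 * Q) ^ (n + 3)) ≤ 1)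
    (h3 : c ≤ δ / 2) (hδ : 0 < δ) :
    (c ^ (s * m) * (c * θ) ^ (n * k)) < δ ∧
    L * (c ^ (s * m) * (c * θ) ^ (n * k)) ≤ κ * (κ * θ / (4 * L)) ^ k ∧
    L * (c ^ (s * m) * (c * θ) ^ (n * k)) ≤ 1 / 8 ∧
    2 * L * (c ^ (s * m) * (c * θ) ^ (n * k)) * (4 * Q ^ m) ^ (s + 1) ≤
      (κ * (κ * θ / (4 * L)) ^ (k - 1) / 2 / 3) ^ n / (4 * n ^ 2 * (1 + n * Q ^ m) ^ n * Q ^ m) := by
  have hL0 : 0 < L := by linarith
  have hs : 1 ≤ s := hm.trans hms
  have hsm : 1 ≤ s * m := Nat.one_le_iff_ne_zero.2 (by positivity)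
  have hc1 : c ≤ 1 / 192 := by
    refine h1.trans ?_
    rw [div_le_iff₀ (by positivity)]
    linarith
  have hcL : c * (24 * L) ≤ κ := by rwa [le_div_iff₀ (by positivity)] at h1
  have hcs : c ^ (s * m) ≤ c := by
    have := pow_le_pow_of_le_one hc.le (by linarith) hsm
    rwa [pow_one] at this
  have hcθ0 : 0 < c * θ := by positivity
  have hcθ1 : c * θ ≤ 1 := by nlinarith
  have hnk : k ≤ n * k := Nat.le_mul_of_pos_left k (by omega)
  have hp1 : (c * θ) ^ (n * k) ≤ (c * θ) ^ k := pow_le_pow_of_le_one hcθ0.le hcθ1 hnk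
  have hp2 : (c * θ) ^ k ≤ 1 := pow_le_one₀ hcθ0.le hcθ1
  have hB1 : c ^ (s * m) * (c * θ) ^ (n * k) ≤ c * (c * θ) ^ k :=
    mul_le_mul hcs hp1 (by positivity) hc.le
  have hB2 : c ^ (s * m) * (c * θ) ^ (n * k) ≤ c := by
    refine hB1.trans ?_
    nlinarith
  have hnR : (1 : ℝ) ≤ n := by exact_mod_cast hn
  refine ⟨by linarith, ?_, ?_, ?_⟩
  · have e1 : L * c ≤ κ := by nlinarith
    have e2 : (c * θ) ^ k ≤ (κ * θ / (4 * L)) ^ k := by
      refine pow_le_pow_left₀ hcθ0.le ?_ k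
      rw [le_div_iff₀ (by positivity)]
      nlinarith
    calc L * (c ^ (s * m) * (c * θ) ^ (n * k)) ≤ L * (c * (c * θ) ^ k) :=
          mul_le_mul_of_nonneg_left hB1 hL0.le
      _ = (L * c) * (c * θ) ^ k := by ring
      _ ≤ κ * (κ * θ / (4 * L)) ^ k := mul_le_mul e1 e2 (by positivity) hκ.le
  · have := mul_le_mul_of_nonneg_left hB2 hL0.le
    nlinarith
  · have hQm : 0 < Q ^ m := by positivity
    have hQm1 : 1 ≤ Q ^ m := one_le_pow₀ (by linarith)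
    rw [le_div_iff₀ (by positivity)]
    -- the right side
    have hR : (κ * θ / (24 * L)) ^ (n * k) ≤ (κ * (κ * θ / (4 * L)) ^ (k - 1) / 2 / 3) ^ n := by
      rw [mul_comm n k, pow_mul]
      refine pow_le_pow_left₀ (by positivity) ?_ n
      obtain ⟨k', rfl⟩ : ∃ k', k = k' + 1 := ⟨k - 1, by omega⟩
      rw [Nat.add_sub_cancel, pow_succ]
      have a1 : (κ * θ / (24 * L)) ^ k' ≤ (κ * θ / (4 * L)) ^ k' := by
        refine pow_le_pow_left₀ (by positivity) ?_ k'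
        refine div_le_div_of_nonneg_left (by positivity) (by positivity) ?_
        linarith
      have a2 : κ * θ / (24 * L) ≤ κ / 6 := by
        rw [div_le_div_iff₀ (by positivity) (by norm_num)]
        have : κ * θ ≤ κ := by nlinarith
        nlinarith
      calc (κ * θ / (24 * L)) ^ k' * (κ * θ / (24 * L)) ≤ (κ * θ / (4 * L)) ^ k' * (κ / 6) :=
            mul_le_mul a1 a2 (by positivity) (by positivity)
        _ = _ := by ring
    refine le_trans ?_ hR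
    -- the left side
    obtain ⟨A, hA⟩ : ∃ A : ℝ, A = 8 * L * n ^ 2 * (1 + n) ^ n := ⟨_, rfl⟩
    rw [← hA] at h2
    have hA1 : 1 ≤ A := by
      rw [hA]
      have b1 : (1 : ℝ) ≤ (n : ℝ) ^ 2 := one_le_pow₀ hnR
      have b2 : (1 : ℝ) ≤ (1 + (n : ℝ)) ^ n := one_le_pow₀ (by linarith)
      have b3 : 1 ≤ 8 * L := by linarith
      calc (1 : ℝ) = 1 * 1 * 1 := by ring
        _ ≤ 8 * L * n ^ 2 * (1 + n) ^ n := by gcongr
    have hA0 : 0 < A := by linarith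
    have c1 : (1 + n * Q ^ m) ^ n ≤ (1 + (n : ℝ)) ^ n * (Q ^ m) ^ n := by
      rw [← mul_pow]
      refine pow_le_pow_left₀ (by positivity) ?_ n
      nlinarith
    have c2 : (4 * Q ^ m) ^ (s + 1) * ((Q ^ m) ^ n * Q ^ m) ≤ ((4 * Q) ^ (n + 3)) ^ (s * m) := by
      have d1 : 4 * Q ^ m ≤ (4 * Q) ^ m := by
        rw [mul_pow]
        refine mul_le_mul_of_nonneg_right ?_ hQm.le
        calc (4 : ℝ) = 4 ^ 1 := by norm_num
          _ ≤ 4 ^ m := pow_le_pow_right₀ (by norm_num) hm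
      have d2 : Q ^ m ≤ (4 * Q) ^ m := pow_le_pow_left₀ (by linarith) (by linarith) m
      have d3 : 1 ≤ 4 * Q := by linarith
      calc (4 * Q ^ m) ^ (s + 1) * ((Q ^ m) ^ n * Q ^ m) ≤
          ((4 * Q) ^ m) ^ (s + 1) * (((4 * Q) ^ m) ^ n * (4 * Q) ^ m) := by gcongr
        _ = ((4 * Q) ^ m) ^ (s + 1 + n + 1) := by ring
        _ = (4 * Q) ^ (m * (s + 1 + n + 1)) := by rw [← pow_mul]
        _ ≤ (4 * Q) ^ ((n + 3) * (s * m)) := by
            refine pow_le_pow_right₀ d3 ?_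
            have : s + 1 + n + 1 ≤ (n + 3) * s := by nlinarith
            calc m * (s + 1 + n + 1) ≤ m * ((n + 3) * s) := Nat.mul_le_mul_left m this
              _ = (n + 3) * (s * m) := by ring
        _ = _ := by rw [← pow_mul]
    obtain ⟨Bd, hBd⟩ : ∃ Bd : ℝ, Bd = c ^ (s * m) * (c * θ) ^ (n * k) := ⟨_, rfl⟩
    have hBd0 : 0 < Bd := by rw [hBd]; positivity
    rw [← hBd]
    calc 2 * L * Bd * (4 * Q ^ m) ^ (s + 1) * (4 * n ^ 2 * (1 + n * Q ^ m) ^ n * Q ^ m) ≤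
        2 * L * Bd * (4 * Q ^ m) ^ (s + 1) *
          (4 * n ^ 2 * ((1 + (n : ℝ)) ^ n * (Q ^ m) ^ n) * Q ^ m) := by gcongr
      _ = A * Bd * ((4 * Q ^ m) ^ (s + 1) * ((Q ^ m) ^ n * Q ^ m)) := by rw [hA]; ring
      _ ≤ A * Bd * ((4 * Q) ^ (n + 3)) ^ (s * m) := by gcongr
      _ ≤ A ^ (s * m) * Bd * ((4 * Q) ^ (n + 3)) ^ (s * m) := by
          have : A ≤ A ^ (s * m) := by
            calc A = A ^ 1 := (pow_one A).symm
              _ ≤ A ^ (s * m) := pow_le_pow_right₀ hA1 hsm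
          gcongr
      _ = (c * (A * (4 * Q) ^ (n + 3))) ^ (s * m) * (c * θ) ^ (n * k) := by
          rw [hBd]
          simp only [mul_pow]
          ring
      _ ≤ 1 * (c * θ) ^ (n * k) := by
          refine mul_le_mul_of_nonneg_right ?_ (by positivity)
          exact pow_le_one₀ (by positivity) h2
      _ ≤ (κ * θ / (24 * L)) ^ (n * k) := by
          rw [one_mul]
          refine pow_le_pow_left₀ hcθ0.le ?_ _
          rw [le_div_iff₀ (by positivity)]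
          calc c * θ * (24 * L) = c * (24 * L) * θ := by ring
            _ ≤ κ * θ := mul_le_mul_of_nonneg_right hcL hθ.le

end Pool.Agent.U882.RS
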