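import Pool.Agent.U882.RS.Key

/-!
# Close returns and close points of thin invariant sets: the proof in a chart
-/

set_option autoImplicit false

open scoped Manifold ContDiff Topology
open Filter Set Metric

universe u

namespace Pool.Agent.U882.RS

open Pool.Agent.H718R2.G Pool.Agent.W564.SC Pool.Agent.W509.SC Pool.Agent.Y368.CL
  Pool.Agent.N813.OF Pool.Agent.N813.EM Pool.Agent.TH80.OMS

section

variable {n : ℕ} {N : Type u} [MetricSpace N] [CompactSpace N] [ChartedSpace (V n) N]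
  [IsManifold (𝓡 n) ∞ N] {r : ℕ∞}

omit [CompactSpace N] [IsManifold (𝓡 n) ∞ N] in
theorem lip_iter (F : DiffM n N r) {Λ : ℝ} (hΛ1 : 1 ≤ Λ)
    (h : ∀ x y, dist (F x) (F y) ≤ Λ * dist x y ∧ dist x y ≤ Λ * dist (F x) (F y)) (m : ℕ) :
    LipTo F m (Λ ^ (2 * m)) := by
  have h1 : ∀ (i : ℕ) (x y : N), dist (F^[i] x) (F^[i] y) ≤ Λ ^ i * dist x y := by
    intro i
    induction i with
    | zero => intro x y; simp
    | succ i ih =>
      intro x y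
      rw [Function.iterate_succ_apply', Function.iterate_succ_apply', pow_succ']
      calc _ ≤ Λ * dist (F^[i] x) (F^[i] y) := (h _ _).1
        _ ≤ Λ * (Λ ^ i * dist x y) := mul_le_mul_of_nonneg_left (ih x y) (by linarith)
        _ = _ := by ring
  have h2 : ∀ (i : ℕ) (x y : N), dist (F.symm^[i] x) (F.symm^[i] y) ≤ Λ ^ i * dist x y := by
    intro i
    induction i with
    | zero => intro x y; simp
    | succ i ih =>
      intro x y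
      rw [Function.iterate_succ_apply', Function.iterate_succ_apply', pow_succ']
      have e := (h (F.symm (F.symm^[i] x)) (F.symm (F.symm^[i] y))).2
      rw [F.apply_symm_apply, F.apply_symm_apply] at e
      calc _ ≤ Λ * dist (F.symm^[i] x) (F.symm^[i] y) := e
        _ ≤ Λ * (Λ ^ i * dist x y) := mul_le_mul_of_nonneg_left (ih x y) (by linarith)
        _ = _ := by ring
  intro i hi x y
  have h3 : Λ ^ i ≤ Λ ^ (2 * m) := pow_le_pow_right₀ hΛ1 hi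
  exact ⟨(h1 i x y).trans (mul_le_mul_of_nonneg_right h3 dist_nonneg),
    (h2 i x y).trans (mul_le_mul_of_nonneg_right h3 dist_nonneg)⟩

/-- bounds for the derivatives with a constant `Q^m` -/
theorem derBd_pow (hr : 2 ≤ r) (hN : ChartLip n N) (F : DiffM n N r)
    (χ : OpenPartialHomeomorph N (V n)) (z : N) (hχ : GoodChart n N χ z) :
    ∃ Q : ℝ, 16 ≤ Q ∧ ∀ m : ℕ, 1 ≤ m → DerBd F χ m (Q ^ m) := by
  have hr1 : (1 : ℕ∞) ≤ r := le_trans (by norm_num) hr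
  obtain ⟨Λ₀, hΛ₀⟩ := bilip BIL.t hN hr1 F
  obtain ⟨Λ, hΛ1, hΛ⟩ : ∃ Λ : ℝ, 1 ≤ Λ ∧ ∀ x y, dist (F x) (F y) ≤ Λ * dist x y ∧
      dist x y ≤ Λ * dist (F x) (F y) :=
    ⟨max 1 Λ₀, le_max_left _ _, fun x y =>
      ⟨(hΛ₀ x y).1.trans (mul_le_mul_of_nonneg_right (le_max_right _ _) dist_nonneg),
        (hΛ₀ x y).2.trans (mul_le_mul_of_nonneg_right (le_max_right _ _) dist_nonneg)⟩⟩
  obtain ⟨C₀, hC₀, hD⟩ := derBd hr hN F χ z hχ
  have hΛ0 : 0 < Λ := by linarith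
  refine ⟨C₀ * 2 * Λ ^ 6, ?_, fun m hm => ?_⟩
  · have : 1 ≤ Λ ^ 6 := one_le_pow₀ hΛ1
    nlinarith
  · have h1 := hD m hm (Λ ^ (2 * m)) (one_le_pow₀ hΛ1) (lip_iter F hΛ1 hΛ m)
    have hmp : (0 : ℝ) < m := by exact_mod_cast hm
    refine derBd_mono (by positivity) ?_ h1
    have e1 : (m : ℝ) ≤ 2 ^ m := by exact_mod_cast Nat.lt_two_pow_self.le
    have e2 : C₀ ≤ C₀ ^ m := by
      calc C₀ = C₀ ^ 1 := (pow_one _).symm
        _ ≤ C₀ ^ m := pow_le_pow_right₀ (by linarith) hm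
    calc C₀ * (m * (Λ ^ (2 * m)) ^ 3) ≤ C₀ ^ m * (2 ^ m * (Λ ^ (2 * m)) ^ 3) := by gcongr
      _ = (C₀ * 2 * Λ ^ 6) ^ m := by
          rw [mul_pow, mul_pow, ← pow_mul, ← pow_mul, show 2 * m * 3 = 6 * m by ring]
          ring

theorem key_local (hn : 1 ≤ n) (hr : 2 ≤ r) (hN : ChartLip n N) (F : DiffM n N r)
    (hF : OmegaStable n N r F) (z : N) :
    ∃ (k : ℕ) (c : ℝ), 1 ≤ k ∧ (k : ℕ∞) ≤ r ∧ 0 < c ∧ c ≤ 1 ∧ ∀ᶠ y in 𝓝 z, KeyAt F k c y := by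
  have hr1 : (1 : ℕ∞) ≤ r := le_trans (by norm_num) hr
  obtain ⟨χ, hχ⟩ := Pool.Agent.W699.SC.gc n N z
  obtain ⟨k, hk, hkr, κ₀, hκ₀, hrob₀⟩ := robust hr1 F hF χ z hχ
  obtain ⟨κ, hκ, hκ8, hrob⟩ : ∃ κ : ℝ, 0 < κ ∧ κ ≤ 1 / 8 ∧ RobustAt F χ k κ :=
    ⟨min κ₀ (1 / 8), by positivity, min_le_right _ _,
      robust_mono hrob₀ (by positivity) (min_le_left _ _)⟩
  obtain ⟨L₀, hL₀, hlip₀⟩ := hN χ z hχ
  obtain ⟨L, hL, hlip⟩ : ∃ L : ℝ, 1 ≤ L ∧ ∀ y ∈ χ.source, ∀ y' ∈ χ.source, ‖χ y‖ ≤ 1 / 2 →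
      ‖χ y'‖ ≤ 1 / 2 → dist y y' ≤ L * ‖χ y - χ y'‖ ∧ ‖χ y - χ y'‖ ≤ L * dist y y' := by
    refine ⟨max 1 L₀, le_max_left _ _, fun y hy y' hy' h1 h2 => ?_⟩
    obtain ⟨h3, h4⟩ := hlip₀ y hy y' hy' h1 h2
    exact ⟨h3.trans (mul_le_mul_of_nonneg_right (le_max_right _ _) (norm_nonneg _)),
      h4.trans (mul_le_mul_of_nonneg_right (le_max_right _ _) dist_nonneg)⟩
  obtain ⟨δ, hδ, hclose⟩ := unif_close hχ
  obtain ⟨Q, hQ, hDB⟩ := derBd_pow hr hN F χ z hχ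
  have hL0 : 0 < L := by linarith
  have hnR : (1 : ℝ) ≤ n := by exact_mod_cast hn
  obtain ⟨A, hA⟩ : ∃ A : ℝ, A = 8 * L * n ^ 2 * (1 + n) ^ n * (4 * Q) ^ (n + 3) := ⟨_, rfl⟩
  have hA0 : 0 < A := by rw [hA]; positivity
  obtain ⟨c, hc, hc1, hc2, hc3, hc4⟩ : ∃ c : ℝ, 0 < c ∧ c ≤ κ / (24 * L) ∧ c * A ≤ 1 ∧ c ≤ δ / 2 ∧
      c ≤ 1 := by
    refine ⟨min (min (κ / (24 * L)) (1 / A)) (min (δ / 2) 1), by positivity, ?_, ?_, ?_, ?_⟩
    · exact (min_le_left _ _).trans (min_le_left _ _)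
    · rw [← le_div_iff₀ hA0]
      exact (min_le_left _ _).trans (min_le_right _ _)
    · exact (min_le_right _ _).trans (min_le_left _ _)
    · exact (min_le_right _ _).trans (min_le_right _ _)
  refine ⟨k, c, hk, hkr, hc, hc4, ?_⟩
  have hnear : ∀ᶠ y in 𝓝 z, y ∈ χ.source ∧ ‖χ y‖ < κ := by
    have h5 : ∀ᶠ y in 𝓝 z, ‖χ y‖ < κ := by
      refine (χ.continuousAt hχ.src).norm.eventually_lt_const ?_
      beta_reduce
      rw [hχ.zero, norm_zero]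
      exact hκ
    filter_upwards [χ.open_source.mem_nhds hχ.src, h5] with y h6 h7
    exact ⟨h6, h7⟩
  filter_upwards [hnear] with y hy
  obtain ⟨hy, hyκ⟩ := hy
  intro s m K ε θ hm hms hFK hFK' hcov hyK hθ hθ1 hfar hret hεB
  obtain ⟨n1, n2, n3, n4⟩ := numsK hn hk hm hms hc hθ hθ1 hL hκ hκ8 hQ hc1 (by rw [← hA]; exact hc2)
    hc3 hδ
  obtain ⟨Bd, hBd⟩ : ∃ Bd : ℝ, Bd = c ^ (s * m) * (c * θ) ^ (n * k) := ⟨_, rfl⟩
  rw [← hBd] at hret hεB n1 n2 n3 n4 ⊢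
  have hBd0 : 0 < Bd := by rw [hBd]; positivity
  -- the point F^m y
  have hy8 : ‖χ y‖ ≤ 1 / 8 := by linarith
  have hFyd : dist y (F^[m] y) < δ := by rw [dist_comm]; linarith
  obtain ⟨hFy, hFy2⟩ := hclose y hy (by linarith) _ hFyd
  obtain ⟨e, he⟩ : ∃ e : ℝ, e = L * Bd := ⟨_, rfl⟩
  have hFe : ‖χ (F^[m] y) - χ y‖ ≤ e := by
    rw [he]
    exact (hlip _ hFy _ hy hFy2.le (by linarith)).2.trans (mul_le_mul_of_nonneg_left hret hL0.le)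
  rw [← he] at n2 n3
  have he0 : 0 < e := by rw [he]; positivity
  have hFy4 : ‖χ (F^[m] y)‖ ≤ 1 / 4 := by
    have e1 : χ (F^[m] y) = (χ (F^[m] y) - χ y) + χ y := by abel
    rw [e1]
    refine (norm_add_le _ _).trans ?_
    linarith
  -- the close return
  obtain ⟨ρ, hρ⟩ : ∃ ρ : ℝ, ρ = κ * θ / (4 * L) := ⟨_, rfl⟩
  have hρ0 : 0 < ρ := by rw [hρ]; positivity
  have hκθ : κ * θ ≤ κ := by nlinarith
  have hρκ : ρ < κ := by
    rw [hρ, div_lt_iff₀ (by positivity)]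
    nlinarith
  have hρL : ρ * (4 * L) = κ * θ := by rw [hρ]; field_simp
  rw [← hρ] at n2 n4
  have hCR : CloseRet F χ k κ ρ m y := by
    refine ⟨hy, hyκ, hρ0, hρκ, hm, hFy, hFe.trans n2, ?_⟩
    intro l hl hlm hFl
    by_cases h1 : ‖χ (F^[l] y)‖ ≤ 1 / 2
    · have h2 := (hlip _ hFl _ hy h1 (by linarith)).1
      have h3 := hfar l hl hlm
      rw [dist_comm] at h3
      have h4 : θ ≤ L * ‖χ (F^[l] y) - χ y‖ := h3.trans h2
      have h5 : 2 * ρ * L ≤ L * ‖χ (F^[l] y) - χ y‖ := by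
        have : 2 * ρ * L = κ * θ / 2 := by linarith
        nlinarith
      rw [mul_comm] at h5
      exact le_of_mul_le_mul_left h5 hL0
    · push Not at h1
      have h2 := norm_sub_norm_le (χ (F^[l] y)) (χ y)
      linarith
  have hgap : ∀ D : V n →L[ℝ] V n, DerAt F χ m y D → ∀ μ : ℂ, Eig D μ →
      κ * ρ ^ (k - 1) / 2 ≤ |‖μ‖ - 1| := fun D hD μ hμ =>
    gap_of_robust hκ (by linarith) hrob hCR hD μ hμ
  obtain ⟨η, hη⟩ : ∃ η : ℝ, η = κ * ρ ^ (k - 1) / 2 := ⟨_, rfl⟩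
  rw [← hη] at n4 hgap
  have hη0 : 0 < η := by rw [hη]; positivity
  have hη1 : η ≤ 1 := by
    rw [hη]
    have : ρ ^ (k - 1) ≤ 1 := pow_le_one₀ hρ0.le (by linarith)
    nlinarith
  obtain ⟨Λ, hΛ⟩ : ∃ Λ : ℝ, Λ = Q ^ m := ⟨_, rfl⟩
  have hΛ16 : 16 ≤ Λ := by
    rw [hΛ]
    calc (16 : ℝ) ≤ Q := hQ
      _ = Q ^ 1 := (pow_one Q).symm
      _ ≤ Q ^ m := pow_le_pow_right₀ (by linarith) hm
  have hDm := hDB m hm
  rw [← hΛ] at n4 hDm
  have hΛ0 : 0 < Λ := by linarith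
  obtain ⟨r₀, hr₀⟩ : ∃ r₀ : ℝ, r₀ = (η / 3) ^ n / (4 * n ^ 2 * (1 + n * Λ) ^ n * Λ) := ⟨_, rfl⟩
  rw [← hr₀] at n4
  have hden : 0 < 4 * (n : ℝ) ^ 2 * (1 + n * Λ) ^ n * Λ := by positivity
  have hr₀0 : 0 < r₀ := by rw [hr₀]; positivity
  have hrmul : r₀ * (4 * n ^ 2 * (1 + n * Λ) ^ n * Λ) = (η / 3) ^ n := by
    rw [hr₀]; field_simp
  have hηn : (η / 3) ^ n ≤ 1 := pow_le_one₀ (by positivity) (by linarith)
  have hr₀Λ : 4 * Λ * r₀ ≤ 1 := by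
    have b1 : (1 : ℝ) ≤ (n : ℝ) ^ 2 := one_le_pow₀ hnR
    have b2 : (1 : ℝ) ≤ (1 + (n : ℝ) * Λ) ^ n := one_le_pow₀ (by
      have : 0 ≤ (n : ℝ) * Λ := by positivity
      linarith)
    calc 4 * Λ * r₀ = r₀ * (4 * 1 * 1 * Λ) := by ring
      _ ≤ r₀ * (4 * n ^ 2 * (1 + n * Λ) ^ n * Λ) := by gcongr
      _ ≤ 1 := by rw [hrmul]; exact hηn
  have hr₀i : r₀ ≤ Λ⁻¹ / 4 := by
    rw [le_div_iff₀ (by norm_num), le_inv_comm₀ (by positivity) hΛ0]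
    rw [le_inv_comm₀ hΛ0 (by positivity), ← one_div, le_div_iff₀ hΛ0]
    linarith
  have hΛi : Λ⁻¹ ≤ 1 / 16 := by
    rw [← one_div]
    exact one_div_le_one_div_of_le (by norm_num) hΛ16
  have hΛi0 : 0 < Λ⁻¹ := by positivity
  have hr₀64 : r₀ ≤ 1 / 64 := by linarith
  -- the radius R₀
  obtain ⟨R₀, hR₀⟩ : ∃ R₀ : ℝ, R₀ = 2 * L * Bd := ⟨_, rfl⟩
  rw [← hR₀] at n4
  have hR₀0 : 0 < R₀ := by rw [hR₀]; positivity
  have heR : e ≤ R₀ := by rw [he, hR₀]; nlinarith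
  have hR₀r : R₀ ≤ r₀ := by
    refine le_trans ?_ n4
    have : 1 ≤ (4 * Λ) ^ (s + 1) := one_le_pow₀ (by linarith)
    nlinarith
  have him : |(m : ℤ)| ≤ 2 * m := by
    rw [abs_of_nonneg (by positivity)]
    omega
  have him' : |(-(m : ℤ))| ≤ 2 * m := by rw [abs_neg]; exact him
  have hnorm4 : ∀ b : N, ‖χ b - χ y‖ ≤ r₀ → ‖χ b‖ ≤ 1 / 4 := by
    intro b hb
    have e1 : χ b = (χ b - χ y) + χ y := by abel
    rw [e1]
    refine (norm_add_le _ _).trans ?_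
    linarith
  have hlipS : ∀ b ∈ χ.source, ∀ b' ∈ χ.source, ‖χ b - χ y‖ ≤ r₀ → ‖χ b' - χ y‖ ≤ r₀ →
      ‖χ b - χ b'‖ ≤ L * dist b b' := fun b hb b' hb' h1 h2 =>
    (hlip b hb b' hb' ((hnorm4 b h1).trans (by norm_num)) ((hnorm4 b' h2).trans (by norm_num))).2
  -- forward
  have hfw : ∀ b ∈ χ.source, ‖χ b - χ y‖ ≤ r₀ →
      F^[m] b ∈ χ.source ∧ ‖χ (F^[m] b) - χ y‖ ≤ Λ * (‖χ b - χ y‖ + e) := by
    intro b hb hbr
    have h1 := hDm.h1 (m : ℤ) him y hy b hb (by linarith) (hnorm4 b hbr)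
      (by rw [norm_sub_rev]; linarith) (by rw [it_nat]; exact hFy) (by rw [it_nat]; exact hFy4)
    rw [it_nat] at h1
    refine ⟨h1.1, ?_⟩
    have e1 : χ (F^[m] b) - χ y = (χ (F^[m] y) - χ y) - (χ (F^[m] y) - χ (F^[m] b)) := by abel
    rw [e1]
    refine (norm_sub_le _ _).trans ?_
    have h2 := h1.2
    rw [norm_sub_rev (χ y)] at h2
    nlinarith
  -- backward
  have hinv : ∀ x : N, F.symm^[m] (F^[m] x) = x := by
    intro x
    have h1 : it F (-(m : ℤ)) (it F (m : ℤ) x) = x := by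
      rw [← it_add, neg_add_cancel, it_zero]
    rwa [it_nat, it_neg] at h1
  have hbw : ∀ b ∈ χ.source, ‖χ b - χ y‖ ≤ r₀ →
      F.symm^[m] b ∈ χ.source ∧ ‖χ (F.symm^[m] b) - χ y‖ ≤ Λ * (‖χ b - χ y‖ + e) := by
    intro b hb hbr
    have hd : ‖χ (F^[m] y) - χ b‖ ≤ ‖χ b - χ y‖ + e := by
      have e1 : χ (F^[m] y) - χ b = (χ (F^[m] y) - χ y) - (χ b - χ y) := by abel
      rw [e1]
      refine (norm_sub_le _ _).trans ?_
      linarith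
    have h1 := hDm.h1 (-(m : ℤ)) him' (F^[m] y) hFy b hb hFy4 (hnorm4 b hbr)
      (by linarith) (by rw [it_neg, hinv]; exact hy)
      (by rw [it_neg, hinv]; linarith)
    rw [it_neg, hinv] at h1
    refine ⟨h1.1, ?_⟩
    rw [norm_sub_rev]
    exact h1.2.trans (mul_le_mul_of_nonneg_left hd hΛ0.le)
  have hK1 : MapsTo F^[m] K K := hFK.iterate m
  have hK2 : MapsTo F.symm^[m] K K := hFK'.iterate m
  have hεR : 2 * ε * L ≤ R₀ := by rw [hR₀]; nlinarith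
  have hstay : ∀ b ∈ K, b ∈ χ.source → ‖χ b - χ y‖ ≤ R₀ → ∀ t : ℤ,
      it F (t * m) b ∈ χ.source ∧ ‖χ (it F (t * m) b) - χ y‖ ≤ r₀ := by
    intro b hbK hbS hbR t
    obtain ⟨l, hl | hl⟩ := Int.eq_nat_or_neg t
    · have h1 := stay χ.source K χ y F^[m] hL0 (by linarith) hR₀0 heR hεR n4 hlipS hfw hK1 hcov b
        hbK hbS hbR l
      have e1 : it F (t * m) b = (F^[m])^[l] b := by
        rw [hl, ← Function.iterate_mul, mul_comm m l]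
        have : ((l : ℤ) * (m : ℤ)) = ((l * m : ℕ) : ℤ) := by push_cast; ring
        rw [this, it_nat]
      rw [e1]
      exact h1
    · have h1 := stay χ.source K χ y F.symm^[m] hL0 (by linarith) hR₀0 heR hεR n4 hlipS hbw hK2
        hcov b hbK hbS hbR l
      have e1 : it F (t * m) b = (F.symm^[m])^[l] b := by
        rw [hl, ← Function.iterate_mul, mul_comm m l]
        have : (-(l : ℤ) * (m : ℤ)) = -((l * m : ℕ) : ℤ) := by push_cast; ring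
        rw [this, it_neg]
      rw [e1]
      exact h1
  have hrβ : 2 * n ^ 2 * (1 + n * Λ) ^ n * (Λ * r₀) ≤ (η / 3) ^ n := by
    have : 2 * n ^ 2 * (1 + n * Λ) ^ n * (Λ * r₀) =
        r₀ * (4 * n ^ 2 * (1 + n * Λ) ^ n * Λ) / 2 := by ring
    rw [this, hrmul]
    have : 0 ≤ (η / 3) ^ n := by positivity
    linarith
  have hstay_y := hstay y hyK hy (by rw [sub_self, norm_zero]; exact hR₀0.le)
  have hloc := @local_eq n N _ _ _ _ r F χ m Λ hΛ16 hDm y hy hy8 hFy hFy4 η r₀ hη0 hη1 hgap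
    hr₀0.le (by linarith) hrβ
  refine ⟨?_, fun v hv hvd => ?_⟩
  · refine (hloc (a := F^[m] y) (b := y) (fun t => ?_) hstay_y)
    have h1 := hstay_y (t + 1)
    have e1 : it F ((t + 1) * m) y = it F (t * m) (F^[m] y) := by
      rw [show (t + 1) * (m : ℤ) = t * m + m by ring, it_add, it_nat]
    rwa [e1] at h1
  · have hvδ : dist y v < δ := by rw [dist_comm]; linarith
    obtain ⟨hvS, hv2⟩ := hclose y hy (by linarith) _ hvδ
    have hvR : ‖χ v - χ y‖ ≤ R₀ := by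
      refine (hlip _ hvS _ hy hv2.le (by linarith)).2.trans ?_
      refine (mul_le_mul_of_nonneg_left hvd hL0.le).trans ?_
      rw [hR₀]
      nlinarith
    exact hloc (a := v) (b := y) (hstay v hv hvS hvR) hstay_y

end

end Pool.Agent.U882.RS
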