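import Pool.Agent.U882.RS.Key3

/-!
# Close returns and close points of thin invariant sets (sharp form): the proof in a chart
-/

set_option autoImplicit false

open scoped Manifold ContDiff Topology
open Filter Set Metric

universe u

namespace Pool.Agent.U882.RS

open Pool.Agent.H718R2.G Pool.Agent.W564.SC Pool.Agent.W509.SC Pool.Agent.Y368.CL
  Pool.Agent.N813.OF Pool.Agent.N813.EM Pool.Agent.TH80.OMS

section

variable {n : ℕ} {N : Type u} [MetricSpace N] [CompactSpace N] [ChartedSpace (V n) N]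
  [IsManifold (𝓡 n) ∞ N] {r : ℕ∞}

theorem key_local2 (hr : 2 ≤ r) (hN : ChartLip n N) (F : DiffM n N r)
    (hF : OmegaStable n N r F) (z : N) :
    ∃ (k : ℕ) (c : ℝ), 2 ≤ k ∧ (k : ℕ∞) ≤ r ∧ 0 < c ∧ c ≤ 1 ∧
      ∀ᶠ y in 𝓝 z, KeyAt2 F (Ak k) c y := by
  have hr1 : (1 : ℕ∞) ≤ r := le_trans (by norm_num) hr
  obtain ⟨χ, hχ⟩ := Pool.Agent.W699.SC.gc n N z
  obtain ⟨k₀, hk₀, hkr₀, κ₀, hκ₀, hrob₀⟩ := robust hr1 F hF χ z hχ
  obtain ⟨k, hk, hkr, hkk⟩ : ∃ k : ℕ, 2 ≤ k ∧ (k : ℕ∞) ≤ r ∧ k₀ ≤ k := by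
    refine ⟨max k₀ 2, le_max_right _ _, ?_, le_max_left _ _⟩
    rcases le_total k₀ 2 with h | h
    · rw [max_eq_right h]
      exact hr
    · rw [max_eq_left h]
      exact hkr₀
  obtain ⟨κ, hκ, hκ8, hrob⟩ : ∃ κ : ℝ, 0 < κ ∧ κ ≤ 1 / 8 ∧ RobustAt F χ k κ :=
    ⟨min κ₀ (1 / 8), by positivity, min_le_right _ _,
      robustAt_mono hrob₀ hkk (min_le_left _ _) ((min_le_right _ _).trans (by norm_num))⟩
  obtain ⟨L₀, hL₀, hlip₀⟩ := hN χ z hχ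
  obtain ⟨L, hL, hlip⟩ : ∃ L : ℝ, 1 ≤ L ∧ ∀ y ∈ χ.source, ∀ y' ∈ χ.source, ‖χ y‖ ≤ 1 / 2 →
      ‖χ y'‖ ≤ 1 / 2 → dist y y' ≤ L * ‖χ y - χ y'‖ ∧ ‖χ y - χ y'‖ ≤ L * dist y y' := by
    refine ⟨max 1 L₀, le_max_left _ _, fun y hy y' hy' h1 h2 => ?_⟩
    obtain ⟨h3, h4⟩ := hlip₀ y hy y' hy' h1 h2
    exact ⟨h3.trans (mul_le_mul_of_nonneg_right (le_max_right _ _) (norm_nonneg _)),
      h4.trans (mul_le_mul_of_nonneg_right (le_max_right _ _) dist_nonneg)⟩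
  obtain ⟨δ, hδ, hclose⟩ := unif_close hχ
  obtain ⟨Λ₁, Q, hΛ₁, hΛQ, hQ, hbil, hDB⟩ := derBd_pow2 hr hN F χ z hχ
  have hL0 : 0 < L := by linarith
  obtain ⟨A, hA⟩ : ∃ A : ℝ, A = 2048 * L * (4 * Q) ^ 4 := ⟨_, rfl⟩
  have hA0 : 0 < A := by rw [hA]; positivity
  obtain ⟨c, hc, hc1, hc2, hc3, hc4⟩ : ∃ c : ℝ, 0 < c ∧ c ≤ κ / (4 * L) ∧ c * A ≤ κ ^ 2 ∧
      c ≤ δ / 2 ∧ c ≤ 1 := by
    refine ⟨min (min (κ / (4 * L)) (κ ^ 2 / A)) (min (δ / 2) 1), by positivity, ?_, ?_, ?_, ?_⟩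
    · exact (min_le_left _ _).trans (min_le_left _ _)
    · rw [← le_div_iff₀ hA0]
      exact (min_le_left _ _).trans (min_le_right _ _)
    · exact (min_le_right _ _).trans (min_le_left _ _)
    · exact (min_le_right _ _).trans (min_le_right _ _)
  refine ⟨k, c, hk, hkr, hc, hc4, ?_⟩
  have hnear : ∀ᶠ y in 𝓝 z, y ∈ χ.source ∧ ‖χ y‖ < κ := by
    have h5 : ∀ᶠ y in 𝓝 z, ‖χ y‖ < κ := by
      refine (χ.continuousAt hχ.src).norm.eventually_lt_const ?_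
      beta_reduce
      rw [hχ.zero, norm_zero]
      exact hκ
    filter_upwards [χ.open_source.mem_nhds hχ.src, h5] with y h6 h7
    exact ⟨h6, h7⟩
  filter_upwards [hnear] with y hy
  obtain ⟨hy, hyκ⟩ := hy
  intro s m K ε θ hm hms hFK hFK' hcov hyK hθ hθ1 hfar hret hεB
  obtain ⟨n1, n2, n3, n4, n5, n6, n7, n8⟩ := nums3 hk (Ak_ge hk) (Ak_ge2 k) hm hms hc hθ hθ1 hL hκ
    hκ8 hQ hΛ₁ hΛQ hc1 (by rw [← hA]; exact hc2) hc3 hδ
  obtain ⟨Bd, hBd⟩ : ∃ Bd : ℝ, Bd = c ^ (2 * s) * (c * θ) ^ Ak k := ⟨_, rfl⟩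
  obtain ⟨S, hS⟩ : ∃ S : ℝ, S = c ^ s * (c * θ) ^ Ak k := ⟨_, rfl⟩
  rw [← hBd] at hret hεB n1 n2 n3 n5 n6 n7 ⊢
  rw [← hS] at n4 n5 n6
  have hBd0 : 0 < Bd := by rw [hBd]; positivity
  have hS0 : 0 < S := by rw [hS]; positivity
  -- the point F^m y
  have hy8 : ‖χ y‖ ≤ 1 / 8 := by linarith
  have hFyd : dist y (F^[m] y) < δ := by rw [dist_comm]; linarith
  obtain ⟨hFy, hFy2⟩ := hclose y hy (by linarith) _ hFyd
  obtain ⟨e, he⟩ : ∃ e : ℝ, e = L * Bd := ⟨_, rfl⟩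
  have hFe : ‖χ (F^[m] y) - χ y‖ ≤ e := by
    rw [he]
    exact (hlip _ hFy _ hy hFy2.le (by linarith)).2.trans (mul_le_mul_of_nonneg_left hret hL0.le)
  rw [← he] at n2 n3
  have he0 : 0 < e := by rw [he]; positivity
  have hFy4 : ‖χ (F^[m] y)‖ ≤ 1 / 4 := by
    have e1 : χ (F^[m] y) = (χ (F^[m] y) - χ y) + χ y := by abel
    rw [e1]
    refine (norm_add_le _ _).trans ?_
    linarith
  -- the close return
  obtain ⟨ρ, hρ⟩ : ∃ ρ : ℝ, ρ = κ * θ / (4 * L) := ⟨_, rfl⟩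
  have hρ0 : 0 < ρ := by rw [hρ]; positivity
  have hκθ : κ * θ ≤ κ := by nlinarith
  have hρκ : ρ < κ := by
    rw [hρ, div_lt_iff₀ (by positivity)]
    nlinarith
  have hρL : ρ * (4 * L) = κ * θ := by rw [hρ]; field_simp
  rw [← hρ] at n2 n4 n8
  have hCR : CloseRet F χ k κ ρ m y := by
    refine ⟨hy, hyκ, hρ0, hρκ, hm, hFy, hFe.trans n2, ?_⟩
    intro l hl hlm hFl
    by_cases h1 : ‖χ (F^[l] y)‖ ≤ 1 / 2
    · have h2 := (hlip _ hFl _ hy h1 (by linarith)).1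
      have h3 := hfar l hl hlm
      rw [dist_comm] at h3
      have h4 : θ ≤ L * ‖χ (F^[l] y) - χ y‖ := h3.trans h2
      have h5 : 2 * ρ * L ≤ L * ‖χ (F^[l] y) - χ y‖ := by
        have : 2 * ρ * L = κ * θ / 2 := by linarith
        nlinarith
      rw [mul_comm] at h5
      exact le_of_mul_le_mul_left h5 hL0
    · push Not at h1
      have h2 := norm_sub_norm_le (χ (F^[l] y)) (χ y)
      linarith
  obtain ⟨η, hη⟩ : ∃ η : ℝ, η = κ * ρ ^ (k - 1) := ⟨_, rfl⟩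
  have hrobD : ∀ D : V n →L[ℝ] V n, DerAt F χ m y D → Rob D η := fun D hD => by
    rw [hη]
    exact rob_of_robustAt hrob hCR hD
  rw [← hη] at n4 n8
  have hη0 : 0 < η := by rw [hη]; positivity
  have hη1 : η ≤ 1 := by
    rw [hη]
    have : ρ ^ (k - 1) ≤ 1 := pow_le_one₀ hρ0.le (by linarith)
    nlinarith
  obtain ⟨Λ, hΛ⟩ : ∃ Λ : ℝ, Λ = Q ^ m := ⟨_, rfl⟩
  have hΛ16 : 16 ≤ Λ := by
    rw [hΛ]
    calc (16 : ℝ) ≤ Q := hQ
      _ = Q ^ 1 := (pow_one Q).symm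
      _ ≤ Q ^ m := pow_le_pow_right₀ (by linarith) hm
  have hDm := hDB m hm
  rw [← hΛ] at n4 n8 hDm
  have hΛ0 : 0 < Λ := by linarith
  obtain ⟨r₀, hr₀⟩ : ∃ r₀ : ℝ, r₀ = Real.sqrt (η ^ 3) / (1024 * Λ ^ 2) := ⟨_, rfl⟩
  rw [← hr₀] at n4 n8
  have hη3 : 0 < η ^ 3 := by positivity
  have hsq0 : 0 < Real.sqrt (η ^ 3) := Real.sqrt_pos.2 hη3
  have hr₀0 : 0 < r₀ := by rw [hr₀]; positivity
  have hrmul : r₀ * (1024 * Λ ^ 2) = Real.sqrt (η ^ 3) := by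
    rw [hr₀]; field_simp
  have hsq1 : Real.sqrt (η ^ 3) ≤ 1 := by
    rw [Real.sqrt_le_one]
    exact pow_le_one₀ hη0.le hη1
  have hrβ : 64 * 8192 * Λ ^ 4 * r₀ ^ 2 ≤ η ^ 3 := by
    have h1 : (r₀ * (1024 * Λ ^ 2)) ^ 2 = η ^ 3 := by
      rw [hrmul, Real.sq_sqrt hη3.le]
    have h2 : (r₀ * (1024 * Λ ^ 2)) ^ 2 = 2 * (64 * 8192 * Λ ^ 4 * r₀ ^ 2) := by ring
    have h3 : 0 ≤ 64 * 8192 * Λ ^ 4 * r₀ ^ 2 := by positivity
    linarith
  have hr₀Λ : 4 * Λ * r₀ ≤ 1 := by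
    calc 4 * Λ * r₀ = r₀ * (4 * Λ) := by ring
      _ ≤ r₀ * (1024 * Λ ^ 2) := by
          refine mul_le_mul_of_nonneg_left ?_ hr₀0.le
          nlinarith
      _ ≤ 1 := by rw [hrmul]; exact hsq1
  have hr₀i : r₀ ≤ Λ⁻¹ / 4 := by
    rw [le_div_iff₀ (by norm_num), le_inv_comm₀ (by positivity) hΛ0]
    rw [le_inv_comm₀ hΛ0 (by positivity), ← one_div, le_div_iff₀ hΛ0]
    linarith
  have hΛi : Λ⁻¹ ≤ 1 / 16 := by
    rw [← one_div]
    exact one_div_le_one_div_of_le (by norm_num) hΛ16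
  have hΛi0 : 0 < Λ⁻¹ := by positivity
  have hr₀64 : r₀ ≤ 1 / 64 := by linarith
  -- the radius R₀
  obtain ⟨R₀, hR₀⟩ : ∃ R₀ : ℝ, R₀ = 2 * L * S := ⟨_, rfl⟩
  rw [← hR₀] at n4
  have hR₀0 : 0 < R₀ := by rw [hR₀]; positivity
  have heR : e ≤ R₀ := by rw [he, hR₀]; nlinarith
  have hR₀r : R₀ ≤ r₀ := by
    refine le_trans ?_ n4
    have : 1 ≤ (4 * Λ) ^ (s / m + 1) := one_le_pow₀ (by linarith)
    nlinarith
  have him : |(m : ℤ)| ≤ 2 * m := by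
    rw [abs_of_nonneg (by positivity)]
    omega
  have him' : |(-(m : ℤ))| ≤ 2 * m := by rw [abs_neg]; exact him
  have hnorm4 : ∀ b : N, ‖χ b - χ y‖ ≤ r₀ → ‖χ b‖ ≤ 1 / 4 := by
    intro b hb
    have e1 : χ b = (χ b - χ y) + χ y := by abel
    rw [e1]
    refine (norm_add_le _ _).trans ?_
    linarith
  have hlipS : ∀ b ∈ χ.source, ∀ b' ∈ χ.source, ‖χ b - χ y‖ ≤ r₀ → ‖χ b' - χ y‖ ≤ r₀ →
      ‖χ b - χ b'‖ ≤ L * dist b b' := fun b hb b' hb' h1 h2 =>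
    (hlip b hb b' hb' ((hnorm4 b h1).trans (by norm_num)) ((hnorm4 b' h2).trans (by norm_num))).2
  have hdistS : ∀ b ∈ χ.source, ‖χ b - χ y‖ ≤ r₀ → dist b y ≤ L * r₀ := fun b hb h1 =>
    (hlip b hb y hy ((hnorm4 b h1).trans (by norm_num)) (by linarith)).1.trans
      (mul_le_mul_of_nonneg_left h1 hL0.le)
  -- forward
  have hfw : ∀ b ∈ χ.source, ‖χ b - χ y‖ ≤ r₀ →
      F^[m] b ∈ χ.source ∧ ‖χ (F^[m] b) - χ y‖ ≤ Λ * (‖χ b - χ y‖ + e) := by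
    intro b hb hbr
    have h1 := hDm.h1 (m : ℤ) him y hy b hb (by linarith) (hnorm4 b hbr)
      (by rw [norm_sub_rev]; linarith) (by rw [it_nat]; exact hFy) (by rw [it_nat]; exact hFy4)
    rw [it_nat] at h1
    refine ⟨h1.1, ?_⟩
    have e1 : χ (F^[m] b) - χ y = (χ (F^[m] y) - χ y) - (χ (F^[m] y) - χ (F^[m] b)) := by abel
    rw [e1]
    refine (norm_sub_le _ _).trans ?_
    have h2 := h1.2
    rw [norm_sub_rev (χ y)] at h2
    nlinarith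
  -- backward
  have hinv : ∀ x : N, F.symm^[m] (F^[m] x) = x := by
    intro x
    have h1 : it F (-(m : ℤ)) (it F (m : ℤ) x) = x := by
      rw [← it_add, neg_add_cancel, it_zero]
    rwa [it_nat, it_neg] at h1
  have hbw : ∀ b ∈ χ.source, ‖χ b - χ y‖ ≤ r₀ →
      F.symm^[m] b ∈ χ.source ∧ ‖χ (F.symm^[m] b) - χ y‖ ≤ Λ * (‖χ b - χ y‖ + e) := by
    intro b hb hbr
    have hd : ‖χ (F^[m] y) - χ b‖ ≤ ‖χ b - χ y‖ + e := by
      have e1 : χ (F^[m] y) - χ b = (χ (F^[m] y) - χ y) - (χ b - χ y) := by abel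
      rw [e1]
      refine (norm_sub_le _ _).trans ?_
      linarith
    have h1 := hDm.h1 (-(m : ℤ)) him' (F^[m] y) hFy b hb hFy4 (hnorm4 b hbr)
      (by linarith) (by rw [it_neg, hinv]; exact hy)
      (by rw [it_neg, hinv]; linarith)
    rw [it_neg, hinv] at h1
    refine ⟨h1.1, ?_⟩
    rw [norm_sub_rev]
    exact h1.2.trans (mul_le_mul_of_nonneg_left hd hΛ0.le)
  have hK1 : MapsTo F^[m] K K := hFK.iterate m
  have hK2 : MapsTo F.symm^[m] K K := hFK'.iterate m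
  -- the markers
  obtain ⟨P, hP⟩ : ∃ P : ℝ, P = Λ₁ ^ m := ⟨_, rfl⟩
  have hP1 : 1 ≤ P := by rw [hP]; exact one_le_pow₀ hΛ₁
  have hPP : Λ₁ ^ (2 * m) = P * P := by rw [hP, two_mul, pow_add]
  rw [← hP] at n6 n7
  rw [hPP] at n8
  have hbilm : ∀ i < m, ∀ a b : N, dist (F^[i] a) (F^[i] b) ≤ P * dist a b ∧
      dist a b ≤ P * dist (F^[i] a) (F^[i] b) := by
    intro i hi a b
    rw [hP]
    exact hbil.iter hΛ₁ hi.le a b
  have hφ1 : ∀ i < m, ∀ b ∈ χ.source, ∀ b' ∈ χ.source, ‖χ b - χ y‖ ≤ r₀ → ‖χ b' - χ y‖ ≤ r₀ →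
      R₀ / L ≤ dist b b' → 2 * ε ≤ dist (F^[i] b) (F^[i] b') := by
    intro i hi b _ b' _ _ _ hbb
    have h1 : R₀ / L = 2 * S := by rw [hR₀]; field_simp
    rw [h1] at hbb
    have h2 := (hbilm i hi b b').2
    have h3 : P * (2 * ε) ≤ P * dist (F^[i] b) (F^[i] b') := by nlinarith
    exact le_of_mul_le_mul_left h3 (by linarith)
  have hmark : ∀ i < m, ∀ j < m, i < j → ∀ b ∈ χ.source, ∀ b' ∈ χ.source, ‖χ b - χ y‖ ≤ r₀ →
      ‖χ b' - χ y‖ ≤ r₀ → 2 * ε ≤ dist (F^[i] b) (F^[j] b') := by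
    intro i hi j hj hij b hb b' hb' hbr hbr'
    have h1 := hfar (j - i) (by omega) (by omega)
    have h2 := (hbilm i hi y (F^[j - i] y)).2
    rw [← Function.iterate_add_apply, show i + (j - i) = j by omega] at h2
    have h3 := (hbilm i hi b y).1
    have h4 := (hbilm j hj b' y).1
    have h5 := hdistS b hb hbr
    have h6 := hdistS b' hb' hbr'
    have h7 : dist (F^[i] y) (F^[j] y) ≤ dist (F^[i] b) (F^[i] y) +
        dist (F^[i] b) (F^[j] b') + dist (F^[j] b') (F^[j] y) := by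
      have t1 := dist_triangle (F^[i] y) (F^[i] b) (F^[j] y)
      have t2 := dist_triangle (F^[i] b) (F^[j] b') (F^[j] y)
      rw [dist_comm (F^[i] y) (F^[i] b)] at t1
      linarith
    have h8 : P * dist b y ≤ P * (L * r₀) := mul_le_mul_of_nonneg_left h5 (by linarith)
    have h9 : P * dist b' y ≤ P * (L * r₀) := mul_le_mul_of_nonneg_left h6 (by linarith)
    have h10 : P * dist (F^[i] y) (F^[j] y) ≤
        P * (P * (L * r₀) + dist (F^[i] b) (F^[j] b') + P * (L * r₀)) :=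
      mul_le_mul_of_nonneg_left (by linarith) (by linarith)
    have h11 : P * (2 * ε) ≤ P * dist (F^[i] b) (F^[j] b') := by
      have h12 : P * ε ≤ P * Bd := mul_le_mul_of_nonneg_left hεB (by linarith)
      nlinarith
    exact le_of_mul_le_mul_left h11 (by linarith)
  have hφ2 : ∀ i < m, ∀ j < m, i ≠ j → ∀ b ∈ χ.source, ∀ b' ∈ χ.source, ‖χ b - χ y‖ ≤ r₀ →
      ‖χ b' - χ y‖ ≤ r₀ → 2 * ε ≤ dist (F^[i] b) (F^[j] b') := by
    intro i hi j hj hij b hb b' hb' hbr hbr'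
    rcases Nat.lt_or_gt_of_ne hij with h | h
    · exact hmark i hi j hj h b hb b' hb' hbr hbr'
    · rw [dist_comm]
      exact hmark j hj i hi h b' hb' b hb hbr' hbr
  have hφK : ∀ i < m, MapsTo F^[i] K K := fun i _ => hFK.iterate i
  have hMJ : s < m * (s / m + 1) := Nat.lt_mul_div_succ s hm
  have hstay : ∀ b ∈ K, b ∈ χ.source → ‖χ b - χ y‖ ≤ R₀ → ∀ t : ℤ,
      it F (t * m) b ∈ χ.source ∧ ‖χ (it F (t * m) b) - χ y‖ ≤ r₀ := by
    intro b hbK hbS hbR t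
    obtain ⟨l, hl | hl⟩ := Int.eq_nat_or_neg t
    · have h1 := stay2 χ.source K χ y F^[m] (fun i => F^[i]) hm hMJ hL0 (by linarith) hR₀0 heR n4
        hlipS hfw hK1 hφK hφ1 hφ2 hcov b hbK hbS hbR l
      have e1 : it F (t * m) b = (F^[m])^[l] b := by
        rw [hl, ← Function.iterate_mul, mul_comm m l]
        have : ((l : ℤ) * (m : ℤ)) = ((l * m : ℕ) : ℤ) := by push_cast; ring
        rw [this, it_nat]
      rw [e1]
      exact h1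
    · have h1 := stay2 χ.source K χ y F.symm^[m] (fun i => F^[i]) hm hMJ hL0 (by linarith) hR₀0 heR
        n4 hlipS hbw hK2 hφK hφ1 hφ2 hcov b hbK hbS hbR l
      have e1 : it F (t * m) b = (F.symm^[m])^[l] b := by
        rw [hl, ← Function.iterate_mul, mul_comm m l]
        have : (-(l : ℤ) * (m : ℤ)) = -((l * m : ℕ) : ℤ) := by push_cast; ring
        rw [this, it_neg]
      rw [e1]
      exact h1
  have hstay_y := hstay y hyK hy (by rw [sub_self, norm_zero]; exact hR₀0.le)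
  have hloc := @local_eq2 n N _ _ r F χ m Λ hΛ16 hDm y hy hy8 hFy hFy4 η r₀ hη0 hη1 hrobD
    hr₀0.le (by linarith) hrβ
  refine ⟨?_, fun v hv hvd => ?_⟩
  · refine (hloc (a := F^[m] y) (b := y) (fun t => ?_) hstay_y)
    have h1 := hstay_y (t + 1)
    have e1 : it F ((t + 1) * m) y = it F (t * m) (F^[m] y) := by
      rw [show (t + 1) * (m : ℤ) = t * m + m by ring, it_add, it_nat]
    rwa [e1] at h1
  · have hvδ : dist y v < δ := by rw [dist_comm]; linarith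
    obtain ⟨hvS, hv2⟩ := hclose y hy (by linarith) _ hvδ
    have hvR : ‖χ v - χ y‖ ≤ R₀ := by
      refine (hlip _ hvS _ hy hv2.le (by linarith)).2.trans ?_
      refine (mul_le_mul_of_nonneg_left hvd hL0.le).trans ?_
      rw [hR₀]
      nlinarith
    exact hloc (a := v) (b := y) (hstay v hv hvS hvR) hstay_y

end

end Pool.Agent.U882.RS
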