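import Mathlib

/-!
# Bounded solutions of nearly linear hyperbolic difference equations vanish

If all eigenvalues of `D` have moduli at a distance at least `η` from `1` and `β` is small, then there are
no bounded two-sided sequences `w ≠ 0` with `‖w (t+1) - D (w t)‖ ≤ β ‖w t‖`. The bound for `β` is
explicit: `2 n^2 R^n β ≤ (η/3)^n`.
-/

set_option autoImplicit false

open Finset

namespace Pool.Agent.U882.RS

section cplx

variable {W : Type*} [NormedAddCommGroup W] [NormedSpace ℂ W]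

/-- the operators `(S - λ) / (1 + |λ|)`, `S` the shift -/
noncomputable def shiftOp (l : List ℂ) (u : ℤ → W) : ℤ → W :=
  match l with
  | [] => u
  | a :: l => fun t => ((1 + ‖a‖ : ℝ) : ℂ)⁻¹ • (shiftOp l u (t + 1) - a • shiftOp l u t)

/-- the operators `(M - λ) / (1 + |λ|)` -/
noncomputable def linOp (M : W →ₗ[ℂ] W) (l : List ℂ) : W →ₗ[ℂ] W :=
  match l with
  | [] => LinearMap.id
  | a :: l => ((1 + ‖a‖ : ℝ) : ℂ)⁻¹ • ((M - a • LinearMap.id) ∘ₗ linOp M l)

theorem inv_norm (a : ℂ) : ‖((1 + ‖a‖ : ℝ) : ℂ)⁻¹‖ = (1 + ‖a‖)⁻¹ := by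
  rw [norm_inv, Complex.norm_real, Real.norm_of_nonneg (by positivity)]

theorem shiftOp_bdd (l : List ℂ) (u : ℤ → W) {B : ℝ} (hB : ∀ t, ‖u t‖ ≤ B) :
    ∀ t, ‖shiftOp l u t‖ ≤ B := by
  induction l with
  | nil => exact hB
  | cons a l ih =>
    intro t
    have hB0 : 0 ≤ B := (norm_nonneg _).trans (hB 0)
    rw [shiftOp, norm_smul, inv_norm, inv_mul_le_iff₀ (by positivity)]
    refine (norm_sub_le _ _).trans ?_
    rw [norm_smul]
    have h1 := ih (t + 1)
    have h2 := mul_le_mul_of_nonneg_left (ih t) (norm_nonneg a)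
    linarith

theorem linOp_bdd (M : W →ₗ[ℂ] W) {R : ℝ} (hR : 1 ≤ R) (hM : ∀ x, ‖M x‖ ≤ R * ‖x‖) (l : List ℂ)
    (x : W) : ‖linOp M l x‖ ≤ R ^ l.length * ‖x‖ := by
  induction l with
  | nil => simp [linOp]
  | cons a l ih =>
    rw [linOp, LinearMap.smul_apply, LinearMap.comp_apply, LinearMap.sub_apply,
      LinearMap.smul_apply, LinearMap.id_apply, norm_smul, inv_norm,
      inv_mul_le_iff₀ (by positivity), List.length_cons]
    refine (norm_sub_le _ _).trans ?_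
    rw [norm_smul]
    have h1 := hM (linOp M l x)
    have h2 : ‖a‖ * ‖linOp M l x‖ ≤ ‖a‖ * (R * ‖linOp M l x‖) := by
      refine mul_le_mul_of_nonneg_left ?_ (norm_nonneg _)
      nlinarith [norm_nonneg (linOp M l x)]
    have h3 : R * ‖linOp M l x‖ ≤ R * (R ^ l.length * ‖x‖) :=
      mul_le_mul_of_nonneg_left ih (by linarith)
    calc ‖M (linOp M l x)‖ + ‖a‖ * ‖linOp M l x‖ ≤ (1 + ‖a‖) * (R * ‖linOp M l x‖) := by linarith
      _ ≤ (1 + ‖a‖) * (R * (R ^ l.length * ‖x‖)) := by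
          refine mul_le_mul_of_nonneg_left h3 (by positivity)
      _ = _ := by ring

theorem linOp_comm (M : W →ₗ[ℂ] W) (l : List ℂ) (x : W) : linOp M l (M x) = M (linOp M l x) := by
  induction l with
  | nil => simp [linOp]
  | cons a l ih => simp [linOp, ih, map_sub, map_smul]

/-- the difference of the two operators -/
theorem op_diff (M : W →ₗ[ℂ] W) {R : ℝ} (hR : 1 ≤ R) (hM : ∀ x, ‖M x‖ ≤ R * ‖x‖) (l : List ℂ)
    (u : ℤ → W) {b : ℝ} (hu : ∀ t, ‖u (t + 1) - M (u t)‖ ≤ b) :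
    ∀ t, ‖shiftOp l u t - linOp M l (u t)‖ ≤ l.length * R ^ l.length * b := by
  have hb : 0 ≤ b := (norm_nonneg _).trans (hu 0)
  induction l with
  | nil => intro t; simp [shiftOp, linOp]
  | cons a l ih =>
    intro t
    have e : shiftOp (a :: l) u t - linOp M (a :: l) (u t) = ((1 + ‖a‖ : ℝ) : ℂ)⁻¹ •
        ((shiftOp l u (t + 1) - linOp M l (u (t + 1))) - a • (shiftOp l u t - linOp M l (u t)) +
          linOp M l (u (t + 1) - M (u t))) := by
      rw [shiftOp, linOp, LinearMap.smul_apply, LinearMap.comp_apply, LinearMap.sub_apply,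
        LinearMap.smul_apply, LinearMap.id_apply, map_sub, linOp_comm]
      module
    rw [e, norm_smul, inv_norm, inv_mul_le_iff₀ (by positivity), List.length_cons]
    have h1 := ih (t + 1)
    have h2 := mul_le_mul_of_nonneg_left (ih t) (norm_nonneg a)
    have h3 := linOp_bdd M hR hM l (u (t + 1) - M (u t))
    have h4 : R ^ l.length * ‖u (t + 1) - M (u t)‖ ≤ R ^ l.length * b :=
      mul_le_mul_of_nonneg_left (hu t) (by positivity)
    have hRl : R ^ l.length ≤ R ^ (l.length + 1) := pow_le_pow_right₀ hR (Nat.le_succ _)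
    have hR0 : 0 ≤ R ^ l.length := by positivity
    calc _ ≤ ‖shiftOp l u (t + 1) - linOp M l (u (t + 1))‖ +
          ‖a‖ * ‖shiftOp l u t - linOp M l (u t)‖ + ‖linOp M l (u (t + 1) - M (u t))‖ := by
          refine (norm_add_le _ _).trans ?_
          gcongr
          refine (norm_sub_le _ _).trans ?_
          rw [norm_smul]
      _ ≤ (1 + ‖a‖) * (l.length * R ^ l.length * b) + R ^ l.length * b := by linarith
      _ ≤ (1 + ‖a‖) * (l.length * R ^ (l.length + 1) * b) + (1 + ‖a‖) * (R ^ (l.length + 1) * b) := by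
          have h5 : (l.length : ℝ) * R ^ l.length * b ≤ l.length * R ^ (l.length + 1) * b := by
            gcongr
          have h6 : R ^ l.length * b ≤ (1 + ‖a‖) * (R ^ (l.length + 1) * b) := by
            have h7 : R ^ l.length * b ≤ R ^ (l.length + 1) * b := by gcongr
            have h8 : 0 ≤ ‖a‖ * (R ^ (l.length + 1) * b) := by positivity
            linarith
          have h9 := mul_le_mul_of_nonneg_left h5 (show (0 : ℝ) ≤ 1 + ‖a‖ by positivity)
          linarith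
      _ = _ := by push_cast; ring

/-- the shift minus a number with modulus away from `1` -/
theorem lower_step {η : ℝ} (hη : 0 < η) (hη1 : η ≤ 1) {a : ℂ} (ha : η ≤ |‖a‖ - 1|) (v : ℤ → W)
    {B X : ℝ} (hB : ∀ t, ‖v t‖ ≤ B)
    (hX : ∀ t, ‖((1 + ‖a‖ : ℝ) : ℂ)⁻¹ • (v (t + 1) - a • v t)‖ ≤ X) :
    ∀ t, ‖v t‖ ≤ 3 / η * X := by
  have hX0 : 0 ≤ X := (norm_nonneg _).trans (hX 0)
  have hbdd : BddAbove (Set.range fun t => ‖v t‖) := ⟨B, by rintro _ ⟨t, rfl⟩; exact hB t⟩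
  obtain ⟨S, hS⟩ : ∃ S, S = ⨆ t, ‖v t‖ := ⟨_, rfl⟩
  have hle : ∀ t, ‖v t‖ ≤ S := fun t => by rw [hS]; exact le_ciSup hbdd t
  have hSle : ∀ c, (∀ t, ‖v t‖ ≤ c) → S ≤ c := fun c hc => by rw [hS]; exact ciSup_le hc
  have hX' : ∀ t, ‖v (t + 1) - a • v t‖ ≤ (1 + ‖a‖) * X := by
    intro t
    have h := hX t
    rwa [norm_smul, inv_norm, inv_mul_le_iff₀ (by positivity)] at h
  have hS0 : 0 ≤ S := (norm_nonneg _).trans (hle 0)
  suffices hmain : S ≤ 3 / η * X from fun t => (hle t).trans hmain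
  rw [div_mul_eq_mul_div, le_div_iff₀ hη]
  rcases lt_or_ge ‖a‖ 1 with h1 | h1
  · have h2 : η ≤ 1 - ‖a‖ := by
      rw [abs_of_neg (by linarith)] at ha
      linarith
    have h3 : S ≤ ‖a‖ * S + (1 + ‖a‖) * X := by
      apply hSle
      intro t
      have h4 := hX' (t - 1)
      rw [sub_add_cancel] at h4
      have h5 : v t = (v t - a • v (t - 1)) + a • v (t - 1) := by abel
      rw [h5]
      refine (norm_add_le _ _).trans ?_
      rw [norm_smul]
      have := mul_le_mul_of_nonneg_left (hle (t - 1)) (norm_nonneg a)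
      linarith
    have h6 : η * S ≤ (1 - ‖a‖) * S := mul_le_mul_of_nonneg_right h2 hS0
    have h7 : (1 + ‖a‖) * X ≤ 3 * X := mul_le_mul_of_nonneg_right (by linarith) hX0
    linarith
  · have h2 : η ≤ ‖a‖ - 1 := by
      rwa [abs_of_nonneg (by linarith)] at ha
    have h3 : ∀ t, ‖v t‖ ≤ (S + (1 + ‖a‖) * X) / ‖a‖ := by
      intro t
      rw [le_div_iff₀ (by linarith)]
      have h4 := hX' t
      have h5 : a • v t = v (t + 1) - (v (t + 1) - a • v t) := by abel
      have h6 : ‖a • v t‖ ≤ ‖v (t + 1)‖ + ‖v (t + 1) - a • v t‖ := by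
        calc ‖a • v t‖ = ‖v (t + 1) - (v (t + 1) - a • v t)‖ := by rw [← h5]
          _ ≤ _ := norm_sub_le _ _
      rw [norm_smul] at h6
      have := hle (t + 1)
      linarith [mul_comm ‖v t‖ ‖a‖]
    have h4 := hSle _ h3
    rw [le_div_iff₀ (by linarith)] at h4
    -- (‖a‖ - 1) S ≤ (1 + ‖a‖) X
    have h5 : (‖a‖ - 1) * S ≤ (1 + ‖a‖) * X := by linarith
    have h6 : (1 + ‖a‖) * η ≤ 3 * (‖a‖ - 1) := by nlinarith
    have h7 : 0 < ‖a‖ - 1 := by linarith
    have h8 : (‖a‖ - 1) * (S * η) ≤ (‖a‖ - 1) * (3 * X) := by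
      calc (‖a‖ - 1) * (S * η) = ((‖a‖ - 1) * S) * η := by ring
        _ ≤ ((1 + ‖a‖) * X) * η := mul_le_mul_of_nonneg_right h5 hη.le
        _ = ((1 + ‖a‖) * η) * X := by ring
        _ ≤ (3 * (‖a‖ - 1)) * X := mul_le_mul_of_nonneg_right h6 hX0
        _ = _ := by ring
    exact le_of_mul_le_mul_left h8 h7

theorem lower_list {η : ℝ} (hη : 0 < η) (hη1 : η ≤ 1) (l : List ℂ) (hl : ∀ a ∈ l, η ≤ |‖a‖ - 1|)
    (u : ℤ → W) {B X : ℝ} (hB : ∀ t, ‖u t‖ ≤ B) (hX : ∀ t, ‖shiftOp l u t‖ ≤ X) :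
    ∀ t, ‖u t‖ ≤ (3 / η) ^ l.length * X := by
  induction l generalizing X with
  | nil => simpa [shiftOp] using hX
  | cons a l ih =>
    intro t
    have h1 := lower_step hη hη1 (hl a (by simp)) (shiftOp l u) (shiftOp_bdd l u hB) hX
    have h2 := ih (fun b hb => hl b (by simp [hb])) h1 t
    rw [List.length_cons]
    calc _ ≤ _ := h2
      _ = _ := by ring

/-- the complex form -/
theorem cplx (M : W →ₗ[ℂ] W) {R : ℝ} (hR : 1 ≤ R) (hM : ∀ x, ‖M x‖ ≤ R * ‖x‖) (l : List ℂ)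
    (h0 : linOp M l = 0) {η : ℝ} (hη : 0 < η) (hη1 : η ≤ 1) (hl : ∀ a ∈ l, η ≤ |‖a‖ - 1|)
    (u : ℤ → W) {B b : ℝ} (hB : ∀ t, ‖u t‖ ≤ B) (hu : ∀ t, ‖u (t + 1) - M (u t)‖ ≤ b) :
    ∀ t, ‖u t‖ ≤ (3 / η) ^ l.length * (l.length * R ^ l.length * b) := by
  refine lower_list hη hη1 l hl u hB fun t => ?_
  have h := op_diff M hR hM l u hu t
  rwa [h0, LinearMap.zero_apply, sub_zero] at h

end cplx

section real

open Matrix

variable {n : ℕ}

theorem linOp_eq_zero {W : Type*} [NormedAddCommGroup W] [NormedSpace ℂ W] (M : W →ₗ[ℂ] W)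
    (l : List ℂ) (h : Polynomial.aeval M (l.map fun a => Polynomial.X - Polynomial.C a).prod = 0) :
    linOp M l = 0 := by
  have key : ∀ l : List ℂ, ∃ c : ℂ, c ≠ 0 ∧ linOp M l =
      c • Polynomial.aeval M (l.map fun a => Polynomial.X - Polynomial.C a).prod := by
    intro l
    induction l with
    | nil => exact ⟨1, one_ne_zero, by simp [linOp]; rfl⟩
    | cons a l ih =>
      obtain ⟨c, hc, e⟩ := ih
      refine ⟨((1 + ‖a‖ : ℝ) : ℂ)⁻¹ * c, mul_ne_zero (inv_ne_zero ?_) hc, ?_⟩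
      · have : (0 : ℝ) < 1 + ‖a‖ := by positivity
        exact_mod_cast this.ne'
      · rw [linOp, e, List.map_cons, List.prod_cons, map_mul, map_sub, Polynomial.aeval_X,
          Polynomial.aeval_C]
        ext x
        simp [mul_smul]
  obtain ⟨c, -, e⟩ := key l
  rw [e, h, smul_zero]

/-- the vectors with real coordinates -/
noncomputable def cx (w : EuclideanSpace ℝ (Fin n)) : Fin n → ℂ := fun i => ((w i : ℝ) : ℂ)

theorem cx_sub (v w : EuclideanSpace ℝ (Fin n)) : cx (v - w) = cx v - cx w := by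
  funext i
  simp [cx]

theorem norm_cx_le (w : EuclideanSpace ℝ (Fin n)) : ‖cx w‖ ≤ ‖w‖ := by
  rw [pi_norm_le_iff_of_nonneg (norm_nonneg _)]
  intro i
  rw [cx, Complex.norm_real]
  exact PiLp.norm_apply_le w i

theorem norm_le_cx (w : EuclideanSpace ℝ (Fin n)) : ‖w‖ ≤ n * ‖cx w‖ := by
  have h1 : ‖w‖ ≤ ∑ i, ‖w i‖ := by
    have h2 : w = ∑ i, w i • EuclideanSpace.single i (1 : ℝ) := by
      ext j
      simp [Finset.sum_apply, Pi.single_apply]
    calc ‖w‖ = ‖∑ i, w i • EuclideanSpace.single i (1 : ℝ)‖ := by rw [← h2]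
      _ ≤ ∑ i, ‖w i • EuclideanSpace.single i (1 : ℝ)‖ := norm_sum_le _ _
      _ = ∑ i, ‖w i‖ := by
          refine Finset.sum_congr rfl fun i _ => ?_
          rw [norm_smul]
          simp
  refine h1.trans ?_
  calc ∑ i, ‖w i‖ ≤ ∑ _i : Fin n, ‖cx w‖ := by
        refine Finset.sum_le_sum fun i _ => ?_
        have h := norm_le_pi_norm (cx w) i
        rwa [cx, Complex.norm_real] at h
    _ = n * ‖cx w‖ := by simp

/-- The matrix of `D`. -/
noncomputable def mat (D : EuclideanSpace ℝ (Fin n) →L[ℝ] EuclideanSpace ℝ (Fin n)) :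
    Matrix (Fin n) (Fin n) ℝ :=
  LinearMap.toMatrix (EuclideanSpace.basisFun (Fin n) ℝ).toBasis
    (EuclideanSpace.basisFun (Fin n) ℝ).toBasis (D : EuclideanSpace ℝ (Fin n) →ₗ[ℝ] _)

theorem mat_apply (D : EuclideanSpace ℝ (Fin n) →L[ℝ] EuclideanSpace ℝ (Fin n)) (i j : Fin n) :
    mat D i j = (D (EuclideanSpace.single j 1)) i := by
  rw [mat, LinearMap.toMatrix_apply]
  simp

theorem mat_le (D : EuclideanSpace ℝ (Fin n) →L[ℝ] EuclideanSpace ℝ (Fin n)) (i j : Fin n) :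
    ‖mat D i j‖ ≤ ‖D‖ := by
  rw [mat_apply]
  refine (PiLp.norm_apply_le _ i).trans ((D.le_opNorm _).trans ?_)
  simp

theorem mat_mulVec (D : EuclideanSpace ℝ (Fin n) →L[ℝ] EuclideanSpace ℝ (Fin n))
    (w : EuclideanSpace ℝ (Fin n)) :
    ((mat D).map (algebraMap ℝ ℂ)) *ᵥ (cx w) = cx (D w) := by
  have h := LinearMap.toMatrix_mulVec_repr (EuclideanSpace.basisFun (Fin n) ℝ).toBasis
    (EuclideanSpace.basisFun (Fin n) ℝ).toBasis (D : EuclideanSpace ℝ (Fin n) →ₗ[ℝ] _) w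
  funext i
  have hi := congrFun h i
  simp only [mulVec, dotProduct, cx, Matrix.map_apply, Complex.coe_algebraMap] at hi ⊢
  have h2 : ((D w) i : ℝ) = ∑ j, mat D i j * w j := by
    rw [mat]
    simpa using hi.symm
  rw [h2]
  push_cast
  rfl

theorem cplx_bd (D : EuclideanSpace ℝ (Fin n) →L[ℝ] EuclideanSpace ℝ (Fin n)) (x : Fin n → ℂ) :
    ‖((mat D).map (algebraMap ℝ ℂ)).mulVecLin x‖ ≤ (n * ‖D‖) * ‖x‖ := by
  rw [pi_norm_le_iff_of_nonneg (by positivity)]
  intro i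
  rw [Matrix.mulVecLin_apply]
  simp only [mulVec, dotProduct, Matrix.map_apply, Complex.coe_algebraMap]
  refine (norm_sum_le _ _).trans ?_
  calc ∑ j, ‖((mat D i j : ℝ) : ℂ) * x j‖ ≤ ∑ _j : Fin n, ‖D‖ * ‖x‖ := by
        refine Finset.sum_le_sum fun j _ => ?_
        rw [norm_mul, Complex.norm_real]
        exact mul_le_mul (mat_le D i j) (norm_le_pi_norm x j) (norm_nonneg _) (norm_nonneg _)
    _ = _ := by simp; ring

theorem charpoly_eq (D : EuclideanSpace ℝ (Fin n) →L[ℝ] EuclideanSpace ℝ (Fin n)) :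
    ((mat D).map (algebraMap ℝ ℂ)).mulVecLin.charpoly =
      (LinearMap.charpoly (D : EuclideanSpace ℝ (Fin n) →ₗ[ℝ] EuclideanSpace ℝ (Fin n))).map
        (algebraMap ℝ ℂ) := by
  rw [Matrix.charpoly_mulVecLin, Matrix.charpoly_map, mat, LinearMap.charpoly_toMatrix]

/-- Bounded solutions vanish. -/
theorem bounded_eq_zero (D : EuclideanSpace ℝ (Fin n) →L[ℝ] EuclideanSpace ℝ (Fin n)) {η R β : ℝ}
    (hη : 0 < η) (hη1 : η ≤ 1)
    (hgap : ∀ μ : ℂ, ((LinearMap.charpoly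
      (D : EuclideanSpace ℝ (Fin n) →ₗ[ℝ] EuclideanSpace ℝ (Fin n))).map
        (algebraMap ℝ ℂ)).IsRoot μ → η ≤ |‖μ‖ - 1|)
    (hR : 1 + n * ‖D‖ ≤ R) (hβ0 : 0 ≤ β) (hβ : 2 * n ^ 2 * R ^ n * β ≤ (η / 3) ^ n)
    (w : ℤ → EuclideanSpace ℝ (Fin n)) (B : ℝ) (hB : ∀ t, ‖w t‖ ≤ B)
    (hw : ∀ t, ‖w (t + 1) - D (w t)‖ ≤ β * ‖w t‖) : ∀ t, w t = 0 := by
  have hR1 : 1 ≤ R := by
    have : 0 ≤ n * ‖D‖ := by positivity
    linarith
  obtain ⟨M, hM⟩ : ∃ M, M = ((mat D).map (algebraMap ℝ ℂ)).mulVecLin := ⟨_, rfl⟩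
  have hcp := charpoly_eq D
  rw [← hM] at hcp
  obtain ⟨P, hP⟩ : ∃ P, P = (LinearMap.charpoly
      (D : EuclideanSpace ℝ (Fin n) →ₗ[ℝ] EuclideanSpace ℝ (Fin n))).map
        (algebraMap ℝ ℂ) := ⟨_, rfl⟩
  rw [← hP] at hcp hgap
  have hmon : P.Monic := by
    rw [hP]
    exact (LinearMap.charpoly_monic _).map _
  have hsplit := IsAlgClosed.splits P
  have hprod := hsplit.eq_prod_roots_of_monic hmon
  obtain ⟨l, hl⟩ : ∃ l : List ℂ, (l : Multiset ℂ) = P.roots := ⟨P.roots.toList, by simp⟩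
  have hlen : l.length = n := by
    have h1 : Multiset.card P.roots = P.natDegree := (hsplit.natDegree_eq_card_roots).symm
    rw [← hl, Multiset.coe_card, hP, Polynomial.natDegree_map, LinearMap.charpoly_natDegree,
      finrank_euclideanSpace, Fintype.card_fin] at h1
    exact h1
  have h0 : linOp M l = 0 := by
    apply linOp_eq_zero
    have h1 : (l.map fun a => Polynomial.X - Polynomial.C a).prod = P := by
      rw [hprod, ← hl]
      simp
    rw [h1, ← hcp]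
    exact LinearMap.aeval_self_charpoly M
  have hroot : ∀ a ∈ l, η ≤ |‖a‖ - 1| := by
    intro a ha
    apply hgap
    have : a ∈ P.roots := by rw [← hl]; exact ha
    exact Polynomial.isRoot_of_mem_roots this
  have hMb : ∀ x, ‖M x‖ ≤ R * ‖x‖ := by
    intro x
    rw [hM]
    refine (cplx_bd D x).trans (mul_le_mul_of_nonneg_right ?_ (norm_nonneg _))
    linarith
  -- halving
  have half : ∀ B : ℝ, (∀ t, ‖w t‖ ≤ B) → ∀ t, ‖w t‖ ≤ B / 2 := by
    intro B hB
    have hB0 : 0 ≤ B := (norm_nonneg _).trans (hB 0)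
    have h1 := cplx M hR1 hMb l h0 hη hη1 hroot (fun t => cx (w t)) (B := B) (b := β * B)
      (fun t => (norm_cx_le _).trans (hB t)) (by
        intro t
        rw [hM, Matrix.mulVecLin_apply, mat_mulVec, ← cx_sub]
        refine (norm_cx_le _).trans ((hw t).trans ?_)
        exact mul_le_mul_of_nonneg_left (hB t) hβ0)
    intro t
    refine (norm_le_cx _).trans ?_
    have h2 := h1 t
    rw [hlen] at h2
    have h3 : (n : ℝ) * ‖cx (w t)‖ ≤ n * ((3 / η) ^ n * (n * R ^ n * (β * B))) :=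
      mul_le_mul_of_nonneg_left h2 (by positivity)
    refine h3.trans ?_
    have h4 : (n : ℝ) * ((3 / η) ^ n * (n * R ^ n * (β * B))) =
        (3 / η) ^ n * (2 * n ^ 2 * R ^ n * β) * (B / 2) := by ring
    rw [h4]
    have h5 : (3 / η) ^ n * (2 * n ^ 2 * R ^ n * β) ≤ (3 / η) ^ n * (η / 3) ^ n :=
      mul_le_mul_of_nonneg_left hβ (by positivity)
    have h6 : (3 / η) ^ n * (η / 3) ^ n = 1 := by
      rw [← mul_pow]
      have : 3 / η * (η / 3) = 1 := by field_simp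
      rw [this, one_pow]
    rw [h6] at h5
    have := mul_le_mul_of_nonneg_right h5 (show (0 : ℝ) ≤ B / 2 by positivity)
    linarith
  have iter : ∀ j : ℕ, ∀ t, ‖w t‖ ≤ B * (1 / 2) ^ j := by
    intro j
    induction j with
    | zero => simpa using hB
    | succ j ih =>
      intro t
      have := half _ ih t
      rw [pow_succ]
      linarith
  intro t
  have hlim : Filter.Tendsto (fun j : ℕ => B * (1 / 2 : ℝ) ^ j) Filter.atTop (nhds (B * 0)) :=
    (tendsto_pow_atTop_nhds_zero_of_lt_one (by norm_num) (by norm_num)).const_mul B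
  have : ‖w t‖ ≤ B * 0 := ge_of_tendsto' hlim fun j => iter j t
  rw [mul_zero] at this
  exact norm_le_zero_iff.1 this

end real

end Pool.Agent.U882.RS
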