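import Pool.Agent.U882.RS.LA
import Pool.Agent.U882.RS.Esc
import Pool.Agent.N813.OF.Main
import Pool.Agent.Y368.CL.Grow

/-!
# Local expansivity near a close return
-/

set_option autoImplicit false

open scoped Manifold ContDiff Topology
open Filter Set Metric

universe u

namespace Pool.Agent.U882.RS

open Pool.Agent.H718R2.G Pool.Agent.W564.SC Pool.Agent.W509.SC Pool.Agent.Y368.CL
  Pool.Agent.N813.OF

/-- the eigenvalues at a close return have a distance from the unit circle -/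
theorem gap_of_robust {n : ℕ} {N : Type u} [TopologicalSpace N] {F : N → N}
    {χ : OpenPartialHomeomorph N (V n)} {k : ℕ} {κ : ℝ} (hκ : 0 < κ) (hκ1 : κ ≤ 1)
    (h : RobustAt F χ k κ) {ρ : ℝ} {m : ℕ} {y : N} (hc : CloseRet F χ k κ ρ m y)
    {D : V n →L[ℝ] V n} (hD : DerAt F χ m y D) (μ : ℂ) (hμ : Eig D μ) :
    κ * ρ ^ (k - 1) / 2 ≤ |‖μ‖ - 1| := by
  by_contra hcon
  rw [not_le] at hcon
  obtain ⟨η, hη⟩ : ∃ η, η = κ * ρ ^ (k - 1) := ⟨_, rfl⟩
  rw [← hη] at hcon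
  have hρ := hc.2.2.1
  have hρκ := hc.2.2.2.1
  have hη0 : 0 < η := by rw [hη]; positivity
  have hη1 : η ≤ 1 := by
    rw [hη]
    have : ρ ^ (k - 1) ≤ 1 := pow_le_one₀ hρ.le (by linarith)
    nlinarith
  have h1 := abs_lt.1 hcon
  have hμ0 : 1 / 2 < ‖μ‖ := by linarith [h1.1]
  have hμp : 0 < ‖μ‖ := by linarith
  obtain ⟨c, hcd⟩ : ∃ c : ℝ, c = ‖μ‖⁻¹ := ⟨_, rfl⟩
  have hcμ : c * ‖μ‖ = 1 := by rw [hcd]; exact inv_mul_cancel₀ hμp.ne'
  have hc0 : 0 < c := by rw [hcd]; positivity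
  have hc2 : c < 2 := by
    rw [hcd, inv_lt_comm₀ hμp (by norm_num)]
    linarith
  have hcη : |c - 1| ≤ η := by
    have e : c - 1 = c * (1 - ‖μ‖) := by rw [mul_sub, hcμ, mul_one]
    rw [e, abs_mul, abs_of_pos hc0, abs_sub_comm]
    have h2 : c * |‖μ‖ - 1| ≤ 2 * (η / 2) :=
      mul_le_mul hc2.le hcon.le (abs_nonneg _) (by norm_num)
    linarith
  obtain ⟨T, hT⟩ : ∃ T : V n →L[ℝ] V n, T = c • (1 : V n →L[ℝ] V n) := ⟨_, rfl⟩
  have hT1 : ‖T - 1‖ ≤ κ * ρ ^ (k - 1) := by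
    rw [← hη, hT]
    have e : c • (1 : V n →L[ℝ] V n) - 1 = (c - 1) • (1 : V n →L[ℝ] V n) := by
      module
    rw [e, norm_smul, Real.norm_eq_abs]
    have h2 : ‖(1 : V n →L[ℝ] V n)‖ ≤ 1 := ContinuousLinearMap.norm_id_le
    have := mul_le_mul hcη h2 (norm_nonneg _) hη0.le
    linarith
  refine h ρ m y hc D hD T hT1 ((c : ℂ) * μ) ?_ ?_
  · obtain ⟨a, b, hab, ha, hb⟩ := (EIGI.charpoly_root (D : V n →ₗ[ℝ] V n) μ).1 hμ
    refine (EIGI.charpoly_root _ _).2 ⟨a, b, hab, ?_, ?_⟩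
    · have e1 : ((T.comp D : V n →L[ℝ] V n) : V n →ₗ[ℝ] V n) a = c • D a := by
        rw [hT]; rfl
      have ha' : D a = μ.re • a - μ.im • b := ha
      rw [e1, ha', Complex.re_ofReal_mul, Complex.im_ofReal_mul]
      module
    · have e1 : ((T.comp D : V n →L[ℝ] V n) : V n →ₗ[ℝ] V n) b = c • D b := by
        rw [hT]; rfl
      have hb' : D b = μ.im • a + μ.re • b := hb
      rw [e1, hb', Complex.re_ofReal_mul, Complex.im_ofReal_mul]
      module
  · rw [norm_mul, Complex.norm_real, Real.norm_of_nonneg hc0.le, hcμ]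

section

variable {n : ℕ} {N : Type u} [MetricSpace N] [CompactSpace N] [ChartedSpace (V n) N]
  [IsManifold (𝓡 n) ∞ N] {r : ℕ∞}

/-- two orbits of `F^m` which stay close to a point with a close return coincide -/
theorem local_eq (F : DiffM n N r) {χ : OpenPartialHomeomorph N (V n)} {m : ℕ} {Λ : ℝ}
    (hΛ : 16 ≤ Λ) (hDB : DerBd F χ m Λ) {y : N} (hy : y ∈ χ.source) (hy8 : ‖χ y‖ ≤ 1 / 8)
    (hFy : F^[m] y ∈ χ.source) (hFy4 : ‖χ (F^[m] y)‖ ≤ 1 / 4) {η r₀ : ℝ} (hη : 0 < η) (hη1 : η ≤ 1)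
    (hgap : ∀ D : V n →L[ℝ] V n, DerAt F χ m y D → ∀ μ : ℂ, Eig D μ → η ≤ |‖μ‖ - 1|)
    (hr0 : 0 ≤ r₀) (hr : r₀ < Λ⁻¹)
    (hrβ : 2 * n ^ 2 * (1 + n * Λ) ^ n * (Λ * r₀) ≤ (η / 3) ^ n) {a b : N}
    (ha : ∀ t : ℤ, it F (t * m) a ∈ χ.source ∧ ‖χ (it F (t * m) a) - χ y‖ ≤ r₀)
    (hb : ∀ t : ℤ, it F (t * m) b ∈ χ.source ∧ ‖χ (it F (t * m) b) - χ y‖ ≤ r₀) : a = b := by
  have him : |(m : ℤ)| ≤ 2 * m := by
    rw [abs_of_nonneg (by positivity)]
    omega
  have hit : it F (m : ℤ) = F^[m] := it_nat F m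
  have h2 := hDB.h2 (m : ℤ) him y hy hy8 (by rw [hit]; exact hFy) (by rw [hit]; exact hFy4)
  rw [hit] at h2
  obtain ⟨φ, hφ⟩ : ∃ φ : V n → V n, φ = χ ∘ F^[m] ∘ χ.symm := ⟨_, rfl⟩
  rw [← hφ] at h2
  obtain ⟨D, hD⟩ : ∃ D, D = fderiv ℝ φ (χ y) := ⟨_, rfl⟩
  rw [← hD] at h2
  have hΛ0 : 0 < Λ := by linarith
  have hΛi : 0 < Λ⁻¹ := by positivity
  have hDy := h2 (χ y) (mem_ball_self hΛi)
  have hDer : DerAt F χ m y D := by
    have := hDy.1.hasFDerivAt
    rw [← hD, hφ] at this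
    exact this
  have hDn : ‖D‖ ≤ Λ := by
    have := hDy.2.1
    rwa [← hD] at this
  have hshift : ∀ (x : N) (t : ℤ), it F ((t + 1) * m) x = F^[m] (it F (t * m) x) := by
    intro x t
    rw [show (t + 1) * (m : ℤ) = m + t * m by ring, it_add, hit]
  have hz := bounded_eq_zero D (η := η) (R := 1 + n * Λ) (β := Λ * r₀) hη hη1
    (hgap D hDer) (by gcongr) (by positivity) hrβ
    (fun t => χ (it F (t * m) a) - χ (it F (t * m) b)) (2 * r₀) (fun t => by
      have e : χ (it F (t * m) a) - χ (it F (t * m) b) =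
        (χ (it F (t * m) a) - χ y) - (χ (it F (t * m) b) - χ y) := by abel
      rw [e]
      refine (norm_sub_le _ _).trans ?_
      have := (ha t).2
      have := (hb t).2
      linarith) (fun t => by
      rw [hshift, hshift]
      have hconv : Convex ℝ (closedBall (χ y) r₀) := convex_closedBall _ _
      have hA : χ (it F (t * m) a) ∈ closedBall (χ y) r₀ := by
        rw [mem_closedBall_iff_norm]; exact (ha t).2
      have hB : χ (it F (t * m) b) ∈ closedBall (χ y) r₀ := by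
        rw [mem_closedBall_iff_norm]; exact (hb t).2
      have hmv := hconv.norm_image_sub_le_of_norm_hasFDerivWithin_le' (f := φ) (f' := fderiv ℝ φ)
        (φ := D) (C := Λ * r₀) (fun x hx => by
          have hx' : x ∈ ball (χ y) Λ⁻¹ := by
            rw [mem_ball]
            rw [mem_closedBall] at hx
            linarith
          exact (h2 x hx').1.hasFDerivAt.hasFDerivWithinAt) (fun x hx => by
          have hx' : x ∈ ball (χ y) Λ⁻¹ := by
            rw [mem_ball]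
            rw [mem_closedBall] at hx
            linarith
          have h3 := (h2 x hx').2.2
          rw [mem_closedBall_iff_norm] at hx
          exact h3.trans (mul_le_mul_of_nonneg_left hx hΛ0.le)) hB hA
      have e1 : ∀ x : N, it F (t * m) x ∈ χ.source → φ (χ (it F (t * m) x)) =
          χ (F^[m] (it F (t * m) x)) := by
        intro x hx
        rw [hφ]
        simp only [Function.comp]
        rw [χ.left_inv hx]
      rw [e1 a (ha t).1, e1 b (hb t).1] at hmv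
      exact hmv) 0
  simp only [zero_mul, it_zero] at hz
  have h3 := (ha 0).1
  have h4 := (hb 0).1
  simp only [zero_mul, it_zero] at h3 h4
  exact χ.injOn h3 h4 (sub_eq_zero.1 hz)

end

end Pool.Agent.U882.RS
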