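import Pool.Agent.U882.RS.Res
import Pool.Agent.Y368.CL.Grow

/-!
# Local expansivity near a close return, without loss in the dimension
-/

set_option autoImplicit false

open scoped Manifold ContDiff Topology
open Filter Set Metric

universe u

namespace Pool.Agent.U882.RS

open Pool.Agent.H718R2.G Pool.Agent.W564.SC Pool.Agent.W509.SC Pool.Agent.Y368.CL
  Pool.Agent.N813.OF

theorem rob_of_robustAt {n : ℕ} {N : Type u} [TopologicalSpace N] {F : N → N}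
    {χ : OpenPartialHomeomorph N (V n)} {k : ℕ} {κ : ℝ} (h : RobustAt F χ k κ) {ρ : ℝ} {m : ℕ}
    {y : N} (hc : CloseRet F χ k κ ρ m y) {D : V n →L[ℝ] V n} (hD : DerAt F χ m y D) :
    Rob D (κ * ρ ^ (k - 1)) :=
  fun T hT μ hμ => h ρ m y hc D hD T hT μ hμ

theorem robustAt_mono {n : ℕ} {N : Type u} [TopologicalSpace N] {F : N → N}
    {χ : OpenPartialHomeomorph N (V n)} {k k' : ℕ} {κ κ' : ℝ} (h : RobustAt F χ k κ)
    (hk : k ≤ k') (hκκ' : κ' ≤ κ) (hκ1 : κ' ≤ 1) : RobustAt F χ k' κ' := by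
  intro ρ m z hc D hD T hT μ hμ
  obtain ⟨h1, h2, h3, h4, h5, h6, h7, h8⟩ := hc
  have hκ0 : 0 < κ' := by linarith
  have hρ1 : ρ ≤ 1 := by linarith
  refine h ρ m z ⟨h1, by linarith, h3, by linarith, h5, h6, ?_, h8⟩ D hD T ?_ μ hμ
  · exact h7.trans (mul_le_mul hκκ' (pow_le_pow_of_le_one h3.le hρ1 hk) (by positivity)
      (by linarith))
  · exact hT.trans (mul_le_mul hκκ' (pow_le_pow_of_le_one h3.le hρ1 (by omega)) (by positivity)
      (by linarith))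

section

variable {n : ℕ} {N : Type u} [MetricSpace N] [ChartedSpace (V n) N] {r : ℕ∞}

/-- the data at a return: the local form of `F^m` -/
theorem local_data (F : DiffM n N r) {χ : OpenPartialHomeomorph N (V n)} {m : ℕ} {Λ : ℝ}
    (hΛ : 16 ≤ Λ) (hDB : DerBd F χ m Λ) {y : N} (hy : y ∈ χ.source) (hy8 : ‖χ y‖ ≤ 1 / 8)
    (hFy : F^[m] y ∈ χ.source) (hFy4 : ‖χ (F^[m] y)‖ ≤ 1 / 4) :
    ∃ D : V n →L[ℝ] V n, DerAt F χ m y D ∧ ‖D‖ ≤ Λ ∧ ∀ r₀ : ℝ, r₀ < Λ⁻¹ →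
      ∀ a ∈ χ.source, ∀ b ∈ χ.source, ‖χ a - χ y‖ ≤ r₀ → ‖χ b - χ y‖ ≤ r₀ →
      ‖χ (F^[m] a) - χ (F^[m] b) - D (χ a - χ b)‖ ≤ Λ * r₀ * ‖χ a - χ b‖ := by
  have him : |(m : ℤ)| ≤ 2 * m := by
    rw [abs_of_nonneg (by positivity)]
    omega
  have hit : it F (m : ℤ) = F^[m] := it_nat F m
  have h2 := hDB.h2 (m : ℤ) him y hy hy8 (by rw [hit]; exact hFy) (by rw [hit]; exact hFy4)
  rw [hit] at h2
  obtain ⟨φ, hφ⟩ : ∃ φ : V n → V n, φ = χ ∘ F^[m] ∘ χ.symm := ⟨_, rfl⟩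
  rw [← hφ] at h2
  obtain ⟨D, hD⟩ : ∃ D, D = fderiv ℝ φ (χ y) := ⟨_, rfl⟩
  rw [← hD] at h2
  have hΛ0 : 0 < Λ := by linarith
  have hΛi : 0 < Λ⁻¹ := by positivity
  have hDy := h2 (χ y) (mem_ball_self hΛi)
  have hDer : DerAt F χ m y D := by
    have := hDy.1.hasFDerivAt
    rw [← hD, hφ] at this
    exact this
  have hDn : ‖D‖ ≤ Λ := by
    have := hDy.2.1
    rwa [← hD] at this
  refine ⟨D, hDer, hDn, ?_⟩
  intro r₀ hr a ha b hb har hbr
  have hconv : Convex ℝ (closedBall (χ y) r₀) := convex_closedBall _ _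
  have hA : χ a ∈ closedBall (χ y) r₀ := by
    rw [mem_closedBall_iff_norm]; exact har
  have hB : χ b ∈ closedBall (χ y) r₀ := by
    rw [mem_closedBall_iff_norm]; exact hbr
  have hmv := hconv.norm_image_sub_le_of_norm_hasFDerivWithin_le' (f := φ) (f' := fderiv ℝ φ)
    (φ := D) (C := Λ * r₀) (fun x hx => by
      have hx' : x ∈ ball (χ y) Λ⁻¹ := by
        rw [mem_ball]
        rw [mem_closedBall] at hx
        linarith
      exact (h2 x hx').1.hasFDerivAt.hasFDerivWithinAt) (fun x hx => by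
      have hx' : x ∈ ball (χ y) Λ⁻¹ := by
        rw [mem_ball]
        rw [mem_closedBall] at hx
        linarith
      have h3 := (h2 x hx').2.2
      rw [mem_closedBall_iff_norm] at hx
      exact h3.trans (mul_le_mul_of_nonneg_left hx hΛ0.le)) hB hA
  have e1 : ∀ x : N, x ∈ χ.source → φ (χ x) = χ (F^[m] x) := by
    intro x hx
    rw [hφ]
    simp only [Function.comp]
    rw [χ.left_inv hx]
  rw [e1 a ha, e1 b hb] at hmv
  exact hmv

/-- two orbits of `F^m` which stay close to a point with a close return coincide -/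
theorem local_eq2 (F : DiffM n N r) {χ : OpenPartialHomeomorph N (V n)} {m : ℕ} {Λ : ℝ}
    (hΛ : 16 ≤ Λ) (hDB : DerBd F χ m Λ) {y : N} (hy : y ∈ χ.source) (hy8 : ‖χ y‖ ≤ 1 / 8)
    (hFy : F^[m] y ∈ χ.source) (hFy4 : ‖χ (F^[m] y)‖ ≤ 1 / 4) {η r₀ : ℝ} (hη : 0 < η) (hη1 : η ≤ 1)
    (hrob : ∀ D : V n →L[ℝ] V n, DerAt F χ m y D → Rob D η)
    (hr0 : 0 ≤ r₀) (hr : r₀ < Λ⁻¹)
    (hrβ : 64 * 8192 * Λ ^ 4 * r₀ ^ 2 ≤ η ^ 3) {a b : N}
    (ha : ∀ t : ℤ, it F (t * m) a ∈ χ.source ∧ ‖χ (it F (t * m) a) - χ y‖ ≤ r₀)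
    (hb : ∀ t : ℤ, it F (t * m) b ∈ χ.source ∧ ‖χ (it F (t * m) b) - χ y‖ ≤ r₀) : a = b := by
  obtain ⟨D, hDer, hDn, hD⟩ := local_data F hΛ hDB hy hy8 hFy hFy4
  have hit : it F (m : ℤ) = F^[m] := it_nat F m
  have hΛ0 : 0 < Λ := by linarith
  have hshift : ∀ (x : N) (t : ℤ), it F ((t + 1) * m) x = F^[m] (it F (t * m) x) := by
    intro x t
    rw [show (t + 1) * (m : ℤ) = m + t * m by ring, it_add, hit]
  have hres := resol_of_rob hη hη1 (show 1 ≤ Λ by linarith) hDn (hrob D hDer)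
  have hz := bounded_zero (β := Λ * r₀) hres (by positivity) (by positivity) (by
      rw [le_div_iff₀ (by positivity)]
      calc 64 * (Λ * r₀) ^ 2 * (8192 * Λ ^ 2) = 64 * 8192 * Λ ^ 4 * r₀ ^ 2 := by ring
        _ ≤ η ^ 3 := hrβ)
    (fun t => χ (it F (t * m) a) - χ (it F (t * m) b)) (2 * r₀) (fun t => by
      have e : χ (it F (t * m) a) - χ (it F (t * m) b) =
        (χ (it F (t * m) a) - χ y) - (χ (it F (t * m) b) - χ y) := by abel
      rw [e]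
      refine (norm_sub_le _ _).trans ?_
      have := (ha t).2
      have := (hb t).2
      linarith) (fun t => by
      rw [hshift, hshift]
      exact hD r₀ hr _ (ha t).1 _ (hb t).1 (ha t).2 (hb t).2) 0
  simp only [zero_mul, it_zero] at hz
  have h3 := (ha 0).1
  have h4 := (hb 0).1
  simp only [zero_mul, it_zero] at h3 h4
  exact χ.injOn h3 h4 (sub_eq_zero.1 hz)

end

end Pool.Agent.U882.RS
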