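import Pool.Agent.U882.RS.Per3

/-!
# Orbits and pseudo-orbits of low complexity
-/

set_option autoImplicit false

open scoped Manifold ContDiff Topology
open Filter Set Metric

universe u

namespace Pool.Agent.U882.RS

open Pool.Agent.H718R2.G Pool.Agent.W564.SC Pool.Agent.W509.SC Pool.Agent.Y368.CL
  Pool.Agent.N813.OF Pool.Agent.N813.EM Pool.Agent.TH80.OMS Pool.Agent.N813.OE

/-- a pseudo-orbit which is contained in `s` balls cannot leave the neighbourhood of a periodic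
orbit: on its way out it would be in `s + 1` different balls -/
theorem count_aux {N : Type u} [MetricSpace N] {F : N → N} {Λ : ℝ} (hΛ : 1 ≤ Λ)
    (hbil : BiL F Λ) {s L i₀ : ℕ} {ε η σ : ℝ} {x : ℕ → N} {p : N} (hε : 0 < ε) (hεη : ε ≤ η)
    (hx : ∀ i < L, dist (F (x i)) (x (i + 1)) ≤ ε) (hcov : CovBy (x '' Iic L) s ε)
    (hsep : ∀ i j, F^[i] p ≠ F^[j] p → σ ≤ dist (F^[i] p) (F^[j] p))
    (h0 : dist (x i₀) p ≤ η) (hσ : 2 * ((Λ + 1) ^ (2 * s + 2) * η) + 2 * ε < σ) :
    ∀ t, i₀ + t ≤ L → dist (x (i₀ + t)) (F^[t] p) ≤ (Λ + 1) ^ (2 * s + 2) * η := by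
  classical
  intro t₀ ht₀
  by_contra hcon
  rw [not_le] at hcon
  obtain ⟨Γ, hΓ⟩ : ∃ Γ, Γ = Λ + 1 := ⟨_, rfl⟩
  rw [← hΓ] at hcon hσ
  have hΓ2 : 2 ≤ Γ := by linarith
  have hη : 0 < η := by linarith
  obtain ⟨r, hr⟩ : ∃ r : ℕ → ℝ, r = fun t => dist (x (i₀ + t)) (F^[t] p) := ⟨_, rfl⟩
  have hr0 : r 0 ≤ η := by rw [hr]; simpa using h0
  have hrt : Γ ^ (2 * s + 2) * η < r t₀ := by rw [hr]; exact hcon
  have hstep : ∀ t, i₀ + t < L → r (t + 1) ≤ ε + Λ * r t := by
    intro t ht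
    rw [hr]
    simp only
    have h1 := hx (i₀ + t) ht
    have h2 := (hbil (x (i₀ + t)) (F^[t] p)).1
    rw [Function.iterate_succ_apply', ← add_assoc]
    have h3 := dist_triangle_left (x (i₀ + t + 1)) (F (F^[t] p)) (F (x (i₀ + t)))
    linarith
  have hpow : ∀ i j, i ≤ j → Γ ^ i * η ≤ Γ ^ j * η := fun i j hij =>
    mul_le_mul_of_nonneg_right (pow_le_pow_right₀ (by linarith) hij) hη.le
  -- the first time at which the distance is more than `Γ ^ (2 l) η`
  have hex : ∀ l, l ≤ s → ∃ t, i₀ + t ≤ L ∧ Γ ^ (2 * l) * η < r t := fun l hl =>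
    ⟨t₀, ht₀, lt_of_le_of_lt (hpow _ _ (by omega)) hrt⟩
  have hT : ∀ l, ∃ t, l ≤ s → i₀ + t ≤ L ∧ Γ ^ (2 * l) * η < r t ∧ r t ≤ Γ ^ (2 * l + 1) * η := by
    intro l
    by_cases hl : l ≤ s
    · refine ⟨Nat.find (hex l hl), fun _ => ?_⟩
      obtain ⟨a1, a2⟩ := Nat.find_spec (hex l hl)
      refine ⟨a1, a2, ?_⟩
      have hpos : Nat.find (hex l hl) ≠ 0 := by
        intro h
        rw [h] at a2
        have := hpow 0 (2 * l) (Nat.zero_le _)
        rw [pow_zero, one_mul] at this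
        linarith
      obtain ⟨t, ht⟩ := Nat.exists_eq_succ_of_ne_zero hpos
      have h1 : r t ≤ Γ ^ (2 * l) * η := by
        by_contra h2
        rw [not_le] at h2
        have h3 : t < Nat.find (hex l hl) := by omega
        exact Nat.find_min (hex l hl) h3 ⟨by omega, h2⟩
      rw [ht]
      have h2 := hstep t (by omega)
      have h3 : ε ≤ Γ ^ (2 * l) * η := by
        have := hpow 0 (2 * l) (Nat.zero_le _)
        rw [pow_zero, one_mul] at this
        linarith
      have h4 : Λ * r t ≤ Λ * (Γ ^ (2 * l) * η) := mul_le_mul_of_nonneg_left h1 (by linarith)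
      have h5 : Γ ^ (2 * l + 1) * η = Λ * (Γ ^ (2 * l) * η) + Γ ^ (2 * l) * η := by
        rw [pow_succ, hΓ]; ring
      rw [h5]
      have h6 : r (t + 1) ≤ ε + Λ * r t := h2
      show r (t + 1) ≤ _
      linarith
    · exact ⟨0, fun h => absurd h hl⟩
  choose T hT using hT
  obtain ⟨l, l', hll, hl's, hd⟩ := hcov.exists_close (fun l => x (i₀ + T l)) (fun l hl =>
    ⟨i₀ + T l, (hT l hl).1, rfl⟩)
  obtain ⟨a1, a2, a3⟩ := hT l (by omega)
  obtain ⟨b1, b2, b3⟩ := hT l' hl's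
  have e1 : r (T l) = dist (x (i₀ + T l)) (F^[T l] p) := by rw [hr]
  have e2 : r (T l') = dist (x (i₀ + T l')) (F^[T l'] p) := by rw [hr]
  have hd' : dist (x (i₀ + T l)) (x (i₀ + T l')) < 2 * ε := hd
  by_cases hP : F^[T l] p = F^[T l'] p
  · have h1 := dist_triangle_left (x (i₀ + T l')) (F^[T l'] p) (x (i₀ + T l))
    rw [← hP] at e2 h1
    have h2 : Γ ^ (2 * l + 2) * η ≤ Γ ^ (2 * l') * η := hpow _ _ (by omega)
    have h3 : Γ ^ (2 * l + 2) * η = Γ * (Γ ^ (2 * l + 1) * η) := by rw [pow_succ]; ring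
    have h4 : 0 < Γ ^ (2 * l + 1) * η := by positivity
    have h5 : Γ * η ≤ Γ ^ (2 * l + 1) * η := by
      have := hpow 1 (2 * l + 1) (by omega)
      rwa [pow_one] at this
    nlinarith
  · have h1 := hsep _ _ hP
    have h2 := dist_triangle4 (F^[T l] p) (x (i₀ + T l)) (x (i₀ + T l')) (F^[T l'] p)
    rw [dist_comm (F^[T l] p) (x (i₀ + T l))] at h2
    have h3 : r (T l) ≤ Γ ^ (2 * s + 2) * η := a3.trans (hpow _ _ (by omega))
    have h4 : r (T l') ≤ Γ ^ (2 * s + 2) * η := b3.trans (hpow _ _ (by omega))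
    linarith

/-- the same, backwards -/
theorem back_aux {N : Type u} [MetricSpace N] {F : N → N} {Λ : ℝ} (hΛ : 1 ≤ Λ)
    (hbil : BiL F Λ) {i₀ : ℕ} {ε R : ℝ} {x : ℕ → N} {p : N} (hR : ε ≤ R) (hε : 0 ≤ ε)
    (hx : ∀ i < i₀, dist (F (x i)) (x (i + 1)) ≤ ε) (h0 : dist (F^[i₀] p) (x i₀) ≤ R) :
    ∀ t ≤ i₀, dist (F^[i₀ - t] p) (x (i₀ - t)) ≤ (2 * (Λ + 1)) ^ t * R := by
  intro t
  induction t with
  | zero => intro _; simpa using h0
  | succ t ih =>
    intro ht
    have h1 := ih (by omega)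
    obtain ⟨j, hj⟩ : ∃ j, j = i₀ - (t + 1) := ⟨_, rfl⟩
    have hj1 : i₀ - t = j + 1 := by omega
    rw [← hj]
    rw [hj1] at h1
    have h2 := hx j (by omega)
    have h3 := (hbil (F^[j] p) (x j)).2
    rw [← Function.iterate_succ_apply' F j p] at h3
    have h4 := dist_triangle_right (F^[j + 1] p) (F (x j)) (x (j + 1))
    have hp1 : 1 ≤ (2 * (Λ + 1)) ^ t := one_le_pow₀ (by linarith)
    have h5 : ε ≤ (2 * (Λ + 1)) ^ t * R := by nlinarith
    have h6 : dist (F^[j.succ] p) (F (x j)) ≤ 2 * ((2 * (Λ + 1)) ^ t * R) := by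
      have : dist (F^[j.succ] p) (F (x j)) = dist (F^[j + 1] p) (F (x j)) := rfl
      rw [this]
      linarith
    have h7 : Λ * dist (F^[j.succ] p) (F (x j)) ≤ Λ * (2 * ((2 * (Λ + 1)) ^ t * R)) :=
      mul_le_mul_of_nonneg_left h6 (by linarith)
    have h8 : 0 ≤ (2 * (Λ + 1)) ^ t * R := by linarith
    rw [pow_succ]
    nlinarith

section

variable {n : ℕ} {N : Type u} [MetricSpace N] [CompactSpace N] [ChartedSpace (V n) N]
  [IsManifold (𝓡 n) ∞ N] {r : ℕ∞}

/-- pseudo-orbits of low complexity are shadowed by periodic orbits -/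
theorem low (hr : 2 ≤ r) (hN : ChartLip n N) (F : DiffM n N r) (hF : OmegaStable n N r F) :
    ∃ C : ℝ, 0 < C ∧ ∀ (s : ℕ) (ε : ℝ) (x : ℕ → N), 1 ≤ s → ε ≤ Real.exp (-(C * s)) →
      (∀ i < s, dist (F (x i)) (x (i + 1)) ≤ ε) → CovBy (x '' Iic s) s ε →
      ∃ (p : N) (m : ℕ), 1 ≤ m ∧ m ≤ s ∧ F^[m] p = p ∧ ∀ L, s ≤ L →
        (∀ i < L, dist (F (x i)) (x (i + 1)) ≤ ε) → CovBy (x '' Iic L) s ε →
        ∀ i ≤ L, dist (F^[i] p) (x i) ≤ Real.exp (C * s) * ε := by
  obtain ⟨a, b, ha, hb, hsh⟩ := shadowing hr hN F hF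
  obtain ⟨C₂, hC₂, h4⟩ := main4 hr hN F hF
  obtain ⟨Λ, hΛ, hbil⟩ := exists_biL (le_trans (by norm_num) hr) hN F
  obtain ⟨g, hg⟩ : ∃ g, g = Real.log (2 * (Λ + 1)) := ⟨_, rfl⟩
  have hg0 : 0 < g := by rw [hg]; exact Real.log_pos (by linarith)
  have hΛg : 2 * (Λ + 1) = Real.exp g := by rw [hg, Real.exp_log (by linarith)]
  have hΓg : Λ + 1 ≤ Real.exp g := by rw [← hΛg]; linarith
  have he1 : (2 : ℝ) < Real.exp 1 := by have := Real.exp_one_gt_d9; linarith
  refine ⟨3 + 5 * g + b + 2 * C₂ + a + 1, by positivity, ?_⟩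
  obtain ⟨C, hC⟩ : ∃ C, C = 3 + 5 * g + b + 2 * C₂ + a + 1 := ⟨_, rfl⟩
  rw [← hC]
  intro s ε x hs hεC hx hcov
  have hsR : (1 : ℝ) ≤ s := by exact_mod_cast hs
  have hε : 0 < ε := by
    obtain ⟨c, hc⟩ := hcov
    obtain ⟨i, hi⟩ := hc (x 0) ⟨0, Nat.zero_le _, rfl⟩
    exact lt_of_le_of_lt dist_nonneg hi
  obtain ⟨i, j, hij, hjs, hd⟩ := hcov.exists_close x (fun l hl => ⟨l, hl, rfl⟩)
  obtain ⟨m, hm⟩ : ∃ m, m = j - i := ⟨_, rfl⟩
  have hm1 : 1 ≤ m := by omega
  have hms : m ≤ s := by omega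
  have hjm : j = i + m := by omega
  have hmsR : (m : ℝ) ≤ s := by exact_mod_cast hms
  -- the pseudo-cycle
  obtain ⟨y, hy⟩ : ∃ y : ℕ → N, y = fun l => if l < m then x (i + l) else x i := ⟨_, rfl⟩
  have hy0 : y 0 = x i := by rw [hy]; simp [show 0 < m by omega]
  have hym : y m = x i := by rw [hy]; simp
  have hyj : ∀ l < m, dist (F (y l)) (y (l + 1)) ≤ 3 * ε := by
    intro l hl
    have h1 := hx (i + l) (by omega)
    have h2 : y l = x (i + l) := by rw [hy]; simp [hl]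
    rcases Nat.lt_or_ge (l + 1) m with h3 | h3
    · have h5 : y (l + 1) = x (i + (l + 1)) := by rw [hy]; simp [h3]
      rw [h2, h5, ← add_assoc]
      linarith
    · have h6 : l + 1 = m := by omega
      have h5 : y (l + 1) = x i := by rw [h6, hym]
      rw [h2, h5]
      have h7 := dist_triangle (F (x (i + l))) (x (i + l + 1)) (x i)
      rw [show i + l + 1 = j by omega] at h7 h1
      rw [dist_comm (x j)] at h7
      linarith
  have h3e : 3 * ε ≤ Real.exp (-(a * m)) := by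
    calc 3 * ε ≤ Real.exp 2 * Real.exp (-(C * s)) := by
          have : (3 : ℝ) ≤ Real.exp 2 := by
            have h1 : Real.exp 2 = Real.exp 1 * Real.exp 1 := by rw [← Real.exp_add]; norm_num
            rw [h1]; nlinarith
          have h2 := Real.exp_pos (-(C * s))
          nlinarith
      _ = Real.exp (2 + -(C * s)) := by rw [Real.exp_add]
      _ ≤ _ := by
          apply Real.exp_le_exp.2
          have h1 : a * m ≤ a * s := mul_le_mul_of_nonneg_left hmsR ha.le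
          have h2 : (2 + a) * s ≤ C * s := by
            apply mul_le_mul_of_nonneg_right _ (by positivity)
            rw [hC]; nlinarith
          nlinarith
  obtain ⟨p, ⟨hp, hps⟩, -⟩ := hsh m (3 * ε) y hm1 h3e (by rw [hy0, hym]) hyj
  have hp0 : dist p (x i) ≤ Real.exp (b * m) * (3 * ε) := by
    have := hps 0 (Nat.zero_le _)
    rw [hy0] at this
    simpa using this
  obtain ⟨η, hη⟩ : ∃ η, η = Real.exp (b * s) * (3 * ε) := ⟨_, rfl⟩
  have hpη : dist (x i) p ≤ η := by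
    rw [dist_comm, hη]
    refine hp0.trans (mul_le_mul_of_nonneg_right ?_ (by positivity))
    apply Real.exp_le_exp.2
    exact mul_le_mul_of_nonneg_left hmsR hb.le
  have hεη : ε ≤ η := by
    rw [hη]
    have : 1 ≤ Real.exp (b * s) := Real.one_le_exp (by positivity)
    nlinarith
  -- the numbers
  have hΓs : (Λ + 1) ^ (2 * s + 2) ≤ Real.exp (4 * g * s) := by
    calc (Λ + 1) ^ (2 * s + 2) ≤ (Λ + 1) ^ (4 * s) :=
          pow_le_pow_right₀ (by linarith) (by omega)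
      _ ≤ Real.exp g ^ (4 * s) := pow_le_pow_left₀ (by linarith) hΓg _
      _ = Real.exp (4 * g * s) := by
          rw [← Real.exp_nat_mul]; congr 1; push_cast; ring
  have hΓη : (Λ + 1) ^ (2 * s + 2) * η ≤ Real.exp (4 * g * s) * (Real.exp (b * s) * (3 * ε)) := by
    rw [hη]
    exact mul_le_mul_of_nonneg_right hΓs (by positivity)
  have hE : Real.exp (4 * g * s) * (Real.exp (b * s) * (3 * ε)) =
      3 * (Real.exp ((4 * g + b) * s) * ε) := by
    rw [add_mul, Real.exp_add]; ring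
  rw [hE] at hΓη
  have h8 : (8 : ℝ) < Real.exp 3 := by
    have h1 : Real.exp 3 = Real.exp 1 * Real.exp 1 * Real.exp 1 := by
      rw [← Real.exp_add, ← Real.exp_add]; norm_num
    rw [h1]
    have h2 : (4 : ℝ) < Real.exp 1 * Real.exp 1 := by nlinarith
    nlinarith
  have hEX : 1 ≤ Real.exp ((4 * g + b) * s) := Real.one_le_exp (by positivity)
  have hσ : 2 * ((Λ + 1) ^ (2 * s + 2) * η) + 2 * ε < Real.exp (-(2 * C₂ * s)) := by
    have h1 : 2 * ((Λ + 1) ^ (2 * s + 2) * η) + 2 * ε ≤ 8 * (Real.exp ((4 * g + b) * s) * ε) := by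
      have : ε ≤ Real.exp ((4 * g + b) * s) * ε := by nlinarith
      linarith
    refine lt_of_le_of_lt h1 ?_
    calc 8 * (Real.exp ((4 * g + b) * s) * ε) ≤
          8 * (Real.exp ((4 * g + b) * s) * Real.exp (-(C * s))) := by gcongr
      _ < Real.exp 3 * (Real.exp ((4 * g + b) * s) * Real.exp (-(C * s))) := by
          exact mul_lt_mul_of_pos_right h8 (by positivity)
      _ = Real.exp (3 + ((4 * g + b) * s + -(C * s))) := by rw [Real.exp_add, Real.exp_add]
      _ ≤ _ := by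
          apply Real.exp_le_exp.2
          have h2 : (3 + (4 * g + b) + 2 * C₂) * s ≤ C * s := by
            apply mul_le_mul_of_nonneg_right _ (by positivity)
            rw [hC]; linarith
          nlinarith
  have hfix : ∀ l, F^[m] (F^[l] p) = F^[l] p := by
    intro l
    rw [← Function.iterate_add_apply, add_comm, Function.iterate_add_apply, hp]
  have hsep : ∀ l l', F^[l] p ≠ F^[l'] p → Real.exp (-(2 * C₂ * s)) ≤
      dist (F^[l] p) (F^[l'] p) := by
    intro l l' hne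
    refine le_trans ?_ (sep F.injective hC₂ h4 (hfix l) (hfix l') hne hm1)
    apply Real.exp_le_exp.2
    have := mul_le_mul_of_nonneg_left hmsR (show 0 ≤ 2 * C₂ by positivity)
    linarith
  -- the point `p'` with `F^i p' = p`
  obtain ⟨p', hp'⟩ : ∃ p', p' = F^[m * i - i] p := ⟨_, rfl⟩
  have hmi : i ≤ m * i := Nat.le_mul_of_pos_left i (by omega)
  have hp'i : F^[i] p' = p := by
    rw [hp', ← Function.iterate_add_apply, Nat.add_sub_cancel' hmi, Function.iterate_mul]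
    exact Function.iterate_fixed hp i
  refine ⟨p', m, hm1, hms, by rw [hp']; exact hfix _, ?_⟩
  intro L hL hxL hcovL
  have hfwd := count_aux hΛ hbil hε hεη hxL hcovL hsep hpη hσ
  obtain ⟨R, hR⟩ : ∃ R, R = (Λ + 1) ^ (2 * s + 2) * η := ⟨_, rfl⟩
  rw [← hR] at hfwd hΓη
  have hηR : η ≤ R := by
    rw [hR]
    have : 1 ≤ (Λ + 1) ^ (2 * s + 2) := one_le_pow₀ (by linarith)
    nlinarith
  have hback := back_aux (x := x) (p := p') (i₀ := i) (ε := ε) (R := R) hΛ hbil (hεη.trans hηR)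
    hε.le (fun l hl => hx l (by omega)) (by
      rw [hp'i, dist_comm]; exact hpη.trans hηR)
  have hfinal : (2 * (Λ + 1)) ^ s * R ≤ Real.exp (C * s) * ε := by
    have h1 : (2 * (Λ + 1)) ^ s = Real.exp (g * s) := by
      rw [hΛg, ← Real.exp_nat_mul, mul_comm]
    rw [h1]
    have h3 : (3 : ℝ) ≤ Real.exp 2 := by
      have h1 : Real.exp 2 = Real.exp 1 * Real.exp 1 := by rw [← Real.exp_add]; norm_num
      rw [h1]; nlinarith
    calc Real.exp (g * s) * R ≤
          Real.exp (g * s) * (Real.exp 2 * (Real.exp ((4 * g + b) * s) * ε)) := by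
          refine mul_le_mul_of_nonneg_left (hΓη.trans ?_) (Real.exp_pos _).le
          exact mul_le_mul_of_nonneg_right h3 (by positivity)
      _ = Real.exp (g * s + (2 + (4 * g + b) * s)) * ε := by
          rw [Real.exp_add, Real.exp_add]; ring
      _ ≤ _ := by
          refine mul_le_mul_of_nonneg_right ?_ hε.le
          apply Real.exp_le_exp.2
          have h2 : (g + 2 + (4 * g + b)) * s ≤ C * s := by
            apply mul_le_mul_of_nonneg_right _ (by positivity)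
            rw [hC]; nlinarith
          nlinarith
  have hpow1 : ∀ t ≤ s, (2 * (Λ + 1)) ^ t * R ≤ (2 * (Λ + 1)) ^ s * R := fun t ht =>
    mul_le_mul_of_nonneg_right (pow_le_pow_right₀ (by linarith) ht) (by linarith)
  intro t ht
  rcases Nat.lt_or_ge t i with h1 | h1
  · have h2 := hback (i - t) (Nat.sub_le _ _)
    rw [Nat.sub_sub_self h1.le] at h2
    exact h2.trans ((hpow1 _ (by omega)).trans hfinal)
  · obtain ⟨u, rfl⟩ : ∃ u, t = i + u := ⟨t - i, by omega⟩
    have h2 := hfwd u ht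
    rw [add_comm i u, Function.iterate_add_apply, hp'i, dist_comm, add_comm u i]
    refine h2.trans ?_
    have h3 := hpow1 0 (Nat.zero_le _)
    rw [pow_zero, one_mul] at h3
    exact h3.trans hfinal

end

end Pool.Agent.U882.RS
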