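import Pool.Agent.U882.RS.Low

/-!
# Forward orbits of low complexity are asymptotic to periodic orbits
-/

set_option autoImplicit false

open scoped Manifold ContDiff Topology
open Filter Set Metric

universe u

namespace Pool.Agent.U882.RS

open Pool.Agent.H718R2.G Pool.Agent.W564.SC Pool.Agent.W509.SC Pool.Agent.Y368.CL
  Pool.Agent.N813.OF Pool.Agent.N813.EM Pool.Agent.TH80.OMS Pool.Agent.N813.OE

/-- the set of the limit points of an orbit is invariant -/
theorem cluster_image {N : Type u} [TopologicalSpace N] {G G' : N → N} (hG : Continuous G)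
    (hG' : Continuous G') (h1 : ∀ x, G' (G x) = x) (h2 : ∀ x, G (G' x) = x) (x : N) :
    G '' {y | MapClusterPt y atTop (fun k => G^[k] x)} =
      {y | MapClusterPt y atTop (fun k => G^[k] x)} := by
  apply Subset.antisymm
  · rintro _ ⟨y, hy, rfl⟩
    have h3 := MapClusterPt.continuousAt_comp hG.continuousAt hy
    have h4 : (G ∘ fun k => G^[k] x) = (fun k => G^[k] x) ∘ (fun k => k + 1) := by
      funext k
      simp only [Function.comp_apply]
      rw [Function.iterate_succ_apply']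
    rw [h4] at h3
    exact MapClusterPt.of_comp (tendsto_add_atTop_nat 1) h3
  · intro y hy
    refine ⟨G' y, ?_, h2 y⟩
    have h3 := MapClusterPt.continuousAt_comp (hG'.continuousAt (x := y)) hy
    rw [mapClusterPt_iff_frequently] at h3
    rw [mem_ofPred_eq, mapClusterPt_iff_frequently]
    intro s hs
    have h4 := h3 s hs
    rw [frequently_atTop] at h4 ⊢
    intro a
    obtain ⟨b, hb, hbs⟩ := h4 (a + 1)
    obtain ⟨k, rfl⟩ : ∃ k, b = k + 1 := ⟨b - 1, by omega⟩
    refine ⟨k, by omega, ?_⟩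
    simp only [Function.comp_apply] at hbs
    rw [Function.iterate_succ_apply', h1] at hbs
    exact hbs

section

variable {n : ℕ} {N : Type u} [MetricSpace N] [CompactSpace N] [ChartedSpace (V n) N]
  [IsManifold (𝓡 n) ∞ N] {r : ℕ∞}

/-- forward orbits which stay close to a periodic orbit are asymptotic to it -/
theorem asym (hr : 2 ≤ r) (hN : ChartLip n N) (F : DiffM n N r) (hF : OmegaStable n N r F) :
    ∃ C : ℝ, 0 < C ∧ ∀ (m : ℕ) (p x : N), 1 ≤ m → F^[m] p = p →
      (∀ i, dist (F^[i] p) (F^[i] x) ≤ Real.exp (-(C * m))) →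
      Tendsto (fun i => dist (F^[i] p) (F^[i] x)) atTop (𝓝 0) := by
  obtain ⟨C₁, hC₁, hrig⟩ := rigid hr hN F hF
  obtain ⟨C₂, hC₂, hsep, -⟩ := margins hr hN F hF
  obtain ⟨Λ, hΛ, hbil⟩ := exists_biL (le_trans (by norm_num) hr) hN F
  have he1 : (2 : ℝ) < Real.exp 1 := by have := Real.exp_one_gt_d9; linarith
  refine ⟨C₁ + C₂ + 1, by positivity, fun m p x hm hp hx => ?_⟩
  have hmR : (1 : ℝ) ≤ m := by exact_mod_cast hm
  obtain ⟨ρ, hρ⟩ : ∃ ρ, ρ = Real.exp (-((C₁ + C₂ + 1) * m)) := ⟨_, rfl⟩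
  rw [← hρ] at hx
  have hρ1 : 2 * ρ ≤ Real.exp (-(C₁ * m)) := by
    calc 2 * ρ ≤ Real.exp 1 * Real.exp (-((C₁ + C₂ + 1) * m)) := by
          rw [hρ]
          exact mul_le_mul_of_nonneg_right he1.le (Real.exp_pos _).le
      _ = Real.exp (1 + -((C₁ + C₂ + 1) * m)) := by rw [Real.exp_add]
      _ ≤ _ := by
          apply Real.exp_le_exp.2
          nlinarith
  have hρ2 : ρ < Real.exp (-(C₂ * m)) := by
    rw [hρ]
    apply Real.exp_lt_exp.2
    nlinarith
  obtain ⟨u, hu⟩ : ∃ u : ℕ → N, u = fun k => (F^[m])^[k] x := ⟨_, rfl⟩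
  have hukm : ∀ k, u k = F^[m * k] x := by
    intro k
    rw [hu, Function.iterate_mul]
  have hpk : ∀ k, F^[m * k] p = p := by
    intro k
    rw [Function.iterate_mul]
    exact Function.iterate_fixed hp k
  have hup : ∀ k, dist p (u k) ≤ ρ := by
    intro k
    have := hx (m * k)
    rwa [hpk, ← hukm] at this
  obtain ⟨K, hK⟩ : ∃ K : Set N, K = {y | MapClusterPt y atTop u} := ⟨_, rfl⟩
  have hKp : ∀ y ∈ K, dist p y ≤ ρ := by
    intro y hy
    by_contra hcon
    rw [not_le] at hcon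
    rw [hK, mem_ofPred_eq, mapClusterPt_iff_frequently] at hy
    have h1 : {z | ρ < dist p z} ∈ 𝓝 y :=
      (isOpen_lt continuous_const (continuous_const.dist continuous_id)).mem_nhds hcon
    obtain ⟨k, hk⟩ := (hy _ h1).exists
    exact absurd (hup k) (not_le.2 hk)
  have hinv : ∀ z, F.symm^[m] (F^[m] z) = z :=
    Function.LeftInverse.iterate (fun z => F.symm_apply_apply z) m
  have hinv' : ∀ z, F^[m] (F.symm^[m] z) = z :=
    Function.LeftInverse.iterate (fun z => F.apply_symm_apply z) m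
  have hKm : F^[m] '' K = K := by
    rw [hK, hu]
    exact cluster_image (F.continuous.iterate m) (F.symm.continuous.iterate m) hinv hinv' x
  have hfix := hrig m K hm hKm (fun y hy => by
    have h1 := hKp y hy
    have h2 : F^[m] y ∈ K := by rw [← hKm]; exact mem_image_of_mem _ hy
    have h3 := hKp _ h2
    have h4 := dist_triangle_left (F^[m] y) y p
    linarith)
  have huniq : ∀ y, MapClusterPt y atTop u → y = p := by
    intro y hy
    have hyK : y ∈ K := by rw [hK]; exact hy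
    by_contra hne
    have h1 := hsep m y p hm (hfix y hyK) hp hne
    have h2 := hKp y hyK
    rw [dist_comm] at h2
    linarith
  have hlim : Tendsto u atTop (𝓝 p) := le_nhds_of_unique_clusterPt huniq
  rw [Metric.tendsto_atTop]
  intro δ hδ
  have hΛm : 0 < Λ ^ m := by positivity
  rw [Metric.tendsto_atTop] at hlim
  obtain ⟨k₀, hk₀⟩ := hlim (δ / Λ ^ m) (by positivity)
  refine ⟨m * k₀, fun i hi => ?_⟩
  rw [Real.dist_eq, sub_zero, abs_of_nonneg dist_nonneg]
  obtain ⟨k, hk⟩ : ∃ k, k = i / m := ⟨_, rfl⟩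
  have hkk : k₀ ≤ k := by
    rw [hk, Nat.le_div_iff_mul_le (by omega), mul_comm]
    exact hi
  obtain ⟨l, hl, hi'⟩ : ∃ l, l < m ∧ i = l + m * k :=
    ⟨i % m, Nat.mod_lt _ (show 0 < m by omega), by rw [hk]; exact (Nat.mod_add_div i m).symm⟩
  have h1 := hk₀ k hkk
  rw [hi', Function.iterate_add_apply, Function.iterate_add_apply, hpk, ← hukm]
  have h2 := (hbil.iter hΛ hl.le p (u k)).1
  rw [dist_comm, lt_div_iff₀ hΛm] at h1
  linarith

/-- the theorem on forward orbits -/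
theorem forward (hr : 2 ≤ r) (hN : ChartLip n N) (F : DiffM n N r) (hF : OmegaStable n N r F) :
    ∃ C : ℝ, 0 < C ∧
      (∀ (s : ℕ) (ε : ℝ) (x : ℕ → N), 1 ≤ s → ε ≤ Real.exp (-(C * s)) →
        (∀ i < s, dist (F (x i)) (x (i + 1)) ≤ ε) → CovBy (x '' Iic s) s ε →
        ∃ (p : N) (m : ℕ), 1 ≤ m ∧ m ≤ s ∧ F^[m] p = p ∧ ∀ L, s ≤ L →
          (∀ i < L, dist (F (x i)) (x (i + 1)) ≤ ε) → CovBy (x '' Iic L) s ε →
          ∀ i ≤ L, dist (F^[i] p) (x i) ≤ Real.exp (C * s) * ε) ∧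
      ∀ (s : ℕ) (ε : ℝ) (x : N), ε ≤ Real.exp (-(C * s)) →
        CovBy (range fun i => F^[i] x) s ε →
        ∃ (p : N) (m : ℕ), 1 ≤ m ∧ m ≤ s ∧ F^[m] p = p ∧
          Tendsto (fun i => dist (F^[i] p) (F^[i] x)) atTop (𝓝 0) := by
  obtain ⟨C₁, hC₁, hlow⟩ := low hr hN F hF
  obtain ⟨C₂, hC₂, hasym⟩ := asym hr hN F hF
  refine ⟨C₁ + C₂, by positivity, ?_, ?_⟩
  · intro s ε x hs hε hx hcov
    have hmono : Real.exp (-((C₁ + C₂) * s)) ≤ Real.exp (-(C₁ * s)) := by
      apply Real.exp_le_exp.2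
      have : 0 ≤ C₂ * s := by positivity
      nlinarith
    obtain ⟨p, m, h1, h2, h3, h4⟩ := hlow s ε x hs (hε.trans hmono) hx hcov
    refine ⟨p, m, h1, h2, h3, fun L hL a1 a2 i hi => (h4 L hL a1 a2 i hi).trans ?_⟩
    have hε0 : 0 ≤ ε := dist_nonneg.trans (hx 0 (by omega))
    refine mul_le_mul_of_nonneg_right ?_ hε0
    apply Real.exp_le_exp.2
    have : 0 ≤ C₂ * s := by positivity
    nlinarith
  · intro s ε x hε hcov
    have hs : 1 ≤ s := by
      obtain ⟨c, hc⟩ := hcov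
      obtain ⟨i, -⟩ := hc x ⟨0, rfl⟩
      exact Nat.one_le_iff_ne_zero.2 (fun h => by subst h; exact i.elim0)
    have hε0 : 0 < ε := by
      obtain ⟨c, hc⟩ := hcov
      obtain ⟨i, hi⟩ := hc x ⟨0, rfl⟩
      exact lt_of_le_of_lt dist_nonneg hi
    have hmono : Real.exp (-((C₁ + C₂) * s)) ≤ Real.exp (-(C₁ * s)) := by
      apply Real.exp_le_exp.2
      have : 0 ≤ C₂ * s := by positivity
      nlinarith
    have hjump : ∀ i, dist (F (F^[i] x)) (F^[i + 1] x) ≤ ε := by
      intro i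
      rw [Function.iterate_succ_apply', dist_self]
      exact hε0.le
    have hcovL : ∀ L, CovBy ((fun i => F^[i] x) '' Iic L) s ε := by
      intro L
      obtain ⟨c, hc⟩ := hcov
      refine ⟨c, ?_⟩
      rintro _ ⟨i, -, rfl⟩
      exact hc _ ⟨i, rfl⟩
    obtain ⟨p, m, h1, h2, h3, h4⟩ := hlow s ε (fun i => F^[i] x) hs (hε.trans hmono)
      (fun i _ => hjump i) (hcovL s)
    refine ⟨p, m, h1, h2, h3, hasym m p x h1 h3 fun i => ?_⟩
    have h5 := h4 (max s i) (le_max_left _ _) (fun i _ => hjump i) (hcovL _) i (le_max_right _ _)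
    refine h5.trans ?_
    have h6 : Real.exp (C₁ * s) * ε ≤ Real.exp (C₁ * s) * Real.exp (-((C₁ + C₂) * s)) :=
      mul_le_mul_of_nonneg_left hε (Real.exp_pos _).le
    refine h6.trans ?_
    rw [← Real.exp_add]
    apply Real.exp_le_exp.2
    have hms : (m : ℝ) ≤ s := by exact_mod_cast h2
    have : C₂ * m ≤ C₂ * s := mul_le_mul_of_nonneg_left hms hC₂.le
    nlinarith

end

end Pool.Agent.U882.RS
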