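import Pool.Agent.U882.RS.Low2

/-!
# Uniqueness of the periodic orbit
-/

set_option autoImplicit false

open scoped Manifold ContDiff Topology
open Filter Set Metric

universe u

namespace Pool.Agent.U882.RS

open Pool.Agent.H718R2.G Pool.Agent.W564.SC Pool.Agent.W509.SC Pool.Agent.Y368.CL
  Pool.Agent.N813.OF Pool.Agent.N813.EM Pool.Agent.TH80.OMS Pool.Agent.N813.OE

/-- periodic points of small period whose orbits are close are equal -/
theorem uniq_low {N : Type u} [MetricSpace N] {F : N → N} (hF : Function.Injective F) {C : ℝ}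
    (hC : 0 < C) (h : ∀ K : Set N, F '' K = K → ∀ (s : ℕ) (ε : ℝ), CovBy K s ε →
      ε < Real.exp (-(C * s)) → K.encard ≤ s) {m m' s : ℕ} {p p' : N} (hp : F^[m] p = p)
    (hp' : F^[m'] p' = p') (hm : 1 ≤ m) (hms : m ≤ s) (hm' : 1 ≤ m') (hms' : m' ≤ s) {δ : ℝ}
    (hδ : δ < Real.exp (-(2 * C * s))) (hd : ∀ i ≤ s, dist (F^[i] p) (F^[i] p') ≤ δ) :
    p = p' := by
  classical
  obtain ⟨A, hA⟩ : ∃ A : Finset N, A = (Finset.range m).image (fun i => F^[i] p) := ⟨_, rfl⟩
  obtain ⟨B, hB⟩ : ∃ B : Finset N, B = (Finset.range m').image (fun i => F^[i] p') := ⟨_, rfl⟩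
  obtain ⟨S, hS⟩ : ∃ S : Finset N, S = A ∪ B := ⟨_, rfl⟩
  have hmod : ∀ i, F^[i] p ∈ A := by
    intro i
    rw [hA]
    refine Finset.mem_image.2 ⟨i % m, Finset.mem_range.2 (Nat.mod_lt _ hm), ?_⟩
    conv_rhs => rw [← Nat.mod_add_div i m, Function.iterate_add_apply, Function.iterate_mul,
      Function.iterate_fixed hp]
  have hmod' : ∀ i, F^[i] p' ∈ B := by
    intro i
    rw [hB]
    refine Finset.mem_image.2 ⟨i % m', Finset.mem_range.2 (Nat.mod_lt _ hm'), ?_⟩
    conv_rhs => rw [← Nat.mod_add_div i m', Function.iterate_add_apply, Function.iterate_mul,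
      Function.iterate_fixed hp']
  have hmaps : S.image F ⊆ S := by
    intro w hw
    obtain ⟨w', hw', rfl⟩ := Finset.mem_image.1 hw
    rw [hS, Finset.mem_union] at hw' ⊢
    rcases hw' with h1 | h1
    · rw [hA] at h1
      obtain ⟨i, -, rfl⟩ := Finset.mem_image.1 h1
      left
      rw [← Function.iterate_succ_apply' F i p]
      exact hmod _
    · rw [hB] at h1
      obtain ⟨i, -, rfl⟩ := Finset.mem_image.1 h1
      right
      rw [← Function.iterate_succ_apply' F i p']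
      exact hmod' _
  have himg : S.image F = S :=
    Finset.eq_of_subset_of_card_le hmaps (by rw [Finset.card_image_of_injective _ hF])
  have hinv : F '' (S : Set N) = S := by
    rw [← Finset.coe_image, himg]
  have hAc : A.card ≤ m := by
    rw [hA]
    refine Finset.card_image_le.trans ?_
    rw [Finset.card_range]
  obtain ⟨ε, hε⟩ : ∃ ε, ε = (δ + Real.exp (-(2 * C * s))) / 2 := ⟨_, rfl⟩
  have hδ0 : 0 ≤ δ := dist_nonneg.trans (hd 0 (Nat.zero_le _))
  have hε1 : δ < ε := by rw [hε]; linarith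
  have hε2 : ε < Real.exp (-(2 * C * s)) := by rw [hε]; linarith
  have hcov : CovBy (S : Set N) A.card ε := by
    refine ⟨fun i => (A.equivFin.symm i : N), fun w hw => ?_⟩
    have hw' : ∃ v ∈ A, dist w v < ε := by
      rw [Finset.mem_coe, hS, Finset.mem_union] at hw
      rcases hw with h1 | h1
      · exact ⟨w, h1, by rw [dist_self]; linarith⟩
      · rw [hB] at h1
        obtain ⟨i, hi, rfl⟩ := Finset.mem_image.1 h1
        refine ⟨F^[i] p, hmod i, ?_⟩
        rw [dist_comm]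
        exact (hd i ((Finset.mem_range.1 hi).le.trans hms')).trans_lt hε1
    obtain ⟨v, hv, hwv⟩ := hw'
    refine ⟨A.equivFin ⟨v, hv⟩, ?_⟩
    beta_reduce
    rw [Equiv.symm_apply_apply]
    exact hwv
  have hsR : (m : ℝ) ≤ s := by exact_mod_cast hms
  have h1 := h S hinv A.card ε hcov (hε2.trans_le (by
    apply Real.exp_le_exp.2
    have h2 : (A.card : ℝ) ≤ s := by exact_mod_cast hAc.trans hms
    have h3 : C * A.card ≤ C * s := mul_le_mul_of_nonneg_left h2 hC.le
    have h4 : 0 ≤ C * s := by positivity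
    linarith))
  rw [Set.encard_coe_eq_coe_finsetCard] at h1
  have h2 : S.card ≤ A.card := by exact_mod_cast h1
  have h3 : A = S := Finset.eq_of_subset_of_card_le (by rw [hS]; exact Finset.subset_union_left) h2
  have h4 : p' ∈ A := by
    rw [h3, hS, Finset.mem_union]
    right
    exact hmod' 0
  rw [hA] at h4
  obtain ⟨l, -, hl⟩ := Finset.mem_image.1 h4
  have h5 : F^[m] p' = p' := by
    rw [← hl]
    rw [← Function.iterate_add_apply, add_comm, Function.iterate_add_apply, hp]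
  by_contra hne
  have h6 := sep hF hC h hp h5 hne hm
  have h7 := hd 0 (Nat.zero_le _)
  simp only [Function.iterate_zero, id] at h7
  have h8 : Real.exp (-(2 * C * s)) ≤ Real.exp (-(2 * C * m)) := by
    apply Real.exp_le_exp.2
    have : 2 * C * m ≤ 2 * C * s := mul_le_mul_of_nonneg_left hsR (by positivity)
    linarith
  linarith

section

variable {n : ℕ} {N : Type u} [MetricSpace N] [CompactSpace N] [ChartedSpace (V n) N]
  [IsManifold (𝓡 n) ∞ N] {r : ℕ∞}

theorem low_complexity (hr : 2 ≤ r) (hN : ChartLip n N) (F : DiffM n N r)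
    (hF : OmegaStable n N r F) :
    ∃ a b : ℝ, 0 < a ∧ 0 < b ∧
      (∀ (s : ℕ) (L : ℕ∞) (ε : ℝ) (x : ℕ → N), 1 ≤ s → (s : ℕ∞) ≤ L →
        ε ≤ Real.exp (-(a * s)) →
        (∀ i : ℕ, (i : ℕ∞) < L → dist (F (x i)) (x (i + 1)) ≤ ε) →
        CovBy {y | ∃ i : ℕ, (i : ℕ∞) ≤ L ∧ y = x i} s ε →
        ∃! p, (∃ m : ℕ, 1 ≤ m ∧ m ≤ s ∧ F^[m] p = p) ∧
          ∀ i : ℕ, (i : ℕ∞) ≤ L → dist (F^[i] p) (x i) ≤ Real.exp (b * s) * ε) ∧
      ∀ (s : ℕ) (ε : ℝ) (x : N), ε ≤ Real.exp (-(a * s)) →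
        CovBy (range fun i => F^[i] x) s ε →
        ∃ (p : N) (m : ℕ), 1 ≤ m ∧ m ≤ s ∧ F^[m] p = p ∧
          Tendsto (fun i => dist (F^[i] p) (F^[i] x)) atTop (𝓝 0) := by
  obtain ⟨C, hC, h1, h2⟩ := forward hr hN F hF
  obtain ⟨C₂, hC₂, h4⟩ := main4 hr hN F hF
  have he1 : (2 : ℝ) < Real.exp 1 := by have := Real.exp_one_gt_d9; linarith
  have hmono : ∀ s : ℕ, Real.exp (-((2 * C + 2 * C₂ + 1) * s)) ≤ Real.exp (-(C * s)) := by
    intro s
    apply Real.exp_le_exp.2
    have : 0 ≤ (C + 2 * C₂ + 1) * (s : ℝ) := by positivity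
    nlinarith
  refine ⟨2 * C + 2 * C₂ + 1, C, by positivity, hC, ?_, ?_⟩
  · intro s L ε x hs hsL hε hx hcov
    have hsR : (1 : ℝ) ≤ s := by exact_mod_cast hs
    have hcovL : ∀ L' : ℕ, (L' : ℕ∞) ≤ L → CovBy (x '' Iic L') s ε := by
      intro L' hL'
      obtain ⟨c, hc⟩ := hcov
      refine ⟨c, ?_⟩
      rintro _ ⟨i, hi, rfl⟩
      refine hc _ ⟨i, le_trans ?_ hL', rfl⟩
      exact_mod_cast hi
    have hxL : ∀ L' : ℕ, (L' : ℕ∞) ≤ L → ∀ i < L', dist (F (x i)) (x (i + 1)) ≤ ε := by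
      intro L' hL' i hi
      refine hx i (lt_of_lt_of_le ?_ hL')
      exact_mod_cast hi
    obtain ⟨p, m, a1, a2, a3, a4⟩ := h1 s ε x hs (hε.trans (hmono s)) (hxL s hsL) (hcovL s hsL)
    refine ⟨p, ⟨⟨m, a1, a2, a3⟩, fun i hi => ?_⟩, ?_⟩
    · have hmax : ((max s i : ℕ) : ℕ∞) ≤ L := by
        rcases le_total s i with h | h
        · rw [max_eq_right h]; exact hi
        · rw [max_eq_left h]; exact hsL
      exact a4 (max s i) (le_max_left _ _) (hxL _ hmax) (hcovL _ hmax) i (le_max_right _ _)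
    · rintro p' ⟨⟨m', b1, b2, b3⟩, b4⟩
      refine uniq_low (F := ⇑F) F.injective hC₂ h4 b3 a3 b1 b2 a1 a2
        (δ := 2 * (Real.exp (C * s) * ε)) ?_ fun i hi => ?_
      · have hε' : Real.exp (C * s) * ε ≤
            Real.exp (C * s) * Real.exp (-((2 * C + 2 * C₂ + 1) * s)) :=
          mul_le_mul_of_nonneg_left hε (Real.exp_pos _).le
        calc 2 * (Real.exp (C * s) * ε) ≤
              2 * (Real.exp (C * s) * Real.exp (-((2 * C + 2 * C₂ + 1) * s))) := by linarith
          _ < Real.exp 1 * (Real.exp (C * s) * Real.exp (-((2 * C + 2 * C₂ + 1) * s))) :=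
              mul_lt_mul_of_pos_right he1 (by positivity)
          _ = Real.exp (1 + (C * s + -((2 * C + 2 * C₂ + 1) * s))) := by
              rw [Real.exp_add, Real.exp_add]
          _ ≤ _ := by
              apply Real.exp_le_exp.2
              have : 0 ≤ C * s := by positivity
              nlinarith
      · have hiL : (i : ℕ∞) ≤ L := le_trans (by exact_mod_cast hi) hsL
        have c1 := b4 i hiL
        have c2 := a4 s le_rfl (hxL s hsL) (hcovL s hsL) i hi
        have c3 := dist_triangle_right (F^[i] p') (F^[i] p) (x i)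
        linarith
  · intro s ε x hε hcov
    exact h2 s ε x (hε.trans (hmono s)) hcov

end

end Pool.Agent.U882.RS
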