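import Pool.Agent.U882.RS.Main2

/-!
# Invariant sets of small logarithmic dimension are finite
-/

set_option autoImplicit false

open scoped Manifold ContDiff Topology
open Filter Set Metric

universe u

namespace Pool.Agent.U882.RS

open Pool.Agent.H718R2.G Pool.Agent.W564.SC Pool.Agent.W509.SC Pool.Agent.Y368.CL
  Pool.Agent.N813.OF Pool.Agent.N813.EM Pool.Agent.TH80.OMS

section

variable {n : ℕ} {N : Type u} [MetricSpace N] [ChartedSpace (V n) N] {r : ℕ∞}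

omit [ChartedSpace (V n) N] in
theorem CovBy.mono_card {K : Set N} {t s : ℕ} {ε : ℝ} (x₀ : N) (h : CovBy K t ε) (hts : t ≤ s) :
    CovBy K s ε := by
  obtain ⟨c, hc⟩ := h
  refine ⟨fun i => if hi : (i : ℕ) < t then c ⟨i, hi⟩ else x₀, fun x hx => ?_⟩
  obtain ⟨i, hi⟩ := hc x hx
  refine ⟨⟨i, lt_of_lt_of_le i.2 hts⟩, ?_⟩
  simp only [Fin.is_lt, dite_true, Fin.eta]
  exact hi

/-- the selection with general numbers `E m` -/
theorem select3 {F : DiffM n N r} {a s : ℕ} {c : ℝ} {K : Set N} (hkey : ∀ y ∈ K, KeyAt2 F a c y)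
    (hFK : MapsTo F K K) (hFK' : MapsTo F.symm K K) {ε : ℝ} (hcov : CovBy K s ε)
    {E : ℕ → ℝ} (hEpos : ∀ m, 0 < E m) (hE1 : ∀ m, E m ≤ 1)
    (hEanti : ∀ i j, i ≤ j → E j ≤ E i) (hEhalf : ∀ m, 1 ≤ m → E m ≤ E (m / 2) / 2)
    (hstep : ∀ m, 1 ≤ m → m ≤ s → ∃ (s' : ℕ) (ε' : ℝ), m ≤ s' ∧ CovBy K s' ε' ∧
      ε' ≤ c ^ (2 * s') * (c * (E (m / 2) / 2)) ^ a ∧
      E m ≤ c ^ (2 * s') * (c * (E (m / 2) / 2)) ^ a)
    (hε : 2 * ε ≤ E s) (x : N) (hx : x ∈ K) :
    ∀ v ∈ K, dist v x ≤ E s → v = x := by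
  classical
  have hiter : ∀ t, F^[t] x ∈ K := by
    intro t
    induction t with
    | zero => exact hx
    | succ t ih => rw [Function.iterate_succ_apply']; exact hFK ih
  -- the shortest return
  have hex : ∃ m, 1 ≤ m ∧ ∃ i, i + m ≤ s ∧ dist (F^[i] x) (F^[i + m] x) < E m := by
    obtain ⟨i, j, hij, hj, hd⟩ := hcov.exists_close (fun l => F^[l] x) (fun l _ => hiter l)
    refine ⟨j - i, by omega, i, by omega, ?_⟩
    rw [show i + (j - i) = j by omega]
    exact hd.trans_le (hε.trans (hEanti _ _ (by omega)))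
  obtain ⟨m, hm⟩ : ∃ m, m = Nat.find hex := ⟨_, rfl⟩
  have hspec := Nat.find_spec hex
  rw [← hm] at hspec
  have hmin : ∀ l, 1 ≤ l → l < m → ∀ i, i + l ≤ s → E l ≤ dist (F^[i] x) (F^[i + l] x) := by
    intro l hl hlm i hi
    by_contra hcon
    rw [hm] at hlm
    exact Nat.find_min hex hlm ⟨hl, i, hi, not_le.1 hcon⟩
  obtain ⟨hm1, i₀, hi₀, hd₀⟩ := hspec
  obtain ⟨s', ε', hs', hcov', hε', hEm⟩ := hstep m hm1 (by omega)
  have hmain : ∀ i, i + m ≤ s → dist (F^[i] x) (F^[i + m] x) < E m →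
      F^[m] (F^[i] x) = F^[i] x ∧ ∀ v ∈ K, dist v (F^[i] x) ≤ E m → v = F^[i] x := by
    intro i hi hd
    have hshift : ∀ l, F^[l] (F^[i] x) = F^[i + l] x := fun l => by
      rw [← Function.iterate_add_apply, add_comm]
    have hfar : ∀ l, 0 < l → l < m → E (m / 2) / 2 ≤ dist (F^[i] x) (F^[l] (F^[i] x)) := by
      intro l hl hlm
      rw [hshift]
      rcases (show l ≤ m / 2 ∨ m - l ≤ m / 2 by omega) with h1 | h1
      · have h2 := hmin l hl hlm i (by omega)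
        have h3 := hEanti l (m / 2) h1
        have := hEpos (m / 2)
        linarith
      · have h2 := hmin (m - l) (by omega) (by omega) (i + l) (by omega)
        rw [show i + l + (m - l) = i + m by omega] at h2
        have h3 := hEanti (m - l) (m / 2) h1
        have h4 := dist_triangle_left (F^[i + l] x) (F^[i + m] x) (F^[i] x)
        have h5 := hEhalf m hm1
        linarith
    have h6 := hkey _ (hiter i) s' m K ε' (E (m / 2) / 2) hm1 hs' hFK hFK' hcov' (hiter i)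
      (by have := hEpos (m / 2); positivity) (by have := hE1 (m / 2); linarith) hfar ?_ ?_
    · exact ⟨h6.1, fun v hv hvd => h6.2 v hv (hvd.trans hEm)⟩
    · rw [hshift, dist_comm]
      exact hd.le.trans hEm
    · exact hε'
  -- x itself is periodic
  obtain ⟨hper, -⟩ := hmain i₀ hi₀ hd₀
  have hperx : F^[m] x = x := by
    have h1 : F^[i₀] (F^[m] x) = F^[i₀] x := by
      rw [← Function.iterate_add_apply, add_comm, Function.iterate_add_apply]
      exact hper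
    exact (F.injective.iterate i₀) h1
  have h0 := hmain 0 (by omega) (by
    rw [zero_add]
    simp only [Function.iterate_zero, id]
    rw [hperx, dist_self]
    exact hEpos m)
  intro v hv hvd
  have h1 := h0.2 v hv
  simp only [Function.iterate_zero, id] at h1
  exact h1 (hvd.trans (hEanti m s (by omega)))

end

/-- a number `B` which is large enough -/
theorem exists_B {c ε₁ q₁ q : ℝ} {a : ℕ} (hc : 0 < c) (ha : 2 ≤ a)
    (hq₁ : Real.logb 2 a < q₁) (hq : q₁ < q) :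
    ∃ B : ℝ, 1 ≤ B ∧ Real.log (1 / ε₁) < B ∧ ∀ m : ℕ, 1 ≤ m → ∀ t : ℕ,
      (t : ℝ) ^ q ≤ B * (m : ℝ) ^ q₁ → ∀ s' : ℕ, (s' : ℝ) ≤ max (m : ℝ) (t : ℝ) →
      Real.exp (-(B * (m : ℝ) ^ q₁)) ≤
        c ^ (2 * s') * (c * (Real.exp (-(B * ((m / 2 : ℕ) : ℝ) ^ q₁)) / 2)) ^ a := by
  have haR : (2 : ℝ) ≤ a := by exact_mod_cast ha
  obtain ⟨l, hl⟩ : ∃ l : ℝ, l = |Real.log c| := ⟨_, rfl⟩
  have hl0 : 0 ≤ l := by rw [hl]; exact abs_nonneg _
  have hcl : -l ≤ Real.log c := by rw [hl]; exact neg_abs_le _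
  have hlog1 : 1 ≤ Real.logb 2 a := by
    rw [Real.le_logb_iff_rpow_le (by norm_num) (by positivity), Real.rpow_one]
    exact haR
  have hq₁1 : 1 < q₁ := lt_of_le_of_lt hlog1 hq₁
  have hq1 : 1 < q := hq₁1.trans hq
  have h2q : (a : ℝ) < 2 ^ q₁ := (Real.logb_lt_iff_lt_rpow (by norm_num) (by positivity)).1 hq₁
  have h2q0 : (0 : ℝ) < 2 ^ q₁ := by positivity
  obtain ⟨δ, hδ⟩ : ∃ δ : ℝ, δ = 1 - a / 2 ^ q₁ := ⟨_, rfl⟩
  have hδ0 : 0 < δ := by
    rw [hδ, sub_pos, div_lt_one h2q0]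
    exact h2q
  -- `B ^ (1 / q)` is small compared with `B`
  have hlim : Tendsto (fun B : ℝ => δ * B - (2 * l * B ^ (1 / q) + a * (l + Real.log 2)))
      atTop atTop := by
    have hq' : 1 / q < 1 := by
      rw [div_lt_one (by linarith)]
      exact hq1
    have h1 : Tendsto (fun B : ℝ => B ^ (1 / q) / B) atTop (𝓝 0) := by
      have h2 : Tendsto (fun B : ℝ => B ^ (-(1 - 1 / q))) atTop (𝓝 0) :=
        tendsto_rpow_neg_atTop (by linarith)
      refine h2.congr' ?_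
      filter_upwards [eventually_gt_atTop 0] with B hB
      rw [show -(1 - 1 / q) = 1 / q - 1 by ring, Real.rpow_sub hB, Real.rpow_one]
    have h3 : Tendsto (fun B : ℝ => δ - 2 * l * (B ^ (1 / q) / B)) atTop (𝓝 (δ - 2 * l * 0)) :=
      (tendsto_const_nhds (x := δ)).sub (h1.const_mul (2 * l))
    rw [mul_zero, sub_zero] at h3
    have h4 : Tendsto (fun B : ℝ => B * (δ - 2 * l * (B ^ (1 / q) / B)) - a * (l + Real.log 2))
        atTop atTop := by
      apply tendsto_atTop_add_const_right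
      exact Tendsto.atTop_mul_pos hδ0 tendsto_id h3
    refine h4.congr' ?_
    filter_upwards [eventually_gt_atTop 0] with B hB
    field_simp
    ring
  obtain ⟨B, hB1, hB2, hB3⟩ := ((eventually_ge_atTop 1).and ((eventually_gt_atTop
    (Real.log (1 / ε₁))).and (hlim.eventually_ge_atTop 0))).exists
  refine ⟨B, hB1, hB2, ?_⟩
  intro m hm t ht s' hs'
  have hB0 : 0 < B := by linarith
  have hmR : (1 : ℝ) ≤ m := by exact_mod_cast hm
  have hmq : (m : ℝ) ≤ (m : ℝ) ^ q₁ := by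
    calc (m : ℝ) = (m : ℝ) ^ (1 : ℝ) := (Real.rpow_one _).symm
      _ ≤ (m : ℝ) ^ q₁ := Real.rpow_le_rpow_of_exponent_le hmR hq₁1.le
  have hBq : 1 ≤ B ^ (1 / q) := Real.one_le_rpow hB1 (by positivity)
  have htB : (t : ℝ) ≤ B ^ (1 / q) * m := by
    have h1 : ((t : ℝ) ^ q) ^ (1 / q) ≤ (B * (m : ℝ) ^ q₁) ^ (1 / q) :=
      Real.rpow_le_rpow (by positivity) ht (by positivity)
    rw [← Real.rpow_mul (by positivity), mul_one_div_cancel (by linarith), Real.rpow_one] at h1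
    refine h1.trans ?_
    rw [Real.mul_rpow hB0.le (by positivity), ← Real.rpow_mul (by positivity)]
    refine mul_le_mul_of_nonneg_left ?_ (by positivity)
    calc (m : ℝ) ^ (q₁ * (1 / q)) ≤ (m : ℝ) ^ (1 : ℝ) := by
          apply Real.rpow_le_rpow_of_exponent_le hmR
          rw [mul_one_div, div_le_one (by linarith)]
          exact hq.le
      _ = m := Real.rpow_one _
  have hsB : (s' : ℝ) ≤ B ^ (1 / q) * m := by
    refine hs'.trans (max_le ?_ htB)
    nlinarith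
  have hhalf : ((m / 2 : ℕ) : ℝ) ^ q₁ ≤ (m : ℝ) ^ q₁ / 2 ^ q₁ := by
    have h2 : ((m / 2 : ℕ) : ℝ) ≤ m / 2 := Nat.cast_div_le
    calc ((m / 2 : ℕ) : ℝ) ^ q₁ ≤ ((m : ℝ) / 2) ^ q₁ :=
          Real.rpow_le_rpow (by positivity) h2 (by linarith)
      _ = (m : ℝ) ^ q₁ / 2 ^ q₁ := Real.div_rpow (by positivity) (by norm_num) q₁
  -- logarithms
  have hrhs : c ^ (2 * s') * (c * (Real.exp (-(B * ((m / 2 : ℕ) : ℝ) ^ q₁)) / 2)) ^ a =
      Real.exp (2 * s' * Real.log c + a * (Real.log c - B * ((m / 2 : ℕ) : ℝ) ^ q₁ - Real.log 2)) := by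
    have e1 : c ^ (2 * s') = Real.exp (((2 * s' : ℕ) : ℝ) * Real.log c) := by
      rw [Real.exp_nat_mul, Real.exp_log hc]
    have e2 : c * (Real.exp (-(B * ((m / 2 : ℕ) : ℝ) ^ q₁)) / 2) =
        Real.exp (Real.log c - B * ((m / 2 : ℕ) : ℝ) ^ q₁ - Real.log 2) := by
      rw [Real.exp_sub, Real.exp_sub, Real.exp_log hc, Real.exp_log (by norm_num), Real.exp_neg]
      field_simp
    rw [e1, e2, ← Real.exp_nat_mul, ← Real.exp_add]
    push_cast
    rfl
  rw [hrhs]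
  apply Real.exp_le_exp.2
  have hlog2 : 0 ≤ Real.log 2 := Real.log_nonneg (by norm_num)
  have k1 : 2 * (s' : ℝ) * Real.log c ≥ -(2 * l * (B ^ (1 / q) * m)) := by
    have : (s' : ℝ) * (-l) ≤ s' * Real.log c := mul_le_mul_of_nonneg_left hcl (by positivity)
    have : (s' : ℝ) * l ≤ B ^ (1 / q) * m * l := mul_le_mul_of_nonneg_right hsB hl0
    nlinarith
  have k2 : (a : ℝ) * (B * ((m / 2 : ℕ) : ℝ) ^ q₁) ≤ (1 - δ) * (B * (m : ℝ) ^ q₁) := by
    have : (a : ℝ) * (B * ((m / 2 : ℕ) : ℝ) ^ q₁) ≤ a * (B * ((m : ℝ) ^ q₁ / 2 ^ q₁)) := by gcongr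
    refine this.trans (le_of_eq ?_)
    rw [hδ]
    field_simp
    ring
  have k3 : (a : ℝ) * (-l) ≤ a * Real.log c := mul_le_mul_of_nonneg_left hcl (by positivity)
  have k4 : (a : ℝ) * (l + Real.log 2) ≤ a * (l + Real.log 2) * (m : ℝ) ^ q₁ := by
    have h1 : 0 ≤ (a : ℝ) * (l + Real.log 2) := by positivity
    nlinarith
  have k5 : 2 * l * (B ^ (1 / q) * m) ≤ 2 * l * B ^ (1 / q) * (m : ℝ) ^ q₁ := by
    have h1 : 0 ≤ 2 * l * B ^ (1 / q) := by positivity
    nlinarith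
  have k6 : 0 ≤ (δ * B - (2 * l * B ^ (1 / q) + a * (l + Real.log 2))) * (m : ℝ) ^ q₁ :=
    mul_nonneg hB3 (by positivity)
  nlinarith

section

variable {n : ℕ} {N : Type u} [MetricSpace N] [ChartedSpace (V n) N] {r : ℕ∞}

/-- invariant sets which are covered by `s(ε) ≤ (log (1 / ε))^(1 / q)` balls of radius `ε` for all
small `ε` are finite, if `q > log₂ a` -/
theorem finite_of_log {F : DiffM n N r} {a : ℕ} (ha : 2 ≤ a) {c : ℝ}
    (hc : 0 < c) (hc1 : c ≤ 1) {K : Set N} (hkey : ∀ y ∈ K, KeyAt2 F a c y)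
    (hK : F '' K = K) {q : ℝ} (hq : Real.logb 2 a < q)
    (hthin : ∀ᶠ ε in 𝓝[>] (0 : ℝ), ∃ s : ℕ, (s : ℝ) ^ q ≤ Real.log (1 / ε) ∧ CovBy K s ε) :
    K.Finite := by
  rcases K.eq_empty_or_nonempty with hKe | ⟨x₀, hx₀⟩
  · rw [hKe]
    exact finite_empty
  have hFK : MapsTo F K K := by
    intro x hx
    rw [← hK]
    exact mem_image_of_mem F hx
  have hFK' : MapsTo F.symm K K := by
    intro x hx
    rw [← hK] at hx
    obtain ⟨y, hy, rfl⟩ := hx
    rw [F.symm_apply_apply]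
    exact hy
  obtain ⟨q₁, hq₁, hq₁q⟩ := exists_between hq
  have haR : (2 : ℝ) ≤ a := by exact_mod_cast ha
  have hlog1 : 1 ≤ Real.logb 2 a := by
    rw [Real.le_logb_iff_rpow_le (by norm_num) (by positivity), Real.rpow_one]
    exact haR
  have hq₁0 : 0 < q₁ := by linarith
  have hq0 : 0 < q := by linarith
  -- the range of the scales
  obtain ⟨ε₁, hε₁, hthin1⟩ : ∃ ε₁ : ℝ, 0 < ε₁ ∧ ∀ ε, 0 < ε → ε < ε₁ →
      ∃ s : ℕ, (s : ℝ) ^ q ≤ Real.log (1 / ε) ∧ CovBy K s ε := by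
    rw [eventually_nhdsWithin_iff, Metric.eventually_nhds_iff] at hthin
    obtain ⟨ε₁, h1, h2⟩ := hthin
    refine ⟨ε₁, h1, fun ε h3 h4 => h2 ?_ h3⟩
    rw [Real.dist_eq, sub_zero, abs_of_pos h3]
    exact h4
  obtain ⟨B, hB1, hB2, hBm⟩ := exists_B (ε₁ := ε₁) hc ha hq₁ hq₁q
  have hB0 : 0 < B := by linarith
  obtain ⟨E, hE⟩ : ∃ E : ℕ → ℝ, E = fun m : ℕ => Real.exp (-(B * (m : ℝ) ^ q₁)) := ⟨_, rfl⟩
  have hEpos : ∀ m, 0 < E m := fun m => by rw [hE]; positivity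
  have hE1 : ∀ m, E m ≤ 1 := fun m => by
    rw [hE]
    simp only
    rw [Real.exp_le_one_iff]
    have : 0 ≤ B * (m : ℝ) ^ q₁ := by positivity
    linarith
  have hEanti : ∀ i j, i ≤ j → E j ≤ E i := fun i j hij => by
    rw [hE]
    apply Real.exp_le_exp.2
    apply neg_le_neg
    exact mul_le_mul_of_nonneg_left (Real.rpow_le_rpow (by positivity) (by exact_mod_cast hij)
      hq₁0.le) hB0.le
  have hElt : ∀ m, 1 ≤ m → E m < ε₁ := by
    intro m hm
    have hmR : (1 : ℝ) ≤ m := by exact_mod_cast hm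
    have h1 : 1 ≤ (m : ℝ) ^ q₁ := Real.one_le_rpow hmR hq₁0.le
    rw [hE]
    simp only
    rw [← Real.lt_log_iff_exp_lt hε₁]
    rw [one_div, Real.log_inv] at hB2
    nlinarith
  -- a small scale
  have hlim : Tendsto (fun X : ℝ => X - (B * X ^ (q₁ / q) + Real.log 2)) atTop atTop := by
    have hq' : q₁ / q < 1 := by
      rw [div_lt_one hq0]
      exact hq₁q
    have h1 : Tendsto (fun X : ℝ => X ^ (q₁ / q) / X) atTop (𝓝 0) := by
      have h2 : Tendsto (fun X : ℝ => X ^ (-(1 - q₁ / q))) atTop (𝓝 0) :=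
        tendsto_rpow_neg_atTop (by linarith)
      refine h2.congr' ?_
      filter_upwards [eventually_gt_atTop 0] with X hX
      rw [show -(1 - q₁ / q) = q₁ / q - 1 by ring, Real.rpow_sub hX, Real.rpow_one]
    have h3 : Tendsto (fun X : ℝ => 1 - B * (X ^ (q₁ / q) / X)) atTop (𝓝 (1 - B * 0)) :=
      (tendsto_const_nhds (x := (1 : ℝ))).sub (h1.const_mul B)
    rw [mul_zero, sub_zero] at h3
    have h4 : Tendsto (fun X : ℝ => X * (1 - B * (X ^ (q₁ / q) / X)) - Real.log 2) atTop atTop := by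
      apply tendsto_atTop_add_const_right
      exact Tendsto.atTop_mul_pos one_pos tendsto_id h3
    refine h4.congr' ?_
    filter_upwards [eventually_gt_atTop 0] with X hX
    field_simp
    ring
  obtain ⟨X, hX1, hX2, hX3⟩ := ((eventually_gt_atTop 0).and ((eventually_gt_atTop
    (Real.log (1 / ε₁))).and (hlim.eventually_ge_atTop 0))).exists
  obtain ⟨ε, hε⟩ : ∃ ε, ε = Real.exp (-X) := ⟨_, rfl⟩
  have hε0 : 0 < ε := by rw [hε]; positivity
  have hεlog : Real.log (1 / ε) = X := by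
    rw [hε, one_div, Real.log_inv, Real.log_exp, neg_neg]
  have hεlt : ε < ε₁ := by
    rw [hε, ← Real.lt_log_iff_exp_lt hε₁]
    rw [one_div, Real.log_inv] at hX2
    linarith
  obtain ⟨s, hs, hcov⟩ := hthin1 ε hε0 hεlt
  rw [hεlog] at hs
  have h2ε : 2 * ε ≤ E s := by
    have e1 : 2 * ε = Real.exp (Real.log 2 - X) := by
      rw [Real.exp_sub, Real.exp_log (by norm_num), hε, Real.exp_neg]
      field_simp
    rw [e1, hE]
    apply Real.exp_le_exp.2
    have h1 : (s : ℝ) ^ q₁ ≤ X ^ (q₁ / q) := by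
      calc (s : ℝ) ^ q₁ = ((s : ℝ) ^ q) ^ (q₁ / q) := by
            rw [← Real.rpow_mul (by positivity)]
            congr 1
            field_simp
        _ ≤ X ^ (q₁ / q) := Real.rpow_le_rpow (by positivity) hs (by positivity)
    nlinarith
  have hstep : ∀ m, 1 ≤ m → ∃ (s' : ℕ) (ε' : ℝ), m ≤ s' ∧ CovBy K s' ε' ∧
      ε' ≤ c ^ (2 * s') * (c * (E (m / 2) / 2)) ^ a ∧
      E m ≤ c ^ (2 * s') * (c * (E (m / 2) / 2)) ^ a := by
    intro m hm
    obtain ⟨t, ht, hcovt⟩ := hthin1 (E m) (hEpos m) (hElt m hm)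
    have e1 : Real.log (1 / E m) = B * (m : ℝ) ^ q₁ := by
      rw [hE]
      simp only
      rw [one_div, Real.log_inv, Real.log_exp, neg_neg]
    rw [e1] at ht
    have h1 := hBm m hm t ht (max m t) (by push_cast; exact le_rfl)
    have h2 : CovBy K (max m t) (E m) := CovBy.mono_card x₀ hcovt (le_max_right _ _)
    refine ⟨max m t, E m, le_max_left _ _, h2, ?_, ?_⟩
    · rw [hE]; exact h1
    · rw [hE]; exact h1
  have hEhalf : ∀ m, 1 ≤ m → E m ≤ E (m / 2) / 2 := by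
    intro m hm
    obtain ⟨s', ε', -, -, -, h1⟩ := hstep m hm
    refine h1.trans ?_
    have h2 : 0 < E (m / 2) / 2 := by have := hEpos (m / 2); positivity
    have h3 : E (m / 2) / 2 ≤ 1 := by have := hE1 (m / 2); linarith
    have h4 : c * (E (m / 2) / 2) ≤ E (m / 2) / 2 := by nlinarith
    calc c ^ (2 * s') * (c * (E (m / 2) / 2)) ^ a ≤ 1 * (c * (E (m / 2) / 2)) ^ 1 := by
          refine mul_le_mul (pow_le_one₀ hc.le hc1) ?_ (by positivity) (by norm_num)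
          exact pow_le_pow_of_le_one (by positivity) (h4.trans h3) (by omega)
      _ ≤ _ := by rw [one_mul, pow_one]; exact h4
  have hfin : K.encard ≤ s := by
    refine encard_le_of_cov hcov fun x hx v hv hd => ?_
    exact select3 hkey hFK hFK' hcov hEpos hE1 hEanti hEhalf (fun m hm _ => hstep m hm) h2ε x hx v
      hv (hd.le.trans h2ε)
  exact Set.finite_of_encard_le_coe hfin

end

section

variable {n : ℕ} {N : Type u} [MetricSpace N] [CompactSpace N] [ChartedSpace (V n) N]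
  [IsManifold (𝓡 n) ∞ N] {r : ℕ∞}

/-- covering numbers of the invariant sets -/
theorem main3 (hr : 2 ≤ r) (hN : ChartLip n N) (F : DiffM n N r) (hF : OmegaStable n N r F) :
    ∃ (k : ℕ) (C : ℝ), 2 ≤ k ∧ (k : ℕ∞) ≤ r ∧ 0 < C ∧ ∀ K : Set N, F '' K = K →
      (∀ (s : ℕ) (ε : ℝ), CovBy K s ε →
        ε < Real.exp (-(C * (s : ℝ) ^ Real.logb 2 (3 * k - 2))) → K.encard ≤ s) ∧
      (∀ q : ℝ, Real.logb 2 (3 * k / 2 - 1) < q → (∀ᶠ ε in 𝓝[>] (0 : ℝ), ∃ s : ℕ,
        (s : ℝ) ^ q ≤ Real.log (1 / ε) ∧ CovBy K s ε) → K.Finite) := by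
  obtain ⟨k, c, hk, hkr, hc, hc2, hkey⟩ := key_global2 hr hN F hF
  obtain ⟨C, hC, h⟩ := main2 hk hc hc2 hkey
  refine ⟨k, C, hk, hkr, hC, fun K hK => ⟨h K hK, fun q hq hthin => ?_⟩⟩
  have ha2 : 2 ≤ Ak k := hk.trans (Ak_ge hk)
  refine finite_of_log ha2 hc (by linarith) (fun y _ => hkey y) hK (lt_of_le_of_lt ?_ hq) hthin
  have haR : (2 : ℝ) ≤ (Ak k : ℕ) := by exact_mod_cast ha2
  apply Real.logb_le_logb_of_le (by norm_num) (by linarith)
  have h4 : 2 * Ak k + 2 ≤ 3 * k := by have := Ak_le k; omega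
  have : (2 * (Ak k : ℕ) + 2 : ℝ) ≤ 3 * k := by exact_mod_cast h4
  linarith

end

end Pool.Agent.U882.RS
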