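import Pool.Agent.U882.RS.Clo3

/-!
# Separation of the periodic points, periodic shadowing
-/

set_option autoImplicit false

open scoped Manifold ContDiff Topology
open Filter Set Metric

universe u

namespace Pool.Agent.U882.RS

open Pool.Agent.H718R2.G Pool.Agent.W564.SC Pool.Agent.W509.SC Pool.Agent.Y368.CL
  Pool.Agent.N813.OF Pool.Agent.N813.EM Pool.Agent.TH80.OMS Pool.Agent.N813.OE

/-- the points with `F^m x = x` are `exp (- 2 C m)`-separated -/
theorem sep {N : Type u} [MetricSpace N] {F : N → N} (hF : Function.Injective F) {C : ℝ}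
    (hC : 0 < C) (h : ∀ K : Set N, F '' K = K → ∀ (s : ℕ) (ε : ℝ), CovBy K s ε →
      ε < Real.exp (-(C * s)) → K.encard ≤ s) {m : ℕ} {x y : N} (hx : F^[m] x = x)
    (hy : F^[m] y = y) (hxy : x ≠ y) (hm : 1 ≤ m) : Real.exp (-(2 * C * m)) ≤ dist x y := by
  classical
  by_contra hcon
  rw [not_le] at hcon
  obtain ⟨S, hS⟩ : ∃ S : Finset N, S = (Finset.range m).image (fun i => F^[i] x) ∪
    (Finset.range m).image (fun i => F^[i] y) := ⟨_, rfl⟩
  have hxS : x ∈ S := by
    rw [hS, Finset.mem_union]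
    exact Or.inl (Finset.mem_image.2 ⟨0, Finset.mem_range.2 hm, rfl⟩)
  have hyS : y ∈ S := by
    rw [hS, Finset.mem_union]
    exact Or.inr (Finset.mem_image.2 ⟨0, Finset.mem_range.2 hm, rfl⟩)
  have hcard : S.card ≤ 2 * m := by
    rw [hS]
    refine (Finset.card_union_le _ _).trans ?_
    have h1 := Finset.card_image_le (s := Finset.range m) (f := fun i => F^[i] x)
    have h2 := Finset.card_image_le (s := Finset.range m) (f := fun i => F^[i] y)
    rw [Finset.card_range] at h1 h2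
    omega
  have hstep : ∀ w : N, F^[m] w = w → ∀ i < m, ∃ j < m, F^[j] w = F (F^[i] w) := by
    intro w hw i hi
    rw [← Function.iterate_succ_apply' F i w]
    rcases Nat.lt_or_ge (i + 1) m with h1 | h1
    · exact ⟨i + 1, h1, rfl⟩
    · refine ⟨0, hm, ?_⟩
      rw [show i.succ = m by omega, hw]
      rfl
  have hmaps : S.image F ⊆ S := by
    intro w hw
    obtain ⟨w', hw', rfl⟩ := Finset.mem_image.1 hw
    rw [hS, Finset.mem_union] at hw' ⊢
    rcases hw' with h1 | h1
    · obtain ⟨i, hi, rfl⟩ := Finset.mem_image.1 h1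
      obtain ⟨j, hj, e⟩ := hstep x hx i (Finset.mem_range.1 hi)
      exact Or.inl (Finset.mem_image.2 ⟨j, Finset.mem_range.2 hj, e⟩)
    · obtain ⟨i, hi, rfl⟩ := Finset.mem_image.1 h1
      obtain ⟨j, hj, e⟩ := hstep y hy i (Finset.mem_range.1 hi)
      exact Or.inr (Finset.mem_image.2 ⟨j, Finset.mem_range.2 hj, e⟩)
  have himg : S.image F = S :=
    Finset.eq_of_subset_of_card_le hmaps (by rw [Finset.card_image_of_injective _ hF])
  have hinv : F '' (S : Set N) = S := by
    rw [← Finset.coe_image, himg]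
  obtain ⟨T, hT⟩ : ∃ T, T = S.erase x := ⟨_, rfl⟩
  have hTc : T.card = S.card - 1 := by rw [hT, Finset.card_erase_of_mem hxS]
  have hS1 : 1 ≤ S.card := Finset.card_pos.2 ⟨x, hxS⟩
  have hyT : y ∈ T := by rw [hT]; exact Finset.mem_erase.2 ⟨hxy.symm, hyS⟩
  obtain ⟨ε, hε⟩ : ∃ ε, ε = (dist x y + Real.exp (-(2 * C * m))) / 2 := ⟨_, rfl⟩
  have hε1 : dist x y < ε := by rw [hε]; linarith
  have hε2 : ε < Real.exp (-(2 * C * m)) := by rw [hε]; linarith
  have hε0 : 0 < ε := lt_of_le_of_lt dist_nonneg hε1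
  have hcov : CovBy (S : Set N) T.card ε := by
    refine ⟨fun i => (T.equivFin.symm i : N), fun w hw => ?_⟩
    by_cases hwx : w = x
    · refine ⟨T.equivFin ⟨y, hyT⟩, ?_⟩
      beta_reduce
      rw [Equiv.symm_apply_apply, hwx]
      exact hε1
    · have hwT : w ∈ T := by rw [hT]; exact Finset.mem_erase.2 ⟨hwx, hw⟩
      refine ⟨T.equivFin ⟨w, hwT⟩, ?_⟩
      beta_reduce
      rw [Equiv.symm_apply_apply, dist_self]
      exact hε0
  have h1 := h S hinv T.card ε hcov (hε2.trans_le (by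
    apply Real.exp_le_exp.2
    have h2 : (T.card : ℝ) ≤ 2 * m := by
      have : T.card ≤ 2 * m := by omega
      exact_mod_cast this
    have h3 : C * T.card ≤ C * (2 * m) := mul_le_mul_of_nonneg_left h2 hC.le
    linarith))
  rw [Set.encard_coe_eq_coe_finsetCard] at h1
  have h2 : S.card ≤ T.card := by exact_mod_cast h1
  omega

/-- a pseudo-orbit is close to an orbit, for a finite time -/
theorem pseudo {N : Type u} [MetricSpace N] {F : N → N} {Λ : ℝ} (hΛ : 1 ≤ Λ) (h : BiL F Λ)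
    {m : ℕ} {δ : ℝ} (hδ : 0 ≤ δ) {x : ℕ → N} (hx : ∀ i < m, dist (F (x i)) (x (i + 1)) ≤ δ) :
    ∀ i ≤ m, dist (F^[i] (x 0)) (x i) ≤ (Λ + 1) ^ i * δ := by
  intro i
  induction i with
  | zero =>
    intro _
    simp only [Function.iterate_zero, id, pow_zero, one_mul, dist_self]
    exact hδ
  | succ i ih =>
    intro hi
    have h1 := ih (by omega)
    have h2 := hx i (by omega)
    have h3 := (h (F^[i] (x 0)) (x i)).1
    rw [Function.iterate_succ_apply']
    have h4 := dist_triangle (F (F^[i] (x 0))) (F (x i)) (x (i + 1))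
    have h5 : Λ * dist (F^[i] (x 0)) (x i) ≤ Λ * ((Λ + 1) ^ i * δ) :=
      mul_le_mul_of_nonneg_left h1 (by linarith)
    have h6 : δ ≤ (Λ + 1) ^ i * δ := by
      have : 1 ≤ (Λ + 1) ^ i := one_le_pow₀ (by linarith)
      nlinarith
    rw [pow_succ]
    nlinarith

section

variable {n : ℕ} {N : Type u} [MetricSpace N] [CompactSpace N] [ChartedSpace (V n) N]
  [IsManifold (𝓡 n) ∞ N] {r : ℕ∞}

/-- periodic shadowing -/
theorem shadowing (hr : 2 ≤ r) (hN : ChartLip n N) (F : DiffM n N r) (hF : OmegaStable n N r F) :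
    ∃ a b : ℝ, 0 < a ∧ 0 < b ∧ ∀ (m : ℕ) (δ : ℝ) (x : ℕ → N), 1 ≤ m → δ ≤ Real.exp (-(a * m)) →
      x m = x 0 → (∀ i < m, dist (F (x i)) (x (i + 1)) ≤ δ) →
      ∃! p, F^[m] p = p ∧ ∀ i ≤ m, dist (F^[i] p) (x i) ≤ Real.exp (b * m) * δ := by
  obtain ⟨C, hC, hcl⟩ := closing hr hN F hF
  obtain ⟨C₂, hC₂, h4⟩ := main4 hr hN F hF
  obtain ⟨Λ, hΛ, hbil⟩ := exists_biL (le_trans (by norm_num) hr) hN F
  obtain ⟨l, hl⟩ : ∃ l, l = Real.log (Λ + 1) := ⟨_, rfl⟩
  have hl0 : 0 < l := by rw [hl]; exact Real.log_pos (by linarith)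
  have hΛl : Λ + 1 = Real.exp l := by rw [hl, Real.exp_log (by linarith)]
  obtain ⟨b, hb⟩ : ∃ b, b = C + 2 * l + Real.log 2 := ⟨_, rfl⟩
  have hlog2 : 0 < Real.log 2 := Real.log_pos (by norm_num)
  have hb0 : 0 < b := by rw [hb]; positivity
  refine ⟨b + 2 * C₂ + Real.log 2 + 1 + C, b, by positivity, hb0, ?_⟩
  intro m δ x hm hδ hx0 hx
  have hmR : (1 : ℝ) ≤ m := by exact_mod_cast hm
  have hδ0 : 0 ≤ δ := dist_nonneg.trans (hx 0 (by omega))
  have hps := pseudo hΛ hbil hδ0 hx
  have hpow : ∀ i ≤ m, (Λ + 1) ^ i ≤ Real.exp (l * m) := by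
    intro i hi
    calc (Λ + 1) ^ i ≤ (Λ + 1) ^ m := pow_le_pow_right₀ (by linarith) hi
      _ = Real.exp (l * m) := by rw [hΛl, ← Real.exp_nat_mul, mul_comm]
  have hret : dist (F^[m] (x 0)) (x 0) ≤ Real.exp (l * m) * δ := by
    have h1 := hps m le_rfl
    rw [hx0] at h1
    exact h1.trans (mul_le_mul_of_nonneg_right (hpow m le_rfl) hδ0)
  have hret2 : dist (F^[m] (x 0)) (x 0) ≤ Real.exp (-(C * m)) := by
    refine hret.trans ?_
    calc Real.exp (l * m) * δ ≤
          Real.exp (l * m) * Real.exp (-((b + 2 * C₂ + Real.log 2 + 1 + C) * m)) :=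
          mul_le_mul_of_nonneg_left hδ (Real.exp_pos _).le
      _ = Real.exp (l * m + -((b + 2 * C₂ + Real.log 2 + 1 + C) * m)) := by rw [Real.exp_add]
      _ ≤ _ := by
          apply Real.exp_le_exp.2
          have h1 : l * m ≤ b * m := by
            apply mul_le_mul_of_nonneg_right _ (by positivity)
            rw [hb]; linarith
          have h2 : 0 ≤ C₂ * m := by positivity
          have h3 : 0 ≤ Real.log 2 * m := by positivity
          linarith
  obtain ⟨p, hp, hpx⟩ := hcl (x 0) m hm hret2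
  have hE1 : 1 ≤ Real.exp (l * m) := Real.one_le_exp (by positivity)
  have hbm : Real.exp (b * m) = Real.exp (C * m) * Real.exp (l * m) * Real.exp (l * m) *
      Real.exp (Real.log 2 * m) := by
    rw [← Real.exp_add, ← Real.exp_add, ← Real.exp_add, hb]
    congr 1
    ring
  have h2m : 2 ≤ Real.exp (Real.log 2 * m) := by
    calc (2 : ℝ) = Real.exp (Real.log 2 * 1) := by rw [mul_one, Real.exp_log (by norm_num)]
      _ ≤ _ := Real.exp_le_exp.2 (mul_le_mul_of_nonneg_left hmR hlog2.le)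
  refine ⟨p, ⟨hp, fun i hi => ?_⟩, ?_⟩
  · have h1 := (hbil.iter hΛ hi p (x 0)).1
    have h2 := hps i hi
    have h3 := dist_triangle (F^[i] p) (F^[i] (x 0)) (x i)
    have h5 : Λ ^ m ≤ Real.exp (l * m) :=
      (pow_le_pow_left₀ (by linarith) (by linarith) m).trans (hpow m le_rfl)
    have h6 : Λ ^ m * dist p (x 0) ≤
        Real.exp (l * m) * (Real.exp (C * m) * (Real.exp (l * m) * δ)) := by
      refine mul_le_mul h5 (hpx.trans ?_) dist_nonneg (Real.exp_pos _).le
      exact mul_le_mul_of_nonneg_left hret (Real.exp_pos _).le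
    have h7 : (Λ + 1) ^ i * δ ≤ Real.exp (l * m) * δ :=
      mul_le_mul_of_nonneg_right (hpow i hi) hδ0
    obtain ⟨Y, hY⟩ : ∃ Y, Y = Real.exp (l * m) * δ := ⟨_, rfl⟩
    obtain ⟨Z, hZ⟩ : ∃ Z, Z = Real.exp (C * m) * Real.exp (l * m) * Y := ⟨_, rfl⟩
    have hY0 : 0 ≤ Y := by rw [hY]; positivity
    have hCE : 1 ≤ Real.exp (C * m) := Real.one_le_exp (by positivity)
    have hYZ : Y ≤ Z := by
      rw [hZ]
      have : 1 ≤ Real.exp (C * m) * Real.exp (l * m) := one_le_mul_of_one_le_of_one_le hCE hE1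
      nlinarith
    have h8 : Real.exp (l * m) * (Real.exp (C * m) * (Real.exp (l * m) * δ)) = Z := by
      rw [hZ, hY]; ring
    have h9 : Real.exp (b * m) * δ = Real.exp (Real.log 2 * m) * Z := by
      rw [hbm, hZ, hY]; ring
    rw [h9]
    have hZ0 : 0 ≤ Z := hY0.trans hYZ
    have h10 : 2 * Z ≤ Real.exp (Real.log 2 * m) * Z := mul_le_mul_of_nonneg_right h2m hZ0
    rw [h8] at h6
    rw [← hY] at h7
    linarith
  · rintro p' ⟨hp', hp'x⟩
    by_contra hne
    have h1 := sep F.injective hC₂ h4 hp' hp hne hm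
    have h2 := hp'x 0 (Nat.zero_le _)
    simp only [Function.iterate_zero, id] at h2
    have h3 : dist p (x 0) ≤ Real.exp (b * m) * δ := by
      refine (hpx.trans (mul_le_mul_of_nonneg_left hret (Real.exp_pos _).le)).trans ?_
      rw [← mul_assoc]
      refine mul_le_mul_of_nonneg_right ?_ hδ0
      rw [← Real.exp_add]
      apply Real.exp_le_exp.2
      have : 0 ≤ l * m := by positivity
      have : 0 ≤ Real.log 2 * m := by positivity
      rw [hb]
      nlinarith
    have h5 := dist_triangle_right p' p (x 0)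
    have h6 : 2 * (Real.exp (b * m) * δ) < Real.exp (-(2 * C₂ * m)) := by
      calc 2 * (Real.exp (b * m) * δ) ≤ Real.exp (Real.log 2) * (Real.exp (b * m) *
            Real.exp (-((b + 2 * C₂ + Real.log 2 + 1 + C) * m))) := by
            rw [Real.exp_log (by norm_num)]
            gcongr
        _ = Real.exp (Real.log 2 + (b * m + -((b + 2 * C₂ + Real.log 2 + 1 + C) * m))) := by
            rw [Real.exp_add, Real.exp_add]
        _ < _ := by
            apply Real.exp_lt_exp.2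
            have h7 : Real.log 2 ≤ Real.log 2 * m := by nlinarith
            have h8 : 0 ≤ C * m := by positivity
            linarith
    linarith

end

end Pool.Agent.U882.RS
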