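import Pool.Agent.U882.RS.Per1
import Pool.Agent.N813.OF.Main

/-!
# Eigenvalues at the periodic points
-/

set_option autoImplicit false

open scoped Manifold ContDiff Topology
open Filter Set Metric

universe u

namespace Pool.Agent.U882.RS

open Pool.Agent.H718R2.G Pool.Agent.W564.SC Pool.Agent.W509.SC Pool.Agent.Y368.CL
  Pool.Agent.N813.OF Pool.Agent.N813.EM Pool.Agent.TH80.OMS Pool.Agent.N813.OE

section

variable {n : ℕ} {N : Type u} [MetricSpace N] [CompactSpace N] [ChartedSpace (V n) N]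
  [IsManifold (𝓡 n) ∞ N] {r : ℕ∞}

theorem margins (hr : 2 ≤ r) (hN : ChartLip n N) (F : DiffM n N r) (hF : OmegaStable n N r F) :
    ∃ C : ℝ, 0 < C ∧
      (∀ (m : ℕ) (x y : N), 1 ≤ m → F^[m] x = x → F^[m] y = y → x ≠ y →
        Real.exp (-(C * m)) ≤ dist x y) ∧
      ∀ (m : ℕ) (p : N), 1 ≤ m → Function.minimalPeriod F p = m →
        ∀ ψ ∈ IsManifold.maximalAtlas (𝓡 n) ∞ N, p ∈ ψ.source → ∀ D : V n →L[ℝ] V n,
          DerAt F ψ m p D → ∀ μ : ℂ, Eig D μ → Real.exp (-(C * m)) ≤ |Real.log ‖μ‖| := by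
  obtain ⟨C₂, hC₂, h4⟩ := main4 hr hN F hF
  obtain ⟨k, hk, -, κ, hκ, hgap⟩ := gap (le_trans (by norm_num) hr) hN F hF
  obtain ⟨κ₀, hκ₀⟩ : ∃ κ₀, κ₀ = min (κ / 2) 1 := ⟨_, rfl⟩
  have hκ₀0 : 0 < κ₀ := by rw [hκ₀]; positivity
  have hκ₀1 : κ₀ ≤ 1 := by rw [hκ₀]; exact min_le_right _ _
  have hκ₀κ : κ₀ ≤ κ / 2 := by rw [hκ₀]; exact min_le_left _ _
  obtain ⟨K, hK⟩ : ∃ K, K = κ * κ₀ ^ (k - 1) := ⟨_, rfl⟩
  have hK0 : 0 < K := by rw [hK]; positivity
  obtain ⟨C, hC⟩ : ∃ C, C = 2 * C₂ * k + |Real.log K| + 2 * C₂ := ⟨_, rfl⟩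
  have hC0 : 0 < C := by
    rw [hC]
    have := abs_nonneg (Real.log K)
    positivity
  have h2C : 2 * C₂ ≤ C := by
    rw [hC]
    have := abs_nonneg (Real.log K)
    have : 0 ≤ 2 * C₂ * k := by positivity
    linarith
  have hsep : ∀ (m : ℕ) (x y : N), 1 ≤ m → F^[m] x = x → F^[m] y = y → x ≠ y →
      Real.exp (-(2 * C₂ * m)) ≤ dist x y := fun m x y hm hx hy hxy =>
    sep F.injective hC₂ h4 hx hy hxy hm
  refine ⟨C, hC0, fun m x y hm hx hy hxy => ?_, ?_⟩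
  · refine le_trans ?_ (hsep m x y hm hx hy hxy)
    apply Real.exp_le_exp.2
    have : 2 * C₂ * m ≤ C * m := mul_le_mul_of_nonneg_right h2C (by positivity)
    linarith
  intro m p hm hper ψ hψ hpψ D hD μ hμ
  have hmR : (1 : ℝ) ≤ m := by exact_mod_cast hm
  have hp : F^[m] p = p := by
    rw [← hper]
    exact Function.iterate_minimalPeriod
  obtain ⟨ρ, hρ⟩ : ∃ ρ, ρ = κ₀ * Real.exp (-(2 * C₂ * m)) := ⟨_, rfl⟩
  have hρ0 : 0 < ρ := by rw [hρ]; positivity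
  have hexp1 : Real.exp (-(2 * C₂ * m)) ≤ 1 := by
    rw [Real.exp_le_one_iff]
    have : 0 ≤ 2 * C₂ * m := by positivity
    linarith
  have hρκ : ρ < κ := by
    have : ρ ≤ κ₀ := by rw [hρ]; nlinarith
    linarith
  have happ : Apart F m p (fun _ => ρ) := by
    intro i hi
    refine ⟨hρ0, fun j hj hji => ?_⟩
    have hne : F^[j] p ≠ F^[i] p := by
      intro he
      apply hji
      refine Function.iterate_injOn_Iio_minimalPeriod (f := F) (x := p) ?_ ?_ he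
      · rw [hper]; exact hj
      · rw [hper]; exact hi
    have hfix : ∀ l, F^[m] (F^[l] p) = F^[l] p := by
      intro l
      rw [← Function.iterate_add_apply, add_comm, Function.iterate_add_apply, hp]
    have h1 := hsep m _ _ hm (hfix j) (hfix i) hne
    refine le_trans ?_ h1
    rw [hρ]
    have := Real.exp_pos (-(2 * C₂ * m))
    nlinarith
  have h1 := hgap m p (fun _ => ρ) hm hp happ (fun _ _ => hρκ) ψ hψ hpψ D hD μ hμ
  refine le_trans ?_ h1
  rw [Finset.sum_const, Finset.card_range, nsmul_eq_mul]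
  have h2 : κ * ρ ^ (k - 1) ≤ κ * (m * ρ ^ (k - 1)) := by
    refine mul_le_mul_of_nonneg_left ?_ hκ.le
    have : 0 < ρ ^ (k - 1) := by positivity
    nlinarith
  refine le_trans ?_ h2
  have h3 : κ * ρ ^ (k - 1) = K * Real.exp (-(2 * C₂ * m)) ^ (k - 1) := by
    rw [hρ, mul_pow, hK]; ring
  have h4' : K * Real.exp (-(2 * C₂ * m)) ^ (k - 1) =
      Real.exp (Real.log K + ((k - 1 : ℕ) : ℝ) * (-(2 * C₂ * m))) := by
    rw [Real.exp_add, Real.exp_log hK0, Real.exp_nat_mul]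
  rw [h3, h4']
  apply Real.exp_le_exp.2
  have h5 : -|Real.log K| ≤ Real.log K := neg_abs_le _
  have h6 : |Real.log K| ≤ |Real.log K| * m := by
    have := abs_nonneg (Real.log K)
    nlinarith
  have h7 : ((k - 1 : ℕ) : ℝ) * (2 * C₂ * m) ≤ k * (2 * C₂ * m) := by
    refine mul_le_mul_of_nonneg_right ?_ (by positivity)
    exact_mod_cast Nat.sub_le k 1
  have h8 : 0 ≤ 2 * C₂ * m := by positivity
  rw [hC]
  nlinarith

end

end Pool.Agent.U882.RS
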