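import Pool.Agent.U882.RS.Per2

/-!
# Sets whose points are moved by less than `exp (- C m)` under `F^m`
-/

set_option autoImplicit false

open scoped Manifold ContDiff Topology
open Filter Set Metric

universe u

namespace Pool.Agent.U882.RS

open Pool.Agent.H718R2.G Pool.Agent.W564.SC Pool.Agent.W509.SC Pool.Agent.Y368.CL
  Pool.Agent.N813.OF Pool.Agent.N813.EM Pool.Agent.TH80.OMS Pool.Agent.N813.OE

/-- a set `A` with `F^m A = A` which is close to a point `p` with `F^m p = p` -/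
theorem rigid_aux {N : Type u} [MetricSpace N] {F : N → N} (hF : Function.Injective F) {C Λ : ℝ}
    (hC : 0 < C) (hΛ : 1 ≤ Λ) (hbil : BiL F Λ)
    (h : ∀ K : Set N, F '' K = K → ∀ (s : ℕ) (ε : ℝ), CovBy K s ε →
      ε < Real.exp (-(C * s)) → K.encard ≤ s) {m : ℕ} (hm : 1 ≤ m) {p : N} (hp : F^[m] p = p)
    {A : Set N} (hA : F^[m] '' A = A) {η : ℝ} (hη : ∀ a ∈ A, dist a p ≤ η) (hη0 : 0 ≤ η)
    (hηC : Λ ^ m * η < Real.exp (-(C * m))) : ∀ a ∈ A, F^[m] a = a := by
  classical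
  obtain ⟨B, hB⟩ : ∃ B, B = A ∪ {p} := ⟨_, rfl⟩
  have hBm : F^[m] '' B = B := by rw [hB, image_union, hA, image_singleton, hp]
  have hBη : ∀ b ∈ B, dist b p ≤ η := by
    intro b hb
    rw [hB] at hb
    rcases hb with hb | hb
    · exact hη b hb
    · rw [mem_singleton_iff.1 hb, dist_self]; exact hη0
  obtain ⟨K, hK⟩ : ∃ K : Set N, K = {z | ∃ i < m, ∃ b ∈ B, z = F^[i] b} := ⟨_, rfl⟩
  have hKinv : F '' K = K := by
    apply Subset.antisymm
    · rintro _ ⟨z, hz, rfl⟩
      rw [hK] at hz ⊢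
      obtain ⟨i, hi, b, hb, rfl⟩ := hz
      rcases Nat.lt_or_ge (i + 1) m with h1 | h1
      · exact ⟨i + 1, h1, b, hb, (Function.iterate_succ_apply' F i b).symm⟩
      · refine ⟨0, hm, F^[m] b, ?_, ?_⟩
        · rw [← hBm]; exact mem_image_of_mem _ hb
        · rw [← Function.iterate_succ_apply' F i b, show i.succ = m by omega]
          rfl
    · intro z hz
      rw [hK] at hz
      obtain ⟨i, hi, b, hb, rfl⟩ := hz
      rcases Nat.eq_zero_or_pos i with h0 | h0
      · rw [h0, Function.iterate_zero, id]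
        rw [← hBm] at hb
        obtain ⟨b', hb', rfl⟩ := hb
        refine ⟨F^[m - 1] b', ?_, ?_⟩
        · rw [hK]; exact ⟨m - 1, by omega, b', hb', rfl⟩
        · rw [← Function.iterate_succ_apply' F, show (m - 1).succ = m by omega]
      · refine ⟨F^[i - 1] b, ?_, ?_⟩
        · rw [hK]; exact ⟨i - 1, by omega, b, hb, rfl⟩
        · rw [← Function.iterate_succ_apply' F, show (i - 1).succ = i by omega]
  -- the number of the points in the orbit of `p`
  obtain ⟨l, hl⟩ : ∃ l, l = Function.minimalPeriod F p := ⟨_, rfl⟩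
  have hper : p ∈ Function.periodicPts F := ⟨m, hm, hp⟩
  have hl0 : 0 < l := by rw [hl]; exact Function.minimalPeriod_pos_of_mem_periodicPts hper
  have hlm : l ∣ m := by rw [hl]; exact Function.IsPeriodicPt.minimalPeriod_dvd hp
  have hlm' : l ≤ m := Nat.le_of_dvd (by omega) hlm
  have hmod : ∀ i, F^[i] p = F^[i % l] p := by
    intro i
    rw [hl]
    exact (Function.iterate_mod_minimalPeriod_eq).symm
  obtain ⟨ε, hε⟩ : ∃ ε, ε = (Λ ^ m * η + Real.exp (-(C * m))) / 2 := ⟨_, rfl⟩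
  have hε1 : Λ ^ m * η < ε := by rw [hε]; linarith
  have hε2 : ε < Real.exp (-(C * m)) := by rw [hε]; linarith
  have hcov : CovBy K l ε := by
    refine ⟨fun i => F^[(i : ℕ)] p, fun z hz => ?_⟩
    rw [hK] at hz
    obtain ⟨i, hi, b, hb, rfl⟩ := hz
    refine ⟨⟨i % l, Nat.mod_lt _ hl0⟩, ?_⟩
    simp only
    rw [← hmod]
    have h1 := (hbil.iter hΛ hi.le b p).1
    have h2 : Λ ^ m * dist b p ≤ Λ ^ m * η :=
      mul_le_mul_of_nonneg_left (hBη b hb) (by positivity)
    linarith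
  have hcard := h K hKinv l ε hcov (hε2.trans_le (by
    apply Real.exp_le_exp.2
    have h2 : (l : ℝ) ≤ m := by exact_mod_cast hlm'
    have h3 : C * l ≤ C * m := mul_le_mul_of_nonneg_left h2 hC.le
    linarith))
  -- the orbit of `p`
  obtain ⟨O, hO⟩ : ∃ O : Set N, O = (fun i => F^[i] p) '' (Iio l) := ⟨_, rfl⟩
  have hOK : O ⊆ K := by
    rw [hO]
    rintro _ ⟨i, hi, rfl⟩
    rw [hK]
    exact ⟨i, lt_of_lt_of_le hi hlm', p, by rw [hB]; exact Or.inr rfl, rfl⟩
  have hOc : O.encard = l := by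
    rw [hO, InjOn.encard_image]
    · have e1 : (Iio l : Set ℕ) = ((Finset.range l : Finset ℕ) : Set ℕ) := by
        rw [Finset.coe_range]
      rw [e1, Set.encard_coe_eq_coe_finsetCard, Finset.card_range]
    · rw [hl]
      exact Function.iterate_injOn_Iio_minimalPeriod
  have hKfin : K.Finite := Set.finite_of_encard_le_coe hcard
  have hKO : O = K := by
    refine Set.Finite.eq_of_subset_of_encard_le (hKfin.subset hOK) hOK ?_
    rw [hOc]
    exact hcard
  intro a ha
  have haK : a ∈ K := by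
    rw [hK]
    exact ⟨0, hm, a, by rw [hB]; exact Or.inl ha, rfl⟩
  rw [← hKO, hO] at haK
  obtain ⟨i, -, rfl⟩ := haK
  simp only
  rw [← Function.iterate_add_apply, add_comm, Function.iterate_add_apply, hp]

section

variable {n : ℕ} {N : Type u} [MetricSpace N] [CompactSpace N] [ChartedSpace (V n) N]
  [IsManifold (𝓡 n) ∞ N] {r : ℕ∞}

/-- rigidity: if `F^m` moves the points of `K = F^m K` by at most `exp (- C m)` then it fixes them -/
theorem rigid (hr : 2 ≤ r) (hN : ChartLip n N) (F : DiffM n N r) (hF : OmegaStable n N r F) :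
    ∃ C : ℝ, 0 < C ∧ ∀ (m : ℕ) (K : Set N), 1 ≤ m → F^[m] '' K = K →
      (∀ x ∈ K, dist (F^[m] x) x ≤ Real.exp (-(C * m))) → ∀ x ∈ K, F^[m] x = x := by
  obtain ⟨C₁, hC₁, hcl⟩ := closing hr hN F hF
  obtain ⟨C₂, hC₂, h4⟩ := main4 hr hN F hF
  obtain ⟨Λ, hΛ, hbil⟩ := exists_biL (le_trans (by norm_num) hr) hN F
  obtain ⟨l, hl⟩ : ∃ l, l = Real.log Λ := ⟨_, rfl⟩
  have hl0 : 0 ≤ l := by rw [hl]; exact Real.log_nonneg hΛ
  have hΛl : Λ = Real.exp l := by rw [hl, Real.exp_log (by linarith)]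
  have hlog2 : 0 < Real.log 2 := Real.log_pos (by norm_num)
  have hlog4 : Real.log 4 = 2 * Real.log 2 := by
    rw [show (4 : ℝ) = 2 ^ 2 by norm_num, Real.log_pow]
    norm_num
  obtain ⟨C, hC⟩ : ∃ C, C = C₁ + 2 * C₂ + l + 2 * Real.log 2 + 1 := ⟨_, rfl⟩
  refine ⟨C, by rw [hC]; positivity, ?_⟩
  intro m K hm hK hdis
  have hmR : (1 : ℝ) ≤ m := by exact_mod_cast hm
  obtain ⟨δ, hδ⟩ : ∃ δ, δ = Real.exp (-(C * m)) := ⟨_, rfl⟩
  rw [← hδ] at hdis
  have hδ0 : 0 < δ := by rw [hδ]; positivity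
  -- the closeness `η`
  obtain ⟨η, hη⟩ : ∃ η, η = Real.exp (C₁ * m) * δ := ⟨_, rfl⟩
  have hη0 : 0 < η := by rw [hη]; positivity
  have hδη : δ ≤ η := by
    rw [hη]
    have : 1 ≤ Real.exp (C₁ * m) := Real.one_le_exp (by positivity)
    nlinarith
  have hη4 : 4 * (Λ ^ m * η) < Real.exp (-(2 * C₂ * m)) := by
    have e1 : 4 * (Λ ^ m * η) = Real.exp (Real.log 4 + (m * l + (C₁ * m + -(C * m)))) := by
      rw [Real.exp_add, Real.exp_add, Real.exp_add, Real.exp_log (by norm_num), Real.exp_nat_mul,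
        ← hΛl, hη, hδ]
    rw [e1]
    apply Real.exp_lt_exp.2
    have h1 : 2 * Real.log 2 ≤ 2 * Real.log 2 * m := by nlinarith
    rw [hlog4, hC]
    nlinarith
  have hΛm : 1 ≤ Λ ^ m := one_le_pow₀ hΛ
  have hη5 : 4 * η < Real.exp (-(2 * C₂ * m)) := by nlinarith
  have hδC : δ ≤ Real.exp (-(C₁ * m)) := by
    rw [hδ]
    apply Real.exp_le_exp.2
    have : C₁ * m ≤ C * m := mul_le_mul_of_nonneg_right (by rw [hC]; linarith) (by positivity)
    linarith
  have hp : ∀ x ∈ K, ∃ p, F^[m] p = p ∧ dist p x ≤ η := by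
    intro x hx
    obtain ⟨p, h1, h2⟩ := hcl x m hm ((hdis x hx).trans hδC)
    refine ⟨p, h1, h2.trans ?_⟩
    rw [hη]
    exact mul_le_mul_of_nonneg_left (hdis x hx) (Real.exp_pos _).le
  have huniq : ∀ p p', F^[m] p = p → F^[m] p' = p' → dist p p' ≤ 4 * η → p = p' := by
    intro p p' h1 h2 h3
    by_contra hne
    have h5 := sep F.injective hC₂ h4 h1 h2 hne hm
    linarith
  intro x hx
  obtain ⟨p, hpm, hpx⟩ := hp x hx
  obtain ⟨A, hA⟩ : ∃ A : Set N, A = {y | y ∈ K ∧ dist y p ≤ η} := ⟨_, rfl⟩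
  have hAm : F^[m] '' A = A := by
    apply Subset.antisymm
    · rintro _ ⟨y, hy, rfl⟩
      rw [hA] at hy ⊢
      have hyK : F^[m] y ∈ K := by rw [← hK]; exact mem_image_of_mem _ hy.1
      refine ⟨hyK, ?_⟩
      obtain ⟨p', h1, h2⟩ := hp _ hyK
      have h3 : p = p' := huniq p p' hpm h1 (by
        have t1 := dist_triangle p y p'
        have t2 := dist_triangle y (F^[m] y) p'
        have t3 := hdis y hy.1
        have t4 := hy.2
        rw [dist_comm (F^[m] y) y] at t3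
        rw [dist_comm y p] at t4
        rw [dist_comm p' (F^[m] y)] at h2
        linarith)
      rw [h3, dist_comm]
      exact h2
    · intro z hz
      rw [hA] at hz
      have hzK := hz.1
      rw [← hK] at hzK
      obtain ⟨y, hy, rfl⟩ := hzK
      refine ⟨y, ?_, rfl⟩
      rw [hA]
      refine ⟨hy, ?_⟩
      obtain ⟨p', h1, h2⟩ := hp y hy
      have h3 : p = p' := huniq p p' hpm h1 (by
        have t1 := dist_triangle p (F^[m] y) p'
        have t2 := dist_triangle (F^[m] y) y p'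
        have t3 := hdis y hy
        have t4 := hz.2
        rw [dist_comm (F^[m] y) p] at t4
        rw [dist_comm p' y] at h2
        linarith)
      rw [h3, dist_comm]
      exact h2
  have hexp : Real.exp (-(2 * C₂ * m)) ≤ Real.exp (-(C₂ * m)) := by
    apply Real.exp_le_exp.2
    have : 0 ≤ C₂ * m := by positivity
    linarith
  refine rigid_aux F.injective hC₂ hΛ hbil h4 hm hpm hAm (fun a ha => ?_) hη0.le ?_ x ?_
  · rw [hA] at ha
    exact ha.2
  · have : 0 < Λ ^ m * η := by positivity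
    linarith
  · rw [hA]
    exact ⟨hx, by rw [dist_comm]; exact hpx⟩

/-- a separated set is finite -/
theorem finite_of_sep {N : Type u} [MetricSpace N] [CompactSpace N] {K : Set N} {e : ℝ} (he : 0 < e)
    (h : ∀ x ∈ K, ∀ y ∈ K, x ≠ y → e ≤ dist x y) : K.Finite := by
  classical
  obtain ⟨t, ht, hcov⟩ := Metric.totallyBounded_iff.1 (isCompact_univ (X := N)).totallyBounded
    (e / 2) (by positivity)
  have hex : ∀ x : N, ∃ c ∈ t, dist x c < e / 2 := by
    intro x
    obtain ⟨c, hc, hx⟩ := mem_iUnion₂.1 (hcov (mem_univ x))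
    exact ⟨c, hc, hx⟩
  choose c hc hd using hex
  refine Set.Finite.of_injOn (f := c) (t := t) (fun x _ => hc x) ?_ ht
  intro x hx y hy hxy
  by_contra hne
  have h1 := h x hx y hy hne
  have h2 := hd x
  have h3 := hd y
  have h4 : c x = c y := hxy
  rw [← h4] at h3
  have h5 := dist_triangle_right x y (c x)
  linarith

/-- rigidity, with finiteness -/
theorem rigid_finite (hr : 2 ≤ r) (hN : ChartLip n N) (F : DiffM n N r)
    (hF : OmegaStable n N r F) :
    ∃ C : ℝ, 0 < C ∧ ∀ (m : ℕ) (K : Set N), 1 ≤ m → F^[m] '' K = K →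
      (∀ x ∈ K, dist (F^[m] x) x ≤ Real.exp (-(C * m))) → (∀ x ∈ K, F^[m] x = x) ∧ K.Finite := by
  obtain ⟨C, hC, h⟩ := rigid hr hN F hF
  obtain ⟨C', hC', hsep, -⟩ := margins hr hN F hF
  refine ⟨C, hC, fun m K hm hK hmov => ?_⟩
  have hfix := h m K hm hK hmov
  exact ⟨hfix, finite_of_sep (Real.exp_pos (-(C' * m))) fun x hx y hy hxy =>
    hsep m x y hm (hfix x hx) (hfix y hy) hxy⟩

end

end Pool.Agent.U882.RS
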