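import Pool.Agent.U882.RS.Per3
import Pool.Agent.N813.EM.FIN

/-!
# Recurrence rates: the covering estimate
-/

set_option autoImplicit false

open scoped Manifold ContDiff Topology ENNReal
open Filter Set Metric MeasureTheory

universe u

namespace Pool.Agent.U882.RS

open Pool.Agent.H718R2.G Pool.Agent.W564.SC Pool.Agent.W509.SC Pool.Agent.Y368.CL
  Pool.Agent.N813.OF Pool.Agent.N813.EM Pool.Agent.TH80.OMS Pool.Agent.N813.OE

section

variable {n : ℕ} {N : Type u} [MetricSpace N] [CompactSpace N] [ChartedSpace (V n) N]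
  [IsManifold (𝓡 n) ∞ N] {r : ℕ∞}

/-- the number of the fixed points of `F^m` is at most `exp (C m)` -/
theorem fix_count (hr : 2 ≤ r) (hN : ChartLip n N) (F : DiffM n N r) (hF : OmegaStable n N r F) :
    ∃ C : ℝ, 0 < C ∧ ∀ m : ℕ, 1 ≤ m → ∃ T : Finset N, (∀ p, p ∈ T ↔ F^[m] p = p) ∧
      (T.card : ℝ) ≤ Real.exp (C * m) := by
  classical
  obtain ⟨C₁, hC₁, hsep, -⟩ := margins hr hN F hF
  obtain ⟨C₀, D, hfin⟩ := FIN.t n N hN
  obtain ⟨E, hE⟩ : ∃ E, E = max C₀ 1 * 3 ^ D := ⟨_, rfl⟩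
  have hE1 : 1 ≤ E := by
    rw [hE]
    exact one_le_mul_of_one_le_of_one_le (le_max_right _ _) (one_le_pow₀ (by norm_num))
  refine ⟨Real.log E + D * C₁ + 1, ?_, fun m hm => ?_⟩
  · have := Real.log_nonneg hE1
    positivity
  have hmR : (1 : ℝ) ≤ m := by exact_mod_cast hm
  have hS : {p | F^[m] p = p}.Finite :=
    finite_of_sep (Real.exp_pos (-(C₁ * m))) fun x hx y hy hxy => hsep m x y hm hx hy hxy
  refine ⟨hS.toFinset, fun p => by simp, ?_⟩
  obtain ⟨s, hs⟩ : ∃ s, s = Real.exp (-(C₁ * m)) / 3 := ⟨_, rfl⟩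
  have hexp1 : Real.exp (-(C₁ * m)) ≤ 1 := by
    rw [Real.exp_le_one_iff]
    have : 0 ≤ C₁ * m := by positivity
    linarith
  have hs0 : 0 < s := by rw [hs]; positivity
  have hs1 : s ≤ 1 := by rw [hs]; linarith
  obtain ⟨t, htc, ht⟩ := hfin s hs0 hs1
  choose c hct hcd using ht
  have hcard : hS.toFinset.card ≤ t.card := by
    refine Finset.card_le_card_of_injOn c (fun x _ => hct x) ?_
    intro x hx y hy hxy
    by_contra hne
    rw [Finset.mem_coe, Set.Finite.mem_toFinset] at hx hy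
    have h1 := hsep m x y hm hx hy hne
    have h2 := hcd x
    have h3 := hcd y
    have hxy' : c x = c y := hxy
    rw [← hxy'] at h3
    have h4 := dist_triangle_right x y (c x)
    have h5 : 0 < Real.exp (-(C₁ * m)) := Real.exp_pos _
    linarith
  have h1 : (1 / s) ^ D = 3 ^ D * Real.exp (D * (C₁ * m)) := by
    rw [hs, Real.exp_nat_mul, ← mul_pow]
    congr 1
    rw [Real.exp_neg]
    field_simp
  calc (hS.toFinset.card : ℝ) ≤ t.card := by exact_mod_cast hcard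
    _ ≤ C₀ * (1 / s) ^ D := htc
    _ ≤ max C₀ 1 * (1 / s) ^ D := by gcongr; exact le_max_left _ _
    _ = E * Real.exp (D * (C₁ * m)) := by rw [h1, hE]; ring
    _ = Real.exp (Real.log E + D * (C₁ * m)) := by
        rw [Real.exp_add, Real.exp_log (by linarith)]
    _ ≤ _ := by
        apply Real.exp_le_exp.2
        have := Real.log_nonneg hE1
        nlinarith

/-- the points on closed pseudo-orbits of length `m` with exponentially small jumps -/
theorem cover (hr : 2 ≤ r) (hN : ChartLip n N) (F : DiffM n N r) (hF : OmegaStable n N r F) :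
    ∃ C : ℝ, 0 < C ∧ ∀ m : ℕ, 1 ≤ m → ∃ T : Finset N, (∀ p ∈ T, F^[m] p = p) ∧
      (T.card : ℝ) ≤ Real.exp (C * m) ∧ ∀ (δ : ℝ) (x : N), δ ≤ Real.exp (-(C * m)) →
        (∃ y : ℕ → N, y 0 = x ∧ y m = x ∧ ∀ i < m, dist (F (y i)) (y (i + 1)) ≤ δ) →
        ∃ p ∈ T, dist x p ≤ Real.exp (C * m) * δ := by
  obtain ⟨a, b, ha, hb, hsh⟩ := shadowing hr hN F hF
  obtain ⟨C₀, hC₀, hfix⟩ := fix_count hr hN F hF
  refine ⟨a + b + C₀, by positivity, fun m hm => ?_⟩
  have hmR : (1 : ℝ) ≤ m := by exact_mod_cast hm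
  obtain ⟨T, hT, hTc⟩ := hfix m hm
  refine ⟨T, fun p hp => (hT p).1 hp, hTc.trans ?_, ?_⟩
  · apply Real.exp_le_exp.2
    have : 0 ≤ (a + b) * (m : ℝ) := by positivity
    nlinarith
  · rintro δ x hδ ⟨y, hy0, hym, hy⟩
    have hδ0 : 0 ≤ δ := dist_nonneg.trans (hy 0 hm)
    have hδ' : δ ≤ Real.exp (-(a * m)) := by
      refine hδ.trans (Real.exp_le_exp.2 ?_)
      have : 0 ≤ (b + C₀) * (m : ℝ) := by positivity
      nlinarith
    obtain ⟨p, ⟨hp, hpy⟩, -⟩ := hsh m δ y hm hδ' (by rw [hy0, hym]) hy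
    refine ⟨p, (hT p).2 hp, ?_⟩
    have h1 := hpy 0 (Nat.zero_le _)
    rw [hy0, Function.iterate_zero, id, dist_comm] at h1
    refine h1.trans (mul_le_mul_of_nonneg_right ?_ hδ0)
    apply Real.exp_le_exp.2
    have : 0 ≤ (a + C₀) * (m : ℝ) := by positivity
    nlinarith

end

end Pool.Agent.U882.RS
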