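import Pool.Agent.U882.RS.Rate
import Pool.Agent.U882.RS.Haus

/-!
# Recurrence rates of `Ω`-stable diffeomorphisms
-/

set_option autoImplicit false

open scoped Manifold ContDiff Topology ENNReal
open Filter Set Metric MeasureTheory

universe u

namespace Pool.Agent.U882.RS

open Pool.Agent.H718R2.G Pool.Agent.W564.SC Pool.Agent.W509.SC Pool.Agent.Y368.CL
  Pool.Agent.N813.OF Pool.Agent.N813.EM Pool.Agent.TH80.OMS Pool.Agent.N813.OE

/-- `x` lies on a closed pseudo-orbit of length `m` with jumps `≤ δ` -/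
def PRec {N : Type u} [MetricSpace N] (F : N → N) (m : ℕ) (δ : ℝ) (x : N) : Prop :=
  ∃ y : ℕ → N, y 0 = x ∧ y m = x ∧ ∀ i < m, dist (F (y i)) (y (i + 1)) ≤ δ

theorem PRec.mono {N : Type u} [MetricSpace N] {F : N → N} {m : ℕ} {δ δ' : ℝ} {x : N}
    (h : PRec F m δ x) (hδ : δ ≤ δ') : PRec F m δ' x := by
  obtain ⟨y, h0, h1, h2⟩ := h
  exact ⟨y, h0, h1, fun i hi => (h2 i hi).trans hδ⟩

theorem PRec.of_fixed {N : Type u} [MetricSpace N] {F : N → N} {m : ℕ} {δ : ℝ} {x : N}
    (h : F^[m] x = x) (hδ : 0 ≤ δ) : PRec F m δ x := by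
  refine ⟨fun i => F^[i] x, rfl, h, fun i _ => ?_⟩
  beta_reduce
  rw [Function.iterate_succ_apply', dist_self]
  exact hδ

/-- a ball which returns -/
theorem PRec.of_ball {N : Type u} [MetricSpace N] {F : N → N} {Λ : ℝ} (hΛ : 1 ≤ Λ)
    (hbil : BiL F Λ) {m : ℕ} (hm : 1 ≤ m) {ρ : ℝ} {x y : N} (hρ : 0 < ρ) (hy : dist y x ≤ ρ)
    (hy' : dist (F^[m] y) x ≤ ρ) : PRec F m ((Λ + 1) * ρ) x := by
  refine ⟨fun i => if i = 0 ∨ i = m then x else F^[i] y, by simp, by simp, fun i hi => ?_⟩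
  beta_reduce
  have h1 : dist (F (if i = 0 ∨ i = m then x else F^[i] y)) (F^[i + 1] y) ≤ Λ * ρ := by
    rcases Nat.eq_zero_or_pos i with h0 | h0
    · subst h0
      simp only [true_or, if_true, zero_add, Function.iterate_one]
      refine (hbil x y).1.trans ?_
      rw [dist_comm]
      exact mul_le_mul_of_nonneg_left hy (by linarith)
    · rw [if_neg (by omega), Function.iterate_succ_apply', dist_self]
      positivity
  have h2 : dist (F^[i + 1] y) (if i + 1 = 0 ∨ i + 1 = m then x else F^[i + 1] y) ≤ ρ := by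
    by_cases h3 : i + 1 = m
    · rw [if_pos (Or.inr h3), h3]
      exact hy'
    · rw [if_neg (by omega), dist_self]
      exact hρ.le
  have h3 := dist_triangle (F (if i = 0 ∨ i = m then x else F^[i] y)) (F^[i + 1] y)
    (if i + 1 = 0 ∨ i + 1 = m then x else F^[i + 1] y)
  linarith

/-- the first returns of small balls at a nonperiodic point -/
theorem small_balls {N : Type u} [MetricSpace N] {F : N → N} {Λ : ℝ} (hΛ : 1 ≤ Λ)
    (hbil : BiL F Λ) {x : N} (hx : ∀ m, 1 ≤ m → F^[m] x ≠ x) (M : ℕ) :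
    ∃ r₀ : ℝ, 0 < r₀ ∧ ∀ m, 1 ≤ m → m < M → ∀ ρ, ρ < r₀ → ∀ y, dist y x ≤ ρ →
      ρ < dist (F^[m] y) x := by
  induction M with
  | zero => exact ⟨1, one_pos, fun m _ h => absurd h (Nat.not_lt_zero _)⟩
  | succ M ih =>
    obtain ⟨r₀, hr₀, h⟩ := ih
    rcases Nat.eq_zero_or_pos M with h0 | h0
    · subst h0
      exact ⟨1, one_pos, fun m h1 h2 => by omega⟩
    · obtain ⟨D, hD⟩ : ∃ D, D = dist (F^[M] x) x := ⟨_, rfl⟩
      have hD0 : 0 < D := by rw [hD]; exact dist_pos.2 (hx M h0)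
      have hΛM : 0 < Λ ^ M + 1 := by positivity
      refine ⟨min r₀ (D / (Λ ^ M + 1)), by positivity, fun m h1 h2 ρ hρ y hy => ?_⟩
      rcases Nat.lt_or_ge m M with h3 | h3
      · exact h m h1 h3 ρ (hρ.trans_le (min_le_left _ _)) y hy
      · have h4 : m = M := by omega
        subst h4
        by_contra hcon
        rw [not_lt] at hcon
        have h5 := hρ.trans_le (min_le_right _ _)
        rw [lt_div_iff₀ hΛM] at h5
        have h6 := (hbil.iter hΛ (le_refl m) x y).1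
        have h7 := dist_triangle (F^[m] x) (F^[m] y) x
        have h8 : Λ ^ m * dist x y ≤ Λ ^ m * ρ := by
          rw [dist_comm]
          exact mul_le_mul_of_nonneg_left hy (by positivity)
        nlinarith

section

variable {n : ℕ} {N : Type u} [MetricSpace N] [CompactSpace N] [MeasurableSpace N] [BorelSpace N]
  [ChartedSpace (V n) N] [IsManifold (𝓡 n) ∞ N] {r : ℕ∞}

theorem rates (hr : 2 ≤ r) (hN : ChartLip n N) (F : DiffM n N r) (hF : OmegaStable n N r F) :
    ∃ C : ℝ, 0 < C ∧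
      (∀ m : ℕ, 1 ≤ m → ∃ T : Finset N, (∀ p ∈ T, F^[m] p = p) ∧
        (T.card : ℝ) ≤ Real.exp (C * m) ∧ ∀ (δ : ℝ) (x : N), δ ≤ Real.exp (-(C * m)) →
          PRec F m δ x → ∃ p ∈ T, dist x p ≤ Real.exp (C * m) * δ) ∧
      (∀ a : ℝ, C ≤ a → dimH {x : N | ∃ᶠ m : ℕ in atTop, PRec F m (Real.exp (-(a * m))) x} ≤
        ENNReal.ofReal (C / a)) ∧
      ∀ (μ : Measure N) (K d : ℝ), 0 ≤ K → 0 < d →
        (∀ (x : N) (ρ : ℝ), 0 < ρ → μ (closedBall x ρ) ≤ ENNReal.ofReal (K * ρ ^ d)) →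
        ∀ᵐ x ∂μ, ∃ r₀ : ℝ, 0 < r₀ ∧ ∀ ρ : ℝ, 0 < ρ → ρ < r₀ → ∀ m : ℕ, 1 ≤ m →
          m ≤ d / (C * (1 + d)) * Real.log (1 / ρ) →
          Disjoint (F^[m] '' closedBall x ρ) (closedBall x ρ) := by
  obtain ⟨C₀, hC₀, hcov⟩ := cover hr hN F hF
  obtain ⟨Λ, hΛ, hbil⟩ := exists_biL (le_trans (by norm_num) hr) hN F
  obtain ⟨l, hl⟩ : ∃ l, l = Real.log (Λ + 1) := ⟨_, rfl⟩
  have hl0 : 0 < l := by rw [hl]; exact Real.log_pos (by linarith)
  have hΛl : Λ + 1 = Real.exp l := by rw [hl, Real.exp_log (by linarith)]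
  have hE : ∀ a, C₀ ≤ a → CovE (fun m => {x | PRec F m (Real.exp (-(a * m))) x}) C₀ (a - C₀) := by
    intro a ha m hm
    obtain ⟨T, -, hT2, hT3⟩ := hcov m hm
    refine ⟨T, hT2, fun x hx => ?_⟩
    obtain ⟨p, hp, hxp⟩ := hT3 (Real.exp (-(a * m))) x (by
      apply Real.exp_le_exp.2
      have : C₀ * m ≤ a * m := mul_le_mul_of_nonneg_right ha (by positivity)
      linarith) hx
    refine ⟨p, hp, hxp.trans (le_of_eq ?_)⟩
    rw [← Real.exp_add]
    congr 1
    ring
  obtain ⟨C, hC⟩ : ∃ C, C = 4 * C₀ + l := ⟨_, rfl⟩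
  have hC0 : 0 < C := by rw [hC]; positivity
  have hC₀C : C₀ ≤ C := by rw [hC]; linarith
  refine ⟨C, hC0, ?_, ?_, ?_⟩
  · intro m hm
    obtain ⟨T, hT1, hT2, hT3⟩ := hcov m hm
    have h1 : C₀ * m ≤ C * m := mul_le_mul_of_nonneg_right hC₀C (by positivity)
    refine ⟨T, hT1, hT2.trans (Real.exp_le_exp.2 h1), fun δ x hδ hx => ?_⟩
    obtain ⟨p, hp, hxp⟩ := hT3 δ x (hδ.trans (Real.exp_le_exp.2 (by linarith))) hx
    have hδ0 : 0 ≤ δ := by
      obtain ⟨y, -, -, hy⟩ := hx
      exact dist_nonneg.trans (hy 0 hm)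
    exact ⟨p, hp, hxp.trans (mul_le_mul_of_nonneg_right (Real.exp_le_exp.2 h1) hδ0)⟩
  · intro a ha
    have ha0 : 0 < a := hC0.trans_le ha
    have h4 : 4 * C₀ ≤ a := by linarith
    refine dimH_limsup (c := C₀) (a := a - C₀) (by positivity) (by linarith)
      (hE a (by linarith)) ?_
    have h5 : C / a * (a - C₀) = C - C * C₀ / a := by
      field_simp
    rw [h5]
    have h6 : C * C₀ / a ≤ C₀ := by
      rw [div_le_iff₀ ha0]
      nlinarith
    linarith
  · intro μ K d hK hd hμ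
    obtain ⟨a, ha⟩ : ∃ a, a = C₀ + 2 * C₀ / d := ⟨_, rfl⟩
    have haC₀ : C₀ ≤ a := by rw [ha]; have : 0 < 2 * C₀ / d := by positivity
                             linarith
    have had : C₀ < d * (a - C₀) := by
      rw [ha, add_sub_cancel_left]
      have : d * (2 * C₀ / d) = 2 * C₀ := by field_simp
      rw [this]
      linarith
    have hae := ae_limsup hK (hE a haC₀) had μ hμ
    filter_upwards [hae] with x hx
    rw [eventually_atTop] at hx
    obtain ⟨M, hM⟩ := hx
    have hnp : ∀ m, 1 ≤ m → F^[m] x ≠ x := by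
      intro m hm hfix
      refine hM (m * (M + 1)) (by nlinarith) ?_
      refine PRec.of_fixed ?_ (Real.exp_pos _).le
      rw [Function.iterate_mul]
      exact Function.iterate_fixed hfix _
    obtain ⟨r₀, hr₀, hball⟩ := small_balls hΛ hbil hnp M
    refine ⟨r₀, hr₀, fun ρ hρ hρr m hm hmρ => ?_⟩
    rw [Set.disjoint_left]
    rintro _ ⟨y, hy, rfl⟩ hFy
    rw [mem_closedBall] at hy hFy
    rcases Nat.lt_or_ge m M with h1 | h1
    · exact absurd hFy (not_le.2 (hball m hm h1 ρ hρr y hy))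
    · refine hM m h1 ?_
      refine (PRec.of_ball hΛ hbil hm hρ hy hFy).mono ?_
      have hmR : (1 : ℝ) ≤ m := by exact_mod_cast hm
      have h2 : (a + l) * m ≤ Real.log (1 / ρ) := by
        have h3 : (a + l) ≤ C * (1 + d) / d := by
          rw [ha, le_div_iff₀ hd]
          have : (C₀ + 2 * C₀ / d + l) * d = C₀ * d + 2 * C₀ + l * d := by
            field_simp
          rw [this, hC]
          nlinarith [mul_pos hC₀ hd, mul_pos hl0 hd]
        have h4 : 0 < C * (1 + d) / d := by positivity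
        have h5 : (C * (1 + d) / d) * m ≤
            (C * (1 + d) / d) * (d / (C * (1 + d)) * Real.log (1 / ρ)) :=
          mul_le_mul_of_nonneg_left hmρ h4.le
        have h6 : (C * (1 + d) / d) * (d / (C * (1 + d)) * Real.log (1 / ρ)) =
            Real.log (1 / ρ) := by
          field_simp
        rw [h6] at h5
        have h7 : (a + l) * m ≤ (C * (1 + d) / d) * m :=
          mul_le_mul_of_nonneg_right h3 (by positivity)
        linarith
      have h8 : ρ ≤ Real.exp (-((a + l) * m)) := by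
        rw [one_div, Real.log_inv] at h2
        rw [← Real.exp_log hρ]
        apply Real.exp_le_exp.2
        linarith
      calc (Λ + 1) * ρ ≤ Real.exp l * Real.exp (-((a + l) * m)) := by
            rw [hΛl]
            exact mul_le_mul_of_nonneg_left h8 (Real.exp_pos _).le
        _ = Real.exp (l + -((a + l) * m)) := by rw [Real.exp_add]
        _ ≤ _ := by
            apply Real.exp_le_exp.2
            nlinarith

end

end Pool.Agent.U882.RS
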