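import Pool.Agent.U882.RS.Fou
import Pool.Agent.N813.OF.Main

/-!
# A bound for the resolvent from robust hyperbolicity

If `T ∘ D` has no eigenvalue of modulus one for all `T` with `‖T - 1‖ ≤ η` then the resolvent of `D` on the
unit circle is bounded by a constant times `‖D‖ η^(-3/2)`, in all dimensions.
-/

set_option autoImplicit false

open scoped Manifold ContDiff Topology
open Filter Set Metric

namespace Pool.Agent.U882.RS

open Pool.Agent.H718R2.G Pool.Agent.N813.OF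

/-- Robustness: `T ∘ D` has no eigenvalue of modulus one if `‖T - 1‖ ≤ η`. -/
def Rob {n : ℕ} (D : V n →L[ℝ] V n) (η : ℝ) : Prop :=
  ∀ T : V n →L[ℝ] V n, ‖T - 1‖ ≤ η → ∀ μ : ℂ, Eig (T.comp D) μ → ‖μ‖ ≠ 1

theorem eig_of_pair {n : ℕ} {A : V n →L[ℝ] V n} {μ : ℂ} {a b : V n} (hne : a ≠ 0 ∨ b ≠ 0)
    (ha : A a = μ.re • a - μ.im • b) (hb : A b = μ.im • a + μ.re • b) : Eig A μ :=
  (EIGI.charpoly_root _ _).2 ⟨a, b, hne, ha, hb⟩

section

variable {n : ℕ}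

/-- real eigenvalues: a vector `a` with `D a ≈ ± a` -/
theorem real_case {D : V n →L[ℝ] V n} {η : ℝ} (hη : 0 < η) (hη1 : η ≤ 1) (h : Rob D η) {a : V n}
    (ha : ‖a‖ = 1) {s : ℝ} (hs : s = 1 ∨ s = -1) : η / 2 < ‖D a - s • a‖ := by
  by_contra hcon
  rw [not_lt] at hcon
  have hs1 : |s| = 1 := by rcases hs with h | h <;> rw [h] <;> simp
  have hsa : ‖s • a‖ = 1 := by rw [norm_smul, Real.norm_eq_abs, hs1, ha, one_mul]
  have hDa : 1 / 2 ≤ ‖D a‖ := by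
    have h1 : s • a = D a - (D a - s • a) := by abel
    have h2 : ‖s • a‖ ≤ ‖D a‖ + ‖D a - s • a‖ := by
      calc ‖s • a‖ = ‖D a - (D a - s • a)‖ := by rw [← h1]
        _ ≤ _ := norm_sub_le _ _
    linarith
  have hp : 0 < ‖D a‖ := by linarith
  obtain ⟨T, hT⟩ : ∃ T : V n →L[ℝ] V n, T = 1 +
      ((‖D a‖ ^ 2)⁻¹ • innerSL ℝ (D a)).smulRight (s • a - D a) := ⟨_, rfl⟩
  have hTD : T (D a) = s • a := by
    rw [hT]
    simp only [ContinuousLinearMap.add_apply, ContinuousLinearMap.one_apply,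
      ContinuousLinearMap.smulRight_apply, ContinuousLinearMap.smul_apply, innerSL_apply_apply,
      real_inner_self_eq_norm_sq, smul_eq_mul]
    rw [inv_mul_cancel₀ (by positivity), one_smul]
    abel
  have hT1 : ‖T - 1‖ ≤ η := by
    rw [hT, add_sub_cancel_left, ContinuousLinearMap.norm_smulRight_apply, norm_smul,
      innerSL_apply_norm, norm_inv, norm_pow, norm_norm]
    have e : (‖D a‖ ^ 2)⁻¹ * ‖D a‖ = ‖D a‖⁻¹ := by field_simp
    rw [e, norm_sub_rev]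
    have h3 : ‖D a‖⁻¹ ≤ 2 := by
      rw [inv_le_comm₀ hp (by norm_num)]
      linarith
    have := mul_le_mul h3 hcon (norm_nonneg _) (by norm_num)
    linarith
  have ha0 : a ≠ 0 := by
    intro h0
    rw [h0, norm_zero] at ha
    norm_num at ha
  refine h T hT1 (s : ℂ) (eig_of_pair (a := a) (b := 0) (Or.inl ha0) ?_ ?_) ?_
  · rw [ContinuousLinearMap.comp_apply, hTD]
    simp
  · simp
  · rw [Complex.norm_real, Real.norm_eq_abs, hs1]

theorem comb_sq {p q : V n} (x y : ℝ) :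
    ‖x • p + y • q‖ ^ 2 ≤ (‖p‖ ^ 2 + ‖q‖ ^ 2) * (x ^ 2 + y ^ 2) := by
  have h1 : ‖x • p + y • q‖ ≤ |x| * ‖p‖ + |y| * ‖q‖ := by
    refine (norm_add_le _ _).trans ?_
    rw [norm_smul, norm_smul, Real.norm_eq_abs, Real.norm_eq_abs]
  have h2 : ‖x • p + y • q‖ ^ 2 ≤ (|x| * ‖p‖ + |y| * ‖q‖) ^ 2 :=
    pow_le_pow_left₀ (norm_nonneg _) h1 2
  have h3 : |x| ^ 2 = x ^ 2 := sq_abs x
  have h4 : |y| ^ 2 = y ^ 2 := sq_abs y
  nlinarith [sq_nonneg (|x| * ‖q‖ - |y| * ‖p‖)]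

theorem comb_orth {a b : V n} (hab : inner ℝ a b = (0 : ℝ)) (x y : ℝ) :
    ‖x • a + y • b‖ ^ 2 = x ^ 2 * ‖a‖ ^ 2 + y ^ 2 * ‖b‖ ^ 2 := by
  rw [@norm_add_sq ℝ, inner_smul_left, inner_smul_right, hab, norm_smul, norm_smul]
  simp only [Real.norm_eq_abs, mul_pow, sq_abs]
  simp

/-- complex eigenvalues, well-conditioned pairs -/
theorem cplx_case {D : V n →L[ℝ] V n} {η : ℝ} (hη : 0 < η) (hη1 : η ≤ 1) (h : Rob D η) {a b : V n}
    (hab : inner ℝ a b = (0 : ℝ)) (hba : ‖b‖ ≤ ‖a‖) (hb0 : 0 < ‖b‖) {μ : ℂ} (hμ : ‖μ‖ = 1) {ε : ℝ}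
    (hε : 0 ≤ ε)
    (hr : ‖D a - (μ.re • a - μ.im • b)‖ ^ 2 + ‖D b - (μ.im • a + μ.re • b)‖ ^ 2 ≤ ε ^ 2)
    (hεσ : 8 * ε ≤ η * ‖b‖) : False := by
  have hμ2 : μ.re ^ 2 + μ.im ^ 2 = 1 := by
    have := Complex.sq_norm μ
    rw [hμ, Complex.normSq_apply] at this
    linarith
  obtain ⟨σ, hσ⟩ : ∃ σ, σ = ‖b‖ := ⟨_, rfl⟩
  rw [← hσ] at hba hb0 hεσ
  obtain ⟨ra, hra⟩ : ∃ ra, ra = D a - (μ.re • a - μ.im • b) := ⟨_, rfl⟩
  obtain ⟨rb, hrb⟩ : ∃ rb, rb = D b - (μ.im • a + μ.re • b) := ⟨_, rfl⟩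
  rw [← hra, ← hrb] at hr
  have hεs : ε ≤ σ / 8 := by nlinarith
  -- the map J
  obtain ⟨J, hJ⟩ : ∃ J : V 2 →L[ℝ] V n, J = (EuclideanSpace.proj (0 : Fin 2)).smulRight (D a) +
    (EuclideanSpace.proj (1 : Fin 2)).smulRight (D b) := ⟨_, rfl⟩
  obtain ⟨R, hR⟩ : ∃ R : V 2 →L[ℝ] V n, R = (EuclideanSpace.proj (0 : Fin 2)).smulRight ra +
    (EuclideanSpace.proj (1 : Fin 2)).smulRight rb := ⟨_, rfl⟩
  have hJx : ∀ x : V 2, J x = x 0 • D a + x 1 • D b := fun x => by rw [hJ]; rfl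
  have hRx : ∀ x : V 2, R x = x 0 • ra + x 1 • rb := fun x => by rw [hR]; rfl
  have hn2 : ∀ x : V 2, ‖x‖ ^ 2 = x 0 ^ 2 + x 1 ^ 2 := fun x => by
    rw [EuclideanSpace.norm_sq_eq, Fin.sum_univ_two, Real.norm_eq_abs, Real.norm_eq_abs, sq_abs,
      sq_abs]
  have hRn : ∀ x : V 2, ‖R x‖ ≤ ε * ‖x‖ := by
    intro x
    rw [hRx]
    have h1 := comb_sq (p := ra) (q := rb) (x 0) (x 1)
    have h2 : (‖ra‖ ^ 2 + ‖rb‖ ^ 2) * (x 0 ^ 2 + x 1 ^ 2) ≤ ε ^ 2 * ‖x‖ ^ 2 := by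
      rw [hn2]
      exact mul_le_mul_of_nonneg_right hr (by positivity)
    have h3 : ‖x 0 • ra + x 1 • rb‖ ^ 2 ≤ (ε * ‖x‖) ^ 2 := by rw [mul_pow]; linarith
    exact (pow_le_pow_iff_left₀ (norm_nonneg _) (by positivity) two_ne_zero).1 h3
  have hlow : ∀ x : V 2, 7 / 8 * σ * ‖x‖ ≤ ‖J x‖ := by
    intro x
    have e : J x = (x 0 • (μ.re • a - μ.im • b) + x 1 • (μ.im • a + μ.re • b)) + R x := by
      rw [hJx, hRx, hra, hrb]
      module
    have h1 : σ * ‖x‖ ≤ ‖x 0 • (μ.re • a - μ.im • b) + x 1 • (μ.im • a + μ.re • b)‖ := by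
      have e2 : x 0 • (μ.re • a - μ.im • b) + x 1 • (μ.im • a + μ.re • b) =
          (x 0 * μ.re + x 1 * μ.im) • a + (x 1 * μ.re - x 0 * μ.im) • b := by module
      rw [e2]
      have h2 : (σ * ‖x‖) ^ 2 ≤
          ‖(x 0 * μ.re + x 1 * μ.im) • a + (x 1 * μ.re - x 0 * μ.im) • b‖ ^ 2 := by
        rw [comb_orth hab, mul_pow, hn2, ← hσ]
        have h3 : σ ^ 2 ≤ ‖a‖ ^ 2 := pow_le_pow_left₀ hb0.le hba 2
        have h4 : x 0 ^ 2 + x 1 ^ 2 = (x 0 * μ.re + x 1 * μ.im) ^ 2 +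
            (x 1 * μ.re - x 0 * μ.im) ^ 2 := by
          have : (x 0 * μ.re + x 1 * μ.im) ^ 2 + (x 1 * μ.re - x 0 * μ.im) ^ 2 =
            (x 0 ^ 2 + x 1 ^ 2) * (μ.re ^ 2 + μ.im ^ 2) := by ring
          rw [this, hμ2, mul_one]
        rw [h4]
        nlinarith [sq_nonneg (x 0 * μ.re + x 1 * μ.im)]
      exact (pow_le_pow_iff_left₀ (by positivity) (norm_nonneg _) two_ne_zero).1 h2
    have h5 := hRn x
    have h6 : ε * ‖x‖ ≤ σ / 8 * ‖x‖ := mul_le_mul_of_nonneg_right hεs (norm_nonneg _)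
    have h7 : ‖x 0 • (μ.re • a - μ.im • b) + x 1 • (μ.im • a + μ.re • b)‖ ≤ ‖J x‖ + ‖R x‖ := by
      have e3 : x 0 • (μ.re • a - μ.im • b) + x 1 • (μ.im • a + μ.re • b) = J x - R x := by
        rw [e]; abel
      rw [e3]
      exact norm_sub_le _ _
    linarith
  obtain ⟨P, hP, hPn⟩ := NEU.leftInv J (c := 7 / 8 * σ) (by positivity) hlow
  obtain ⟨T, hT⟩ : ∃ T : V n →L[ℝ] V n, T = 1 - R.comp P := ⟨_, rfl⟩
  have hT1 : ‖T - 1‖ ≤ η := by
    have e : T - 1 = -(R.comp P) := by rw [hT]; abel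
    rw [e, norm_neg]
    have h1 : ‖R‖ ≤ ε := R.opNorm_le_bound hε hRn
    calc ‖R.comp P‖ ≤ ‖R‖ * ‖P‖ := ContinuousLinearMap.opNorm_comp_le _ _
      _ ≤ ε * (1 / (7 / 8 * σ)) := mul_le_mul h1 hPn (norm_nonneg _) hε
      _ ≤ η := by
          rw [mul_one_div, div_le_iff₀ (by positivity)]
          nlinarith
  have e0 : J (EuclideanSpace.single 0 1) = D a := by
    rw [hJx]; simp
  have e1 : J (EuclideanSpace.single 1 1) = D b := by
    rw [hJx]; simp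
  have hTa : T (D a) = μ.re • a - μ.im • b := by
    rw [hT, ContinuousLinearMap.sub_apply, ContinuousLinearMap.one_apply,
      ContinuousLinearMap.comp_apply, ← e0, hP, e0, hRx, hra]
    simp
  have hTb : T (D b) = μ.im • a + μ.re • b := by
    rw [hT, ContinuousLinearMap.sub_apply, ContinuousLinearMap.one_apply,
      ContinuousLinearMap.comp_apply, ← e1, hP, e1, hRx, hrb]
    simp
  have hbne : b ≠ 0 := by
    intro h0
    rw [h0, norm_zero] at hσ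
    linarith
  exact h T hT1 μ (eig_of_pair (a := a) (b := b) (Or.inr hbne) hTa hTb) hμ

/-- orthogonal pairs with `‖b‖ ≤ ‖a‖ = 1` -/
theorem resol_core {D : V n →L[ℝ] V n} {η Λ : ℝ} (hη : 0 < η) (hη1 : η ≤ 1) (hΛ : 1 ≤ Λ)
    (hD : ‖D‖ ≤ Λ) (h : Rob D η) {a b : V n} (hab : inner ℝ a b = (0 : ℝ)) (ha : ‖a‖ = 1)
    (hb : ‖b‖ ≤ 1) {μ : ℂ} (hμ : ‖μ‖ = 1) : η ^ 3 / (4096 * Λ ^ 2) ≤
      ‖D a - (μ.re • a - μ.im • b)‖ ^ 2 + ‖D b - (μ.im • a + μ.re • b)‖ ^ 2 := by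
  have hμ2 : μ.re ^ 2 + μ.im ^ 2 = 1 := by
    have := Complex.sq_norm μ
    rw [hμ, Complex.normSq_apply] at this
    linarith
  obtain ⟨ε, hε⟩ : ∃ ε, ε = Real.sqrt
    (‖D a - (μ.re • a - μ.im • b)‖ ^ 2 + ‖D b - (μ.im • a + μ.re • b)‖ ^ 2) := ⟨_, rfl⟩
  have hε0 : 0 ≤ ε := by rw [hε]; exact Real.sqrt_nonneg _
  have hε2 : ε ^ 2 = ‖D a - (μ.re • a - μ.im • b)‖ ^ 2 + ‖D b - (μ.im • a + μ.re • b)‖ ^ 2 := by
    rw [hε]; exact Real.sq_sqrt (by positivity)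
  rw [← hε2]
  obtain ⟨σ, hσ⟩ : ∃ σ, σ = ‖b‖ := ⟨_, rfl⟩
  have hσ0 : 0 ≤ σ := by rw [hσ]; exact norm_nonneg _
  have hΛ2 : (1 : ℝ) ≤ Λ ^ 2 := one_le_pow₀ hΛ
  have hη3 : η ^ 3 ≤ η ^ 2 := pow_le_pow_of_le_one hη.le hη1 (by norm_num)
  rw [div_le_iff₀ (by positivity)]
  by_cases hcase : 8 * ε ≤ η * σ
  · exfalso
    rcases hσ0.eq_or_lt with h0 | h0
    · -- b = 0 and ε = 0
      have hε' : ε = 0 := by
        rw [← h0] at hcase
        linarith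
      have hb0 : b = 0 := by rw [← norm_eq_zero, ← hσ, ← h0]
      have h1 : D a = μ.re • a - μ.im • b := by
        have h2 : ‖D a - (μ.re • a - μ.im • b)‖ ^ 2 ≤ 0 := by
          rw [hε'] at hε2
          nlinarith [sq_nonneg ‖D b - (μ.im • a + μ.re • b)‖]
        have h3 : ‖D a - (μ.re • a - μ.im • b)‖ = 0 := by
          nlinarith [norm_nonneg (D a - (μ.re • a - μ.im • b))]
        exact sub_eq_zero.1 (norm_eq_zero.1 h3)
      have h2 : D b = μ.im • a + μ.re • b := by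
        have h2 : ‖D b - (μ.im • a + μ.re • b)‖ ^ 2 ≤ 0 := by
          rw [hε'] at hε2
          nlinarith [sq_nonneg ‖D a - (μ.re • a - μ.im • b)‖]
        have h3 : ‖D b - (μ.im • a + μ.re • b)‖ = 0 := by
          nlinarith [norm_nonneg (D b - (μ.im • a + μ.re • b))]
        exact sub_eq_zero.1 (norm_eq_zero.1 h3)
      have ha0 : a ≠ 0 := by
        intro h0
        rw [h0, norm_zero] at ha
        norm_num at ha
      refine h 1 (by rw [sub_self, norm_zero]; exact hη.le) μ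
        (eig_of_pair (a := a) (b := b) (Or.inl ha0) ?_ ?_) hμ
      · rw [ContinuousLinearMap.comp_apply, h1]; rfl
      · rw [ContinuousLinearMap.comp_apply, h2]; rfl
    · exact cplx_case hη hη1 h hab (by rw [ha]; exact hb) (by rw [← hσ]; exact h0) hμ hε0 hε2.ge
        (by rw [← hσ]; exact hcase)
  · rw [not_le] at hcase
    by_cases hεbig : η / 20 < ε
    · have h1 : η ^ 2 / 400 ≤ ε ^ 2 := by nlinarith
      nlinarith
    · rw [not_lt] at hεbig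
      -- nearly real eigenvectors
      have hra : ‖D a - (μ.re • a - μ.im • b)‖ ≤ ε := by
        refine (pow_le_pow_iff_left₀ (norm_nonneg _) hε0 two_ne_zero).1 ?_
        rw [hε2]
        nlinarith [sq_nonneg ‖D b - (μ.im • a + μ.re • b)‖]
      have hrb : ‖D b - (μ.im • a + μ.re • b)‖ ≤ ε := by
        refine (pow_le_pow_iff_left₀ (norm_nonneg _) hε0 two_ne_zero).1 ?_
        rw [hε2]
        nlinarith [sq_nonneg ‖D a - (μ.re • a - μ.im • b)‖]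
      obtain ⟨τ, hτ⟩ : ∃ τ, τ = 2 * Λ * σ + ε := ⟨_, rfl⟩
      have hre1 : |μ.re| ≤ 1 := by
        rw [abs_le]
        constructor <;> nlinarith [sq_nonneg μ.im]
      have him : |μ.im| ≤ τ := by
        have e : μ.im • a = D b - μ.re • b - (D b - (μ.im • a + μ.re • b)) := by abel
        have h1 : ‖μ.im • a‖ = |μ.im| := by rw [norm_smul, ha, mul_one, Real.norm_eq_abs]
        rw [← h1, e]
        have h2 : ‖D b‖ ≤ Λ * σ := by
          refine (D.le_opNorm b).trans ?_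
          rw [← hσ]
          exact mul_le_mul_of_nonneg_right hD hσ0
        have h3 : ‖μ.re • b‖ ≤ Λ * σ := by
          rw [norm_smul, Real.norm_eq_abs, ← hσ]
          exact mul_le_mul_of_nonneg_right (hre1.trans hΛ) hσ0
        calc ‖D b - μ.re • b - (D b - (μ.im • a + μ.re • b))‖ ≤
            ‖D b‖ + ‖μ.re • b‖ + ‖D b - (μ.im • a + μ.re • b)‖ := by
              refine (norm_sub_le _ _).trans ?_
              gcongr
              exact norm_sub_le _ _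
          _ ≤ Λ * σ + Λ * σ + ε := by gcongr
          _ = τ := by rw [hτ]; ring
      obtain ⟨s, hs, hss⟩ : ∃ s : ℝ, (s = 1 ∨ s = -1) ∧ |μ.re - s| ≤ μ.im ^ 2 := by
        rcases le_total 0 μ.re with h1 | h1
        · refine ⟨1, Or.inl rfl, ?_⟩
          rw [abs_of_nonpos (by linarith [(abs_le.1 hre1).2])]
          nlinarith [(abs_le.1 hre1).2]
        · refine ⟨-1, Or.inr rfl, ?_⟩
          rw [abs_of_nonneg (by linarith [(abs_le.1 hre1).1])]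
          nlinarith [(abs_le.1 hre1).1]
      have hτ0 : 0 ≤ τ := by rw [hτ]; positivity
      have him2 : μ.im ^ 2 ≤ τ ^ 2 := by
        rw [← sq_abs μ.im]
        exact pow_le_pow_left₀ (abs_nonneg _) him 2
      have hστ : σ ≤ τ := by rw [hτ]; nlinarith
      have hreal := real_case hη hη1 h ha hs
      have hbd : ‖D a - s • a‖ ≤ 2 * τ ^ 2 + ε := by
        have e : D a - s • a = (μ.re - s) • a - μ.im • b + (D a - (μ.re • a - μ.im • b)) := by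
          module
        rw [e]
        calc ‖(μ.re - s) • a - μ.im • b + (D a - (μ.re • a - μ.im • b))‖ ≤
            ‖(μ.re - s) • a‖ + ‖μ.im • b‖ + ‖D a - (μ.re • a - μ.im • b)‖ := by
              refine (norm_add_le _ _).trans ?_
              gcongr
              exact norm_sub_le _ _
          _ ≤ τ ^ 2 + τ * τ + ε := by
              rw [norm_smul, norm_smul, ha, Real.norm_eq_abs, Real.norm_eq_abs, mul_one, ← hσ]
              gcongr
              exact hss.trans him2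
          _ = _ := by ring
      have hτ2 : τ ^ 2 ≤ 8 * Λ ^ 2 * σ ^ 2 + 2 * ε ^ 2 := by
        rw [hτ]
        nlinarith [sq_nonneg (2 * Λ * σ - ε)]
      have hε1 : ε ≤ 1 := by linarith
      have h1 : η / 2 < 16 * Λ ^ 2 * σ ^ 2 + 5 * ε := by nlinarith
      have h2 : η / 4 < 16 * Λ ^ 2 * σ ^ 2 := by linarith
      -- σ < 8 ε / η
      have h3 : (η * σ) ^ 2 ≤ (8 * ε) ^ 2 := pow_le_pow_left₀ (by positivity) hcase.le 2
      have h4 : η ^ 2 * (η / 4) ≤ η ^ 2 * (16 * Λ ^ 2 * σ ^ 2) :=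
        mul_le_mul_of_nonneg_left h2.le (by positivity)
      have h5 : η ^ 2 * (16 * Λ ^ 2 * σ ^ 2) ≤ 16 * Λ ^ 2 * (64 * ε ^ 2) := by
        calc η ^ 2 * (16 * Λ ^ 2 * σ ^ 2) = 16 * Λ ^ 2 * (η * σ) ^ 2 := by ring
          _ ≤ 16 * Λ ^ 2 * (8 * ε) ^ 2 := mul_le_mul_of_nonneg_left h3 (by positivity)
          _ = _ := by ring
      nlinarith

/-- rotation of a pair to an orthogonal one -/
theorem exists_rot (a b : V n) : ∃ φ : ℝ,
    inner ℝ (Real.cos φ • a - Real.sin φ • b) (Real.sin φ • a + Real.cos φ • b) = (0 : ℝ) ∧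
    ‖Real.sin φ • a + Real.cos φ • b‖ ≤ ‖Real.cos φ • a - Real.sin φ • b‖ := by
  obtain ⟨f, hf⟩ : ∃ f : ℝ → ℝ, f = fun φ =>
    inner ℝ (Real.cos φ • a - Real.sin φ • b) (Real.sin φ • a + Real.cos φ • b) := ⟨_, rfl⟩
  have hcont : Continuous f := by
    rw [hf]
    fun_prop
  have h0 : f 0 = inner ℝ a b := by rw [hf]; simp
  have h1 : f (Real.pi / 2) = -inner ℝ a b := by
    rw [hf]
    simp only [Real.cos_pi_div_two, Real.sin_pi_div_two, zero_smul, one_smul, zero_sub, add_zero]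
    rw [inner_neg_left, real_inner_comm]
  obtain ⟨φ, hφ⟩ : ∃ φ, f φ = 0 := by
    have hIVT := mem_range_of_exists_le_of_exists_ge hcont (c := 0)
    rcases le_total 0 (inner ℝ a b : ℝ) with h | h
    · exact hIVT ⟨Real.pi / 2, by rw [h1]; linarith⟩ ⟨0, by rw [h0]; exact h⟩
    · exact hIVT ⟨0, by rw [h0]; exact h⟩ ⟨Real.pi / 2, by rw [h1]; linarith⟩
  rw [hf] at hφ
  simp only at hφ
  by_cases hn : ‖Real.sin φ • a + Real.cos φ • b‖ ≤ ‖Real.cos φ • a - Real.sin φ • b‖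
  · exact ⟨φ, hφ, hn⟩
  · refine ⟨φ + Real.pi / 2, ?_, ?_⟩
    · rw [Real.cos_add_pi_div_two, Real.sin_add_pi_div_two]
      have e1 : -Real.sin φ • a - Real.cos φ • b = -(Real.sin φ • a + Real.cos φ • b) := by module
      have e2 : Real.cos φ • a + -Real.sin φ • b = Real.cos φ • a - Real.sin φ • b := by module
      rw [e1, e2, inner_neg_left, real_inner_comm, hφ, neg_zero]
    · rw [Real.cos_add_pi_div_two, Real.sin_add_pi_div_two]
      have e1 : -Real.sin φ • a - Real.cos φ • b = -(Real.sin φ • a + Real.cos φ • b) := by module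
      have e2 : Real.cos φ • a + -Real.sin φ • b = Real.cos φ • a - Real.sin φ • b := by module
      rw [e1, e2, norm_neg]
      exact (not_le.1 hn).le

theorem rot_sq (φ : ℝ) (p q : V n) : ‖Real.cos φ • p - Real.sin φ • q‖ ^ 2 +
    ‖Real.sin φ • p + Real.cos φ • q‖ ^ 2 = ‖p‖ ^ 2 + ‖q‖ ^ 2 := by
  rw [@norm_add_sq ℝ, @norm_sub_sq ℝ, inner_smul_left, inner_smul_right, inner_smul_left,
    inner_smul_right]
  simp only [norm_smul, Real.norm_eq_abs, mul_pow, sq_abs]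
  simp only [conj_trivial, RCLike.re_to_real]
  have := Real.sin_sq_add_cos_sq φ
  linear_combination (‖p‖ ^ 2 + ‖q‖ ^ 2) * this

/-- the resolvent bound -/
theorem resol_of_rob {D : V n →L[ℝ] V n} {η Λ : ℝ} (hη : 0 < η) (hη1 : η ≤ 1) (hΛ : 1 ≤ Λ)
    (hD : ‖D‖ ≤ Λ) (h : Rob D η) : Resol D (η ^ 3 / (8192 * Λ ^ 2)) := by
  intro μ hμ a₀ b₀
  obtain ⟨φ, hφ1, hφ2⟩ := exists_rot a₀ b₀
  obtain ⟨a, ha⟩ : ∃ a, a = Real.cos φ • a₀ - Real.sin φ • b₀ := ⟨_, rfl⟩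
  obtain ⟨b, hb⟩ : ∃ b, b = Real.sin φ • a₀ + Real.cos φ • b₀ := ⟨_, rfl⟩
  rw [← ha, ← hb] at hφ1 hφ2
  have e1 : ‖a₀‖ ^ 2 + ‖b₀‖ ^ 2 = ‖a‖ ^ 2 + ‖b‖ ^ 2 := by rw [ha, hb, rot_sq]
  have e2 : ‖D a₀ - (μ.re • a₀ - μ.im • b₀)‖ ^ 2 + ‖D b₀ - (μ.im • a₀ + μ.re • b₀)‖ ^ 2 =
      ‖D a - (μ.re • a - μ.im • b)‖ ^ 2 + ‖D b - (μ.im • a + μ.re • b)‖ ^ 2 := by
    rw [← rot_sq φ (D a₀ - (μ.re • a₀ - μ.im • b₀))]
    congr 3
    · rw [ha, hb, map_sub, D.map_smul, D.map_smul]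
      module
    · rw [ha, hb, map_add, D.map_smul, D.map_smul]
      module
  rw [e1, e2]
  obtain ⟨A, hA⟩ : ∃ A, A = ‖a‖ := ⟨_, rfl⟩
  rcases (norm_nonneg a).eq_or_lt with h0 | h0
  · have hb0 : ‖b‖ = 0 := le_antisymm (by rw [h0]; exact hφ2) (norm_nonneg _)
    rw [← h0, hb0]
    simp only [ne_eq, OfNat.ofNat_ne_zero, not_false_eq_true, zero_pow, add_zero, mul_zero]
    positivity
  · rw [← hA] at h0 hφ2
    have hAi : 0 < A⁻¹ := by positivity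
    have h1 := resol_core (a := A⁻¹ • a) (b := A⁻¹ • b) hη hη1 hΛ hD h (by
      rw [inner_smul_left, inner_smul_right, hφ1, mul_zero, mul_zero]) (by
      rw [norm_smul, ← hA, Real.norm_of_nonneg hAi.le, inv_mul_cancel₀ h0.ne']) (by
      rw [norm_smul, Real.norm_of_nonneg hAi.le, inv_mul_le_iff₀ h0, mul_one]
      exact hφ2) hμ
    have e3 : D (A⁻¹ • a) - (μ.re • A⁻¹ • a - μ.im • A⁻¹ • b) =
        A⁻¹ • (D a - (μ.re • a - μ.im • b)) := by rw [D.map_smul]; module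
    have e4 : D (A⁻¹ • b) - (μ.im • A⁻¹ • a + μ.re • A⁻¹ • b) =
        A⁻¹ • (D b - (μ.im • a + μ.re • b)) := by rw [D.map_smul]; module
    rw [e3, e4, norm_smul, norm_smul, mul_pow, mul_pow, ← mul_add, Real.norm_of_nonneg hAi.le] at h1
    have h2 : A ^ 2 * (η ^ 3 / (4096 * Λ ^ 2)) ≤
        ‖D a - (μ.re • a - μ.im • b)‖ ^ 2 + ‖D b - (μ.im • a + μ.re • b)‖ ^ 2 := by
      have h3 := mul_le_mul_of_nonneg_left h1 (show 0 ≤ A ^ 2 by positivity)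
      rwa [← mul_assoc, ← mul_pow, mul_inv_cancel₀ h0.ne', one_pow, one_mul] at h3
    refine le_trans ?_ h2
    have h4 : ‖a‖ ^ 2 + ‖b‖ ^ 2 ≤ 2 * A ^ 2 := by
      rw [← hA]
      nlinarith [norm_nonneg b]
    calc η ^ 3 / (8192 * Λ ^ 2) * (‖a‖ ^ 2 + ‖b‖ ^ 2) ≤ η ^ 3 / (8192 * Λ ^ 2) * (2 * A ^ 2) :=
          mul_le_mul_of_nonneg_left h4 (by positivity)
      _ = A ^ 2 * (η ^ 3 / (4096 * Λ ^ 2)) := by
          field_simp
          ring

end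

end Pool.Agent.U882.RS
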